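import Pool.Agent.V7H54.A.Iso
import Pool.Agent.N783.PF.Final

/-!
# Reduced bases with an antidiagonal Gram matrix
-/

set_option autoImplicit false
set_option linter.all false

open Polynomial Matrix NumberField
open scoped Classical

namespace Pool.Agent.V7H54.A

open Pool.Agent.N783.PQ (chp)
open Pool.Agent.N783.PF
open Pool.Agent.N352.PJ (Mt Typ)

/-- the bilinear form -/
def bf (G : Matrix (Fin 3) (Fin 3) ℤ) (n m : Fin 3 → ℤ) : ℤ := ∑ i, ∑ j, n i * m j * G i j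

theorem bf_eq (G : Matrix (Fin 3) (Fin 3) ℤ) (n m : Fin 3 → ℤ) : bf G n m =
    n 0 * m 0 * G 0 0 + n 0 * m 1 * G 0 1 + n 0 * m 2 * G 0 2 +
    (n 1 * m 0 * G 1 0 + n 1 * m 1 * G 1 1 + n 1 * m 2 * G 1 2) +
    (n 2 * m 0 * G 2 0 + n 2 * m 1 * G 2 1 + n 2 * m 2 * G 2 2) := by
  unfold bf
  simp only [Fin.sum_univ_three]

/-- an isotropic vector gives an antidiagonal form -/
theorem anti (G : Matrix (Fin 3) (Fin 3) ℤ) (hs : ∀ i j, G i j = G j i) (hdet : G.det ≠ 0)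
    {v : Fin 3 → ℤ} (hv : v ≠ 0) (hiso : bf G v v = 0) :
    ∃ (u w : Fin 3 → ℤ) (P r : ℤ), P ≠ 0 ∧ r ≠ 0 ∧ bf G v u = 0 ∧ bf G v w = P ∧ bf G u u = r ∧
      bf G u w = 0 ∧ bf G w w = 0 := by
  have hne : v ᵥ* G ≠ 0 := by
    intro h0
    apply hv
    exact Matrix.eq_zero_of_vecMul_eq_zero hdet h0
  obtain ⟨i, hi⟩ := Function.ne_iff.1 hne
  rw [Pi.zero_apply] at hi
  obtain ⟨y, hy⟩ : ∃ y : Fin 3 → ℤ, bf G v y ≠ 0 := by
    refine ⟨Pi.single i 1, ?_⟩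
    have : bf G v (Pi.single i 1) = (v ᵥ* G) i := by
      unfold bf
      rw [Matrix.vecMul, dotProduct]
      refine Finset.sum_congr rfl fun k _ => ?_
      rw [Finset.sum_eq_single i]
      · rw [Pi.single_eq_same, mul_one]
      · intro j _ hj
        rw [Pi.single_eq_of_ne hj]
        ring
      · intro h
        exact absurd (Finset.mem_univ _) h
    rw [this]
    exact hi
  obtain ⟨p, hp⟩ : ∃ p, p = bf G v y := ⟨_, rfl⟩
  obtain ⟨q, hq⟩ : ∃ q, q = bf G y y := ⟨_, rfl⟩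
  obtain ⟨w, hw⟩ : ∃ w : Fin 3 → ℤ, w = fun i => 2 * p * y i - q * v i := ⟨_, rfl⟩
  have hvw : bf G v w = 2 * p ^ 2 := by
    have : bf G v w = 2 * p * bf G v y - q * bf G v v := by
      simp only [bf_eq, hw]
      ring
    rw [this, hiso, ← hp]
    ring
  have hww : bf G w w = 0 := by
    have : bf G w w = 4 * p ^ 2 * bf G y y - 4 * p * q * bf G v y + q ^ 2 * bf G v v := by
      simp only [bf_eq, hw]
      rw [hs 1 0, hs 2 0, hs 2 1]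
      ring
    rw [this, hiso, ← hp, ← hq]
    ring
  have hp0 : p ≠ 0 := by rw [hp]; exact hy
  obtain ⟨a, ha⟩ : ∃ a : Fin 3 → ℤ, a = fun i => ∑ j, G i j * v j := ⟨_, rfl⟩
  obtain ⟨b, hb⟩ : ∃ b : Fin 3 → ℤ, b = fun i => ∑ j, G i j * w j := ⟨_, rfl⟩
  obtain ⟨u, hu⟩ : ∃ u : Fin 3 → ℤ, u = ![a 1 * b 2 - a 2 * b 1, a 2 * b 0 - a 0 * b 2,
    a 0 * b 1 - a 1 * b 0] := ⟨_, rfl⟩
  have u0 : u 0 = a 1 * b 2 - a 2 * b 1 := by rw [hu]; rfl
  have u1 : u 1 = a 2 * b 0 - a 0 * b 2 := by rw [hu]; rfl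
  have u2 : u 2 = a 0 * b 1 - a 1 * b 0 := by rw [hu]; rfl
  have hua : bf G v u = 0 := by
    have e : bf G v u = u 0 * a 0 + u 1 * a 1 + u 2 * a 2 := by
      rw [bf_eq, ha]
      simp only [Fin.sum_univ_three]
      rw [hs 1 0, hs 2 0, hs 2 1]
      ring
    rw [e, u0, u1, u2]
    ring
  have hub : bf G u w = 0 := by
    have e : bf G u w = u 0 * b 0 + u 1 * b 1 + u 2 * b 2 := by
      rw [bf_eq, hb]
      simp only [Fin.sum_univ_three]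
      ring
    rw [e, u0, u1, u2]
    ring
  have huu : bf G u u = G.det * (bf G v v * bf G w w - bf G v w ^ 2) := by
    rw [Matrix.det_fin_three]
    simp only [bf_eq]
    rw [u0, u1, u2, ha, hb]
    simp only [Fin.sum_univ_three]
    rw [hs 1 0, hs 2 0, hs 2 1]
    ring
  refine ⟨u, w, 2 * p ^ 2, bf G u u, by positivity, ?_, hua, hvw, rfl, hub, hww⟩
  rw [huu, hiso, hvw]
  have : G.det * (0 * bf G w w - (2 * p ^ 2) ^ 2) = -(G.det * (4 * p ^ 4)) := by ring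
  rw [this]
  exact neg_ne_zero.2 (mul_ne_zero hdet (by positivity))

section lat

variable {L : Type} [Field L] [NumberField L] [Algebra ℚ L] {A t : ℤ} {θ : L}
  {α : L} {Λ : Submodule (𝓞 ℚ) L}

/-- integral combination -/
def vec (e : Fin 3 → L) (n : Fin 3 → ℤ) : L := ∑ i, (n i : L) * e i

theorem vec_mem {e : Fin 3 → L} (he : ∀ i, e i ∈ Λ) (n : Fin 3 → ℤ) : vec e n ∈ Λ :=
  Λ.sum_mem fun i _ => zmem (he i) (n i)

theorem top_vec (hG : IsGen 1 (pol A t) θ) {e : Fin 3 → L} {G : Matrix (Fin 3) (Fin 3) ℤ}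
    (hGG : ∀ i j, (G i j : ℚ) = hG.top (e i * e j / α)) (n m : Fin 3 → ℤ) :
    ((bf G n m : ℤ) : ℚ) = hG.top (vec e n * vec e m / α) := by
  have e1 : vec e n * vec e m / α = ∑ i, ∑ j, ((n i * m j : ℤ) : L) * (e i * e j / α) := by
    unfold vec
    rw [Finset.sum_mul, Finset.sum_div]
    refine Finset.sum_congr rfl fun i _ => ?_
    rw [Finset.mul_sum, Finset.sum_div]
    refine Finset.sum_congr rfl fun j _ => ?_
    push_cast
    ring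
  rw [e1, map_sum]
  unfold bf
  push_cast
  refine Finset.sum_congr rfl fun i _ => ?_
  rw [map_sum]
  refine Finset.sum_congr rfl fun j _ => ?_
  have := top_int hG (n i * m j) (e i * e j / α)
  push_cast at this
  rw [this, ← hGG]

theorem HH_nonneg' (f : (𝓞 ℚ)[X]) (θ α x : L) : 0 ≤ HH f θ α x := by
  unfold HH
  exact Finset.sum_nonneg fun τ _ => by positivity

theorem HH_add (f : (𝓞 ℚ)[X]) (θ α x y : L) :
    HH f θ α (x + y) ≤ 2 * HH f θ α x + 2 * HH f θ α y := by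
  unfold HH
  rw [Finset.mul_sum, Finset.mul_sum, ← Finset.sum_add_distrib]
  refine Finset.sum_le_sum fun τ _ => ?_
  have h1 : ‖τ (x + y)‖ ^ 2 ≤ 2 * ‖τ x‖ ^ 2 + 2 * ‖τ y‖ ^ 2 := by
    have h2 : ‖τ (x + y)‖ ≤ ‖τ x‖ + ‖τ y‖ := by
      rw [map_add]
      exact norm_add_le _ _
    nlinarith [sq_nonneg (‖τ x‖ - ‖τ y‖), norm_nonneg (τ (x + y))]
  calc ‖τ (x + y)‖ ^ 2 / ‖τ (α * aeval θ (derivative (fF f)))‖
      ≤ (2 * ‖τ x‖ ^ 2 + 2 * ‖τ y‖ ^ 2) / ‖τ (α * aeval θ (derivative (fF f)))‖ := by gcongr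
    _ = _ := by ring

theorem HH_int (f : (𝓞 ℚ)[X]) (θ α x : L) (n : ℤ) :
    HH f θ α ((n : L) * x) = (n : ℝ) ^ 2 * HH f θ α x := by
  unfold HH
  rw [Finset.mul_sum]
  refine Finset.sum_congr rfl fun τ _ => ?_
  rw [map_mul, map_intCast, norm_mul, Complex.norm_intCast, mul_pow, sq_abs, mul_div_assoc]

theorem HH_vec (f : (𝓞 ℚ)[X]) (θ α : L) (e : Fin 3 → L) (n : Fin 3 → ℤ) :
    HH f θ α (vec e n) ≤ 4 * ((n 0 : ℝ) ^ 2 * HH f θ α (e 0) + (n 1 : ℝ) ^ 2 * HH f θ α (e 1) +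
      (n 2 : ℝ) ^ 2 * HH f θ α (e 2)) := by
  unfold vec
  rw [Fin.sum_univ_three]
  have h1 := HH_add f θ α ((n 0 : L) * e 0 + (n 1 : L) * e 1) ((n 2 : L) * e 2)
  have h2 := HH_add f θ α ((n 0 : L) * e 0) ((n 1 : L) * e 1)
  rw [HH_int, HH_int] at h2
  rw [HH_int] at h1
  have h3 : 0 ≤ (n 2 : ℝ) ^ 2 * HH f θ α (e 2) := mul_nonneg (sq_nonneg _) (HH_nonneg' _ _ _ _)
  linarith

/-- the form of the pairs in normal form -/
def am (P r : ℤ) : Matrix (Fin 3) (Fin 3) ℤ := !![0, 0, P; 0, r, 0; P, 0, 0]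

/-- reduced vectors with an antidiagonal Gram matrix -/
structure Bas (hG : IsGen 1 (pol A t) θ) (α : L) (Λ : Submodule (𝓞 ℚ) L) (P r : ℤ) (D : ℝ) (k : ℕ)
    (g : Fin 3 → L) : Prop where
  mem : ∀ i, g i ∈ Λ
  gram : ∀ i j, ((am P r i j : ℤ) : ℚ) = hG.top (g i * g j / α)
  P0 : P ≠ 0
  r0 : r ≠ 0
  Pb : |(P : ℝ)| ≤ D
  rb : |(r : ℝ)| ≤ D
  h0 : HH (pol A t) θ α (g 0) * 4 ^ k ≤ D
  h1 : HH (pol A t) θ α (g 1) ≤ D
  h2 : HH (pol A t) θ α (g 2) ≤ D * 4 ^ k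

/-- the Gram matrix over the integers -/
theorem gram (hG : IsGen 1 (pol A t) θ) (hα : α ≠ 0) (hN : IsSquare (Algebra.norm ℚ α))
    (hL : Lat hG α Λ) {e : Fin 3 → L} (he : ∀ i, e i ∈ Λ) (hli : LinearIndependent ℚ e) :
    ∃ G : Matrix (Fin 3) (Fin 3) ℤ, (∀ i j, (G i j : ℚ) = hG.top (e i * e j / α)) ∧
      (∀ i j, G i j = G j i) ∧ ∃ x : ℤ, x ≠ 0 ∧ G.det = -x ^ 2 := by
  have hch : ∀ i j, ∃ n : ℤ, (n : ℚ) = hG.top (e i * e j / α) := fun i j =>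
    exists_int hG hL (he i) (he j)
  choose G hGG using hch
  refine ⟨Matrix.of G, hGG, ?_, ?_⟩
  · intro i j
    have : ((G i j : ℤ) : ℚ) = ((G j i : ℤ) : ℚ) := by rw [hGG, hGG, mul_comm]
    exact_mod_cast this
  obtain ⟨A', B', hGr, -, -, hdet0, -, -, hdet, -⟩ := Pool.Agent.N614.PF.chi 1 ℚ L (pol A t) θ hG α Λ e
    (pol_c2 A t) hα hL he hli
  obtain ⟨x, hx0, hx⟩ := hdet hN
  obtain ⟨n, hn⟩ := okq x
  have hA' : A' = (Matrix.of G).map (Int.castRingHom (𝓞 ℚ)) := by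
    ext i j
    rw [hGr.gA i j, ← hGG i j]
    simp
  have hdetG : ((Matrix.of G).det : 𝓞 ℚ) = -(n : 𝓞 ℚ) ^ 2 := by
    have h1 := RingHom.map_det (Int.castRingHom (𝓞 ℚ)) (Matrix.of G)
    rw [RingHom.mapMatrix_apply, ← hA', hx, ← hn] at h1
    rw [eq_intCast] at h1
    rw [h1]
    ring
  refine ⟨n, ?_, by exact_mod_cast hdetG⟩
  rintro rfl
  apply hx0
  rw [← hn]
  simp

theorem norm_rat (σ : ℚ →+* ℂ) (q : ℚ) : ‖σ q‖ = |(q : ℝ)| := by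
  rw [eq_ratCast, ← Complex.ofReal_ratCast, Complex.norm_real, Real.norm_eq_abs]

/-- size of the entries -/
theorem maj1 {B : ℕ} (hG : IsGen 1 (pol A t) θ) (hH : Ht 1 B (pol A t)) (hα : α ≠ 0) (m : ℕ)
    (x y : L) {n : ℤ} (hn : (n : ℚ) = hG.top (θ ^ m * (x * y) / α)) :
    (n : ℝ) ^ 2 ≤ (2 * B : ℝ) ^ (2 * m) * (HH (pol A t) θ α x * HH (pol A t) θ α y) := by
  obtain ⟨h1, -⟩ := Pool.Agent.N707.PF.MAJ.maj 1 B ℚ L (pol A t) θ le_rfl hG hH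
  have h2 := h1 α hα (algebraMap ℚ ℂ) m x y
  rw [norm_rat, ← hn, sq_abs] at h2
  exact_mod_cast h2

end lat

end Pool.Agent.V7H54.A
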