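import Pool.Agent.V7H54.A.Ba

/-!
# Reduced bases with an antidiagonal Gram matrix: existence
-/

set_option autoImplicit false
set_option linter.all false

open Polynomial Matrix NumberField
open scoped Classical

namespace Pool.Agent.V7H54.A

open Pool.Agent.N783.PQ (chp)
open Pool.Agent.N783.PF
open Pool.Agent.N352.PJ (Mt Typ)

/-- the condition on the basis change -/
def Nrm (G : Matrix (Fin 3) (Fin 3) ℤ) (D : ℕ) : Prop :=
  ∃ (v u w : Fin 3 → ℤ) (P r : ℤ), P ≠ 0 ∧ r ≠ 0 ∧ bf G v v = 0 ∧ bf G v u = 0 ∧ bf G v w = P ∧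
    bf G u u = r ∧ bf G u w = 0 ∧ bf G w w = 0 ∧ |P| ≤ D ∧ |r| ≤ D ∧
    ∀ i, |v i| ≤ D ∧ |u i| ≤ D ∧ |w i| ≤ D

theorem Nrm.mono {G : Matrix (Fin 3) (Fin 3) ℤ} {D D' : ℕ} (h : D ≤ D') (hN : Nrm G D) :
    Nrm G D' := by
  have h' : (D : ℤ) ≤ D' := by exact_mod_cast h
  obtain ⟨v, u, w, P, r, a1, a2, a3, a4, a5, a6, a7, a8, a9, a10, a11⟩ := hN
  exact ⟨v, u, w, P, r, a1, a2, a3, a4, a5, a6, a7, a8, a9.trans h', a10.trans h',
    fun i => ⟨(a11 i).1.trans h', (a11 i).2.1.trans h', (a11 i).2.2.trans h'⟩⟩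

theorem small (H : ℕ) : ∃ D : ℕ, ∀ G : Matrix (Fin 3) (Fin 3) ℤ, (∀ i j, |G i j| ≤ H) →
    (∀ i j, G i j = G j i) → G.det ≠ 0 → (∃ v : Fin 3 → ℤ, v ≠ 0 ∧ bf G v v = 0) → Nrm G D := by
  have hch : ∀ G : Matrix (Fin 3) (Fin 3) ℤ, ∃ D : ℕ, (∀ i j, G i j = G j i) → G.det ≠ 0 →
      (∃ v : Fin 3 → ℤ, v ≠ 0 ∧ bf G v v = 0) → Nrm G D := by
    intro G
    by_cases h : (∀ i j, G i j = G j i) ∧ G.det ≠ 0 ∧ ∃ v : Fin 3 → ℤ, v ≠ 0 ∧ bf G v v = 0
    · obtain ⟨h1, h2, v, hv, hiso⟩ := h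
      obtain ⟨u, w, P, r, a1, a2, a3, a4, a5, a6, a7⟩ := anti G h1 h2 hv hiso
      refine ⟨P.natAbs + r.natAbs + ∑ i, ((v i).natAbs + (u i).natAbs + (w i).natAbs),
        fun _ _ _ => ⟨v, u, w, P, r, a1, a2, hiso, a3, a4, a5, a6, a7, ?_, ?_, fun i => ?_⟩⟩
      · rw [Int.abs_eq_natAbs]
        exact_mod_cast (by omega : P.natAbs ≤ P.natAbs + r.natAbs + _)
      · rw [Int.abs_eq_natAbs]
        exact_mod_cast (by omega : r.natAbs ≤ P.natAbs + r.natAbs + _)
      · have h3 : (v i).natAbs + (u i).natAbs + (w i).natAbs ≤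
            ∑ i, ((v i).natAbs + (u i).natAbs + (w i).natAbs) :=
          Finset.single_le_sum (f := fun i => (v i).natAbs + (u i).natAbs + (w i).natAbs)
            (fun _ _ => Nat.zero_le _) (Finset.mem_univ i)
        rw [Int.abs_eq_natAbs, Int.abs_eq_natAbs, Int.abs_eq_natAbs]
        refine ⟨?_, ?_, ?_⟩
        · exact_mod_cast (by omega : (v i).natAbs ≤ _)
        · exact_mod_cast (by omega : (u i).natAbs ≤ _)
        · exact_mod_cast (by omega : (w i).natAbs ≤ _)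
    · exact ⟨0, fun h1 h2 h3 => absurd ⟨h1, h2, h3⟩ h⟩
  choose D hD using hch
  obtain ⟨s, hs⟩ : ∃ s : Finset (Fin 3 → Fin 3 → ℤ), s = Fintype.piFinset fun _ =>
    Fintype.piFinset fun _ => Finset.Icc (-(H : ℤ)) H := ⟨_, rfl⟩
  refine ⟨∑ G ∈ s, D (Matrix.of G), fun G hG h1 h2 h3 => ?_⟩
  refine (hD G h1 h2 h3).mono ?_
  have hGs : (fun i j => G i j) ∈ s := by
    rw [hs, Fintype.mem_piFinset]
    intro i
    rw [Fintype.mem_piFinset]
    intro j
    rw [Finset.mem_Icc]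
    exact abs_le.1 (hG i j)
  exact Finset.single_le_sum (f := fun G : Fin 3 → Fin 3 → ℤ => D (Matrix.of G))
    (fun _ _ => Nat.zero_le _) hGs

section lat

variable {L : Type} [Field L] [NumberField L] [Algebra ℚ L] {A t : ℤ} {θ : L}
  {α : L} {Λ : Submodule (𝓞 ℚ) L}

/-- from the basis change to the reduced vectors -/
theorem bas_of (hG : IsGen 1 (pol A t) θ) {e : Fin 3 → L} (he : ∀ i, e i ∈ Λ)
    {G : Matrix (Fin 3) (Fin 3) ℤ} (hGG : ∀ i j, (G i j : ℚ) = hG.top (e i * e j / α))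
    {v u w : Fin 3 → ℤ} {P r : ℤ} (hP : P ≠ 0) (hr : r ≠ 0) (h1 : bf G v v = 0)
    (h2 : bf G v u = 0) (h3 : bf G v w = P) (h4 : bf G u u = r) (h5 : bf G u w = 0)
    (h6 : bf G w w = 0) {D : ℝ} {k : ℕ} (hPD : |(P : ℝ)| ≤ D) (hrD : |(r : ℝ)| ≤ D)
    (a0 : HH (pol A t) θ α (vec e v) * 4 ^ k ≤ D) (a1 : HH (pol A t) θ α (vec e u) ≤ D)
    (a2 : HH (pol A t) θ α (vec e w) ≤ D * 4 ^ k) :
    Bas hG α Λ P r D k ![vec e v, vec e u, vec e w] := by
  refine ⟨fun i => ?_, fun i j => ?_, hP, hr, hPD, hrD, a0, a1, a2⟩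
  · fin_cases i
    · exact vec_mem he v
    · exact vec_mem he u
    · exact vec_mem he w
  · have k1 := top_vec hG hGG v v
    have k2 := top_vec hG hGG v u
    have k3 := top_vec hG hGG v w
    have k4 := top_vec hG hGG u u
    have k5 := top_vec hG hGG u w
    have k6 := top_vec hG hGG w w
    rw [h1] at k1
    rw [h2] at k2
    rw [h3] at k3
    rw [h4] at k4
    rw [h5] at k5
    rw [h6] at k6
    fin_cases i <;> fin_cases j
    · exact k1
    · exact k2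
    · exact k3
    · exact k2.trans (by rw [mul_comm]; rfl)
    · exact k4
    · exact k5
    · exact k3.trans (by rw [mul_comm]; rfl)
    · exact k5.trans (by rw [mul_comm]; rfl)
    · exact k6

/-- a rational isotropic vector gives an integral isotropic vector for the Gram matrix -/
theorem iso_gram (hG : IsGen 1 (pol A t) θ) {e : Fin 3 → L} (hli : LinearIndependent ℚ e)
    {G : Matrix (Fin 3) (Fin 3) ℤ} (hGG : ∀ i j, (G i j : ℚ) = hG.top (e i * e j / α))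
    {x : L} (hx0 : x ≠ 0) (hx : hG.top (x * x / α) = 0) :
    ∃ v : Fin 3 → ℤ, v ≠ 0 ∧ bf G v v = 0 := by
  have hfin : FiniteDimensional ℚ L := FiniteDimensional.of_finrank_pos (by rw [hG.rank]; omega)
  have hcard : Fintype.card (Fin 3) = Module.finrank ℚ L := by
    rw [hG.rank, Fintype.card_fin]
  have hspan : Submodule.span ℚ (Set.range e) = ⊤ :=
    hli.span_eq_top_of_card_eq_finrank' hcard
  have hxs : x ∈ Submodule.span ℚ (Set.range e) := by rw [hspan]; trivial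
  obtain ⟨c, hc⟩ := (Submodule.mem_span_range_iff_exists_fun ℚ).1 hxs
  obtain ⟨m, hm⟩ : ∃ m : ℤ, m = ∏ i, ((c i).den : ℤ) := ⟨_, rfl⟩
  have hm0 : m ≠ 0 := by
    rw [hm, Finset.prod_ne_zero_iff]
    intro i _
    exact_mod_cast (c i).den_ne_zero
  have hv : ∀ i, ∃ n : ℤ, (n : ℚ) = m * c i := by
    intro i
    have h1 : ((c i).den : ℤ) ∣ m := by
      rw [hm]
      exact Finset.dvd_prod_of_mem (fun i => ((c i).den : ℤ)) (Finset.mem_univ i)
    obtain ⟨m', hm'⟩ := h1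
    refine ⟨m' * (c i).num, ?_⟩
    rw [hm']
    push_cast
    have h2 := Rat.den_mul_eq_num (c i)
    linear_combination (-(m' : ℚ)) * h2
  choose v hv using hv
  have hvec : vec e v = (m : L) * x := by
    rw [← hc]
    unfold vec
    rw [Finset.mul_sum]
    refine Finset.sum_congr rfl fun i _ => ?_
    rw [Algebra.smul_def, ← mul_assoc]
    congr 1
    have := congrArg (algebraMap ℚ L) (hv i)
    simpa using this
  have hvx : vec e v ≠ 0 := by
    rw [hvec]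
    exact mul_ne_zero (by exact_mod_cast hm0) hx0
  refine ⟨v, ?_, ?_⟩
  · rintro rfl
    apply hvx
    unfold vec
    simp
  · have h1 := top_vec hG hGG v v
    rw [hvec] at h1
    have h2 : (m : L) * x * ((m : L) * x) / α = ((m ^ 2 : ℤ) : L) * (x * x / α) := by
      push_cast
      ring
    rw [h2, top_int, hx, mul_zero] at h1
    exact_mod_cast h1

end lat

end Pool.Agent.V7H54.A
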