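import Pool.Agent.V7H54.A.Bb

/-!
# Reduced bases with an antidiagonal Gram matrix: the theorem
-/

set_option autoImplicit false
set_option linter.all false

open Polynomial Matrix NumberField
open scoped Classical

namespace Pool.Agent.V7H54.A

open Pool.Agent.N783.PQ (chp)
open Pool.Agent.N783.PF
open Pool.Agent.N352.PJ (Mt Typ)

theorem abs_of_sq {n : ℤ} {R : ℝ} (hR : 0 ≤ R) (h : (n : ℝ) ^ 2 ≤ R ^ 2) : |(n : ℝ)| ≤ R :=
  abs_le_of_sq_le_sq h hR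

theorem sq_of_abs {n : ℤ} {R : ℝ} (h : |(n : ℝ)| ≤ R) : (n : ℝ) ^ 2 ≤ R ^ 2 := by
  have := pow_le_pow_left₀ (abs_nonneg _) h 2
  rwa [sq_abs] at this

theorem zero_of_sq {n : ℤ} {R : ℝ} (hR : 0 < R) (h : (n : ℝ) ^ 2 * R < R) : n = 0 := by
  by_contra hn
  have h1 : (1 : ℝ) ≤ (n : ℝ) ^ 2 := by
    have : 1 ≤ n ^ 2 := by
      have := Int.one_le_abs hn
      nlinarith [sq_abs n]
    exact_mod_cast this
  nlinarith

theorem bas : ∃ D : ℕ, 1 ≤ D ∧ ∀ (L : Type) [Field L] [NumberField L] [Algebra ℚ L] (A t : ℤ)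
    (B : ℕ) (θ : L) (hG : IsGen 1 (pol A t) θ) (α : L) (Λ : Submodule (𝓞 ℚ) L), 0 < A →
    Ht 1 B (pol A t) → α ≠ 0 → IsSquare (Algebra.norm ℚ α) → Lat hG α Λ →
    ∃ (P r : ℤ) (k : ℕ) (g : Fin 3 → L), Bas hG α Λ P r D k g := by
  obtain ⟨C, hC⟩ := Pool.Agent.N783.PF.typ 1 ℚ
  obtain ⟨H, hH⟩ : ∃ H : ℕ, H = 4 ^ C := ⟨_, rfl⟩
  obtain ⟨D₂, hD₂⟩ := small (H ^ 3)
  obtain ⟨D, hD⟩ : ∃ D : ℕ, D = 48 * H ^ 5 + 12 * D₂ ^ 2 * H ^ 3 + D₂ + 1 := ⟨_, rfl⟩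
  refine ⟨D, by omega, fun L _ _ _ A t B θ hG α Λ hA hHt hα hN hL => ?_⟩
  obtain ⟨e, w, he, hli, hT, hw⟩ := hC le_rfl B L (pol A t) θ hG α Λ hHt hα hL
  obtain ⟨G, hGG, hs, x, hx0, hdet⟩ := gram hG hα hN hL he hli
  have hw1 : w 1 = 0 := by
    have h := hT.anti 1
    have e1 : Fin.rev (1 : Fin (2 * 1 + 1)) = 1 := by decide
    rw [e1] at h
    omega
  have hw2 : w 2 = -w 0 := by
    have h := hT.anti 0
    have e1 : Fin.rev (0 : Fin (2 * 1 + 1)) = 2 := by decide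
    rw [e1] at h
    exact h
  have hw20 : 0 ≤ w 2 := by
    have h : w 0 ≤ w 2 := hT.mono (by decide)
    omega
  obtain ⟨k, hk⟩ : ∃ k : ℕ, (k : ℤ) = w 2 := ⟨(w 2).toNat, Int.toNat_of_nonneg hw20⟩
  have hHr : (H : ℝ) = 4 ^ C := by rw [hH]; push_cast; rfl
  have hH1 : (1 : ℝ) ≤ H := by rw [hHr]; exact one_le_pow₀ (by norm_num)
  have hH0 : (0 : ℝ) < H := by linarith
  obtain ⟨y, hy⟩ : ∃ y : ℝ, y = 2 ^ k := ⟨_, rfl⟩
  have hy1 : 1 ≤ y := by rw [hy]; exact one_le_pow₀ (by norm_num)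
  have hy0 : 0 < y := by linarith
  have hy4 : (4 : ℝ) ^ k = y ^ 2 := by
    rw [hy, ← pow_mul, mul_comm, pow_mul]
    norm_num
  obtain ⟨q, hq⟩ : ∃ q : Fin 3 → ℝ, q = fun i => HH (pol A t) θ α (e i) := ⟨_, rfl⟩
  have hqi : ∀ i, HH (pol A t) θ α (e i) = q i := fun i => by rw [hq]
  have hq0 : ∀ i, 0 ≤ q i := fun i => by rw [← hqi]; exact HH_nonneg' _ _ _ _
  have b0 : q 0 * y ^ 2 ≤ H := by
    have h := hw 0
    rw [hqi] at h
    have e1 : w 0 = -(k : ℤ) := by omega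
    rw [e1, zpow_add₀ (by norm_num), zpow_natCast, _root_.zpow_neg, zpow_natCast, ← hHr, hy4] at h
    calc q 0 * y ^ 2 ≤ (H : ℝ) * (y ^ 2)⁻¹ * y ^ 2 := by gcongr
      _ = (H : ℝ) := by field_simp
  have b1 : q 1 ≤ H := by
    have h := hw 1
    rw [hqi, hw1, add_zero, zpow_natCast, ← hHr] at h
    exact h
  have b2 : q 2 ≤ H * y ^ 2 := by
    have h := hw 2
    rw [hqi, ← hk, zpow_add₀ (by norm_num), zpow_natCast, zpow_natCast, ← hHr, hy4] at h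
    exact h
  have hGe : ∀ i j, (G i j : ℝ) ^ 2 ≤ q i * q j := by
    intro i j
    have h := maj1 hG hHt hα 0 (e i) (e j) (n := G i j) (by rw [pow_zero, one_mul]; exact hGG i j)
    rw [mul_zero, pow_zero, one_mul, hqi, hqi] at h
    exact h
  by_cases hbig : 2 * C < k
  · -- the first vector is isotropic
    have hyH : (H : ℝ) ^ 2 < y ^ 2 := by
      rw [← hy4, hHr, ← pow_mul]
      exact pow_lt_pow_right₀ (by norm_num) (by omega)
    have hyH' : (H : ℝ) < y := lt_of_pow_lt_pow_left₀ 2 hy0.le hyH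
    have g00 : G 0 0 = 0 := by
      refine zero_of_sq (R := y ^ 4) (by positivity) ?_
      calc (G 0 0 : ℝ) ^ 2 * y ^ 4 ≤ q 0 * q 0 * y ^ 4 := by
            have := hGe 0 0
            gcongr
        _ = (q 0 * y ^ 2) * (q 0 * y ^ 2) := by ring
        _ ≤ H * H := by
            have := hq0 0
            gcongr
        _ < y ^ 2 * 1 := by nlinarith
        _ ≤ y ^ 2 * y ^ 2 := by
            have : 1 ≤ y ^ 2 := one_le_pow₀ hy1
            gcongr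
        _ = y ^ 4 := by ring
    have g01 : G 0 1 = 0 := by
      refine zero_of_sq (R := y ^ 2) (by positivity) ?_
      calc (G 0 1 : ℝ) ^ 2 * y ^ 2 ≤ q 0 * q 1 * y ^ 2 := by
            have := hGe 0 1
            gcongr
        _ = (q 0 * y ^ 2) * q 1 := by ring
        _ ≤ H * H := by
            have := hq0 1
            gcongr
        _ < y ^ 2 := by nlinarith
    have hp : |(G 0 2 : ℝ)| ≤ H := by
      refine abs_of_sq hH0.le ?_
      have h1 := hGe 0 2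
      have h2 : q 0 * q 2 ≤ q 0 * (H * y ^ 2) := mul_le_mul_of_nonneg_left b2 (hq0 0)
      nlinarith
    have hr : |(G 1 1 : ℝ)| ≤ H := by
      refine abs_of_sq hH0.le ?_
      have h1 := hGe 1 1
      have h2 : q 1 * q 1 ≤ H * H := mul_le_mul b1 b1 (hq0 1) hH0.le
      nlinarith
    have hs' : |(G 1 2 : ℝ)| ≤ H * y := by
      refine abs_of_sq (by positivity) ?_
      have h1 := hGe 1 2
      have h2 : q 1 * q 2 ≤ H * (H * y ^ 2) := mul_le_mul b1 b2 (hq0 2) hH0.le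
      nlinarith
    have hu : |(G 2 2 : ℝ)| ≤ H * y ^ 2 := by
      refine abs_of_sq (by positivity) ?_
      have h1 := hGe 2 2
      have h2 : q 2 * q 2 ≤ (H * y ^ 2) * (H * y ^ 2) := mul_le_mul b2 b2 (hq0 2) (by positivity)
      nlinarith
    have hdet' : G.det = -(G 0 2 ^ 2 * G 1 1) := by
      rw [Matrix.det_fin_three, g00, g01, hs 2 0, hs 1 0, g01]
      ring
    have hne : G 0 2 ^ 2 * G 1 1 ≠ 0 := by
      intro h
      rw [hdet', h] at hdet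
      apply hx0
      have : x ^ 2 = 0 := by linarith
      exact pow_eq_zero_iff (by norm_num) |>.1 this
    have hp0 : G 0 2 ≠ 0 := fun h => hne (by rw [h]; ring)
    have hr0 : G 1 1 ≠ 0 := fun h => hne (by rw [h]; ring)
    obtain ⟨p, hpd⟩ : ∃ p, p = G 0 2 := ⟨_, rfl⟩
    obtain ⟨r, hrd⟩ : ∃ r, r = G 1 1 := ⟨_, rfl⟩
    obtain ⟨s, hsd⟩ : ∃ s, s = G 1 2 := ⟨_, rfl⟩
    obtain ⟨u, hud⟩ : ∃ u, u = G 2 2 := ⟨_, rfl⟩
    obtain ⟨v₀, hv₀⟩ : ∃ v₀ : Fin 3 → ℤ, v₀ = ![1, 0, 0] := ⟨_, rfl⟩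
    obtain ⟨v₁, hv₁⟩ : ∃ v₁ : Fin 3 → ℤ, v₁ = ![0, 1, 0] := ⟨_, rfl⟩
    obtain ⟨v₂, hv₂⟩ : ∃ v₂ : Fin 3 → ℤ, v₂ = ![-(r * u - s ^ 2), -(2 * p * s), 2 * p * r] :=
      ⟨_, rfl⟩
    have v00 : v₀ 0 = 1 := by rw [hv₀]; rfl
    have v01 : v₀ 1 = 0 := by rw [hv₀]; rfl
    have v02 : v₀ 2 = 0 := by rw [hv₀]; rfl
    have v10 : v₁ 0 = 0 := by rw [hv₁]; rfl
    have v11 : v₁ 1 = 1 := by rw [hv₁]; rfl
    have v12 : v₁ 2 = 0 := by rw [hv₁]; rfl
    have v20 : v₂ 0 = -(r * u - s ^ 2) := by rw [hv₂]; rfl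
    have v21 : v₂ 1 = -(2 * p * s) := by rw [hv₂]; rfl
    have v22 : v₂ 2 = 2 * p * r := by rw [hv₂]; rfl
    rw [← hpd] at hp hp0
    rw [← hrd] at hr hr0
    rw [← hsd] at hs'
    rw [← hud] at hu
    have hDr : (D : ℝ) = 48 * H ^ 5 + 12 * D₂ ^ 2 * H ^ 3 + D₂ + 1 := by rw [hD]; push_cast; ring
    have hD48 : 48 * (H : ℝ) ^ 5 ≤ D := by
      rw [hDr]
      have : (0 : ℝ) ≤ 12 * D₂ ^ 2 * H ^ 3 + D₂ := by positivity
      linarith
    have hH15 : (H : ℝ) ≤ H ^ 5 := by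
      have := pow_le_pow_right₀ hH1 (show 1 ≤ 5 by norm_num)
      rwa [pow_one] at this
    have hH35 : (H : ℝ) ^ 3 ≤ H ^ 5 := pow_le_pow_right₀ hH1 (by norm_num)
    have hHp : (0 : ℝ) < H ^ 5 := by positivity
    refine ⟨2 * p ^ 2 * r, r, k, _, bas_of (v := v₀) (u := v₁) (w := v₂) hG he hGG
      (mul_ne_zero (by positivity) hr0) hr0 ?_ ?_ ?_ ?_ ?_ ?_ ?_ ?_ ?_ ?_ ?_⟩
    · rw [bf_eq, v00, v01, v02, g00]; ring
    · rw [bf_eq, v00, v01, v02, v10, v11, v12, g01]; ring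
    · rw [bf_eq, v00, v01, v02, v20, v21, v22, g00, g01, ← hpd]; ring
    · rw [bf_eq, v10, v11, v12, ← hrd]; ring
    · rw [bf_eq, v10, v11, v12, v20, v21, v22, hs 1 0, g01, ← hrd, ← hsd]; ring
    · rw [bf_eq, v20, v21, v22, hs 1 0, hs 2 0, hs 2 1, g00, g01, ← hpd, ← hrd, ← hsd, ← hud]; ring
    · push_cast
      rw [abs_mul, abs_mul, abs_pow, abs_of_pos (by norm_num : (0 : ℝ) < 2)]
      calc 2 * |(p : ℝ)| ^ 2 * |(r : ℝ)| ≤ 2 * (H : ℝ) ^ 2 * H := by gcongr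
        _ = 2 * (H : ℝ) ^ 3 := by ring
        _ ≤ D := by linarith
    · linarith
    · have h := HH_vec (pol A t) θ α e v₀
      rw [v00, v01, v02, hqi, hqi, hqi] at h
      rw [hy4]
      have h2 : HH (pol A t) θ α (vec e v₀) ≤ 4 * q 0 := by
        refine h.trans (le_of_eq ?_)
        push_cast
        ring
      calc HH (pol A t) θ α (vec e v₀) * y ^ 2 ≤ 4 * q 0 * y ^ 2 := by gcongr
        _ = 4 * (q 0 * y ^ 2) := by ring
        _ ≤ 4 * H := by gcongr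
        _ ≤ D := by linarith
    · have h := HH_vec (pol A t) θ α e v₁
      rw [v10, v11, v12, hqi, hqi, hqi] at h
      refine h.trans ?_
      calc 4 * ((((0 : ℤ) : ℝ)) ^ 2 * q 0 + (((1 : ℤ) : ℝ)) ^ 2 * q 1 + (((0 : ℤ) : ℝ)) ^ 2 * q 2)
          = 4 * q 1 := by push_cast; ring
        _ ≤ 4 * H := by gcongr
        _ ≤ D := by linarith
    · have h := HH_vec (pol A t) θ α e v₂
      rw [v20, v21, v22, hqi, hqi, hqi] at h
      rw [hy4]
      have hp2 := sq_of_abs hp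
      have hr2 := sq_of_abs hr
      have hs2 := sq_of_abs hs'
      have c0 : ((-(r * u - s ^ 2) : ℤ) : ℝ) ^ 2 ≤ 4 * H ^ 4 * y ^ 4 := by
        have h3 : |((-(r * u - s ^ 2) : ℤ) : ℝ)| ≤ 2 * H ^ 2 * y ^ 2 := by
          push_cast
          rw [abs_neg]
          calc |(r : ℝ) * u - (s : ℝ) ^ 2| ≤ |(r : ℝ) * u| + |(s : ℝ) ^ 2| := abs_sub _ _
            _ = |(r : ℝ)| * |(u : ℝ)| + |(s : ℝ)| ^ 2 := by rw [abs_mul, abs_pow]
            _ ≤ H * (H * y ^ 2) + (H * y) ^ 2 := by gcongr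
            _ = _ := by ring
        refine (sq_of_abs h3).trans (le_of_eq ?_)
        ring
      have c1 : ((-(2 * p * s) : ℤ) : ℝ) ^ 2 ≤ 4 * H ^ 4 * y ^ 2 := by
        push_cast
        calc (-(2 * (p : ℝ) * s)) ^ 2 = 4 * (p : ℝ) ^ 2 * (s : ℝ) ^ 2 := by ring
          _ ≤ 4 * (H : ℝ) ^ 2 * (H * y) ^ 2 := by gcongr
          _ = _ := by ring
      have c2 : ((2 * p * r : ℤ) : ℝ) ^ 2 ≤ 4 * H ^ 4 := by
        push_cast
        calc (2 * (p : ℝ) * r) ^ 2 = 4 * (p : ℝ) ^ 2 * (r : ℝ) ^ 2 := by ring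
          _ ≤ 4 * (H : ℝ) ^ 2 * H ^ 2 := by gcongr
          _ = _ := by ring
      calc HH (pol A t) θ α (vec e v₂) ≤ 4 * (4 * H ^ 4 * y ^ 4 * q 0 + 4 * H ^ 4 * y ^ 2 * q 1 +
            4 * H ^ 4 * q 2) := by
            refine h.trans ?_
            have := hq0 0
            have := hq0 1
            have := hq0 2
            gcongr
        _ = 16 * H ^ 4 * (y ^ 2 * (q 0 * y ^ 2) + y ^ 2 * q 1 + q 2) := by ring
        _ ≤ 16 * H ^ 4 * (y ^ 2 * H + y ^ 2 * H + H * y ^ 2) := by gcongr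
        _ = 48 * (H : ℝ) ^ 5 * y ^ 2 := by ring
        _ ≤ D * y ^ 2 := by gcongr
  · -- finitely many Gram matrices
    push Not at hbig
    have hyH : y ^ 2 ≤ (H : ℝ) ^ 2 := by
      rw [← hy4, hHr, ← pow_mul]
      exact pow_le_pow_right₀ (by norm_num) (by omega)
    have hH3 : (H : ℝ) ≤ (H : ℝ) ^ 3 := by
      have := pow_le_pow_right₀ hH1 (show 1 ≤ 3 by norm_num)
      rwa [pow_one] at this
    have hqH : ∀ i, q i ≤ (H : ℝ) ^ 3 := by
      intro i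
      fin_cases i
      · have h1 : q 0 ≤ q 0 * y ^ 2 := le_mul_of_one_le_right (hq0 0) (one_le_pow₀ hy1)
        exact h1.trans (b0.trans hH3)
      · exact b1.trans hH3
      · calc q 2 ≤ H * y ^ 2 := b2
          _ ≤ H * (H : ℝ) ^ 2 := by gcongr
          _ = _ := by ring
    have hGH : ∀ i j, |G i j| ≤ ((H ^ 3 : ℕ) : ℤ) := by
      intro i j
      have h1 : |(G i j : ℝ)| ≤ (H : ℝ) ^ 3 := by
        refine abs_of_sq (by positivity) ?_
        calc (G i j : ℝ) ^ 2 ≤ q i * q j := hGe i j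
          _ ≤ (H : ℝ) ^ 3 * H ^ 3 := mul_le_mul (hqH i) (hqH j) (hq0 j) (by positivity)
          _ = _ := by ring
      exact_mod_cast h1
    obtain ⟨z, hzΛ, hz0, hz⟩ := iso hA hG hα hN hL
    have hdet0 : G.det ≠ 0 := by
      rw [hdet]
      exact neg_ne_zero.2 (pow_ne_zero 2 hx0)
    obtain ⟨v, u, w', P, r, a1, a2, a3, a4, a5, a6, a7, a8, a9, a10, a11⟩ :=
      hD₂ G hGH hs hdet0 (iso_gram hG hli hGG hz0 hz)
    have hDr : (D : ℝ) = 48 * H ^ 5 + 12 * D₂ ^ 2 * H ^ 3 + D₂ + 1 := by rw [hD]; push_cast; ring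
    have hDD : (D₂ : ℝ) ≤ D := by
      rw [hDr]
      have : (0 : ℝ) ≤ 48 * H ^ 5 + 12 * D₂ ^ 2 * H ^ 3 := by positivity
      linarith
    have hDE : 12 * (D₂ : ℝ) ^ 2 * H ^ 3 ≤ D := by
      rw [hDr]
      have : (0 : ℝ) ≤ 48 * H ^ 5 + D₂ := by positivity
      linarith
    have hvec : ∀ n : Fin 3 → ℤ, (∀ i, |n i| ≤ D₂) → HH (pol A t) θ α (vec e n) ≤ D := by
      intro n hn
      have hn' : ∀ i, (n i : ℝ) ^ 2 ≤ (D₂ : ℝ) ^ 2 := fun i => sq_of_abs (by exact_mod_cast hn i)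
      have h := HH_vec (pol A t) θ α e n
      rw [hqi, hqi, hqi] at h
      calc HH (pol A t) θ α (vec e n) ≤ 4 * ((n 0 : ℝ) ^ 2 * q 0 + (n 1 : ℝ) ^ 2 * q 1 +
            (n 2 : ℝ) ^ 2 * q 2) := h
        _ ≤ 4 * ((D₂ : ℝ) ^ 2 * H ^ 3 + (D₂ : ℝ) ^ 2 * H ^ 3 + (D₂ : ℝ) ^ 2 * H ^ 3) := by
            have := hq0 0
            have := hq0 1
            have := hq0 2
            have := hqH 0
            have := hqH 1
            have := hqH 2
            have := hn' 0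
            have := hn' 1
            have := hn' 2
            gcongr
        _ = 12 * (D₂ : ℝ) ^ 2 * H ^ 3 := by ring
        _ ≤ D := hDE
    refine ⟨P, r, 0, _, bas_of (v := v) (u := u) (w := w') hG he hGG a1 a2 a3 a4 a5 a6 a7 a8
      ?_ ?_ ?_ ?_ ?_⟩
    · have : |(P : ℝ)| ≤ D₂ := by exact_mod_cast a9
      exact this.trans hDD
    · have : |(r : ℝ)| ≤ D₂ := by exact_mod_cast a10
      exact this.trans hDD
    · rw [pow_zero, mul_one]
      exact hvec v fun i => (a11 i).1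
    · exact hvec u fun i => (a11 i).2.1
    · rw [pow_zero, mul_one]
      exact hvec w' fun i => (a11 i).2.2

end Pool.Agent.V7H54.A
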