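import Pool.Agent.V7H54.A.Qc

/-!
# The number of the bad parameters
-/

set_option autoImplicit false
set_option linter.all false

open scoped Real Classical
open Finset

namespace Pool.Agent.V7H54.A

/-- The quintuples which come from a bad parameter `t`. -/
def Cd (A : ℤ) (C₁ B : ℕ) (P r : ℤ) (k : ℕ) (S : Finset ℕ) {κ : ℕ → Type} (ρ : ∀ q, ℤ → κ q)
    (Ω : ∀ q, ℤ → ℤ → Finset (κ q × κ q × κ q × κ q × κ q)) (t a b c d e : ℤ) : Prop :=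
  |(a : ℝ)| ≤ C₁ * B / ((2 : ℝ) ^ k) ^ 2 ∧ |(b : ℝ)| ≤ C₁ * B / (2 : ℝ) ^ k ∧
  |(c : ℝ)| ≤ C₁ * B ∧ |(d : ℝ)| ≤ C₁ * B * (2 : ℝ) ^ k ∧
  |(e : ℝ)| ≤ C₁ * B * ((2 : ℝ) ^ k) ^ 2 ∧
  r * a * e + 2 * P * b * d + 3 * r * c ^ 2 = -(A * r * P ^ 2) ∧
  P * (a * d ^ 2 + b ^ 2 * e - 2 * b * c * d) + 2 * r * c * (a * e - c ^ 2) = -(t * (r * P ^ 3)) ∧
  ∀ q ∈ S, (ρ q a, ρ q b, ρ q c, ρ q d, ρ q e) ∈ Ω q P r

/-- Bad parameters of level `k`. -/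
def Bk (A : ℤ) (C₁ B : ℕ) (P r : ℤ) (k : ℕ) (S : Finset ℕ) {κ : ℕ → Type} (ρ : ∀ q, ℤ → κ q)
    (Ω : ∀ q, ℤ → ℤ → Finset (κ q × κ q × κ q × κ q × κ q)) (t : ℤ) : Prop :=
  ((2 : ℝ) ^ k) ^ 2 ≤ C₁ * B ∧ ∃ a b : ℤ, a ≠ 0 ∧ ∀ m : ℕ, m < 2 ^ k → ∃ c d e : ℤ,
    Cd A C₁ B P r k S ρ Ω t a (b + 2 * r * m * a) c d e

/-- The pairs `(P, r)`. -/
noncomputable def Pr (C₁ : ℕ) : Finset (ℤ × ℤ) :=
  (Icc (-(C₁ : ℤ)) C₁ ×ˢ Icc (1 : ℤ) C₁).filter fun x => x.1 ≠ 0 ∧ IsSquare (x.1 ^ 2 * x.2)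

theorem cl_card {κ : ℕ → Type} (ρ : ∀ q, ℤ → κ q) {S : Finset ℕ} (hS : ∀ q ∈ S, q.Prime)
    (hρ : ∀ q ∈ S, ∀ x y : ℤ, ρ q x = ρ q y → (q : ℤ) ∣ x - y)
    (Ω : ∀ q, Finset (κ q × κ q × κ q × κ q × κ q)) (hΩ : ∀ q ∈ S, 2 * (Ω q).card ≤ q ^ 3)
    (T : Finset (ℤ × ℤ × ℤ × ℤ × ℤ))
    (hT : ∀ t ∈ T, ∀ q ∈ S, (ρ q t.1, ρ q t.2.1, ρ q t.2.2.1, ρ q t.2.2.2.1, ρ q t.2.2.2.2) ∈ Ω q)
    {R : ℝ} (hR : 0 ≤ R) (hb : ∀ T' ⊆ T,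
      (∀ t ∈ T', ∀ t' ∈ T', ((∏ q ∈ S, q : ℕ) : ℤ) ∣ t.1 - t'.1 ∧
        ((∏ q ∈ S, q : ℕ) : ℤ) ∣ t.2.1 - t'.2.1 ∧ ((∏ q ∈ S, q : ℕ) : ℤ) ∣ t.2.2.1 - t'.2.2.1 ∧
        ((∏ q ∈ S, q : ℕ) : ℤ) ∣ t.2.2.2.1 - t'.2.2.2.1 ∧
        ((∏ q ∈ S, q : ℕ) : ℤ) ∣ t.2.2.2.2 - t'.2.2.2.2) → (T'.card : ℝ) ≤ R) :
    (T.card : ℝ) ≤ R * ((∏ q ∈ S, q : ℕ) : ℝ) ^ 3 / 2 ^ S.card := by
  obtain ⟨F, hF⟩ : ∃ F : (ℤ × ℤ × ℤ × ℤ × ℤ → ∀ q : S, κ q × κ q × κ q × κ q × κ q),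
    F = fun (t : ℤ × ℤ × ℤ × ℤ × ℤ) (q : S) => (ρ q t.1, ρ q t.2.1, ρ q t.2.2.1, ρ q t.2.2.2.1, ρ q t.2.2.2.2) := ⟨_, rfl⟩
  have h1 : T.card ≤ ⌊R⌋₊ * (T.image F).card := by
    refine card_le_mul_card_image T ⌊R⌋₊ fun v hv => Nat.le_floor (hb _ (filter_subset _ _) ?_)
    intro t ht t' ht'
    have e1 := (mem_filter.1 ht).2
    have e2 := (mem_filter.1 ht').2
    rw [← e2, hF] at e1
    have key : ∀ x y : ℤ, (∀ q ∈ S, ρ q x = ρ q y) → ((∏ q ∈ S, q : ℕ) : ℤ) ∣ x - y := by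
      intro x y h
      rw [Nat.cast_prod]
      refine Finset.prod_dvd_of_coprime ?_ fun q hq => hρ q hq x y (h q hq)
      intro q hq q' hq' hne
      exact Nat.isCoprime_iff_coprime.2 ((Nat.coprime_primes (hS q hq) (hS q' hq')).2 hne)
    have e3 : ∀ q ∈ S, (ρ q t.1, ρ q t.2.1, ρ q t.2.2.1, ρ q t.2.2.2.1, ρ q t.2.2.2.2) =
        (ρ q t'.1, ρ q t'.2.1, ρ q t'.2.2.1, ρ q t'.2.2.2.1, ρ q t'.2.2.2.2) :=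
      fun q hq => congrFun e1 ⟨q, hq⟩
    simp only [Prod.mk.injEq] at e3
    exact ⟨key _ _ fun q hq => (e3 q hq).1, key _ _ fun q hq => (e3 q hq).2.1,
      key _ _ fun q hq => (e3 q hq).2.2.1, key _ _ fun q hq => (e3 q hq).2.2.2.1,
      key _ _ fun q hq => (e3 q hq).2.2.2.2⟩
  have h2 : (T.image F).card ≤ ∏ q : S, (Ω q).card := by
    rw [← Fintype.card_piFinset]
    refine card_le_card fun v hv => ?_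
    obtain ⟨t, ht, rfl⟩ := mem_image.1 hv
    rw [Fintype.mem_piFinset]
    intro q
    rw [hF]
    exact hT t ht q q.2
  have h3 : (2 ^ S.card : ℝ) * ∏ q : S, ((Ω q).card : ℝ) ≤ ((∏ q ∈ S, q : ℕ) : ℝ) ^ 3 := by
    have e1 : (2 ^ S.card : ℝ) * ∏ q : S, ((Ω q).card : ℝ) = ∏ q : S, (2 * ((Ω q).card : ℝ)) := by
      rw [prod_mul_distrib, prod_const, card_univ, Fintype.card_coe]
    have e2 : ((∏ q ∈ S, q : ℕ) : ℝ) ^ 3 = ∏ q : S, ((q : ℕ) : ℝ) ^ 3 := by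
      rw [prod_pow, Nat.cast_prod, ← prod_coe_sort S]
    rw [e1, e2]
    refine prod_le_prod (fun q _ => by positivity) fun q _ => ?_
    exact_mod_cast hΩ q q.2
  have h4 : (T.card : ℝ) ≤ R * ∏ q : S, ((Ω q).card : ℝ) := by
    calc (T.card : ℝ) ≤ ((⌊R⌋₊ * (T.image F).card : ℕ) : ℝ) := by exact_mod_cast h1
      _ ≤ R * ((∏ q : S, (Ω q).card : ℕ) : ℝ) := by
        rw [Nat.cast_mul]
        refine mul_le_mul (Nat.floor_le hR) (by exact_mod_cast h2) (by positivity) hR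
      _ = _ := by rw [Nat.cast_prod]
  have h5 : (0 : ℝ) < 2 ^ S.card := by positivity
  rw [le_div_iff₀ h5]
  calc (T.card : ℝ) * 2 ^ S.card ≤ R * (∏ q : S, ((Ω q).card : ℝ)) * 2 ^ S.card := by gcongr
    _ = R * (2 ^ S.card * ∏ q : S, ((Ω q).card : ℝ)) := by ring
    _ ≤ _ := by gcongr

/-- one pair `(P, r)` and one level -/
theorem cn1 {A : ℤ} (hA : 0 < A) (C₁ : ℕ) (hC₁ : 1 ≤ C₁) {P r : ℤ} (hP : P ≠ 0) (hr : 0 < r)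
    (hP1 : |P| ≤ C₁) (hr1 : r ≤ C₁) :
    ∃ K₀ C₂ : ℝ, 0 ≤ K₀ ∧ 1 ≤ C₂ ∧ ∀ S : Finset ℕ, (∀ q ∈ S, q.Prime ∧ 2 < q ∧ C₁ < q) →
    ∃ K₁ : ℝ, 0 ≤ K₁ ∧
    ∀ (κ : ℕ → Type) (ρ : ∀ q, ℤ → κ q) (Ω : ∀ q, ℤ → ℤ → Finset (κ q × κ q × κ q × κ q × κ q)),
    (∀ q ∈ S, ∀ x y : ℤ, ρ q x = ρ q y → (q : ℤ) ∣ x - y) →
    (∀ q ∈ S, 2 * (Ω q P r).card ≤ q ^ 3) →
    (∀ q ∈ S, ∀ a b c d e : ℤ, (ρ q a, ρ q b, ρ q c, ρ q d, ρ q e) ∈ Ω q P r →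
      ¬ ((q : ℤ) ∣ a ∧ (q : ℤ) ∣ b)) →
    ∀ (B k : ℕ) (Y : Finset ℤ), (∀ t ∈ Y, Bk A C₁ B P r k S ρ Ω t) →
    (Y.card : ℝ) * 2 ^ k ≤ (K₀ * ((C₁ * B : ℝ) ^ 3 / ((∏ q ∈ S, q : ℕ) : ℝ) ^ 4) +
      K₁ * ((C₁ * B : ℝ) ^ 2 * √(C₁ * B) * ((2 : ℝ) ^ k * √((2 : ℝ) ^ k)) *
      (1 + Real.log (C₂ * (C₁ * B))))) *
      ((∏ q ∈ S, q : ℕ) : ℝ) ^ 3 / 2 ^ S.card := by
  have hne : ∀ c : ℤ, 3 * r * c ^ 2 ≠ -(A * r * P ^ 2) := by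
    intro c h
    have h1 : 0 ≤ 3 * r * c ^ 2 := by positivity
    have h2 : 0 < A * r * P ^ 2 := by positivity
    omega
  have hM : -(A * r * P ^ 2) ≠ 0 := by
    have h2 : 0 < A * r * P ^ 2 := by positivity
    omega
  obtain ⟨K₀, hK₀, h⟩ := qc (p₁ := r) (p₂ := 2 * P) (p₃ := 3 * r) (M := -(A * r * P ^ 2))
    hr.ne' (by positivity) (by positivity) hM hne (C := 1) le_rfl
  obtain ⟨C₂, hC₂⟩ : ∃ C₂ : ℝ, C₂ = 1 * (|((r : ℤ) : ℝ)| + |((2 * P : ℤ) : ℝ)|) := ⟨_, rfl⟩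
  rw [← hC₂] at h
  have hC₂1 : 1 ≤ C₂ := by
    have h1 : (1 : ℝ) ≤ |((r : ℤ) : ℝ)| := by
      rw [← Int.cast_abs]
      exact_mod_cast Int.one_le_abs hr.ne'
    have h2 : (0 : ℝ) ≤ |((2 * P : ℤ) : ℝ)| := abs_nonneg _
    rw [hC₂]
    linarith
  refine ⟨K₀, C₂, hK₀, hC₂1, fun S hS => ?_⟩
  obtain ⟨Q, hQ⟩ : ∃ Q : ℕ, Q = ∏ q ∈ S, q := ⟨_, rfl⟩
  have hQ1 : 1 ≤ Q := by
    rw [hQ]
    exact Finset.one_le_prod' fun q hq => (hS q hq).1.pos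
  have hcop : Nat.Coprime (r * (2 * P)).natAbs Q := by
    rw [hQ]
    refine Nat.Coprime.prod_right fun q hq => ?_
    obtain ⟨hqp, hq2, hqC⟩ := hS q hq
    rw [Nat.coprime_comm, hqp.coprime_iff_not_dvd]
    intro hd
    rw [Int.natAbs_mul, Int.natAbs_mul, hqp.dvd_mul, hqp.dvd_mul] at hd
    rcases hd with hd | hd | hd
    · have h1 := Nat.le_of_dvd (Int.natAbs_pos.2 hr.ne') hd
      omega
    · have h1 := Nat.le_of_dvd (by decide) hd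
      have : (2 : ℤ).natAbs = 2 := rfl
      omega
    · have h1 := Nat.le_of_dvd (Int.natAbs_pos.2 hP) hd
      have h2 : ((P.natAbs : ℕ) : ℤ) ≤ C₁ := by rw [Int.natCast_natAbs]; exact hP1
      have h3 : P.natAbs ≤ C₁ := by exact_mod_cast h2
      omega
  obtain ⟨K₁, hK₁, hh⟩ := h Q hQ1 hcop
  refine ⟨K₁, hK₁, fun κ ρ Ω hρ hΩ hΩ2 B k Y hY => ?_⟩
  rw [← hQ]
  by_cases hY0 : Y = ∅
  · subst hY0
    rw [card_empty, Nat.cast_zero, zero_mul]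
    by_cases hB : B = 0
    · subst hB
      simp
    have hB1 : (1 : ℝ) ≤ B := by exact_mod_cast Nat.one_le_iff_ne_zero.2 hB
    have hC1 : (1 : ℝ) ≤ C₁ := by exact_mod_cast hC₁
    have h1 : 1 ≤ C₂ * (C₁ * B) := by
      have : 1 ≤ (C₁ : ℝ) * B := one_le_mul_of_one_le_of_one_le hC1 hB1
      exact one_le_mul_of_one_le_of_one_le hC₂1 this
    have h2 := Real.log_nonneg h1
    positivity
  obtain ⟨t₀, ht₀⟩ := Finset.nonempty_iff_ne_empty.2 hY0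
  have hτX := (hY t₀ ht₀).1
  have h2k : (1 : ℝ) ≤ (2 : ℝ) ^ k := one_le_pow₀ (by norm_num)
  -- choose
  have hch : ∀ t : ℤ, ∃ (a b : ℤ) (f : ℕ → ℤ × ℤ × ℤ), t ∈ Y → a ≠ 0 ∧ ∀ m : ℕ, m < 2 ^ k →
      Cd A C₁ B P r k S ρ Ω t a (b + 2 * r * m * a) (f m).1 (f m).2.1 (f m).2.2 := by
    intro t
    by_cases ht : t ∈ Y
    · obtain ⟨-, a, b, ha, hb⟩ := hY t ht
      choose! c d e hc using hb
      exact ⟨a, b, fun m => (c m, d m, e m), fun _ => ⟨ha, hc⟩⟩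
    · exact ⟨0, 0, fun _ => 0, fun h => absurd h ht⟩
  choose a b f hf using hch
  obtain ⟨G, hG⟩ : ∃ G : ℤ × ℕ → ℤ × ℤ × ℤ × ℤ × ℤ,
    G = fun x => (a x.1, b x.1 + 2 * r * x.2 * a x.1, (f x.1 x.2).1, (f x.1 x.2).2.1,
      (f x.1 x.2).2.2) := ⟨_, rfl⟩
  have hGinj : Set.InjOn G ((Y ×ˢ range (2 ^ k) : Finset (ℤ × ℕ)) : Set (ℤ × ℕ)) := by
    rintro ⟨t, m⟩ hx ⟨t', m'⟩ hx' he
    rw [mem_coe, mem_product, mem_range] at hx hx'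
    obtain ⟨ha, hb⟩ := hf t hx.1
    obtain ⟨ha', hb'⟩ := hf t' hx'.1
    have c1 := (hb m hx.2).2.2.2.2.2.2.1
    have c2 := (hb' m' hx'.2).2.2.2.2.2.2.1
    rw [hG] at he
    simp only [Prod.mk.injEq] at he
    obtain ⟨e1, e2, e3, e4, e5⟩ := he
    rw [e1, e3, e4, e5] at c1
    rw [e1] at e2
    rw [e2] at c1
    have hrP : r * P ^ 3 ≠ 0 := by positivity
    have htt : t = t' := by
      have : -(t * (r * P ^ 3)) = -(t' * (r * P ^ 3)) := c1.symm.trans c2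
      exact mul_right_cancel₀ hrP (neg_injective this)
    subst htt
    have hmm : (m : ℤ) = m' := by
      have h1 : 2 * r * (m : ℤ) * a t = 2 * r * (m' : ℤ) * a t := by linarith
      have h2 : (2 : ℤ) * r ≠ 0 := by positivity
      exact mul_left_cancel₀ h2 (mul_right_cancel₀ ha h1)
    rw [Nat.cast_inj] at hmm
    rw [hmm]
  obtain ⟨T, hT⟩ : ∃ T, T = (Y ×ˢ range (2 ^ k)).image G := ⟨_, rfl⟩
  have hTc : (T.card : ℝ) = (Y.card : ℝ) * 2 ^ k := by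
    rw [hT, card_image_of_injOn hGinj, card_product, card_range]
    push_cast
    ring
  have hTC : ∀ x ∈ T, ∃ t : ℤ, Cd A C₁ B P r k S ρ Ω t x.1 x.2.1 x.2.2.1 x.2.2.2.1 x.2.2.2.2 := by
    intro x hx
    rw [hT] at hx
    obtain ⟨⟨t, m⟩, hx', rfl⟩ := mem_image.1 hx
    rw [mem_product, mem_range] at hx'
    refine ⟨t, ?_⟩
    rw [hG]
    exact (hf t hx'.1).2 m hx'.2
  rw [← hTc]
  have hX1 : (1 : ℝ) ≤ C₁ * B := by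
    refine le_trans ?_ hτX
    exact one_le_pow₀ h2k
  have hlog : 0 ≤ 1 + Real.log (C₂ * (C₁ * B)) := by
    have := Real.log_nonneg (one_le_mul_of_one_le_of_one_le hC₂1 hX1)
    linarith
  have := cl_card ρ (fun q hq => (hS q hq).1) hρ (fun q => Ω q P r) hΩ T
    (fun x hx q hq => by
      obtain ⟨t, ht⟩ := hTC x hx
      exact ht.2.2.2.2.2.2.2 q hq)
    (R := K₀ * ((C₁ * B : ℝ) ^ 3 / (Q : ℝ) ^ 4) +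
      K₁ * ((C₁ * B : ℝ) ^ 2 * √(C₁ * B) * ((2 : ℝ) ^ k * √((2 : ℝ) ^ k)) *
      (1 + Real.log (C₂ * (C₁ * B))))) (by positivity) (by
    intro T' hT' hcong
    rw [← hQ] at hcong
    refine hh (C₁ * B) ((2 : ℝ) ^ k) h2k hτX T' ?_ hcong
    intro x hx
    obtain ⟨t, a1, a2, a3, a4, a5, a6, a7, a8⟩ := hTC x (hT' hx)
    rw [one_mul]
    refine ⟨a1, a2, a3, a4, a5, ?_, ?_⟩
    · rw [hQ]
      refine Nat.Coprime.prod_right fun q hq => ?_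
      rw [Nat.coprime_comm, (hS q hq).1.coprime_iff_not_dvd]
      intro hd
      refine hΩ2 q hq _ _ _ _ _ (a8 q hq) ?_
      have h1 : (q : ℤ) ∣ (Int.gcd x.1 x.2.1 : ℤ) := by exact_mod_cast hd
      exact ⟨h1.trans (Int.gcd_dvd_left _ _), h1.trans (Int.gcd_dvd_right _ _)⟩
    · linarith)
  rw [← hQ] at this
  exact this

theorem log_small (C₂ K : ℝ) (hC₂ : 1 ≤ C₂) (hK : 0 ≤ K) : ∃ X₀ : ℝ, ∀ X ≥ X₀, 1 ≤ X →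
    K * (1 + Real.log (C₂ * X)) ^ 2 ≤ √(√X) := by
  obtain ⟨Z, hZ⟩ : ∃ Z : ℝ, Z = 289 * K * C₂ + 1 := ⟨_, rfl⟩
  have hZ1 : 1 ≤ Z := by
    rw [hZ]
    have : 0 ≤ 289 * K * C₂ := by positivity
    linarith
  refine ⟨Z ^ 16, fun X hX hX1 => ?_⟩
  have hX0 : 0 < X := by linarith
  have hy0 : 0 ≤ C₂ * X := by positivity
  obtain ⟨z, hz⟩ : ∃ z : ℝ, z = (C₂ * X) ^ ((1 : ℝ) / 16) := ⟨_, rfl⟩
  have hz0 : 0 ≤ z := by rw [hz]; positivity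
  have hz16 : z ^ 16 = C₂ * X := by
    rw [hz, ← Real.rpow_natCast, ← Real.rpow_mul hy0]
    norm_num
  have hzZ : Z ≤ z := by
    by_contra h
    push Not at h
    have h1 : z ^ 16 < Z ^ 16 := pow_lt_pow_left₀ h hz0 (by norm_num)
    have h2 : X ≤ C₂ * X := by nlinarith
    linarith
  have hz1 : 1 ≤ z := hZ1.trans hzZ
  have hlog : Real.log (C₂ * X) ≤ 16 * z := by
    have := Real.log_le_rpow_div hy0 (ε := (1 : ℝ) / 16) (by norm_num)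
    rw [← hz] at this
    linarith
  have hlog0 : 0 ≤ Real.log (C₂ * X) :=
    Real.log_nonneg (one_le_mul_of_one_le_of_one_le hC₂ hX1)
  have h1 : (1 + Real.log (C₂ * X)) ^ 2 ≤ 289 * z ^ 2 := by
    have : 1 + Real.log (C₂ * X) ≤ 17 * z := by linarith
    calc (1 + Real.log (C₂ * X)) ^ 2 ≤ (17 * z) ^ 2 := by gcongr
      _ = _ := by ring
  have hC0 : 0 < C₂ := by linarith
  have h2 : K * (289 * z ^ 2) ≤ z ^ 4 / C₂ := by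
    rw [le_div_iff₀ hC0]
    have h3 : 289 * K * C₂ ≤ z ^ 2 := by nlinarith
    calc K * (289 * z ^ 2) * C₂ = (289 * K * C₂) * z ^ 2 := by ring
      _ ≤ z ^ 2 * z ^ 2 := by gcongr
      _ = z ^ 4 := by ring
  have h3 : z ^ 4 / C₂ ≤ √(√X) := by
    have hp : 0 ≤ z ^ 4 / C₂ := by positivity
    refine Real.le_sqrt_of_sq_le (Real.le_sqrt_of_sq_le ?_)
    have e : ((z ^ 4 / C₂) ^ 2) ^ 2 = X / C₂ ^ 3 := by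
      have : ((z ^ 4 / C₂) ^ 2) ^ 2 = z ^ 16 / C₂ ^ 4 := by ring
      rw [this, hz16]
      field_simp
    rw [e]
    exact div_le_self hX0.le (one_le_pow₀ hC₂)
  calc K * (1 + Real.log (C₂ * X)) ^ 2 ≤ K * (289 * z ^ 2) := by gcongr
    _ ≤ _ := h2.trans h3

/-- The bad parameters. -/
def Bt (A : ℤ) (C₁ B : ℕ) (S : Finset ℕ) {κ : ℕ → Type} (ρ : ∀ q, ℤ → κ q)
    (Ω : ∀ q, ℤ → ℤ → Finset (κ q × κ q × κ q × κ q × κ q)) (t : ℤ) : Prop :=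
  ∃ P r : ℤ, (P, r) ∈ Pr C₁ ∧ ∃ k : ℕ, Bk A C₁ B P r k S ρ Ω t

/-- **Few bad parameters.** -/
theorem cn {A : ℤ} (hA : 0 < A) (C₁ : ℕ) (hC₁ : 1 ≤ C₁) : ∃ K : ℝ, 0 ≤ K ∧
    ∀ S : Finset ℕ, (∀ q ∈ S, q.Prime ∧ 2 < q ∧ C₁ < q) → ∃ B₀ : ℕ,
    ∀ (κ : ℕ → Type) (ρ : ∀ q, ℤ → κ q) (Ω : ∀ q, ℤ → ℤ → Finset (κ q × κ q × κ q × κ q × κ q)),
    (∀ q ∈ S, ∀ x y : ℤ, ρ q x = ρ q y → (q : ℤ) ∣ x - y) →
    (∀ q ∈ S, ∀ P r : ℤ, (P, r) ∈ Pr C₁ → 2 * (Ω q P r).card ≤ q ^ 3) →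
    (∀ q ∈ S, ∀ P r : ℤ, (P, r) ∈ Pr C₁ → ∀ a b c d e : ℤ,
      (ρ q a, ρ q b, ρ q c, ρ q d, ρ q e) ∈ Ω q P r → ¬ ((q : ℤ) ∣ a ∧ (q : ℤ) ∣ b)) →
    ∀ B ≥ B₀, ∀ Y : Finset ℤ, (∀ t ∈ Y, Bt A C₁ B S ρ Ω t) →
    (Y.card : ℝ) ≤ K * ((B : ℝ) ^ 3 / (2 ^ S.card * ((∏ q ∈ S, q : ℕ) : ℝ))) := by
  have hPr : ∀ x ∈ Pr C₁, x.1 ≠ 0 ∧ 0 < x.2 ∧ |x.1| ≤ C₁ ∧ x.2 ≤ C₁ := by
    intro x hx
    obtain ⟨h1, h2, -⟩ := mem_filter.1 hx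
    obtain ⟨h3, h4⟩ := mem_product.1 h1
    rw [mem_Icc] at h3 h4
    exact ⟨h2, by omega, abs_le.2 h3, h4.2⟩
  have hch : ∀ x : ℤ × ℤ, ∃ K₀ C₂ : ℝ, 0 ≤ K₀ ∧ 1 ≤ C₂ ∧ (x ∈ Pr C₁ → ∀ S : Finset ℕ,
      (∀ q ∈ S, q.Prime ∧ 2 < q ∧ C₁ < q) → ∃ K₁ : ℝ, 0 ≤ K₁ ∧
    ∀ (κ : ℕ → Type) (ρ : ∀ q, ℤ → κ q) (Ω : ∀ q, ℤ → ℤ → Finset (κ q × κ q × κ q × κ q × κ q)),
    (∀ q ∈ S, ∀ x y : ℤ, ρ q x = ρ q y → (q : ℤ) ∣ x - y) →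
    (∀ q ∈ S, 2 * (Ω q x.1 x.2).card ≤ q ^ 3) →
    (∀ q ∈ S, ∀ a b c d e : ℤ, (ρ q a, ρ q b, ρ q c, ρ q d, ρ q e) ∈ Ω q x.1 x.2 →
      ¬ ((q : ℤ) ∣ a ∧ (q : ℤ) ∣ b)) →
    ∀ (B k : ℕ) (Y : Finset ℤ), (∀ t ∈ Y, Bk A C₁ B x.1 x.2 k S ρ Ω t) →
    (Y.card : ℝ) * 2 ^ k ≤ (K₀ * ((C₁ * B : ℝ) ^ 3 / ((∏ q ∈ S, q : ℕ) : ℝ) ^ 4) +
      K₁ * ((C₁ * B : ℝ) ^ 2 * √(C₁ * B) * ((2 : ℝ) ^ k * √((2 : ℝ) ^ k)) *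
      (1 + Real.log (C₂ * (C₁ * B))))) *
      ((∏ q ∈ S, q : ℕ) : ℝ) ^ 3 / 2 ^ S.card) := by
    intro x
    by_cases hx : x ∈ Pr C₁
    · obtain ⟨h1, h2, h3, h4⟩ := hPr x hx
      obtain ⟨K₀, C₂, a1, a2, a3⟩ := cn1 hA C₁ hC₁ h1 h2 h3 h4
      exact ⟨K₀, C₂, a1, a2, fun _ => a3⟩
    · exact ⟨0, 1, le_rfl, le_rfl, fun h => absurd h hx⟩
  choose K₀ C₂ hK₀ hC₂ hmain using hch
  have hC1 : (1 : ℝ) ≤ C₁ := by exact_mod_cast hC₁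
  refine ⟨∑ x ∈ Pr C₁, (2 * K₀ x + 1) * (C₁ : ℝ) ^ 3, sum_nonneg fun x _ => by
    have := hK₀ x
    positivity, fun S hS => ?_⟩
  obtain ⟨Q, hQ⟩ : ∃ Q : ℕ, Q = ∏ q ∈ S, q := ⟨_, rfl⟩
  rw [← hQ]
  have hQ1 : 1 ≤ Q := by
    rw [hQ]
    exact Finset.one_le_prod' fun q hq => (hS q hq).1.pos
  have hQ0 : (0 : ℝ) < Q := by exact_mod_cast hQ1
  have hch2 : ∀ x : ℤ × ℤ, ∃ K₁ X₀ : ℝ, 0 ≤ K₁ ∧ (∀ X ≥ X₀, 1 ≤ X →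
      (K₁ * (Q : ℝ) ^ 4) * (1 + Real.log (C₂ x * X)) ^ 2 ≤ √(√X)) ∧ (x ∈ Pr C₁ →
    ∀ (κ : ℕ → Type) (ρ : ∀ q, ℤ → κ q) (Ω : ∀ q, ℤ → ℤ → Finset (κ q × κ q × κ q × κ q × κ q)),
    (∀ q ∈ S, ∀ x y : ℤ, ρ q x = ρ q y → (q : ℤ) ∣ x - y) →
    (∀ q ∈ S, 2 * (Ω q x.1 x.2).card ≤ q ^ 3) →
    (∀ q ∈ S, ∀ a b c d e : ℤ, (ρ q a, ρ q b, ρ q c, ρ q d, ρ q e) ∈ Ω q x.1 x.2 →
      ¬ ((q : ℤ) ∣ a ∧ (q : ℤ) ∣ b)) →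
    ∀ (B k : ℕ) (Y : Finset ℤ), (∀ t ∈ Y, Bk A C₁ B x.1 x.2 k S ρ Ω t) →
    (Y.card : ℝ) * 2 ^ k ≤ (K₀ x * ((C₁ * B : ℝ) ^ 3 / (Q : ℝ) ^ 4) +
      K₁ * ((C₁ * B : ℝ) ^ 2 * √(C₁ * B) * ((2 : ℝ) ^ k * √((2 : ℝ) ^ k)) *
      (1 + Real.log (C₂ x * (C₁ * B))))) *
      (Q : ℝ) ^ 3 / 2 ^ S.card) := by
    intro x
    by_cases hx : x ∈ Pr C₁
    · obtain ⟨K₁, a1, a2⟩ := hmain x hx S hS
      obtain ⟨X₀, hX₀⟩ := log_small (C₂ x) (K₁ * (Q : ℝ) ^ 4) (hC₂ x) (by positivity)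
      rw [← hQ] at a2
      exact ⟨K₁, X₀, a1, hX₀, fun _ => a2⟩
    · obtain ⟨X₀, hX₀⟩ := log_small (C₂ x) (0 * (Q : ℝ) ^ 4) (hC₂ x) (by simp)
      exact ⟨0, X₀, le_rfl, hX₀, fun h => absurd h hx⟩
  choose K₁ X₀ hK₁ hX₀ hmain2 using hch2
  refine ⟨1 + ∑ x ∈ Pr C₁, ⌈X₀ x⌉₊, fun κ ρ Ω hρ hΩ hΩ2 B hB Y hY => ?_⟩
  have hB1 : 1 ≤ B := le_trans (Nat.le_add_right _ _) hB
  have hB1' : (1 : ℝ) ≤ B := by exact_mod_cast hB1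
  obtain ⟨X, hX⟩ : ∃ X : ℝ, X = C₁ * B := ⟨_, rfl⟩
  have hX1 : 1 ≤ X := by rw [hX]; exact one_le_mul_of_one_le_of_one_le hC1 hB1'
  have hX0 : 0 < X := by linarith
  have hXx : ∀ x ∈ Pr C₁, X₀ x ≤ X := by
    intro x hx
    have h1 : ⌈X₀ x⌉₊ ≤ ∑ x ∈ Pr C₁, ⌈X₀ x⌉₊ :=
      Finset.single_le_sum (f := fun x => ⌈X₀ x⌉₊) (fun _ _ => Nat.zero_le _) hx
    have h2 : ⌈X₀ x⌉₊ ≤ B := by omega
    have h3 : (⌈X₀ x⌉₊ : ℝ) ≤ B := by exact_mod_cast h2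
    have h4 : (B : ℝ) ≤ X := by rw [hX]; nlinarith
    exact (Nat.le_ceil _).trans (h3.trans h4)
  obtain ⟨M, hM⟩ : ∃ M : ℕ, M = ⌊Real.log X⌋₊ := ⟨_, rfl⟩
  have hlogX : 0 ≤ Real.log X := Real.log_nonneg hX1
  have hMle : (M : ℝ) ≤ Real.log X := by rw [hM]; exact Nat.floor_le hlogX
  have hkM : ∀ k : ℕ, ((2 : ℝ) ^ k) ^ 2 ≤ X → k ∈ range (M + 1) := by
    intro k hk
    rw [mem_range, Nat.lt_succ_iff, hM]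
    apply Nat.le_floor
    have h1 := Real.log_le_log (by positivity) hk
    rw [Real.log_pow, Real.log_pow] at h1
    push_cast at h1
    have h2 := Real.log_two_gt_d9
    have hk0 : (0 : ℝ) ≤ k := by positivity
    nlinarith
  -- the cover
  have hcov : Y ⊆ (Pr C₁).biUnion fun x => (range (M + 1)).biUnion fun k =>
      Y.filter fun t => Bk A C₁ B x.1 x.2 k S ρ Ω t := by
    intro t ht
    obtain ⟨P, r, hPr', k, hk⟩ := hY t ht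
    refine mem_biUnion.2 ⟨(P, r), hPr', mem_biUnion.2 ⟨k, ?_, mem_filter.2 ⟨ht, hk⟩⟩⟩
    apply hkM
    rw [hX]
    exact hk.1
  have hcard : (Y.card : ℝ) ≤ ∑ x ∈ Pr C₁, ∑ k ∈ range (M + 1),
      ((Y.filter fun t => Bk A C₁ B x.1 x.2 k S ρ Ω t).card : ℝ) := by
    have h1 := (card_le_card hcov).trans (card_biUnion_le.trans
      (sum_le_sum fun x _ => card_biUnion_le))
    exact_mod_cast h1
  refine hcard.trans ?_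
  rw [sum_mul]
  refine sum_le_sum fun x hx => ?_
  obtain ⟨L, hL⟩ : ∃ L : ℝ, L = 1 + Real.log (C₂ x * X) := ⟨_, rfl⟩
  have hC₂x := hC₂ x
  have hML : (M : ℝ) + 1 ≤ L := by
    rw [hL]
    have : Real.log X ≤ Real.log (C₂ x * X) := Real.log_le_log hX0 (by nlinarith)
    linarith
  have hL0 : 0 ≤ L := by
    have : (0 : ℝ) ≤ M := by positivity
    linarith
  have hs : (0 : ℝ) < 2 ^ S.card := by positivity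
  -- one level
  have hlev : ∀ k ∈ range (M + 1), ((Y.filter fun t => Bk A C₁ B x.1 x.2 k S ρ Ω t).card : ℝ) ≤
      (K₀ x * (X ^ 3 / Q ^ 4) * (1 / 2) ^ k + K₁ x * (X ^ 2 * √X * √(√X) * L)) *
        ((Q : ℝ) ^ 3 / 2 ^ S.card) := by
    intro k hk
    by_cases hkX : ((2 : ℝ) ^ k) ^ 2 ≤ X
    · have h1 := hmain2 x hx κ ρ Ω hρ (fun q hq => hΩ q hq x.1 x.2 hx)
        (fun q hq => hΩ2 q hq x.1 x.2 hx) B k (Y.filter fun t => Bk A C₁ B x.1 x.2 k S ρ Ω t)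
        (fun t ht => (mem_filter.1 ht).2)
      rw [← hX, ← hL] at h1
      have h2 : (0 : ℝ) < 2 ^ k := by positivity
      have h3 : √((2 : ℝ) ^ k) ≤ √(√X) := Real.sqrt_le_sqrt (Real.le_sqrt_of_sq_le hkX)
      have hK₁x := hK₁ x
      have hK₀x := hK₀ x
      refine le_of_mul_le_mul_right (h1.trans ?_) h2
      have e1 : (K₀ x * (X ^ 3 / (Q : ℝ) ^ 4) + K₁ x * (X ^ 2 * √X * ((2 : ℝ) ^ k * √((2 : ℝ) ^ k)) *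
          L)) * (Q : ℝ) ^ 3 / 2 ^ S.card = (K₀ x * (X ^ 3 / (Q : ℝ) ^ 4) * (1 / 2) ^ k +
          K₁ x * (X ^ 2 * √X * √((2 : ℝ) ^ k) * L)) * ((Q : ℝ) ^ 3 / 2 ^ S.card) * 2 ^ k := by
        rw [one_div, inv_pow]
        field_simp
      rw [e1]
      gcongr
    · have : (Y.filter fun t => Bk A C₁ B x.1 x.2 k S ρ Ω t) = ∅ := by
        refine filter_eq_empty_iff.2 fun t _ h => hkX ?_
        rw [hX]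
        exact h.1
      rw [this, card_empty, Nat.cast_zero]
      have hK₁x := hK₁ x
      have hK₀x := hK₀ x
      positivity
  have hgeo : ∑ k ∈ range (M + 1), ((1 : ℝ) / 2) ^ k ≤ 2 := by
    have h1 := Summable.sum_le_tsum (range (M + 1)) (fun k _ => by positivity)
      (summable_geometric_of_lt_one (r := (1 : ℝ) / 2) (by norm_num) (by norm_num))
    rw [tsum_geometric_of_lt_one (by norm_num) (by norm_num)] at h1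
    norm_num at h1 ⊢
    exact h1
  have hK₁x := hK₁ x
  have hK₀x := hK₀ x
  have hsmall := hX₀ x X (hXx x hx) hX1
  rw [← hL] at hsmall
  have hXs : √X * √X = X := Real.mul_self_sqrt hX0.le
  have hXss : √(√X) * √(√X) = √X := Real.mul_self_sqrt (Real.sqrt_nonneg _)
  have herr : (M + 1 : ℝ) * (K₁ x * (X ^ 2 * √X * √(√X) * L)) ≤ X ^ 3 / Q ^ 4 := by
    rw [le_div_iff₀ (by positivity)]
    calc (M + 1 : ℝ) * (K₁ x * (X ^ 2 * √X * √(√X) * L)) * Q ^ 4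
        ≤ L * (K₁ x * (X ^ 2 * √X * √(√X) * L)) * Q ^ 4 := by gcongr
      _ = X ^ 2 * √X * √(√X) * ((K₁ x * (Q : ℝ) ^ 4) * L ^ 2) := by ring
      _ ≤ X ^ 2 * √X * √(√X) * √(√X) := by gcongr
      _ = X ^ 2 * √X * (√(√X) * √(√X)) := by ring
      _ = X ^ 2 * (√X * √X) := by rw [hXss]; ring
      _ = X ^ 3 := by rw [hXs]; ring
  calc ∑ k ∈ range (M + 1), ((Y.filter fun t => Bk A C₁ B x.1 x.2 k S ρ Ω t).card : ℝ)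
      ≤ ∑ k ∈ range (M + 1), (K₀ x * (X ^ 3 / Q ^ 4) * (1 / 2) ^ k +
          K₁ x * (X ^ 2 * √X * √(√X) * L)) * ((Q : ℝ) ^ 3 / 2 ^ S.card) := sum_le_sum hlev
    _ = (K₀ x * (X ^ 3 / Q ^ 4) * ∑ k ∈ range (M + 1), (1 / 2 : ℝ) ^ k +
          (M + 1 : ℝ) * (K₁ x * (X ^ 2 * √X * √(√X) * L))) * ((Q : ℝ) ^ 3 / 2 ^ S.card) := by
        rw [← sum_mul, sum_add_distrib, ← mul_sum, sum_const, card_range, nsmul_eq_mul]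
        push_cast
        ring
    _ ≤ (K₀ x * (X ^ 3 / Q ^ 4) * 2 + X ^ 3 / Q ^ 4) * ((Q : ℝ) ^ 3 / 2 ^ S.card) := by
        gcongr
    _ = (2 * K₀ x + 1) * (C₁ : ℝ) ^ 3 * ((B : ℝ) ^ 3 / (2 ^ S.card * (Q : ℝ))) := by
        rw [hX]
        field_simp

end Pool.Agent.V7H54.A
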