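import Pool.Agent.N783.PF.Final
import Pool.Agent.N771.PF.Core
import Pool.Agent.V7H54.U.TwU

/-!
# The choice of the twist for one polynomial, from the absence of lattices

After `N771/PF/Core.lean` (helper771) and `V7H54/U/TwU.lean`.
-/

set_option autoImplicit false
set_option linter.all false

open Polynomial IsDedekindDomain Matrix NumberField WithZero
open scoped Classical

namespace Pool.Agent.V7H54.A

open Pool.Agent.N352.PJ (Mt Typ dd)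
open Pool.Agent.N874.PP (Ev Sq1 U0 S_LIN)
open Pool.Agent.N783.PQ (LocIm)
open Pool.Agent.N874.JM (LocF)
open Pool.Agent.N783.PF
open Pool.Agent.N891.PQ (cl cl_add_aux not_ev_exp locIm_one)
open Pool.Agent.N771.PF (locF_one locF_mul sep_q)

/-- No nonsquare has a unimodular lattice with the local conditions. -/
def NB {F L : Type} [Field F] [NumberField F] [Field L] [NumberField L] [Algebra F L] {g : ℕ}
    {f : (𝓞 F)[X]} {θ : L} (hG : IsGen g f θ) (S : Finset ℕ) (𝔮 : ℕ → Ideal (𝓞 F)) : Prop :=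
  ∀ (α : L) (Λ : Submodule (𝓞 F) L), α ≠ 0 → IsSquare (Algebra.norm F α) → Lat hG α Λ →
    (∀ q ∈ S, DVec hG α Λ (𝔮 q)) → IsSquare α

theorem cgq {F : Type} [Field F] [NumberField F] {g W : ℕ} {f : (𝓞 F)[X]} {S : Finset ℕ}
    {𝔮 : ℕ → Ideal (𝓞 F)} {r P : ℕ → (𝓞 F)[X]} (hS : GoodS g W S 𝔮 r P)
    (hcon : ∀ q ∈ S, Cg (sp F q) f (P q)) : ∀ q ∈ S, Cg (𝔮 q) f (X * r q) := by
  intro q hq j
  obtain ⟨-, -, -, -, -, -, hmem, -, -, -, -, -, -, hcg, -⟩ := hS q hq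
  have h1 := hcon q hq j
  have h2 : sp F q ≤ 𝔮 q := by
    rw [sp, Ideal.span_singleton_le_iff_mem]
    exact hmem
  have h3 := Ideal.add_mem _ (h2 h1) (hcg j)
  have e : f.coeff j - (X * r q).coeff j =
      f.coeff j - (P q).coeff j + ((P q).coeff j - (X * r q).coeff j) := by ring
  rw [e]
  exact h3

theorem coreA (g : ℕ) (hg : 1 ≤ g) {F : Type} [Field F] [NumberField F] {L : Type} [Field L]
    [NumberField L] [Algebra F L] {f : (𝓞 F)[X]} {θ : L} {W : ℕ} {S : Finset ℕ}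
    {𝔮 : ℕ → Ideal (𝓞 F)} {r P : ℕ → (𝓞 F)[X]} (hc : IsGen g f θ) (hsq : SqF g f)
    (hS : GoodS g W S 𝔮 r P) (hcon : ∀ q ∈ S, Cg (sp F q) f (P q)) (hnb : NB hc S 𝔮) :
    ∃ J ⊆ S, ∀ h : F[X], aeval θ h ≠ 0 → IsSquare (Algebra.norm F (aeval θ h)) →
    (∀ 𝔓 : HeightOneSpectrum (𝓞 L), (∀ q ∈ J, Ov (𝔮 q) 𝔓 → 𝔓.valuation L θ ≠ 1) →
      Ev 𝔓 (aeval θ h)) →
    (∀ q ∈ J, ∀ 𝔓 : HeightOneSpectrum (𝓞 L), Ov (𝔮 q) 𝔓 → 𝔓.valuation L θ = 1 →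
      U0 𝔓 ((q : L) * θ) (aeval θ h)) →
    (∀ w : HeightOneSpectrum (𝓞 F), (2 : 𝓞 F) ∈ w.asIdeal →
      LocF (w.adicCompletion F) (fF f) h) →
    (∀ σ : F →+* ℝ, LocIm ℝ ((fF f).map σ) (h.map σ)) → IsSquare (aeval θ h) := by
  have hEXQ : S_EXQ := exq
  have hNS : S_NS := Pool.Agent.N426.PF.ns Pool.Agent.N783.PF.int exq
  have hREC : S_REC := rec
  have hSD : S_SD := Pool.Agent.N862.PF.sd Pool.Agent.N783.PF.int
  have hTV : S_TV := Pool.Agent.N862.PF.tv Pool.Agent.N783.PF.int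
  have hCLS := Pool.Agent.N457.PQ.cls
  have hLIN := Pool.Agent.N498.PP.lin
  have hqp : ∀ q ∈ S, q.Prime := fun q hq => (hS q hq).1
  have hq2 : ∀ q ∈ S, q ≠ 2 := by
    intro q hq h
    have := (hS q hq).2.2.2.1
    rw [h] at this
    omega
  have hcg := cgq hS hcon
  have hov : ∀ q ∈ S, ∀ 𝔓 : HeightOneSpectrum (𝓞 L), Ov (𝔮 q) 𝔓 → Pool.Agent.N783.PQ.Ov q 𝔓 := by
    intro q hq 𝔓 h
    have h1 := h _ (hS q hq).2.2.2.2.2.2.1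
    rw [map_natCast] at h1
    exact h1
  have huniq : ∀ q ∈ S, ∀ q' ∈ S, ∀ 𝔓 : HeightOneSpectrum (𝓞 L), Ov (𝔮 q) 𝔓 → Ov (𝔮 q') 𝔓 →
      q = q' := by
    intro q hq q' hq' 𝔓 h h'
    by_contra hne
    have h1 : (q : 𝓞 L) ∈ 𝔓.asIdeal := hov q hq 𝔓 h
    have h2 : (q' : 𝓞 L) ∈ 𝔓.asIdeal := hov q' hq' 𝔓 h'
    have hco : Nat.Coprime q q' := (Nat.coprime_primes (hqp q hq) (hqp q' hq')).2 hne
    have h3 : IsCoprime (q : ℤ) (q' : ℤ) := Nat.isCoprime_iff_coprime.2 hco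
    obtain ⟨a, b, hab⟩ := h3
    apply 𝔓.isPrime.ne_top
    rw [Ideal.eq_top_iff_one]
    have h4 : (1 : 𝓞 L) = (a : 𝓞 L) * (q : 𝓞 L) + (b : 𝓞 L) * (q' : 𝓞 L) := by
      have := congrArg (fun z : ℤ => (z : 𝓞 L)) hab
      push_cast at this
      exact this.symm
    rw [h4]
    exact Ideal.add_mem _ (Ideal.mul_mem_left _ _ h1) (Ideal.mul_mem_left _ _ h2)
  have hex : ∀ q ∈ S, ∃ 𝔓₁ 𝔔 : HeightOneSpectrum (𝓞 L), Ov (𝔮 q) 𝔓₁ ∧ Ov (𝔮 q) 𝔔 ∧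
      𝔓₁.valuation L θ < 1 ∧ 𝔔.valuation L θ = 1 ∧ ¬ Ev 𝔔 ((q : L) * θ) ∧
      ∀ 𝔓 : HeightOneSpectrum (𝓞 L), Ov (𝔮 q) 𝔓 → 𝔓 = 𝔓₁ ∨ 𝔓 = 𝔔 := by
    intro q hq
    obtain ⟨𝔓₁, 𝔔, a1, a2, a3, a4, a5, a6, a7⟩ :=
      hEXQ g W F L f θ S 𝔮 r P hg hc hsq hS q hq (hcg q hq)
    refine ⟨𝔓₁, 𝔔, a1, a2, a3, a4, not_ev_exp ?_, a7⟩
    rw [map_mul, a6, a4, mul_one]
  haveI hne : Nonempty (HeightOneSpectrum (𝓞 L)) := by
    obtain ⟨m, hm⟩ := Ideal.exists_maximal (𝓞 L)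
    exact ⟨⟨m, hm.isPrime, Ring.ne_bot_of_isMaximal_of_not_isField hm
      (NumberField.RingOfIntegers.not_isField L)⟩⟩
  obtain ⟨𝔭, h𝔭⟩ : ∃ 𝔭 : ℕ → HeightOneSpectrum (𝓞 L), 𝔭 = fun q =>
    if hq : q ∈ S then (hex q hq).choose else Classical.arbitrary _ := ⟨_, rfl⟩
  obtain ⟨𝔔, h𝔔⟩ : ∃ 𝔔 : ℕ → HeightOneSpectrum (𝓞 L), 𝔔 = fun q =>
    if hq : q ∈ S then (hex q hq).choose_spec.choose else Classical.arbitrary _ := ⟨_, rfl⟩
  have hpq : ∀ q ∈ S, Ov (𝔮 q) (𝔭 q) ∧ Ov (𝔮 q) (𝔔 q) ∧ (𝔭 q).valuation L θ < 1 ∧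
      (𝔔 q).valuation L θ = 1 ∧ ¬ Ev (𝔔 q) ((q : L) * θ) ∧
      ∀ 𝔓 : HeightOneSpectrum (𝓞 L), Ov (𝔮 q) 𝔓 → 𝔓 = 𝔭 q ∨ 𝔓 = 𝔔 q := by
    intro q hq
    have h := (hex q hq).choose_spec.choose_spec
    rw [h𝔭, h𝔔]
    simp only [dif_pos hq]
    exact h
  -- the group `M`
  obtain ⟨M, hMd⟩ : ∃ M : Set L, M = {α | α ≠ 0 ∧ IsSquare (Algebra.norm F α) ∧
    (∀ 𝔓 : HeightOneSpectrum (𝓞 L), (∀ q ∈ S, 𝔓 ≠ 𝔔 q) → Ev 𝔓 α) ∧
    ∃ h₀ : F[X], aeval θ h₀ = α ∧ (∀ w : HeightOneSpectrum (𝓞 F), (2 : 𝓞 F) ∈ w.asIdeal →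
      LocF (w.adicCompletion F) (fF f) h₀) ∧
      (∀ σ : F →+* ℝ, LocIm ℝ ((fF f).map σ) (h₀.map σ))} := ⟨_, rfl⟩
  have hMm : ∀ α, α ∈ M ↔ α ≠ 0 ∧ IsSquare (Algebra.norm F α) ∧
    (∀ 𝔓 : HeightOneSpectrum (𝓞 L), (∀ q ∈ S, 𝔓 ≠ 𝔔 q) → Ev 𝔓 α) ∧
    ∃ h₀ : F[X], aeval θ h₀ = α ∧ (∀ w : HeightOneSpectrum (𝓞 F), (2 : 𝓞 F) ∈ w.asIdeal →
      LocF (w.adicCompletion F) (fF f) h₀) ∧
      (∀ σ : F →+* ℝ, LocIm ℝ ((fF f).map σ) (h₀.map σ)) := by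
    intro α
    rw [hMd]
    rfl
  obtain ⟨ψ, hψd⟩ : ∃ ψ : L → (S → ZMod 2 × ZMod 2), ψ = fun (α : L) (q : S) =>
    cl (𝔔 (q : ℕ)) (((q : ℕ) : L) * θ) α := ⟨_, rfl⟩
  have hϖ : ∀ q ∈ S, (q : L) * θ ≠ 0 := by
    intro q hq h0
    exact (hpq q hq).2.2.2.2.1 (by rw [h0]; exact ⟨0, by simp⟩)
  have hψ : ∀ α β : L, α ≠ 0 → β ≠ 0 → ψ (α * β) = ψ α + ψ β := by
    intro α β hα hβ
    rw [hψd]
    funext q
    have h := hCLS L q (𝔔 q) ((q : L) * θ) (hqp q q.2) (hq2 q q.2)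
      (hov q q.2 _ (hpq q q.2).2.1) (hϖ q q.2) (hpq q q.2).2.2.2.2.1 α β hα hβ
    exact Prod.ext (cl_add_aux h.1) (cl_add_aux h.2)
  have hEvmul : ∀ (𝔓 : HeightOneSpectrum (𝓞 L)) (x y : L), Ev 𝔓 x → Ev 𝔓 y → Ev 𝔓 (x * y) := by
    rintro 𝔓 x y ⟨u, hu⟩ ⟨v, hv⟩
    exact ⟨u * v, by rw [map_mul, map_mul, hu, hv, mul_pow]⟩
  have hMmul : ∀ α β, α ∈ M → β ∈ M → α * β ∈ M := by
    intro α β hα hβ
    rw [hMm] at hα hβ ⊢
    obtain ⟨h1, h2, h3, a, h4, h5, h6⟩ := hα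
    obtain ⟨h1', h2', h3', b, h4', h5', h6'⟩ := hβ
    refine ⟨mul_ne_zero h1 h1', ?_, fun 𝔓 h𝔓 => hEvmul 𝔓 _ _ (h3 𝔓 h𝔓) (h3' 𝔓 h𝔓), a * b, ?_, ?_, ?_⟩
    · rw [map_mul]
      exact h2.mul h2'
    · rw [map_mul, h4, h4']
    · intro w hw
      exact locF_mul (h5 w hw) (h5' w hw)
    · intro σ
      rw [Polynomial.map_mul]
      exact Pool.Agent.N891.PQ.LocIm.mul (h6 σ) (h6' σ)
  have hM1 : (1 : L) ∈ M := by
    rw [hMm]
    refine ⟨one_ne_zero, by rw [map_one]; exact IsSquare.one, fun 𝔓 _ => ⟨1, by rw [map_one, one_pow]⟩,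
      1, by rw [map_one], ?_, ?_⟩
    · intro w _
      exact locF_one _ _
    · intro σ
      rw [Polynomial.map_one]
      exact locIm_one _ _
  let Λ : AddSubgroup (S → ZMod 2 × ZMod 2) :=
    { carrier := {l | ∃ α ∈ M, ψ α = l}
      add_mem' := by
        rintro _ _ ⟨α, hα, rfl⟩ ⟨β, hβ, rfl⟩
        exact ⟨α * β, hMmul α β hα hβ, hψ α β ((hMm α).1 hα).1 ((hMm β).1 hβ).1⟩
      zero_mem' := by
        refine ⟨1, hM1, ?_⟩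
        have h := hψ 1 1 one_ne_zero one_ne_zero
        rw [mul_one] at h
        exact left_eq_add.1 h
      neg_mem' := by
        rintro _ ⟨α, hα, rfl⟩
        refine ⟨α, hα, ?_⟩
        rw [eq_neg_iff_add_eq_zero]
        funext Q
        exact Prod.ext (CharTwo.add_self_eq_zero _) (CharTwo.add_self_eq_zero _) }
  have hiso : ∀ l ∈ Λ, ∑ q : S, (l q).1 * (l q).2 = 0 := by
    rintro _ ⟨α, hα, rfl⟩
    obtain ⟨b1, b2, b3, h₀, b4, b5, b6⟩ := (hMm α).1 hα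
    have h := hREC g W F L f θ S 𝔮 r P hg hc hsq hS hcon 𝔔
      (fun q hq => ⟨(hpq q hq).2.1, (hpq q hq).2.2.2.1⟩) h₀ (by rw [b4]; exact b1)
      (by rw [b4]; exact b2) (by rw [b4]; exact b3) b5 b6
    rw [b4] at h
    have e1 : ∑ q : S, (ψ α q).1 * (ψ α q).2 = ∑ q ∈ S,
        (if ¬ Ev (𝔔 q) α ∧ ¬ Sq1 (𝔔 q) (α * ((q : L) * θ)) then (1 : ZMod 2) else 0) := by
      rw [← Finset.sum_coe_sort S]
      refine Finset.sum_congr rfl fun q _ => ?_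
      simp only [hψd, cl]
      by_cases he : Ev (𝔔 q) α
      · rw [if_pos he, zero_mul, if_neg (fun h => h.1 he)]
      · by_cases hs : Sq1 (𝔔 q) (α * (((q : ℕ) : L) * θ))
        · have hu : U0 (𝔔 q) (((q : ℕ) : L) * θ) α := ⟨fun h => absurd h he, fun _ => hs⟩
          rw [if_neg he, if_pos hu, mul_zero, if_neg (fun h => h.2 hs)]
        · have hu : ¬ U0 (𝔔 q) (((q : ℕ) : L) * θ) α := fun h => hs (h.2 he)
          rw [if_neg he, if_neg hu, mul_one, if_pos ⟨he, hs⟩]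
    rw [e1, Finset.sum_ite, Finset.sum_const_zero, add_zero, Finset.sum_const, nsmul_eq_mul,
      mul_one]
    exact (ZMod.natCast_eq_zero_iff_even).2 h
  obtain ⟨J, hJ⟩ := hLIN S Λ hiso
  obtain ⟨J', hJ'd⟩ : ∃ J' : Finset ℕ, J' = S.filter fun q => ∃ h : q ∈ S, (⟨q, h⟩ : S) ∈ J :=
    ⟨_, rfl⟩
  have hJ'S : J' ⊆ S := by rw [hJ'd]; exact Finset.filter_subset _ _
  refine ⟨J', hJ'S, fun h hα hN hev0 hu0 hloc hlocR => ?_⟩
  obtain ⟨α, hαdef⟩ : ∃ α : L, α = aeval θ h := ⟨_, rfl⟩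
  rw [← hαdef] at hα hN hev0 hu0 ⊢
  have hαM : α ∈ M := by
    rw [hMm]
    refine ⟨hα, hN, fun 𝔓 h𝔓 => ?_, h, hαdef.symm, hloc, hlocR⟩
    refine hev0 𝔓 fun q hq hO => ?_
    rcases (hpq q (hJ'S hq)).2.2.2.2.2 𝔓 hO with rfl | rfl
    · exact (hpq q (hJ'S hq)).2.2.1.ne
    · exact absurd rfl (h𝔓 q (hJ'S hq))
  have hz : ψ α = 0 := by
    refine hJ _ ⟨α, hαM, rfl⟩ (fun q hq => ?_) (fun q hq => ?_)
    · have hqJ : (q : ℕ) ∈ J' := by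
        rw [hJ'd]
        exact Finset.mem_filter.2 ⟨q.2, q.2, hq⟩
      rw [hψd]
      exact if_pos (hu0 q hqJ _ (hpq q q.2).2.1 (hpq q q.2).2.2.2.1)
    · have hqJ : (q : ℕ) ∉ J' := by
        rw [hJ'd]
        exact fun h => hq (Finset.mem_filter.1 h).2.2
      rw [hψd]
      refine if_pos (hev0 (𝔔 q) fun q' hq' hO => ?_)
      have : q' = (q : ℕ) := huniq q' (hJ'S hq') q q.2 _ hO (hpq q q.2).2.1
      rw [this] at hq'
      exact absurd hq' hqJ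
  have hz1 : ∀ q ∈ S, Ev (𝔔 q) α ∧ U0 (𝔔 q) ((q : L) * θ) α := by
    intro q hq
    have h1 := congrFun hz ⟨q, hq⟩
    rw [hψd] at h1
    have h2 := congrArg Prod.fst h1
    have h3 := congrArg Prod.snd h1
    constructor
    · by_contra hn
      have : (if Ev (𝔔 q) α then (0 : ZMod 2) else 1) = 0 := h2
      rw [if_neg hn] at this
      exact one_ne_zero this
    · by_contra hn
      have : (if U0 (𝔔 q) ((q : L) * θ) α then (0 : ZMod 2) else 1) = 0 := h3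
      rw [if_neg hn] at this
      exact one_ne_zero this
  have hEv : ∀ 𝔓 : HeightOneSpectrum (𝓞 L), Ev 𝔓 α := by
    intro 𝔓
    by_cases h : ∀ q ∈ S, 𝔓 ≠ 𝔔 q
    · exact ((hMm α).1 hαM).2.2.1 𝔓 h
    · push Not at h
      obtain ⟨q, hq, rfl⟩ := h
      exact (hz1 q hq).1
  have hSq : ∀ q ∈ S, ∀ 𝔓 : HeightOneSpectrum (𝓞 L), Ov (𝔮 q) 𝔓 → Sq1 𝔓 α := by
    intro q hq
    refine hNS g W F L f θ S 𝔮 r P hg hc hsq hS q hq (hcg q hq) α hα hN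
      (fun 𝔓 _ _ => hEv 𝔓) (fun 𝔓 h𝔓 hv => ?_)
    rcases (hpq q hq).2.2.2.2.2 𝔓 h𝔓 with rfl | rfl
    · exact absurd hv (hpq q hq).2.2.1.ne
    · exact (hz1 q hq).2.1 (hz1 q hq).1
  by_contra hns
  obtain ⟨Λ', hΛ, hL⟩ := hSD g F L f θ hc hsq α hα hEv
  refine hns (hnb α Λ' hα hN hL ?_)
  intro q hq
  obtain ⟨hb, hs⟩ := sep_q hg hS hq (hcg q hq)
  exact hTV g F L f θ hc hsq α Λ' hα hΛ hL (𝔮 q) (hS q hq).2.2.2.2.2.1 hb hs (hSq q hq)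

end Pool.Agent.V7H54.A

namespace Pool.Agent.V7H54.A

open Pool.Agent.V7H54
open Pool.Agent.N874.PP (Ev Sq1 U0)
open Pool.Agent.N874.PM (Lies)
open Pool.Agent.N874.JM (LocF)
open Pool.Agent.N874.QM (SelM)
open Pool.Agent.N783.PQ (LocIm)
open Pool.Agent.N783.PF

/-- From the absence of bad elements to a twist without 2-Selmer group over `K`. -/
theorem twA {F : Type} [Field F] [NumberField F] {W : ℕ} {f₁ : (𝓞 F)[X]} {S : Finset ℕ}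
    {𝔮 : ℕ → Ideal (𝓞 F)} {r P : ℕ → (𝓞 F)[X]} {f : (𝓞 F)[X]} (hf₁ : GoodF 1 W f₁)
    (hS : GoodS 1 W S 𝔮 r P) (hm : f.Monic) (hd : f.natDegree = 2 * 1 + 1)
    (htr : f.coeff 2 = 0) (hone : Cg (sp F W) f f₁) (hcon : ∀ q ∈ S, Cg (sp F q) f (P q))
    (hsq : SqF 1 f) (hnb : ∀ (L : Type) [Field L] [NumberField L] [Algebra F L] (θ : L)
      (hG : IsGen 1 f θ), NB hG S 𝔮) :
    ∃ J ⊆ S, Irreducible (fF (f.scaleRoots ((Dp J : ℕ) : 𝓞 F))) ∧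
      Min 1 (f.scaleRoots ((Dp J : ℕ) : 𝓞 F)) ∧
      ∀ (K : Type) [Field K] [NumberField K] [Algebra F K] [IsGalois F K] (n : ℕ),
      Module.finrank F K = 2 ^ n → OKK F K S f →
      SelM K ((fF (f.scaleRoots ((Dp J : ℕ) : 𝓞 F))).map (algebraMap F K)) := by
  have hg : 1 ≤ 1 := le_rfl
  have hirr : Irreducible (fF f) := Pool.Agent.N667.PF.irr F 1 W f₁ f hf₁ hone hm hd
  obtain ⟨L, _, _, _, θ, hc⟩ := Pool.Agent.N667.PF.gen F 1 f hm hd hirr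
  obtain ⟨J, hJ, hcore⟩ := coreA 1 le_rfl hc hsq hS hcon (hnb L θ hc)
  have hdF : (fF f).natDegree = 3 := by rw [hm.natDegree_map, hd]
  refine ⟨J, hJ, ?_⟩
  have hD0 : Dp J ≠ 0 := by
    rw [Dp, Finset.prod_ne_zero_iff]
    exact fun q hq => (hS q (hJ hq)).1.ne_zero
  have hmin := Pool.Agent.N547.PF.min 1 W F S J 𝔮 r P f hg hS hsq hm hd hcon hJ
  have hirrD0 : Irreducible (fF (f.scaleRoots ((Dp J : ℕ) : 𝓞 F))) := by
    rw [Pool.Agent.N170.PF.fF_scale hm]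
    exact Pool.Agent.N170.PF.irr_scale (Nat.cast_ne_zero.2 hD0) hirr
  refine ⟨hirrD0, hmin, fun K _ _ _ _ n hn hOK => ?_⟩
  have hirrK : Irreducible ((fF f).map (algebraMap F K)) :=
    irr_up hirr (hm.map _) (by rw [hdF]; decide) hn
  obtain ⟨Ω, _, _, _, _, _, _, _, hcK⟩ := exists_comp (K := K) hc hirr hirrK
  have hloc5 := locK (Ω := Ω) hc hcK hirrK hsq hf₁ hS hone hcon hJ hOK.ram hOK.spl hOK.dsc
    hOK.pos htr
  generalize hDD : Dp J = D at hD0 hloc5 hirrD0 ⊢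
  have hirrD := hirrD0
  have hD0F : (D : F) ≠ 0 := Nat.cast_ne_zero.2 hD0
  have hmD : (f.scaleRoots (D : 𝓞 F)).Monic := (monic_scaleRoots_iff (D : 𝓞 F)).2 hm
  obtain ⟨F', hF'⟩ : ∃ F' : F[X], F' = fF (f.scaleRoots (D : 𝓞 F)) := ⟨_, rfl⟩
  obtain ⟨Θ, hΘ⟩ : ∃ Θ : L, Θ = (D : L) * θ := ⟨_, rfl⟩
  rw [← hΘ] at hloc5
  have hcomp : ∀ h : F[X], aeval θ (h.comp (C (D : F) * X)) = aeval Θ h := by
    intro h
    rw [aeval_comp, map_mul, aeval_C, aeval_X, hΘ, map_natCast]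
  have hroot : aeval Θ F' = 0 := by
    have e1 := scaleRoots_eval₂_mul (p := fF f) (algebraMap F L) θ (D : F)
    have e2 : eval₂ (algebraMap F L) θ (fF f) = 0 := by
      rw [← aeval_def]
      exact hc.root
    rw [e2, mul_zero, map_natCast] at e1
    rw [hF', Pool.Agent.N170.PF.fF_scale hm, aeval_def, hΘ]
    exact e1
  have hmF' : F'.Monic := by
    rw [hF']
    exact hmD.map _
  have hdF' : F'.natDegree = 2 * 1 + 1 := by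
    rw [hF', fF, hmD.natDegree_map, natDegree_scaleRoots, hd]
  rw [← hF'] at hirrD hloc5 ⊢
  haveI hfact' : Fact (Irreducible F') := ⟨hirrD⟩
  obtain ⟨φ, hφ⟩ : ∃ φ : AdjoinRoot F' →ₐ[F] L,
    φ = AdjoinRoot.liftAlgHom F' (Algebra.ofId F _) Θ hroot := ⟨_, rfl⟩
  have hφmk : ∀ p : F[X], φ (AdjoinRoot.mk F' p) = aeval Θ p := by
    intro p
    have h1 := AdjoinRoot.liftAlgHom_mk F' (Algebra.ofId F L) Θ hroot p
    rw [Algebra.toRingHom_ofId, ← Polynomial.aeval_def] at h1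
    rw [hφ]
    exact h1
  have hφinj : Function.Injective φ := φ.toRingHom.injective
  haveI : FiniteDimensional F (AdjoinRoot F') := hmF'.finite_adjoinRoot
  haveI : FiniteDimensional F L := Module.finite_of_finrank_pos (by rw [hc.rank]; omega)
  have hrk : Module.finrank F (AdjoinRoot F') = Module.finrank F L := by
    rw [hc.rank, (AdjoinRoot.powerBasis hmF'.ne_zero).finrank, AdjoinRoot.powerBasis_dim, hdF']
  have hφsurj : Function.Surjective φ :=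
    (LinearMap.injective_iff_surjective_of_finrank_eq_finrank (f := φ.toLinearMap) hrk).1 hφinj
  obtain ⟨e, he⟩ : ∃ e : AdjoinRoot F' ≃ₐ[F] L, ∀ x, e x = φ x :=
    ⟨AlgEquiv.ofBijective φ ⟨hφinj, hφsurj⟩, fun _ => rfl⟩
  have hemk : ∀ p : F[X], e (AdjoinRoot.mk F' p) = aeval Θ p := fun p => (he _).trans (hφmk p)
  refine selM_of_base hn hirrD hmF' (by rw [hdF']; decide) ?_
  intro h hcop hnorm hloc hreal
  have hne : aeval Θ h ≠ 0 := by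
    intro h0
    obtain ⟨u, v, huv⟩ := hcop
    have := congrArg (aeval Θ) huv
    rw [map_add, map_mul, map_mul, hroot, h0, mul_zero, mul_zero, add_zero, map_one] at this
    exact zero_ne_one this
  have hnorm' : IsSquare (Algebra.norm F (aeval Θ h)) := by
    rw [← hemk, Algebra.norm_eq_of_algEquiv]
    exact hnorm
  obtain ⟨k1, k2, k3, k4⟩ := hloc5 h hne hnorm' hloc
  have hcore' := hcore (h.comp (C (D : F) * X))
  rw [hcomp] at hcore'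
  obtain ⟨y, hy⟩ := hcore' hne hnorm' k1 k2 k3 k4
  obtain ⟨z, rfl⟩ := hφsurj y
  obtain ⟨s, rfl⟩ := AdjoinRoot.mk_surjective z
  refine ⟨s, ?_⟩
  rw [← AdjoinRoot.mk_eq_zero]
  apply hφinj
  rw [map_zero, hφmk, map_sub, map_pow, sub_eq_zero]
  rw [hφmk] at hy
  rw [pow_two]
  exact hy

end Pool.Agent.V7H54.A
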