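import Pool.Agent.N783.PQ.Def

/-!
# Characteristic polynomials of pairs of ternary forms
-/

set_option autoImplicit false
set_option linter.all false

open Polynomial Matrix

namespace Pool.Agent.V7H54.A

open Pool.Agent.N783.PQ (chp)

variable {K : Type} [Field K]

theorem cp3 (h2 : (2 : K) ≠ 0) (M : Matrix (Fin 3) (Fin 3) K) (a t : K)
    (h : M.charpoly = X ^ 3 + C a * X + C t) :
    M 0 0 + M 1 1 + M 2 2 = 0 ∧
    M 0 0 * M 1 1 - M 0 1 * M 1 0 + (M 0 0 * M 2 2 - M 0 2 * M 2 0) +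
      (M 1 1 * M 2 2 - M 1 2 * M 2 1) = a ∧
    M 0 0 * M 1 1 * M 2 2 - M 0 0 * M 1 2 * M 2 1 - M 0 1 * M 1 0 * M 2 2 +
      M 0 1 * M 1 2 * M 2 0 + M 0 2 * M 1 0 * M 2 1 - M 0 2 * M 1 1 * M 2 0 = -t := by
  have hev : ∀ x : K, x ^ 3 - (M 0 0 + M 1 1 + M 2 2) * x ^ 2 +
      (M 0 0 * M 1 1 - M 0 1 * M 1 0 + (M 0 0 * M 2 2 - M 0 2 * M 2 0) +
      (M 1 1 * M 2 2 - M 1 2 * M 2 1)) * x -
      (M 0 0 * M 1 1 * M 2 2 - M 0 0 * M 1 2 * M 2 1 - M 0 1 * M 1 0 * M 2 2 +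
      M 0 1 * M 1 2 * M 2 0 + M 0 2 * M 1 0 * M 2 1 - M 0 2 * M 1 1 * M 2 0) =
      x ^ 3 + a * x + t := by
    intro x
    have h1 := congrArg (Polynomial.eval x) h
    rw [Matrix.eval_charpoly, Matrix.det_fin_three] at h1
    simp only [eval_add, eval_mul, eval_pow, eval_X, eval_C, Matrix.sub_apply,
      Matrix.scalar_apply, Matrix.diagonal_apply_eq] at h1
    rw [Matrix.diagonal_apply_ne _ (by decide : (0 : Fin 3) ≠ 1),
      Matrix.diagonal_apply_ne _ (by decide : (0 : Fin 3) ≠ 2),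
      Matrix.diagonal_apply_ne _ (by decide : (1 : Fin 3) ≠ 0),
      Matrix.diagonal_apply_ne _ (by decide : (1 : Fin 3) ≠ 2),
      Matrix.diagonal_apply_ne _ (by decide : (2 : Fin 3) ≠ 0),
      Matrix.diagonal_apply_ne _ (by decide : (2 : Fin 3) ≠ 1)] at h1
    linear_combination h1
  have e0 := hev 0
  have e1 := hev 1
  have e2 := hev (-1)
  have htr : M 0 0 + M 1 1 + M 2 2 = 0 := by
    have : 2 * (M 0 0 + M 1 1 + M 2 2) = 0 := by linear_combination 2 * e0 - e1 - e2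
    exact (mul_eq_zero.1 this).resolve_left h2
  refine ⟨htr, ?_, ?_⟩
  · linear_combination e1 - e0 + htr
  · linear_combination -e0

theorem inv_anti {P r : K} (hP : P ≠ 0) (hr : r ≠ 0) :
    (!![0, 0, P; 0, r, 0; P, 0, 0] : Matrix (Fin 3) (Fin 3) K)⁻¹ =
      !![0, 0, P⁻¹; 0, r⁻¹, 0; P⁻¹, 0, 0] := by
  refine Matrix.inv_eq_right_inv ?_
  ext i j
  fin_cases i <;> fin_cases j <;>
    simp [Matrix.mul_apply, Fin.sum_univ_three, mul_inv_cancel₀ hP, mul_inv_cancel₀ hr]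

theorem chp_anti (h2 : (2 : K) ≠ 0) {P r : K} (hP : P ≠ 0) (hr : r ≠ 0) {a b c d e β A t : K}
    (h : chp (g := 1) (!![0, 0, P; 0, r, 0; P, 0, 0] : Matrix (Fin 3) (Fin 3) K)
      !![a, b, c; b, β, d; c, d, e] = X ^ 3 + C A * X + C t) :
    P * β = -(2 * r * c) ∧ r * a * e + 2 * P * b * d + 3 * r * c ^ 2 = -(A * r * P ^ 2) ∧
    P * (a * d ^ 2 + b ^ 2 * e - 2 * b * c * d) + 2 * r * c * (a * e - c ^ 2) =
      -(t * (r * P ^ 3)) := by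
  unfold chp at h
  have hM : (!![0, 0, P; 0, r, 0; P, 0, 0] : Matrix (Fin 3) (Fin 3) K)⁻¹ *
      !![a, b, c; b, β, d; c, d, e] =
      !![c * P⁻¹, d * P⁻¹, e * P⁻¹; b * r⁻¹, β * r⁻¹, d * r⁻¹; a * P⁻¹, b * P⁻¹, c * P⁻¹] := by
    rw [inv_anti hP hr]
    ext i j
    fin_cases i <;> fin_cases j <;> simp [Matrix.mul_apply, Fin.sum_univ_three, mul_comm]
  have h' : ((!![0, 0, P; 0, r, 0; P, 0, 0] : Matrix (Fin 3) (Fin 3) K)⁻¹ *
      !![a, b, c; b, β, d; c, d, e]).charpoly = X ^ 3 + C A * X + C t := h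
  rw [hM] at h'
  obtain ⟨h3, h4, h5⟩ := cp3 h2 _ _ _ h'
  replace h3 : c * P⁻¹ + β * r⁻¹ + c * P⁻¹ = 0 := h3
  replace h4 : c * P⁻¹ * (β * r⁻¹) - d * P⁻¹ * (b * r⁻¹) +
      (c * P⁻¹ * (c * P⁻¹) - e * P⁻¹ * (a * P⁻¹)) +
      (β * r⁻¹ * (c * P⁻¹) - d * r⁻¹ * (b * P⁻¹)) = A := h4
  replace h5 : c * P⁻¹ * (β * r⁻¹) * (c * P⁻¹) - c * P⁻¹ * (d * r⁻¹) * (b * P⁻¹) -
      d * P⁻¹ * (b * r⁻¹) * (c * P⁻¹) + d * P⁻¹ * (d * r⁻¹) * (a * P⁻¹) +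
      e * P⁻¹ * (b * r⁻¹) * (b * P⁻¹) - e * P⁻¹ * (β * r⁻¹) * (a * P⁻¹) = -t := h5
  have hβ : P * β = -(2 * r * c) := by
    field_simp at h3
    linear_combination h3
  have hβ' : β = -(2 * r * c) * P⁻¹ := by
    rw [← hβ]
    field_simp
  refine ⟨hβ, ?_, ?_⟩
  · rw [hβ'] at h4
    field_simp at h4
    linear_combination (-1 : K) * h4
  · rw [hβ'] at h5
    field_simp at h5
    linear_combination h5

end Pool.Agent.V7H54.A
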