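import Mathlib

/-!
# Primes modulo which `-a` is not a square
-/

set_option autoImplicit false
set_option linter.all false

open scoped NumberTheorySymbols

namespace Pool.Agent.V7H54.A

theorem exq1 {a : ℕ} (ha : 0 < a) (hodd : Odd a) (hns : ¬ IsSquare a) (W : ℕ) :
    ∃ q : ℕ, W < q ∧ q.Prime ∧ q % 8 = 1 ∧ ∀ n : ℤ, ¬ (q : ℤ) ∣ n ^ 2 + a := by
  obtain ⟨s, b, hsb, hsq⟩ := Nat.sq_mul_squarefree a
  have hs1 : s ≠ 1 := by
    rintro rfl
    apply hns
    rw [← hsb]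
    exact ⟨b, by ring⟩
  obtain ⟨p, hp, hps⟩ := Nat.exists_prime_and_dvd hs1
  obtain ⟨s', rfl⟩ := hps
  have hb0 : b ≠ 0 := by
    rintro rfl
    rw [zero_pow two_ne_zero, zero_mul] at hsb
    omega
  have hsodd : Odd (p * s') := by
    rw [← hsb] at hodd
    exact (Nat.odd_mul.1 hodd).2
  have hpodd : Odd p := (Nat.odd_mul.1 hsodd).1
  have hs'odd : Odd s' := (Nat.odd_mul.1 hsodd).2
  have hcop : Nat.Coprime p s' := by
    rw [Nat.Prime.coprime_iff_not_dvd hp]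
    rintro ⟨c, rfl⟩
    have := hsq p ⟨c, by ring⟩
    rw [Nat.isUnit_iff] at this
    exact hp.one_lt.ne' this
  have hp2 : p ≠ 2 := by
    rintro rfl
    exact absurd hpodd (by decide)
  haveI : Fact p.Prime := ⟨hp⟩
  obtain ⟨ν, hν⟩ := FiniteField.exists_nonsquare (F := ZMod p) (by rw [ZMod.ringChar_zmod_n]; exact hp2)
  have h8p : Nat.Coprime (8 * s') p := by
    refine Nat.Coprime.mul_left ?_ hcop.symm
    have : Nat.Coprime (2 ^ 3) p := Nat.Coprime.pow_left 3 (Nat.coprime_two_left.2 hpodd)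
    simpa using this
  obtain ⟨x, hx1, hx2⟩ := Nat.chineseRemainder h8p 1 ν.val
  have hs'0 : s' ≠ 0 := by
    rintro rfl
    exact absurd hs'odd (by decide)
  have hN0 : 8 * s' * p ≠ 0 := mul_ne_zero (mul_ne_zero (by norm_num) hs'0) hp.ne_zero
  haveI : NeZero (8 * s' * p) := ⟨hN0⟩
  have hxp : (x : ZMod p) = ν := by
    have := (ZMod.natCast_eq_natCast_iff _ _ _).2 hx2
    rw [this, ZMod.natCast_zmod_val]
  have hν0 : ν ≠ 0 := by
    rintro rfl
    exact hν ⟨0, by simp⟩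
  have hxu : IsUnit ((x : ℕ) : ZMod (8 * s' * p)) := by
    rw [ZMod.isUnit_iff_coprime]
    refine Nat.Coprime.mul_right ?_ ?_
    · have := hx1.gcd_eq
      rw [Nat.gcd_one_left] at this
      exact this
    · rw [Nat.coprime_comm, Nat.Prime.coprime_iff_not_dvd hp]
      intro hd
      apply hν0
      rw [← hxp]
      exact (ZMod.natCast_eq_zero_iff _ _).2 hd
  obtain ⟨q, hqW, hqp, hqx⟩ := Nat.forall_exists_prime_gt_and_eq_mod hxu (W + a + b)
  have hqm : q ≡ x [MOD 8 * s' * p] := (ZMod.natCast_eq_natCast_iff _ _ _).1 hqx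
  have hq8s : q ≡ 1 [MOD 8 * s'] := (hqm.of_mul_right p).trans hx1
  have hq8 : q % 8 = 1 := by
    have := hq8s.of_mul_right s'
    exact this
  have hqs' : q ≡ 1 [MOD s'] := hq8s.of_mul_left 8
  have hqpν : (q : ZMod p) = ν := by
    rw [← hxp]
    exact (ZMod.natCast_eq_natCast_iff _ _ _).2 (hqm.of_mul_left _)
  refine ⟨q, by omega, hqp, hq8, fun n hn => ?_⟩
  haveI : Fact q.Prime := ⟨hqp⟩
  have hq4 : q % 4 = 1 := by omega
  -- the symbol
  have hJ : jacobiSym (q : ℤ) (p * s') = -1 := by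
    rw [jacobiSym.mul_right' _ hp.ne_zero hs'0]
    have h1 : jacobiSym (q : ℤ) p = -1 := by
      rw [← jacobiSym.legendreSym.to_jacobiSym, legendreSym.eq_neg_one_iff]
      push_cast
      rw [hqpν]
      exact hν
    have h2 : jacobiSym (q : ℤ) s' = 1 := by
      rw [jacobiSym.mod_left]
      have h3 : (q : ℤ) % s' = (1 : ℤ) % s' := by
        have : q % s' = 1 % s' := hqs'
        exact_mod_cast this
      rw [h3, ← jacobiSym.mod_left, jacobiSym.one_left]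
    rw [h1, h2]
    norm_num
  have hJ2 : jacobiSym ((p * s' : ℕ) : ℤ) q = -1 := by
    rw [← hJ]
    exact (jacobiSym.quadratic_reciprocity_one_mod_four hq4 hsodd).symm
  have hL : legendreSym q ((p * s' : ℕ) : ℤ) = -1 := by
    rw [jacobiSym.legendreSym.to_jacobiSym]
    exact hJ2
  -- contradiction
  have hbq : (b : ZMod q) ≠ 0 := by
    intro h0
    have h1 := (ZMod.natCast_eq_zero_iff _ _).1 h0
    have := Nat.le_of_dvd (Nat.pos_of_ne_zero hb0) h1
    omega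
  have hn' : (n : ZMod q) ^ 2 + (a : ZMod q) = 0 := by
    have := (ZMod.intCast_zmod_eq_zero_iff_dvd (n ^ 2 + a) q).2 hn
    push_cast at this
    exact this
  have hm1 : IsSquare (-1 : ZMod q) := by
    rw [ZMod.exists_sq_eq_neg_one_iff]
    omega
  obtain ⟨i, hi⟩ := hm1
  rw [legendreSym.eq_neg_one_iff] at hL
  apply hL
  refine ⟨i * n * (b : ZMod q)⁻¹, ?_⟩
  have h5 : (a : ZMod q) = (b : ZMod q) ^ 2 * (((p * s' : ℕ) : ℤ) : ZMod q) := by
    rw [← hsb]
    push_cast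
    rfl
  have h6 : (((p * s' : ℕ) : ℤ) : ZMod q) = (a : ZMod q) * ((b : ZMod q)⁻¹) ^ 2 := by
    rw [h5]
    field_simp
  rw [h6]
  have h7 : (a : ZMod q) = i * i * (n : ZMod q) ^ 2 := by
    rw [← hi]
    linear_combination hn'
  rw [h7]
  ring

theorem exS {a : ℕ} (ha : 0 < a) (hodd : Odd a) (hns : ¬ IsSquare a) (W m : ℕ) :
    ∃ S : Finset ℕ, S.card = m ∧ ∀ q ∈ S, W < q ∧ q.Prime ∧ q % 8 = 1 ∧
      ∀ n : ℤ, ¬ (q : ℤ) ∣ n ^ 2 + a := by
  obtain ⟨s, hs⟩ : ∃ s : Set ℕ, s = {q | W < q ∧ q.Prime ∧ q % 8 = 1 ∧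
      ∀ n : ℤ, ¬ (q : ℤ) ∣ n ^ 2 + a} := ⟨_, rfl⟩
  have hinf : s.Infinite := by
    refine Set.infinite_of_forall_exists_gt fun n => ?_
    obtain ⟨q, h1, h2, h3, h4⟩ := exq1 ha hodd hns (W + n)
    exact ⟨q, by rw [hs]; exact ⟨by omega, h2, h3, h4⟩, by omega⟩
  obtain ⟨S, hS1, hS2⟩ := hinf.exists_subset_card_eq m
  refine ⟨S, hS2, fun q hq => ?_⟩
  have := hS1 hq
  rw [hs] at this
  exact this

end Pool.Agent.V7H54.A
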