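import Pool.Agent.V7H54.A.Ma
import Pool.Agent.V7H54.FinK

/-!
# The theorem for elliptic curves: one parameter
-/

set_option autoImplicit false
set_option linter.all false

open Polynomial NumberField IsDedekindDomain
open scoped Classical

namespace Pool.Agent.V7H54.A

open Pool.Agent.V7H54
open Pool.Agent.V7H54.U (Ext)
open Pool.Agent.N783.PF
open Pool.Agent.N61.PF (disc_ne)
open Pool.Agent.N874.PP (sW)
open Pool.Agent.TH115.GD (Pt)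
open Pool.Agent.N874.QM (SelC ShaC SelM)

theorem ht_big (A t : ℤ) : ∃ B : ℕ, Ht 1 B (pol A t) := by
  refine ⟨A.natAbs + t.natAbs + 1, pol_mon _ _, pol_deg _ _, pol_c2 _ _, fun j hj σ => ?_⟩
  have hj' : j = 0 ∨ j = 1 ∨ j = 2 := by omega
  have hB1 : (1 : ℝ) ≤ ((A.natAbs + t.natAbs + 1 : ℕ) : ℝ) := by
    have : 1 ≤ A.natAbs + t.natAbs + 1 := by omega
    exact_mod_cast this
  have hA : |(A : ℝ)| ≤ ((A.natAbs + t.natAbs + 1 : ℕ) : ℝ) := by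
    rw [← Int.cast_abs, Int.abs_eq_natAbs, Int.cast_natCast]
    have : A.natAbs ≤ A.natAbs + t.natAbs + 1 := by omega
    exact_mod_cast this
  have ht : |(t : ℝ)| ≤ ((A.natAbs + t.natAbs + 1 : ℕ) : ℝ) := by
    rw [← Int.cast_abs, Int.abs_eq_natAbs, Int.cast_natCast]
    have : t.natAbs ≤ A.natAbs + t.natAbs + 1 := by omega
    exact_mod_cast this
  rcases hj' with rfl | rfl | rfl
  · rw [pol_c0]
    have e : (((t : 𝓞 ℚ)) : ℚ) = (t : ℚ) := by simp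
    rw [e, norm_rat]
    refine ht.trans ?_
    simp only [Nat.sub_zero]
    exact le_self_pow₀ hB1 (by norm_num)
  · rw [pol_c1]
    have e : (((A : 𝓞 ℚ)) : ℚ) = (A : ℚ) := by simp
    rw [e, norm_rat]
    exact hA.trans (le_self_pow₀ hB1 (by norm_num))
  · have h : (pol A t).coeff 2 = 0 := pol_c2 _ _
    rw [h]
    simp only [RingOfIntegers.coe_eq_zero_iff, map_zero, norm_zero]
    simp
    positivity

/-- `𝓞 ℚ` modulo the prime `p`. -/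
theorem quot_zmod (p : ℕ) (hp : p.Prime) :
    ∃ e : 𝓞 ℚ ⧸ sp ℚ p →+* ZMod p, Function.Bijective e := by
  haveI : Fact p.Prime := ⟨hp⟩
  haveI := (sp_prime hp).isMaximal (sp_ne_bot hp)
  haveI : CharP (𝓞 ℚ ⧸ sp ℚ p) p := by
    refine ⟨fun n => ?_⟩
    have h := mem_sp p (n : ℤ)
    rw [← map_natCast (Ideal.Quotient.mk (sp ℚ p)), Ideal.Quotient.eq_zero_iff_mem]
    rw [show ((n : ℕ) : 𝓞 ℚ) = ((n : ℤ) : 𝓞 ℚ) by simp, h]
    exact_mod_cast Iff.rfl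
  have hb : Function.Bijective (ZMod.castHom (dvd_refl p) (𝓞 ℚ ⧸ sp ℚ p)) := by
    refine ⟨(ZMod.castHom (dvd_refl p) (𝓞 ℚ ⧸ sp ℚ p)).injective, fun x => ?_⟩
    obtain ⟨y, rfl⟩ := Ideal.Quotient.mk_surjective x
    obtain ⟨n, rfl⟩ := okq y
    refine ⟨(n : ZMod p), ?_⟩
    rw [map_intCast, map_intCast]
  refine ⟨(RingEquiv.ofBijective _ hb).symm.toRingHom, (RingEquiv.ofBijective _ hb).symm.bijective⟩

theorem irr_zmod {p : ℕ} (hp : p.Prime) (A t : ℤ) :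
    Irreducible (rd (sp ℚ p) (pol A t)) ↔
      Irreducible (X ^ 3 + C (A : ZMod p) * X + C (t : ZMod p) : (ZMod p)[X]) := by
  obtain ⟨e, he⟩ := quot_zmod p hp
  have h1 : (rd (sp ℚ p) (pol A t)).map e =
      (X ^ 3 + C (A : ZMod p) * X + C (t : ZMod p) : (ZMod p)[X]) := by
    unfold pol rd
    rw [Polynomial.map_map]
    simp
  have h2 : (Polynomial.mapEquiv (RingEquiv.ofBijective e he)) (rd (sp ℚ p) (pol A t)) =
      (X ^ 3 + C (A : ZMod p) * X + C (t : ZMod p) : (ZMod p)[X]) := by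
    rw [← h1]
    rfl
  rw [← h2]
  exact (MulEquiv.irreducible_iff (Polynomial.mapEquiv (RingEquiv.ofBijective e he))).symm

theorem not_mem_sq {p : ℕ} (hp : p.Prime) {𝔔 : Ideal (𝓞 ℚ)} (h𝔔 : 𝔔.IsPrime) :
    ((p : ℤ) : 𝓞 ℚ) ∉ 𝔔 ^ 2 := by
  intro hm
  by_cases hb : 𝔔 = ⊥
  · subst hb
    have h1 : ((p : ℤ) : 𝓞 ℚ) = 0 := by
      have := Ideal.pow_le_self two_ne_zero hm
      rwa [Ideal.mem_bot] at this
    exact hp.ne_zero (by exact_mod_cast h1)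
  · obtain ⟨q, hq, rfl⟩ := prime_eq h𝔔 hb
    rw [sp_sq, mem_sp] at hm
    have h1 : q ^ 2 ∣ p := by exact_mod_cast hm
    have h2 : q = p := (Nat.prime_dvd_prime_iff_eq hq hp).1 ((dvd_pow_self q two_ne_zero).trans h1)
    subst h2
    have h3 := Nat.le_of_dvd hq.pos h1
    have h4 := hq.two_le
    nlinarith

theorem unr_q (w : HeightOneSpectrum (𝓞 ℚ)) : Unr ℚ ℚ w := by
  obtain ⟨p, hp, hw⟩ := prime_eq w.isPrime w.ne_bot
  intro 𝔔 h𝔔 hle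
  refine not_mem_sq hp h𝔔 (hle ?_)
  have h1 : ((p : ℤ) : 𝓞 ℚ) ∈ w.asIdeal := by
    rw [hw, mem_sp]
  have h2 := Ideal.mem_map_of_mem (algebraMap (𝓞 ℚ) (𝓞 ℚ)) h1
  rwa [map_intCast] at h2

theorem card_sp {p : ℕ} (hp : p.Prime) {𝔔 : Ideal (𝓞 ℚ)} (h𝔔 : 𝔔.IsPrime)
    (hm : ((p : ℤ) : 𝓞 ℚ) ∈ 𝔔) : Nat.card (𝓞 ℚ ⧸ 𝔔) = p := by
  have hb : 𝔔 ≠ ⊥ := by
    rintro rfl
    rw [Ideal.mem_bot] at hm
    exact hp.ne_zero (by exact_mod_cast hm)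
  obtain ⟨q, hq, rfl⟩ := prime_eq h𝔔 hb
  rw [mem_sp] at hm
  have h1 : q = p := (Nat.prime_dvd_prime_iff_eq hq hp).1 (by exact_mod_cast hm)
  subst h1
  obtain ⟨e, he⟩ := quot_zmod q hq
  rw [Nat.card_congr (Equiv.ofBijective e he), Nat.card_zmod]

theorem ext_q {S : Finset ℕ} (hS : ∀ q ∈ S, q.Prime) (f : (𝓞 ℚ)[X]) : Ext ℚ S f ℚ := by
  refine ⟨inferInstance, ⟨0, by simp⟩, fun w _ => unr_q w, fun q hq 𝔔 h𝔔 => ⟨fun h => ?_, fun h => ?_⟩,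
    fun w hw => absurd (unr_q w) hw⟩
  · exact not_mem_sq (hS q hq) h𝔔 (by simpa using h)
  · exact card_sp (hS q hq) h𝔔 (by simpa using h)

theorem good_pol {S : Finset ℕ} {A t : ℤ} (hirr : Irreducible (fF (pol A t)))
    (hsel : ∀ (K : Type) [Field K] [NumberField K] [Algebra ℚ K], Ext ℚ S (pol A t) K →
      SelM K ((fF (pol A t)).map (algebraMap ℚ K)))
    (K : Type) [Field K] [NumberField K] [Algebra ℚ K] (hE : Ext ℚ S (pol A t) K) :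
    SelC (sW (A : K) (t : K)) ∧ ShaC (sW (A : K) (t : K)) ∧ Finite (Pt (sW (A : K) (t : K)) K) ∧
      Odd (Nat.card (Pt (sW (A : K) (t : K)) K)) := by
  obtain ⟨n, hn⟩ := hE.deg
  obtain ⟨B, hB⟩ := ht_big A t
  have h := good_ofK n hn hB hirr (hsel K hE)
  have e1 : algebraMap ℚ K (((pol A t).coeff 1 : 𝓞 ℚ) : ℚ) = (A : K) := by
    rw [pol_c1]
    simp
  have e0 : algebraMap ℚ K (((pol A t).coeff 0 : 𝓞 ℚ) : ℚ) = (t : K) := by
    rw [pol_c0]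
    simp
  obtain ⟨h1, h2, h3, h4⟩ := h
  simp only [e1, e0] at h1 h2 h3 h4
  exact ⟨h1, h2, h3, h4⟩

theorem min_pol {A t : ℤ} (h : Min 1 (pol A t)) (p : ℕ) (hp : p.Prime) :
    ¬ ((p : ℤ) ^ 4 ∣ A ∧ (p : ℤ) ^ 6 ∣ t) := by
  rintro ⟨h4, h6⟩
  have hpw : ∀ n : ℕ, sp ℚ p ^ n = sp ℚ (p ^ n) := fun n => by
    rw [sp, sp, Ideal.span_singleton_pow, Nat.cast_pow]
  refine h (sp ℚ p) (sp_prime hp) (sp_ne_bot hp) fun j hj => ?_
  have hj' : j = 0 ∨ j = 1 ∨ j = 2 := by omega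
  rcases hj' with rfl | rfl | rfl
  · rw [pol_c0, hpw, mem_sp]
    push_cast
    exact h6
  · rw [pol_c1, hpw, mem_sp]
    push_cast
    exact h4
  · have h2 : (pol A t).coeff 2 = 0 := pol_c2 _ _
    rw [h2]
    exact Ideal.zero_mem _

theorem disc_pol {A t : ℤ} (hirr : Irreducible (fF (pol A t))) : 4 * A ^ 3 + 27 * t ^ 2 ≠ 0 := by
  have e : fF (pol A t) = X ^ 3 + C (A : ℚ) * X + C (t : ℚ) := by
    unfold pol fF
    simp
  rw [e] at hirr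
  have := disc_ne hirr
  exact_mod_cast this

end Pool.Agent.V7H54.A
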