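import Pool.Agent.V7H54.A.Wy

/-!
# The number of values of a quadratic polynomial in a short interval modulo `u`
-/

set_option autoImplicit false
set_option linter.all false

open scoped Real
open Finset

namespace Pool.Agent.V7H54.A

theorem ex_re (t : ℝ) : (ex t).re = Real.cos (2 * π * t) := by
  unfold ex
  rw [mul_comm Complex.I, Complex.exp_ofReal_mul_I_re]

theorem fejer (u R : ℕ) (hu : 0 < u) (y : ℤ) (hy : 8 * R * |(y : ℝ)| ≤ u) :
    (R : ℝ) ^ 2 / 2 ≤ ‖∑ j ∈ range R, ex ((j : ℝ) * y / u)‖ ^ 2 := by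
  have hu0 : (0 : ℝ) < u := by exact_mod_cast hu
  have h1 : (R : ℝ) * (√2 / 2) ≤ ‖∑ j ∈ range R, ex ((j : ℝ) * y / u)‖ := by
    refine le_trans ?_ (Complex.re_le_norm _)
    rw [Complex.re_sum]
    have h2 : ∀ j ∈ range R, √2 / 2 ≤ (ex ((j : ℝ) * y / u)).re := by
      intro j hj
      rw [mem_range] at hj
      rw [ex_re, ← Real.cos_pi_div_four, ← Real.cos_abs (2 * π * ((j : ℝ) * y / u))]
      refine Real.cos_le_cos_of_nonneg_of_le_pi (abs_nonneg _) (by linarith [Real.pi_pos]) ?_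
      rw [abs_mul, abs_of_pos (by positivity : 0 < 2 * π), abs_div, abs_mul, abs_of_pos hu0,
        abs_of_nonneg (by positivity : (0 : ℝ) ≤ j)]
      have h3 : (j : ℝ) * |(y : ℝ)| / u ≤ 1 / 8 := by
        rw [div_le_iff₀ hu0]
        have h4 : (j : ℝ) ≤ R := by exact_mod_cast hj.le
        nlinarith [abs_nonneg (y : ℝ)]
      nlinarith [Real.pi_pos]
    have h3 := card_nsmul_le_sum _ _ _ h2
    rw [card_range, nsmul_eq_mul] at h3
    exact h3
  have h2 : (0 : ℝ) ≤ (R : ℝ) * (√2 / 2) := by positivity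
  have h3 := pow_le_pow_left₀ h2 h1 2
  refine le_trans (le_of_eq ?_) h3
  rw [mul_pow, div_pow, Real.sq_sqrt (by norm_num)]
  ring

theorem fw (u : ℕ) (hu : 0 < u) (A₂ A₁ A₀ s : ℤ) (n R G : ℕ) (hR : 1 ≤ R) (Y : ℝ)
    (hY : 8 * R * Y ≤ u) (hG : ∀ h : ℤ, h ≠ 0 → |h| < R → Int.gcd (2 * (h * A₂)) u ≤ G)
    (T : Finset ℤ) (hT : ∀ x ∈ T, x ∈ Ico s (s + n) ∧ ∃ y : ℤ, |(y : ℝ)| ≤ Y ∧
      (u : ℤ) ∣ A₂ * x ^ 2 + A₁ * x + A₀ - y) :
    (T.card : ℝ) ≤ 2 * n / R + 2 * √((2 * n * G / u + 1) * (n + u * (1 + Real.log u))) := by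
  have hu0 : (0 : ℝ) < u := by exact_mod_cast hu
  have hR0 : (0 : ℝ) < R := by exact_mod_cast hR
  obtain ⟨H, hH⟩ : ∃ H : ℤ → ℤ, H = fun x => A₂ * x ^ 2 + A₁ * x + A₀ := ⟨_, rfl⟩
  obtain ⟨J, hJ⟩ : ∃ J : Finset ℤ, J = Ico s (s + n) := ⟨_, rfl⟩
  obtain ⟨M, hM⟩ : ∃ M : ℝ, M = √((2 * n * G / u + 1) * (n + u * (1 + Real.log u))) := ⟨_, rfl⟩
  rw [← hM]
  have hlog : 0 ≤ Real.log u := Real.log_natCast_nonneg u
  have hM0 : 0 ≤ M := by rw [hM]; exact Real.sqrt_nonneg _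
  have hJc : (J.card : ℝ) = n := by
    rw [hJ, Int.card_Ico]
    have : (s + (n : ℤ) - s).toNat = n := by omega
    rw [this]
  -- each element of `T` contributes
  have h1 : (T.card : ℝ) * ((R : ℝ) ^ 2 / 2) ≤
      ∑ x ∈ J, ‖∑ j ∈ range R, ex ((j : ℝ) * (H x) / u)‖ ^ 2 := by
    have hTJ : T ⊆ J := fun x hx => by rw [hJ]; exact (hT x hx).1
    refine le_trans ?_ (sum_le_sum_of_subset_of_nonneg hTJ fun x _ _ => by positivity)
    rw [← nsmul_eq_mul]
    refine card_nsmul_le_sum _ _ _ fun x hx => ?_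
    obtain ⟨-, y, hy1, m, hm⟩ := hT x hx
    have h2 : ∑ j ∈ range R, ex ((j : ℝ) * (H x) / u) = ∑ j ∈ range R, ex ((j : ℝ) * y / u) := by
      refine sum_congr rfl fun j _ => ?_
      have h3 : H x = y + u * m := by
        rw [hH]
        linarith
      rw [h3]
      have h4 : (j : ℝ) * ((y + u * m : ℤ) : ℝ) / u = (j : ℝ) * y / u + ((j * m : ℤ) : ℝ) := by
        push_cast
        field_simp
      rw [h4, ex_add_int]
    rw [h2]
    refine fejer u R hu y ?_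
    calc 8 * (R : ℝ) * |(y : ℝ)| ≤ 8 * R * Y := by gcongr
      _ ≤ u := hY
  -- the sum of the squares
  have h2 : ∑ x ∈ J, ‖∑ j ∈ range R, ex ((j : ℝ) * (H x) / u)‖ ^ 2 ≤ R * n + R ^ 2 * M := by
    have h3 : ∀ x ∈ J, ((‖∑ j ∈ range R, ex ((j : ℝ) * (H x) / u)‖ ^ 2 : ℝ) : ℂ) =
        ∑ p ∈ range R ×ˢ range R, ex (((((p.1 : ℤ) - p.2) * H x : ℤ) : ℝ) / u) := by
      intro x _
      rw [← Complex.normSq_eq_norm_sq, ← Complex.mul_conj, map_sum, sum_mul_sum, ← sum_product']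
      refine sum_congr rfl fun p _ => ?_
      rw [ex_conj, ← ex_add]
      congr 1
      push_cast
      ring
    have h4 : ((∑ x ∈ J, ‖∑ j ∈ range R, ex ((j : ℝ) * (H x) / u)‖ ^ 2 : ℝ) : ℂ) =
        ∑ p ∈ range R ×ˢ range R, ∑ x ∈ J, ex (((((p.1 : ℤ) - p.2) * H x : ℤ) : ℝ) / u) := by
      rw [Complex.ofReal_sum, sum_comm]
      exact sum_congr rfl h3
    have h5 : ∑ x ∈ J, ‖∑ j ∈ range R, ex ((j : ℝ) * (H x) / u)‖ ^ 2 ≤
        ∑ p ∈ range R ×ˢ range R,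
          ‖∑ x ∈ J, ex (((((p.1 : ℤ) - p.2) * H x : ℤ) : ℝ) / u)‖ := by
      have h6 := congrArg (‖·‖) h4
      simp only [Complex.norm_real, Real.norm_eq_abs] at h6
      refine (le_abs_self _).trans ?_
      rw [h6]
      exact norm_sum_le _ _
    refine h5.trans ?_
    have h6 : ∀ p ∈ range R ×ˢ range R,
        ‖∑ x ∈ J, ex (((((p.1 : ℤ) - p.2) * H x : ℤ) : ℝ) / u)‖ ≤
          (if p.1 = p.2 then (n : ℝ) else 0) + M := by
      intro p hp
      rw [mem_product, mem_range, mem_range] at hp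
      by_cases h7 : p.1 = p.2
      · rw [if_pos h7]
        refine (norm_sum_le _ _).trans ?_
        simp only [ex_norm, sum_const, nsmul_eq_mul, mul_one]
        rw [hJc]
        linarith
      · rw [if_neg h7, zero_add, hM]
        apply Real.le_sqrt_of_sq_le
        have h8 : ((p.1 : ℤ) - p.2) ≠ 0 := by omega
        have h9 := weyl u hu (((p.1 : ℤ) - p.2) * A₂) (((p.1 : ℤ) - p.2) * A₁)
          (((p.1 : ℤ) - p.2) * A₀) s n
        have h10 : ∑ x ∈ J, ex (((((p.1 : ℤ) - p.2) * H x : ℤ) : ℝ) / u) =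
            ∑ x ∈ Ico s (s + n), ex (((((p.1 : ℤ) - p.2) * A₂ * x ^ 2 +
              ((p.1 : ℤ) - p.2) * A₁ * x + ((p.1 : ℤ) - p.2) * A₀ : ℤ) : ℝ) / u) := by
          rw [hJ]
          refine sum_congr rfl fun x _ => ?_
          congr 3
          rw [hH]
          ring
        rw [h10]
        refine h9.trans ?_
        have h11 : Int.gcd (2 * (((p.1 : ℤ) - p.2) * A₂)) u ≤ G := hG _ h8 (by
          rw [abs_lt]
          omega)
        gcongr
    refine (sum_le_sum h6).trans (le_of_eq ?_)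
    rw [sum_add_distrib, sum_product, sum_const, card_product, card_range, nsmul_eq_mul]
    simp only [sum_ite_eq, mem_range]
    have h7 : ∑ x ∈ range R, (if x < R then (n : ℝ) else 0) = R * n := by
      rw [sum_congr rfl (fun x hx => if_pos (mem_range.1 hx)), sum_const, card_range, nsmul_eq_mul]
    rw [h7]
    push_cast
    ring
  have h3 := h1.trans h2
  have h4 : (T.card : ℝ) ≤ (R * n + R ^ 2 * M) / ((R : ℝ) ^ 2 / 2) := by
    rw [le_div_iff₀ (by positivity)]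
    exact h3
  refine h4.trans (le_of_eq ?_)
  field_simp

end Pool.Agent.V7H54.A
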