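import Pool.Agent.V7H54.A.Rt

/-!
# The solutions of `u z + s y + p c² = M` in a box and in a residue class
-/

set_option autoImplicit false
set_option linter.all false

open scoped Real
open Finset

namespace Pool.Agent.V7H54.A

/-- the error term -/
noncomputable def EE (C X : ℝ) (Q : ℕ) (p : ℤ) : ℝ :=
  √((C * Q ^ 2 * |(p : ℝ)| + 1) * (4 * (C * X) * (1 + Real.log (C * X))))

theorem floor_half {x : ℝ} (hx : 1 ≤ x) : x / 2 ≤ ⌊x⌋₊ := by
  have h1 := Nat.lt_floor_add_one x
  have h2 : 1 ≤ ⌊x⌋₊ := Nat.le_floor (by rw [Nat.cast_one]; exact hx)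
  have h3 : (1 : ℝ) ≤ ⌊x⌋₊ := by exact_mod_cast h2
  linarith

theorem fib_r {u s p M : ℤ} (hu : u ≠ 0) (hp : p ≠ 0) {Q g : ℕ} (hg : g = Int.gcd u s)
    (hQ : 1 ≤ Q) {C X γ Y : ℝ} (hC : 1 ≤ C) (hX : 1 ≤ X) (hγ0 : 0 ≤ γ) (hγ : γ ≤ C * X)
    (huX : |(u : ℝ)| ≤ C * X) (hY : X ≤ Y) (T : Finset (ℤ × ℤ × ℤ))
    (hT : ∀ t ∈ T, |(t.1 : ℝ)| ≤ γ ∧ |(t.2.1 : ℝ)| ≤ Y ∧ u * t.2.2 + s * t.2.1 + p * t.1 ^ 2 = M)
    (hTQ : ∀ t ∈ T, ∀ t' ∈ T, ((g * Q : ℕ) : ℤ) ∣ t.1 - t'.1 ∧ (Q : ℤ) ∣ t.2.1 - t'.2.1 ∧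
      (Q : ℤ) ∣ t.2.2 - t'.2.2) :
    (T.card : ℝ) ≤ 64 * (2 * γ / (g * Q) + 1) * (Y * g / (Q * |(u : ℝ)|)) + 2 * EE C X Q p := by
  have hX0 : 0 < X := by linarith
  have hY0 : 0 < Y := by linarith
  have hC0 : 0 < C := by linarith
  have hCX : 1 ≤ C * X := by nlinarith
  have hlog : 0 ≤ Real.log (C * X) := Real.log_nonneg hCX
  have hQ0 : (0 : ℝ) < Q := by exact_mod_cast hQ
  have hQ1 : (1 : ℝ) ≤ Q := by exact_mod_cast hQ
  have hQz : (Q : ℤ) ≠ 0 := by exact_mod_cast (show Q ≠ 0 by omega)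
  have hgpos : 0 < g := by rw [hg]; exact Int.gcd_pos_of_ne_zero_left _ hu
  have hg0 : (0 : ℝ) < g := by exact_mod_cast hgpos
  have hg1 : (1 : ℝ) ≤ g := by exact_mod_cast hgpos
  have hgz : (g : ℤ) ≠ 0 := by exact_mod_cast hgpos.ne'
  have hu0 : 0 < |(u : ℝ)| := abs_pos.2 (by exact_mod_cast hu)
  have hEE0 : 0 ≤ EE C X Q p := Real.sqrt_nonneg _
  rcases T.eq_empty_or_nonempty with rfl | ⟨t₀, ht₀⟩
  · simp only [card_empty, Nat.cast_zero]
    positivity
  obtain ⟨u₁, hu₁⟩ : (g : ℤ) ∣ u := by rw [hg]; exact Int.gcd_dvd_left _ _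
  obtain ⟨s₁, hs₁⟩ : (g : ℤ) ∣ s := by rw [hg]; exact Int.gcd_dvd_right _ _
  have hcop : IsCoprime u₁ s₁ := by
    have h3 : Int.gcd u s = g * Int.gcd u₁ s₁ := by
      rw [hu₁, hs₁, Int.gcd_mul_left, Int.natAbs_natCast]
    rw [← hg] at h3
    have h4 : Int.gcd u₁ s₁ = 1 := by
      have : g * 1 = g * Int.gcd u₁ s₁ := by omega
      exact (Nat.eq_of_mul_eq_mul_left hgpos this).symm
    exact Int.isCoprime_iff_gcd_eq_one.2 h4
  have hu₁0 : u₁ ≠ 0 := by
    rintro rfl
    exact hu (by rw [hu₁, mul_zero])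
  obtain ⟨ν, hν⟩ : ∃ ν : ℕ, ν = u₁.natAbs := ⟨_, rfl⟩
  have hνpos : 0 < ν := by rw [hν]; exact Int.natAbs_pos.2 hu₁0
  have hν0 : (0 : ℝ) < ν := by exact_mod_cast hνpos
  have huν : |(u : ℝ)| = g * ν := by
    rw [hu₁, hν]
    push_cast
    rw [abs_mul, abs_of_pos hg0, Nat.cast_natAbs, Int.cast_abs]
  -- two elements with the same first entry
  have hyy : ∀ t ∈ T, ∀ t' ∈ T, t.1 = t'.1 → ((Q * ν : ℕ) : ℤ) ∣ t.2.1 - t'.2.1 := by
    intro t ht t' ht' h1
    obtain ⟨-, ⟨w, hw⟩, ⟨w', hw'⟩⟩ := hTQ t ht t' ht'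
    have h2 := (hT t ht).2.2
    have h3 := (hT t' ht').2.2
    have h4 : (g : ℤ) * Q * (u₁ * w' + s₁ * w) = 0 := by
      have h5 : u * (t.2.2 - t'.2.2) + s * (t.2.1 - t'.2.1) = 0 := by
        rw [h1] at h2
        linear_combination h2 - h3
      rw [hw, hw', hu₁, hs₁] at h5
      linear_combination h5
    have h5 : u₁ * w' + s₁ * w = 0 := by
      rcases mul_eq_zero.1 h4 with h6 | h6
      · exact absurd h6 (mul_ne_zero hgz hQz)
      · exact h6
    have h6 : u₁ ∣ s₁ * w := ⟨-w', by linear_combination h5⟩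
    have h7 := hcop.dvd_of_dvd_mul_left h6
    rw [hw]
    push_cast
    refine mul_dvd_mul_left _ ?_
    rw [hν, Int.natCast_natAbs, abs_dvd]
    exact h7
  -- the first entries
  have himg : ((T.image fun t => t.1).card : ℝ) ≤ 2 * γ / (g * Q) + 1 := by
    have h1 := card_cong (T.image fun t => t.1) ((g * Q : ℕ) : ℤ) (by positivity) (-γ) γ
      (by linarith) (by
        intro x hx
        obtain ⟨t, ht, rfl⟩ := mem_image.1 hx
        exact abs_le.1 (hT t ht).1) (by
        intro x hx y hy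
        obtain ⟨t, ht, rfl⟩ := mem_image.1 hx
        obtain ⟨t', ht', rfl⟩ := mem_image.1 hy
        exact (hTQ t ht t' ht').1)
    refine h1.trans (le_of_eq ?_)
    push_cast
    ring
  have hnn : 0 ≤ 2 * γ / (g * Q) + 1 := by positivity
  by_cases hph : (Q : ℝ) * ν < 16 * Y
  · -- long intervals
    have h1 : (T.card : ℝ) ≤ (T.image fun t => t.1).card * (2 * Y / (Q * ν) + 1) := by
      rw [card_eq_sum_card_image (fun t => t.1) T]
      push_cast
      rw [← nsmul_eq_mul, ← sum_const]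
      refine sum_le_sum fun c _ => ?_
      have h2 : ((T.filter fun t => t.1 = c).card : ℝ) =
          (((T.filter fun t => t.1 = c).image fun t => t.2.1).card : ℝ) := by
        rw [card_image_of_injOn]
        intro t ht t' ht' h3
        have ht1 := mem_filter.1 (mem_coe.1 ht)
        have ht2 := mem_filter.1 (mem_coe.1 ht')
        have h4 := (hT t ht1.1).2.2
        have h5 := (hT t' ht2.1).2.2
        simp only at h3
        rw [ht1.2, h3] at h4
        rw [ht2.2] at h5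
        have h6 : u * (t.2.2 - t'.2.2) = 0 := by linear_combination h4 - h5
        have h7 : t.2.2 = t'.2.2 := by
          rcases mul_eq_zero.1 h6 with h8 | h8
          · exact absurd h8 hu
          · linarith
        exact Prod.ext (ht1.2.trans ht2.2.symm) (Prod.ext h3 h7)
      rw [h2]
      have h3 := card_cong ((T.filter fun t => t.1 = c).image fun t => t.2.1) ((Q * ν : ℕ) : ℤ)
        (by positivity) (-Y) Y (by linarith) (by
          intro x hx
          obtain ⟨t, ht, rfl⟩ := mem_image.1 hx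
          exact abs_le.1 (hT t (mem_filter.1 ht).1).2.1) (by
          intro x hx y hy
          obtain ⟨t, ht, rfl⟩ := mem_image.1 hx
          obtain ⟨t', ht', rfl⟩ := mem_image.1 hy
          exact hyy t (mem_filter.1 ht).1 t' (mem_filter.1 ht').1
            ((mem_filter.1 ht).2.trans (mem_filter.1 ht').2.symm))
      refine h3.trans (le_of_eq ?_)
      push_cast
      ring
    have h2 : 2 * Y / (Q * ν) + 1 ≤ 18 * (Y / (Q * ν)) := by
      have h3 : 1 ≤ 16 * (Y / (Q * ν)) := by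
        rw [← mul_div_assoc, le_div_iff₀ (by positivity)]
        linarith
      have h4 : 2 * Y / (Q * ν) = 2 * (Y / (Q * ν)) := by ring
      linarith
    have h3 : Y * g / (Q * |(u : ℝ)|) = Y / (Q * ν) := by
      rw [huν]
      field_simp
    rw [h3]
    have h4 : 0 ≤ Y / (Q * ν) := by positivity
    calc (T.card : ℝ) ≤ (T.image fun t => t.1).card * (2 * Y / (Q * ν) + 1) := h1
      _ ≤ (2 * γ / (g * Q) + 1) * (18 * (Y / (Q * ν))) := mul_le_mul himg h2 (by positivity) hnn
      _ ≤ 64 * (2 * γ / (g * Q) + 1) * (Y / (Q * ν)) + 2 * EE C X Q p := by nlinarith [mul_nonneg hnn h4]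
  · -- short intervals
    push Not at hph
    obtain ⟨Y', hY'⟩ : ∃ Y' : ℝ, Y' = 2 * Y / Q := ⟨_, rfl⟩
    have hY'0 : 0 < Y' := by rw [hY']; positivity
    have hνY : 1 ≤ ν / (8 * Y') := by
      rw [hY', le_div_iff₀ (by positivity)]
      have : 1 * (8 * (2 * Y / Q)) = 16 * Y / Q := by ring
      rw [this, div_le_iff₀ hQ0]
      linarith
    obtain ⟨R, hR⟩ : ∃ R : ℕ, R = ⌊(ν : ℝ) / (8 * Y')⌋₊ := ⟨_, rfl⟩
    have hR1 : 1 ≤ R := by rw [hR]; exact Nat.le_floor (by rw [Nat.cast_one]; exact hνY)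
    have hR0 : (0 : ℝ) < R := by exact_mod_cast hR1
    have hRle : (R : ℝ) ≤ ν / (8 * Y') := by
      rw [hR]
      exact Nat.floor_le (by positivity)
    have hRge : ν / (8 * Y') / 2 ≤ R := by
      rw [hR]
      exact floor_half hνY
    have hYR : 8 * R * Y' ≤ ν := by
      rw [le_div_iff₀ (by positivity)] at hRle
      linarith
    obtain ⟨a, t₁, hat⟩ := hcop
    obtain ⟨n, hn⟩ : ∃ n : ℕ, n = ⌊2 * γ / (g * Q)⌋₊ + 1 := ⟨_, rfl⟩
    have hnle : (n : ℝ) ≤ 2 * γ / (g * Q) + 1 := by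
      rw [hn]
      push_cast
      have := Nat.floor_le (show 0 ≤ 2 * γ / ((g : ℝ) * Q) by positivity)
      linarith
    -- the set of the `x`
    have hinj : Set.InjOn (fun t : ℤ × ℤ × ℤ => (t.1 - t₀.1) / ((g * Q : ℕ) : ℤ)) T := by
      intro t ht t' ht' h1
      simp only at h1
      have h2 := Int.ediv_mul_cancel (hTQ t ht t₀ ht₀).1
      have h3 := Int.ediv_mul_cancel (hTQ t' ht' t₀ ht₀).1
      rw [h1, h3] at h2
      have h4 : t.1 = t'.1 := by linarith
      have h5 := hyy t ht t' ht' h4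
      have h6 : t.2.1 - t'.2.1 = 0 := by
        by_contra h7
        have h8 := Int.le_of_dvd (abs_pos.2 h7) ((dvd_abs _ _).2 h5)
        have h9 : (((Q * ν : ℕ) : ℤ) : ℝ) ≤ ((|t.2.1 - t'.2.1| : ℤ) : ℝ) := by exact_mod_cast h8
        push_cast at h9
        have h10 := abs_sub (t.2.1 : ℝ) (t'.2.1 : ℝ)
        have h11 := (hT t ht).2.1
        have h12 := (hT t' ht').2.1
        linarith
      have h7 : t.2.1 = t'.2.1 := by linarith
      have h8 := (hT t ht).2.2
      have h9 := (hT t' ht').2.2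
      rw [h4, h7] at h8
      have h10 : u * (t.2.2 - t'.2.2) = 0 := by linear_combination h8 - h9
      have h11 : t.2.2 = t'.2.2 := by
        rcases mul_eq_zero.1 h10 with h12 | h12
        · exact absurd h12 hu
        · linarith
      exact Prod.ext h4 (Prod.ext h7 h11)
    have hcard : (T.card : ℝ) =
        ((T.image fun t => (t.1 - t₀.1) / ((g * Q : ℕ) : ℤ)).card : ℝ) := by
      rw [card_image_of_injOn hinj]
    rw [hcard]
    have hgQ0 : (0 : ℝ) < g * Q := by positivity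
    have hfw := fw ν hνpos (-(t₁ * p * (g * Q : ℕ))) (-(t₁ * p * (2 * t₀.1))) 0
      ⌈(-γ - t₀.1) / (g * Q)⌉ n R (2 * R * p.natAbs * (g * Q)) hR1 Y' hYR (by
        intro h hh0 hhR
        have h1 : (Int.gcd (2 * (h * -(t₁ * p * (g * Q : ℕ)))) ν : ℤ) ∣ 2 * h * p * (g * Q : ℕ) := by
          obtain ⟨d, hd⟩ : ∃ d : ℕ, d = Int.gcd (2 * (h * -(t₁ * p * (g * Q : ℕ)))) ν := ⟨_, rfl⟩
          rw [← hd]
          have hd1 : (d : ℤ) ∣ 2 * (h * -(t₁ * p * (g * Q : ℕ))) := by
            rw [hd]; exact Int.gcd_dvd_left _ _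
          have hd2 : (d : ℤ) ∣ ν := by rw [hd]; exact Int.gcd_dvd_right _ _
          have hd3 : (d : ℤ) ∣ u₁ := by
            rw [hν, Int.natCast_natAbs, dvd_abs] at hd2
            exact hd2
          have e : 2 * h * p * ((g * Q : ℕ) : ℤ) =
              u₁ * (a * (2 * h * p * ((g * Q : ℕ) : ℤ))) -
                2 * (h * -(t₁ * p * ((g * Q : ℕ) : ℤ))) * s₁ := by
            linear_combination (-(2 * h * p * ((g * Q : ℕ) : ℤ))) * hat
          rw [e]
          exact dvd_sub (Dvd.dvd.mul_right hd3 _) (Dvd.dvd.mul_right hd1 _)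
        have h2 : 2 * h * p * ((g * Q : ℕ) : ℤ) ≠ 0 := by
          refine mul_ne_zero (mul_ne_zero (mul_ne_zero two_ne_zero hh0) hp) ?_
          exact_mod_cast (by positivity : g * Q ≠ 0)
        have h3 := Int.le_of_dvd (abs_pos.2 h2) ((dvd_abs _ _).2 h1)
        rw [abs_mul, abs_mul, abs_mul, Nat.abs_cast, abs_of_pos (by norm_num : (0 : ℤ) < 2)] at h3
        have h4 : 2 * |h| * |p| * ((g * Q : ℕ) : ℤ) ≤ ((2 * R * p.natAbs * (g * Q) : ℕ) : ℤ) := by
          push_cast
          gcongr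
        exact_mod_cast h3.trans h4)
      (T.image fun t => (t.1 - t₀.1) / ((g * Q : ℕ) : ℤ)) (by
        intro x hx
        obtain ⟨t, ht, rfl⟩ := mem_image.1 hx
        obtain ⟨h1, h2, h3⟩ := hTQ t ht t₀ ht₀
        obtain ⟨x, hx'⟩ := h1
        obtain ⟨y', hy'⟩ := h2
        obtain ⟨z', hz'⟩ := h3
        have hx2 : (t.1 - t₀.1) / ((g * Q : ℕ) : ℤ) = x := by
          rw [hx']
          exact Int.mul_ediv_cancel_left _ (by exact_mod_cast (by positivity : g * Q ≠ 0))
        simp only [hx2]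
        have hxr : (x : ℝ) * (g * Q) = t.1 - t₀.1 := by
          have := congrArg (Int.cast (R := ℝ)) hx'
          push_cast at this
          linarith
        refine ⟨?_, y', ?_, ?_⟩
        · rw [mem_Ico, hn]
          have h4 := abs_le.1 (hT t ht).1
          constructor
          · rw [Int.ceil_le, div_le_iff₀ hgQ0, hxr]
            linarith
          · have h5 : (x : ℝ) ≤ (γ - t₀.1) / (g * Q) := by
              rw [le_div_iff₀ hgQ0, hxr]
              linarith
            have h6 : (γ - t₀.1) / (g * Q) = (-γ - t₀.1) / (g * Q) + 2 * γ / (g * Q) := by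
              field_simp
              ring
            have h7 := Int.le_ceil ((-γ - t₀.1) / ((g : ℝ) * Q))
            have h8 := Nat.lt_floor_add_one (2 * γ / ((g : ℝ) * Q))
            have h9 : (x : ℝ) < ((⌈(-γ - t₀.1) / ((g : ℝ) * Q)⌉ + ((⌊2 * γ / ((g : ℝ) * Q)⌋₊ + 1 : ℕ) : ℤ) : ℤ) : ℝ) := by
              push_cast
              linarith
            exact_mod_cast h9
        · have h4 := congrArg (Int.cast (R := ℝ)) hy'
          push_cast at h4
          have h5 : (y' : ℝ) = (t.2.1 - t₀.2.1) / Q := by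
            rw [eq_div_iff hQ0.ne']
            linarith
          rw [h5, abs_div, abs_of_pos hQ0, hY']
          have h6 := abs_sub (t.2.1 : ℝ) (t₀.2.1 : ℝ)
          have h7 := (hT t ht).2.1
          have h8 := (hT t₀ ht₀).2.1
          gcongr
          linarith
        · have h4 := (hT t ht).2.2
          have h5 := (hT t₀ ht₀).2.2
          have h6 : (g : ℤ) * Q * (u₁ * z' + s₁ * y' + p * x * (2 * t₀.1 + (g * Q : ℕ) * x)) = 0 := by
            have e1 : t.1 = t₀.1 + (g * Q : ℕ) * x := by linarith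
            have e2 : t.2.1 = t₀.2.1 + Q * y' := by linarith
            have e3 : t.2.2 = t₀.2.2 + Q * z' := by linarith
            rw [e1, e2, e3] at h4
            have h7 := hu₁
            have h8 := hs₁
            have h9 : u * (Q * z') + s * (Q * y') +
                p * (2 * t₀.1 * ((g * Q : ℕ) * x) + ((g * Q : ℕ) * x) ^ 2) = 0 := by
              linear_combination h4 - h5
            rw [h7, h8] at h9
            push_cast at h9 ⊢
            linear_combination h9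
          have h7 : u₁ * z' + s₁ * y' + p * x * (2 * t₀.1 + (g * Q : ℕ) * x) = 0 := by
            rcases mul_eq_zero.1 h6 with h8 | h8
            · exact absurd h8 (mul_ne_zero hgz hQz)
            · exact h8
          rw [hν, Int.natCast_natAbs, abs_dvd]
          refine ⟨t₁ * z' - a * y', ?_⟩
          linear_combination (-t₁) * h7 + y' * hat)
    -- the final estimate
    have hgu : (g : ℝ) ≤ C * X := by
      refine le_trans ?_ huX
      rw [huν]
      have : (1 : ℝ) ≤ ν := by exact_mod_cast hνpos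
      nlinarith
    have hνu : (ν : ℝ) ≤ C * X := by
      refine le_trans ?_ huX
      rw [huν]
      nlinarith
    have e1 : 2 * (n : ℝ) / R ≤ 64 * (2 * γ / (g * Q) + 1) * (Y * g / (Q * |(u : ℝ)|)) := by
      have h1 : Y * g / (Q * |(u : ℝ)|) = Y / (Q * ν) := by
        rw [huν]
        field_simp
      rw [h1, div_le_iff₀ hR0]
      have h2 : (ν : ℝ) / (8 * Y') / 2 = Q * ν / (32 * Y) := by
        rw [hY']
        field_simp
        ring
      rw [h2] at hRge
      have h3 : 64 * (2 * γ / (g * Q) + 1) * (Y / (Q * ν)) * (Q * ν / (32 * Y)) =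
          2 * (2 * γ / (g * Q) + 1) := by
        field_simp
        ring
      calc 2 * (n : ℝ) ≤ 2 * (2 * γ / (g * Q) + 1) := by linarith
        _ = 64 * (2 * γ / (g * Q) + 1) * (Y / (Q * ν)) * (Q * ν / (32 * Y)) := h3.symm
        _ ≤ 64 * (2 * γ / (g * Q) + 1) * (Y / (Q * ν)) * R := by gcongr
    have e2 : 2 * (n : ℝ) * ((2 * R * p.natAbs * (g * Q) : ℕ) : ℝ) / ν ≤ C * Q ^ 2 * |(p : ℝ)| := by
      have hpn : ((p.natAbs : ℕ) : ℝ) = |(p : ℝ)| := by rw [Nat.cast_natAbs, Int.cast_abs]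
      push_cast
      rw [hpn, div_le_iff₀ hν0]
      have h1 : (n : ℝ) * g ≤ 3 * (C * X) := by
        have h2 : (n : ℝ) * g ≤ (2 * γ / (g * Q) + 1) * g := by gcongr
        have h3 : (2 * γ / (g * Q) + 1) * g = 2 * γ / Q + g := by
          field_simp
        have h4 : 2 * γ / Q ≤ 2 * γ := div_le_self (by linarith) hQ1
        linarith
      have h2 : (R : ℝ) * (16 * Y) ≤ Q * ν := by
        rw [hY', le_div_iff₀ (by positivity)] at hRle
        have h3 : (R : ℝ) * (8 * (2 * Y / Q)) * Q = R * (16 * Y) := by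
          field_simp
          ring
        nlinarith
      have hpp : 0 ≤ |(p : ℝ)| := abs_nonneg _
      have h3 : (R : ℝ) * (16 * X) ≤ Q * ν := by nlinarith
      calc 2 * (n : ℝ) * (2 * R * |(p : ℝ)| * (g * Q)) = 4 * |(p : ℝ)| * Q * R * (n * g) := by ring
        _ ≤ 4 * |(p : ℝ)| * Q * R * (3 * (C * X)) := by gcongr
        _ = 12 / 16 * (C * |(p : ℝ)| * Q * (R * (16 * X))) := by ring
        _ ≤ 12 / 16 * (C * |(p : ℝ)| * Q * (Q * ν)) := by gcongr
        _ ≤ C * Q ^ 2 * |(p : ℝ)| * ν := by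
          have : 0 ≤ C * |(p : ℝ)| * Q * (Q * ν) := by positivity
          nlinarith
    have e3 : (n : ℝ) + ν * (1 + Real.log ν) ≤ 4 * (C * X) * (1 + Real.log (C * X)) := by
      have h1 : (n : ℝ) ≤ 3 * (C * X) := by
        have h2 : 2 * γ / (g * Q) ≤ 2 * γ := div_le_self (by linarith) (by nlinarith)
        linarith
      have h2 : Real.log ν ≤ Real.log (C * X) := Real.log_le_log hν0 hνu
      have h3 : 0 ≤ Real.log ν := Real.log_natCast_nonneg ν
      have h4 : (ν : ℝ) * (1 + Real.log ν) ≤ C * X * (1 + Real.log (C * X)) := by gcongr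
      nlinarith
    refine hfw.trans (add_le_add e1 ?_)
    refine mul_le_mul_of_nonneg_left ?_ (by norm_num)
    unfold EE
    apply Real.sqrt_le_sqrt
    have h5 : 0 ≤ (n : ℝ) + ν * (1 + Real.log ν) := by
      have : 0 ≤ Real.log ν := Real.log_natCast_nonneg ν
      positivity
    refine mul_le_mul (by linarith) e3 h5 (by positivity)

end Pool.Agent.V7H54.A
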