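import Pool.Agent.V7H54.A.Gl

/-!
# The solutions of `u z + s y + p c² = M` in a box and in a residue class modulo `Q`
-/

set_option autoImplicit false
set_option linter.all false

open scoped Real
open Finset

namespace Pool.Agent.V7H54.A

theorem gl {u s p M : ℤ} (hu : u ≠ 0) (hp : p ≠ 0) (hM : M ≠ 0) {Q g : ℕ} (hg : g = Int.gcd u s)
    (hQ : 1 ≤ Q) (hgQ : Nat.Coprime g Q) {C X γ Y : ℝ} (hC : 1 ≤ C) (hX : 1 ≤ X) (hγ0 : 0 ≤ γ)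
    (hγ : γ ≤ C * X) (huX : |(u : ℝ)| ≤ C * X) (hY : X ≤ Y) (T : Finset (ℤ × ℤ × ℤ))
    (hT : ∀ t ∈ T, |(t.1 : ℝ)| ≤ γ ∧ |(t.2.1 : ℝ)| ≤ Y ∧ u * t.2.2 + s * t.2.1 + p * t.1 ^ 2 = M)
    (hTQ : ∀ t ∈ T, ∀ t' ∈ T, (Q : ℤ) ∣ t.1 - t'.1 ∧ (Q : ℤ) ∣ t.2.1 - t'.2.1 ∧
      (Q : ℤ) ∣ t.2.2 - t'.2.2) :
    (T.card : ℝ) ≤ 2 * (4 * |(p : ℝ)| * |(M : ℝ)| + 1) * √g *
      (64 * (2 * γ / (g * Q) + 1) * (Y * g / (Q * |(u : ℝ)|)) + 2 * EE C X Q p) := by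
  have hgpos : 0 < g := by rw [hg]; exact Int.gcd_pos_of_ne_zero_left _ hu
  have hgz : (g : ℤ) ≠ 0 := by exact_mod_cast hgpos.ne'
  have hu1 : (g : ℤ) ∣ u := by rw [hg]; exact Int.gcd_dvd_left _ _
  have hs1 : (g : ℤ) ∣ s := by rw [hg]; exact Int.gcd_dvd_right _ _
  have hB0 : 0 ≤ 64 * (2 * γ / (g * Q) + 1) * (Y * g / (Q * |(u : ℝ)|)) + 2 * EE C X Q p := by
    have : 0 ≤ EE C X Q p := Real.sqrt_nonneg _
    have : 0 ≤ Y := by linarith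
    positivity
  have hroot : ∀ t ∈ T, (g : ℤ) ∣ p * (t.1 % g) ^ 2 - M := by
    intro t ht
    have h1 : (g : ℤ) ∣ p * t.1 ^ 2 - M := by
      have h2 := (hT t ht).2.2
      have e : p * t.1 ^ 2 - M = -(u * t.2.2 + s * t.2.1) := by linear_combination h2
      rw [e, dvd_neg]
      exact dvd_add (Dvd.dvd.mul_right hu1 _) (Dvd.dvd.mul_right hs1 _)
    have h2 : (g : ℤ) ∣ t.1 % g - t.1 := by
      rw [Int.emod_def]
      exact ⟨-(t.1 / g), by ring⟩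
    obtain ⟨k, hk⟩ := h2
    have h3 : t.1 % g = t.1 + g * k := by linarith
    rw [h3]
    have e : p * (t.1 + g * k) ^ 2 - M = p * t.1 ^ 2 - M + g * (p * k * (2 * t.1 + g * k)) := by ring
    rw [e]
    exact dvd_add h1 (dvd_mul_right _ _)
  have hcl : ((T.image fun t => t.1 % (g : ℤ)).card : ℝ) ≤
      2 * (4 * |(p : ℝ)| * |(M : ℝ)| + 1) * √g := by
    refine roots hp hM hgpos _ ?_ ?_
    · intro c hc
      obtain ⟨t, ht, rfl⟩ := mem_image.1 hc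
      exact ⟨Int.emod_nonneg _ hgz, Int.emod_lt_of_pos _ (by exact_mod_cast hgpos)⟩
    · intro c hc
      obtain ⟨t, ht, rfl⟩ := mem_image.1 hc
      exact hroot t ht
  rw [card_eq_sum_card_image (fun t => t.1 % (g : ℤ)) T]
  push_cast
  have hfib : ∀ r ∈ T.image (fun t => t.1 % (g : ℤ)),
      ((T.filter fun t => t.1 % (g : ℤ) = r).card : ℝ) ≤
        64 * (2 * γ / (g * Q) + 1) * (Y * g / (Q * |(u : ℝ)|)) + 2 * EE C X Q p := by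
    intro r _
    refine fib_r hu hp hg hQ hC hX hγ0 hγ huX hY _ (fun t ht => hT t (mem_filter.1 ht).1) ?_
    intro t ht t' ht'
    obtain ⟨h1, h2, h3⟩ := hTQ t (mem_filter.1 ht).1 t' (mem_filter.1 ht').1
    refine ⟨?_, h2, h3⟩
    have h4 : (g : ℤ) ∣ t.1 - t'.1 :=
      Int.ModEq.dvd (show t'.1 ≡ t.1 [ZMOD g] from ((mem_filter.1 ht').2.trans
        (mem_filter.1 ht).2.symm))
    push_cast
    exact IsCoprime.mul_dvd (Nat.isCoprime_iff_coprime.2 hgQ) h4 h1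
  refine (sum_le_sum hfib).trans ?_
  rw [sum_const, nsmul_eq_mul]
  exact mul_le_mul_of_nonneg_right hcl hB0

end Pool.Agent.V7H54.A
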