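import Pool.Agent.V7H54.A.Om
import Pool.Agent.V7H54.Gf2
import Pool.Agent.N951.PF.Fam

/-!
# The conditions at the small primes and at the primes of `S`, for the polynomials `X ^ 3 + A X + t`
-/

set_option autoImplicit false
set_option linter.all false

open Polynomial Matrix NumberField IsDedekindDomain
open scoped Classical

namespace Pool.Agent.V7H54.A

open Pool.Agent.N783.PF
open Pool.Agent.V7H54 (T2)

theorem dsc_pol (A t : ℤ) : dsc 1 (pol A t) = ((4 * A ^ 3 + 27 * t ^ 2 : ℤ) : 𝓞 ℚ) := by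
  have hd : (pol A t).natDegree = 3 := pol_deg A t
  have hdeg : (pol A t).degree = 3 := by
    rw [degree_eq_natDegree (pol_mon A t).ne_zero, hd]
    rfl
  have h1 := resultant_deriv (f := pol A t) (by rw [hdeg]; norm_num)
  rw [discr_of_degree_eq_three hdeg, (pol_mon A t).leadingCoeff, hd] at h1
  have c3 : (pol A t).coeff 3 = 1 := by
    have := (pol_mon A t).coeff_natDegree
    rwa [hd] at this
  have c2 : (pol A t).coeff 2 = 0 := pol_c2 A t
  rw [c3, c2, pol_c1, pol_c0] at h1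
  unfold dsc
  refine h1.trans ?_
  push_cast
  norm_num
  ring

theorem prime_eq {𝔭 : Ideal (𝓞 ℚ)} (hp : 𝔭.IsPrime) (hb : 𝔭 ≠ ⊥) : ∃ p : ℕ, p.Prime ∧ 𝔭 = sp ℚ p := by
  obtain ⟨x, hx, hx0⟩ := Submodule.exists_mem_ne_zero_of_ne_bot hb
  obtain ⟨n, rfl⟩ := okq x
  have hn0 : n ≠ 0 := by
    rintro rfl
    exact hx0 (by simp)
  have hnn : ((n.natAbs : ℕ) : 𝓞 ℚ) ∈ 𝔭 := by
    rcases Int.natAbs_eq n with h | h
    · have : ((n.natAbs : ℕ) : 𝓞 ℚ) = (n : 𝓞 ℚ) := by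
        conv_rhs => rw [h]
        simp
      rw [this]
      exact hx
    · have : ((n.natAbs : ℕ) : 𝓞 ℚ) = -(n : 𝓞 ℚ) := by
        conv_rhs => rw [h]
        simp
      rw [this]
      exact neg_mem hx
  obtain ⟨p, hpp, -, hpm⟩ := Pool.Agent.N951.PF.prime_factor 𝔭 hp n.natAbs (Int.natAbs_pos.2 hn0) hnn
  refine ⟨p, hpp, ?_⟩
  have hle : sp ℚ p ≤ 𝔭 := by
    rw [sp, Ideal.span_singleton_le_iff_mem]
    exact hpm
  haveI hmax : (sp ℚ p).IsMaximal := (sp_prime hpp).isMaximal (sp_ne_bot hpp)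
  exact (hmax.eq_of_le hp.ne_top hle).symm

theorem sp_sq (p : ℕ) : sp ℚ p ^ 2 = sp ℚ (p ^ 2) := by
  rw [sp, sp, Ideal.span_singleton_pow, Nat.cast_pow]

theorem sqF_pol {A t : ℤ} (h : ∀ p : ℕ, p.Prime → ¬ (p : ℤ) ^ 2 ∣ 4 * A ^ 3 + 27 * t ^ 2) :
    SqF 1 (pol A t) := by
  intro 𝔭 hp hb hd
  obtain ⟨p, hpp, rfl⟩ := prime_eq hp hb
  rw [dsc_pol, sp_sq, mem_sp] at hd
  exact h p hpp (by exact_mod_cast hd)

theorem rd_eval {𝔭 : Ideal (𝓞 ℚ)} (A t n : ℤ) :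
    (rd 𝔭 (pol A t)).eval (Ideal.Quotient.mk 𝔭 (n : 𝓞 ℚ)) =
      Ideal.Quotient.mk 𝔭 ((n ^ 3 + A * n + t : ℤ) : 𝓞 ℚ) := by
  unfold pol rd
  rw [Polynomial.map_add, Polynomial.map_add, Polynomial.map_mul, Polynomial.map_pow, map_X,
    map_C, map_C]
  simp

theorem irr_two {A t : ℤ} (hA : Odd A) (ht : Odd t) {𝔭 : Ideal (𝓞 ℚ)} (hp : 𝔭.IsPrime)
    (h2 : (2 : 𝓞 ℚ) ∈ 𝔭) : Irreducible (rd 𝔭 (pol A t)) := by
  have hb : 𝔭 ≠ ⊥ := by
    rintro rfl
    rw [Ideal.mem_bot] at h2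
    exact two_ne_zero h2
  haveI := hp.isMaximal hb
  letI : Field (𝓞 ℚ ⧸ 𝔭) := Ideal.Quotient.field _
  have hd : (rd 𝔭 (pol A t)).natDegree = 3 := by
    rw [rd, (pol_mon A t).natDegree_map, pol_deg]
  have hm : (rd 𝔭 (pol A t)).Monic := (pol_mon A t).map _
  rw [Polynomial.irreducible_iff_roots_eq_zero_of_degree_le_three (by rw [hd]; norm_num)
      (by rw [hd])]
  rw [Multiset.eq_zero_iff_forall_notMem]
  intro x hx
  have h1 := (Polynomial.mem_roots hm.ne_zero).1 hx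
  obtain ⟨y, rfl⟩ := Ideal.Quotient.mk_surjective x
  obtain ⟨n, rfl⟩ := okq y
  rw [IsRoot.def, rd_eval, Ideal.Quotient.eq_zero_iff_mem] at h1
  obtain ⟨p, hpp, rfl⟩ := prime_eq hp hb
  have hp2 : p = 2 := by
    have h3 : ((2 : ℤ) : 𝓞 ℚ) ∈ sp ℚ p := by exact_mod_cast h2
    rw [mem_sp] at h3
    have h4 : p ∣ 2 := by exact_mod_cast h3
    exact (Nat.prime_dvd_prime_iff_eq hpp Nat.prime_two).1 h4
  subst hp2
  rw [mem_sp] at h1
  have hodd : Odd (n ^ 3 + A * n + t) := by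
    rcases Int.even_or_odd n with hn | hn
    · refine Even.add_odd ?_ ht
      exact (hn.pow_of_ne_zero (by norm_num)).add (hn.mul_left A)
    · refine Even.add_odd ?_ ht
      exact (hn.pow).add_odd (hA.mul hn)
  have := (Int.not_even_iff_odd.2 hodd)
  exact this (even_iff_two_dvd.2 (by exact_mod_cast h1))

theorem t2_pol {A t : ℤ} (hA : Odd A) (ht : (4 : ℤ) ∣ t - A) (v : HeightOneSpectrum (𝓞 ℚ))
    (h2 : (2 : 𝓞 ℚ) ∈ v.asIdeal) : T2 v (pol A t) := by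
  obtain ⟨p, hpp, hv⟩ := prime_eq v.isPrime v.ne_bot
  have hp2 : p = 2 := by
    have h3 : ((2 : ℤ) : 𝓞 ℚ) ∈ sp ℚ p := by rw [← hv]; exact_mod_cast h2
    rw [mem_sp] at h3
    have h4 : p ∣ 2 := by exact_mod_cast h3
    exact (Nat.prime_dvd_prime_iff_eq hpp Nat.prime_two).1 h4
  subst hp2
  refine ⟨1, 1, ?_, ?_, ?_⟩
  · have e : (derivative (pol A t)).eval 1 = ((3 + A : ℤ) : 𝓞 ℚ) := by
      unfold pol
      simp
      norm_num
    rw [e, hv, mem_sp]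
    obtain ⟨k, hk⟩ := hA
    exact ⟨k + 2, by rw [hk]; push_cast; ring⟩
  · have e : (pol A t).eval 1 - 1 ^ 2 = ((A + t : ℤ) : 𝓞 ℚ) := by
      unfold pol
      simp
      ring
    rw [e, hv, mem_sp]
    obtain ⟨k, hk⟩ := hA
    obtain ⟨m, hm⟩ := ht
    exact ⟨2 * k + 1 + 2 * m, by
      have : t = A + 4 * m := by linarith
      rw [this, hk]
      push_cast
      ring⟩
  · have e : (pol A t).eval 1 - 1 ^ 2 = ((A + t : ℤ) : 𝓞 ℚ) := by
      unfold pol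
      simp
      ring
    rw [e, hv, sp_sq, mem_sp]
    obtain ⟨k, hk⟩ := hA
    obtain ⟨m, hm⟩ := ht
    rintro ⟨c, hc⟩
    push_cast at hc
    omega

theorem goodF {a : ℕ} (ha : 0 < a) (h6 : Nat.Coprime a 6) {j : ℕ} (hj : 1 ≤ j) :
    GoodF 1 (4 * a ^ j) (pol a (a + 4)) := by
  have h62 : Nat.Coprime a 2 := Nat.Coprime.coprime_dvd_right (by norm_num) h6
  have h63 : Nat.Coprime a 3 := Nat.Coprime.coprime_dvd_right (by norm_num) h6
  have hodd : Odd a := Nat.coprime_two_right.1 h62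
  have hA : Odd (a : ℤ) := by exact_mod_cast hodd
  have ht : Odd ((a : ℤ) + 4) := hA.add_even ⟨2, by norm_num⟩
  refine ⟨pol_mon _ _, pol_deg _ _, pol_c2 _ _, by positivity, ⟨2 * a ^ j, by ring⟩,
    fun 𝔭 hp h2 => irr_two hA ht hp h2, fun 𝔭 hp hW => ?_⟩
  have hb : 𝔭 ≠ ⊥ := by
    rintro rfl
    rw [Ideal.mem_bot] at hW
    have h0 : 4 * a ^ j = 0 := by exact_mod_cast hW
    have : 0 < 4 * a ^ j := by positivity
    omega
  obtain ⟨p, hpp, rfl⟩ := prime_eq hp hb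
  haveI := hp.isMaximal hb
  letI : Field (𝓞 ℚ ⧸ sp ℚ p) := Ideal.Quotient.field _
  have h1 : (((4 * a ^ j : ℕ) : ℤ) : 𝓞 ℚ) ∈ sp ℚ p := by exact_mod_cast hW
  rw [mem_sp] at h1
  have h2 : p ∣ 4 * a ^ j := by exact_mod_cast h1
  by_cases hp2 : p = 2
  · subst hp2
    haveI : Finite (𝓞 ℚ ⧸ sp ℚ 2) := kp_finite hpp
    haveI : IsDomain (𝓞 ℚ ⧸ sp ℚ 2) := Ideal.Quotient.isDomain _
    refine Pool.Agent.N951.PF.sep_of_irr ?_
    have : (2 : 𝓞 ℚ) ∈ sp ℚ 2 := by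
      have : ((2 : ℤ) : 𝓞 ℚ) ∈ sp ℚ 2 := (mem_sp 2 2).2 dvd_rfl
      exact_mod_cast this
    exact irr_two hA ht hp this
  · have hpa : p ∣ a := by
      rcases (hpp.dvd_mul).1 h2 with h | h
      · have h3 : p ∣ 2 ^ 2 := by norm_num; exact h
        exact absurd ((Nat.prime_dvd_prime_iff_eq hpp Nat.prime_two).1 (hpp.dvd_of_dvd_pow h3)) hp2
      · exact hpp.dvd_of_dvd_pow h
    have hp3 : p ≠ 3 := by
      rintro rfl
      have := Nat.Coprime.eq_one_of_dvd (Nat.Coprime.symm h63) hpa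
      omega
    have ha0 : rho p a = 0 := rho_zero.2 (by exact_mod_cast hpa)
    have h12 : rho p 12 ≠ 0 := by
      rw [Ne, rho_zero]
      intro h
      have h3 : p ∣ 2 ^ 2 * 3 := by norm_num; exact_mod_cast h
      rcases (hpp.dvd_mul).1 h3 with h | h
      · exact hp2 ((Nat.prime_dvd_prime_iff_eq hpp Nat.prime_two).1 (hpp.dvd_of_dvd_pow h))
      · exact hp3 ((Nat.prime_dvd_prime_iff_eq hpp Nat.prime_three).1 h)
    have e : rd (sp ℚ p) (pol a (a + 4)) = X ^ 3 + C (4 : kp p) := by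
      unfold pol rd
      rw [Polynomial.map_add, Polynomial.map_add, Polynomial.map_mul, Polynomial.map_pow, map_X,
        map_C, map_C]
      have e1 : Ideal.Quotient.mk (sp ℚ p) (((a : ℤ)) : 𝓞 ℚ) = 0 := ha0
      have e2 : Ideal.Quotient.mk (sp ℚ p) ((((a : ℤ) + 4 : ℤ)) : 𝓞 ℚ) = 4 := by
        rw [Int.cast_add, map_add, e1, zero_add, Int.cast_ofNat]
        exact map_ofNat _ 4
      rw [e1, e2, map_zero, zero_mul, add_zero]
    rw [e]
    have h12' : (12 : kp p) ≠ 0 := by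
      have := rho_int p 12
      rw [this] at h12
      exact_mod_cast h12
    refine ⟨C (3 / 12 : kp p), C (-(1 / 12) : kp p) * X, ?_⟩
    have e3 : derivative (X ^ 3 + C (4 : kp p)) = C (3 : kp p) * X ^ 2 := by
      rw [derivative_add, derivative_C, add_zero, derivative_X_pow]
      norm_num
    rw [e3]
    have e4 : C (3 / 12 : kp p) * (X ^ 3 + C (4 : kp p)) + C (-(1 / 12) : kp p) * X *
        (C (3 : kp p) * X ^ 2) = C (3 / 12 * 4 : kp p) + C (3 / 12 + -(1 / 12) * 3 : kp p) * X ^ 3 := by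
      simp only [map_mul, map_add]
      ring
    rw [e4]
    have e5 : (3 / 12 * 4 : kp p) = 1 := by
      field_simp
      norm_num
    have e6 : (3 / 12 + -(1 / 12) * 3 : kp p) = 0 := by ring
    rw [e5, e6]
    simp

theorem irr_h {a q : ℕ} (hq : q.Prime) (hn : ∀ n : ℤ, ¬ (q : ℤ) ∣ n ^ 2 + a) :
    Irreducible (X ^ 2 + C (rho q a) : (kp q)[X]) := by
  haveI hpr := sp_prime hq
  haveI hmax : (sp ℚ q).IsMaximal := hpr.isMaximal (sp_ne_bot hq)
  letI : Field (kp q) := Ideal.Quotient.field _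
  have hd : (X ^ 2 + C (rho q a) : (kp q)[X]).natDegree = 2 := by compute_degree!
  have hm : (X ^ 2 + C (rho q a) : (kp q)[X]).Monic := by monicity!
  rw [Polynomial.irreducible_iff_roots_eq_zero_of_degree_le_three (by rw [hd])
      (by rw [hd]; norm_num)]
  rw [Multiset.eq_zero_iff_forall_notMem]
  intro x hx
  have h1 := (Polynomial.mem_roots hm.ne_zero).1 hx
  obtain ⟨y, rfl⟩ := Ideal.Quotient.mk_surjective x
  obtain ⟨n, rfl⟩ := okq y
  rw [IsRoot.def, eval_add, eval_pow, eval_X, eval_C] at h1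
  apply hn n
  rw [← rho_zero, rho_int]
  push_cast
  have h2 : Ideal.Quotient.mk (sp ℚ q) (n : 𝓞 ℚ) = (n : kp q) := rho_int q n
  rw [h2, rho_int] at h1
  exact_mod_cast h1

theorem goodS {a W : ℕ} {S : Finset ℕ} (hW : 3 ≤ W)
    (hS : ∀ q ∈ S, W < q ∧ q.Prime ∧ q % 8 = 1 ∧ ∀ n : ℤ, ¬ (q : ℤ) ∣ n ^ 2 + a) :
    GoodS 1 W S (sp ℚ) (fun _ => X ^ 2 + C ((a : ℤ) : 𝓞 ℚ)) (fun _ => pol a 0) := by
  intro q hq
  obtain ⟨hqW, hqp, hq8, hqn⟩ := hS q hq
  refine ⟨hqp, hqW, by omega, hq8, ?_, sp_prime hqp, ?_, monic_X_pow_add_C _ two_ne_zero,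
    natDegree_X_pow_add_C, ?_,
    pol_mon _ _, pol_deg _ _, pol_c2 _ _, ?_, ?_⟩
  · intro 𝔭 hp hm
    by_cases hb : 𝔭 = ⊥
    · rw [hb] at hm
      have : (q : 𝓞 ℚ) ∈ (⊥ : Ideal (𝓞 ℚ)) := Ideal.pow_le_self two_ne_zero hm
      rw [Ideal.mem_bot] at this
      exact hqp.ne_zero (by exact_mod_cast this)
    · obtain ⟨p, hpp, rfl⟩ := prime_eq hp hb
      rw [sp_sq] at hm
      have h1 : ((q : ℤ) : 𝓞 ℚ) ∈ sp ℚ (p ^ 2) := by exact_mod_cast hm
      rw [mem_sp] at h1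
      have h2 : p ^ 2 ∣ q := by exact_mod_cast h1
      have h3 : p ∣ q := (dvd_pow_self p two_ne_zero).trans h2
      have h4 := (Nat.prime_dvd_prime_iff_eq hpp hqp).1 h3
      rw [h4] at h2
      have h5 := Nat.le_of_dvd hqp.pos h2
      have := hqp.two_le
      nlinarith
  · have : ((q : ℤ) : 𝓞 ℚ) ∈ sp ℚ q := (mem_sp q q).2 dvd_rfl
    exact_mod_cast this
  · have e : rd (sp ℚ q) (X ^ 2 + C ((a : ℤ) : 𝓞 ℚ)) = X ^ 2 + C (rho q a) := by
      unfold rd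
      rw [Polynomial.map_add, Polynomial.map_pow, map_X, map_C]
      rfl
    rw [e]
    exact irr_h hqp hqn
  · intro j
    have e : pol a 0 = X * (X ^ 2 + C ((a : ℤ) : 𝓞 ℚ)) := by
      unfold pol
      simp
      ring
    rw [e, sub_self]
    exact Ideal.zero_mem _
  · intro 𝔭 hp hm hne
    exfalso
    apply hne
    have hle : sp ℚ q ≤ 𝔭 := by
      rw [sp, Ideal.span_singleton_le_iff_mem]
      exact hm
    haveI hmax : (sp ℚ q).IsMaximal := (sp_prime hqp).isMaximal (sp_ne_bot hqp)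
    exact (hmax.eq_of_le hp.ne_top hle).symm

end Pool.Agent.V7H54.A
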