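import Mathlib

/-!
# Hermite reduction of a ternary form of determinant `-1`
-/

set_option autoImplicit false
set_option linter.all false

namespace Pool.Agent.V7H54.A

theorem near (a b : ℤ) (ha : a ≠ 0) : ∃ n : ℤ, |2 * (b + n * a)| ≤ |a| := by
  refine ⟨-round ((b : ℚ) / a), ?_⟩
  have ha' : (a : ℚ) ≠ 0 := by exact_mod_cast ha
  have h := abs_sub_round ((b : ℚ) / a)
  have e : (2 * (b + -round ((b : ℚ) / a) * a) : ℚ) = 2 * a * ((b : ℚ) / a - round ((b : ℚ) / a)) := by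
    field_simp
    ring
  have h2 : |(2 * (b + -round ((b : ℚ) / a) * a) : ℚ)| ≤ |(a : ℚ)| := by
    rw [e, abs_mul, abs_mul, abs_of_pos (by norm_num : (0 : ℚ) < 2)]
    nlinarith [abs_nonneg (a : ℚ)]
  exact_mod_cast h2

theorem herm_num {a b c d e f : ℤ}
    (hdet : a * d * f + 2 * b * c * e - a * e ^ 2 - d * c ^ 2 - f * b ^ 2 = -1) (ha : a ≠ 0)
    (hb : |2 * b| ≤ |a|) (hd : |a| ≤ |d|) (hE : |2 * (a * e - b * c)| ≤ |a * d - b ^ 2|)
    (hF : |a * d - b ^ 2| ≤ |a * f - c ^ 2|) :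
    |a| = 1 ∧ b = 0 ∧ |d| = 1 ∧ e = 0 ∧ a * f - c ^ 2 = -d := by
  obtain ⟨D, hD⟩ : ∃ D, D = a * d - b ^ 2 := ⟨_, rfl⟩
  obtain ⟨E, hE'⟩ : ∃ E, E = a * e - b * c := ⟨_, rfl⟩
  obtain ⟨F, hF'⟩ : ∃ F, F = a * f - c ^ 2 := ⟨_, rfl⟩
  have hid : D * F - E ^ 2 = -a := by
    rw [hD, hE', hF']
    linear_combination a * hdet
  rw [← hD, ← hE'] at hE
  rw [← hD, ← hF'] at hF
  have h1 : 3 * |a| ^ 2 ≤ 4 * |D| := by
    have e1 : |a| * |a| ≤ |a * d| := by
      rw [abs_mul]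
      exact mul_le_mul_of_nonneg_left hd (abs_nonneg a)
    have e2 : 4 * b ^ 2 ≤ |a| ^ 2 := by
      have := pow_le_pow_left₀ (abs_nonneg (2 * b)) hb 2
      rw [sq_abs] at this
      nlinarith
    have e3 : |a * d| ≤ |D| + b ^ 2 := by
      have : a * d = D + b ^ 2 := by rw [hD]; ring
      rw [this]
      refine (abs_add_le _ _).trans ?_
      rw [abs_of_nonneg (sq_nonneg b)]
    nlinarith
  have h2 : 3 * |D| ^ 2 ≤ 4 * |a| := by
    have e1 : |D| * |D| ≤ |D * F| := by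
      rw [abs_mul]
      exact mul_le_mul_of_nonneg_left hF (abs_nonneg D)
    have e2 : 4 * E ^ 2 ≤ |D| ^ 2 := by
      have := pow_le_pow_left₀ (abs_nonneg (2 * E)) hE 2
      rw [sq_abs] at this
      nlinarith
    have e3 : |D * F| ≤ |a| + E ^ 2 := by
      have : D * F = -a + E ^ 2 := by linarith
      rw [this]
      refine (abs_add_le _ _).trans ?_
      rw [abs_of_nonneg (sq_nonneg E), abs_neg]
    nlinarith
  have hx : 1 ≤ |a| := Int.one_le_abs ha
  have hy0 : 0 ≤ |D| := abs_nonneg D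
  have ha1 : |a| = 1 := by
    by_contra hne
    have h3 : 2 ≤ |a| := by omega
    have h5 : |D| ≤ |a| := by nlinarith
    have h6 : 3 * |a| ≤ 4 := by nlinarith
    omega
  have hD1 : |D| = 1 := by
    rw [ha1] at h1 h2
    have h3 : |D| ≤ 1 := by nlinarith
    have h4 : 0 < |D| := by omega
    omega
  have hb0 : b = 0 := by
    rw [ha1] at hb
    have := abs_le.1 hb
    omega
  subst hb0
  have hd1 : |d| = 1 := by
    have : |D| = |a| * |d| := by rw [hD, ← abs_mul]; congr 1; ring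
    rw [hD1, ha1, one_mul] at this
    exact this.symm
  have he0 : e = 0 := by
    rw [hD1] at hE
    have := abs_le.1 hE
    have hE0 : E = 0 := by omega
    rw [hE'] at hE0
    have : a * e = 0 := by linarith
    exact (mul_eq_zero.1 this).resolve_left ha
  subst he0
  refine ⟨ha1, rfl, hd1, rfl, ?_⟩
  have h4 : d * (a * f - c ^ 2) = -1 := by linear_combination hdet
  rcases (abs_eq (by norm_num : (0 : ℤ) ≤ 1)).1 hd1 with h | h <;> rw [h] at h4 ⊢ <;> linarith

section form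

variable {V : Type} [AddCommGroup V]

/-- Gram determinant -/
def gd (β : V → V → ℤ) (x y z : V) : ℤ :=
  β x x * β y y * β z z + 2 * β x y * β x z * β y z - β x x * β y z ^ 2 - β y y * β x z ^ 2 -
    β z z * β x y ^ 2

theorem herm (β : V → V → ℤ) (hadd : ∀ x y z, β (x + y) z = β x z + β y z)
    (hsymm : ∀ x y, β x y = β y x) (h : ∃ x y z, gd β x y z = -1) :
    (∃ x, x ≠ 0 ∧ β x x = 0) ∨ ∃ x y z, β x x = -1 ∧ β y y = -1 ∧ β z z = -1 ∧ β x y = 0 ∧
      β x z = 0 ∧ β y z = 0 := by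
  have hadd' : ∀ x y z, β x (y + z) = β x y + β x z := fun x y z => by
    rw [hsymm, hadd, hsymm y, hsymm z]
  have hzero : ∀ z, β 0 z = 0 := fun z => by
    have := hadd 0 0 z
    rw [add_zero] at this
    linarith
  have hneg : ∀ x z, β (-x) z = -β x z := fun x z => by
    have := hadd x (-x) z
    rw [add_neg_cancel, hzero] at this
    linarith
  have hnsmul : ∀ (n : ℕ) x z, β (n • x) z = n * β x z := by
    intro n x z
    induction n with
    | zero => rw [zero_smul, hzero]; simp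
    | succ k ih => rw [succ_nsmul, hadd, ih]; push_cast; ring
  have hz : ∀ (n : ℤ) x z, β (n • x) z = n * β x z := by
    intro n x z
    obtain ⟨k, rfl | rfl⟩ := n.eq_nat_or_neg
    · rw [natCast_zsmul, hnsmul]
    · rw [neg_smul, hneg, natCast_zsmul, hnsmul]
      ring
  have hz' : ∀ (n : ℤ) x z, β x (n • z) = n * β x z := fun n x z => by
    rw [hsymm, hz, hsymm z]
  by_contra hcon
  push Not at hcon
  obtain ⟨hani, hneg1⟩ := hcon
  obtain ⟨𝒯, h𝒯⟩ : ∃ 𝒯 : Set (V × V × V), 𝒯 = {T | gd β T.1 T.2.1 T.2.2 = -1} := ⟨_, rfl⟩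
  have h𝒯ne : 𝒯.Nonempty := by
    obtain ⟨x, y, z, h⟩ := h
    exact ⟨(x, y, z), by rw [h𝒯]; exact h⟩
  obtain ⟨T₀, hT₀, hmin₀⟩ : ∃ T ∈ 𝒯, ∀ T' ∈ 𝒯, (β T.1 T.1).natAbs ≤ (β T'.1 T'.1).natAbs :=
    ⟨Function.argminOn (fun T : V × V × V => (β T.1 T.1).natAbs) 𝒯 h𝒯ne,
      Function.argminOn_mem _ _ _, fun T' hT' =>
        Function.argminOn_le (fun T : V × V × V => (β T.1 T.1).natAbs) _ hT'⟩
  obtain ⟨𝒯₁, h𝒯₁⟩ : ∃ 𝒯₁ : Set (V × V × V),
    𝒯₁ = {T | T ∈ 𝒯 ∧ (β T.1 T.1).natAbs = (β T₀.1 T₀.1).natAbs} := ⟨_, rfl⟩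
  have h𝒯₁ne : 𝒯₁.Nonempty := ⟨T₀, by rw [h𝒯₁]; exact ⟨hT₀, rfl⟩⟩
  obtain ⟨T, hT, hmin⟩ : ∃ T ∈ 𝒯₁, ∀ T' ∈ 𝒯₁,
      (β T.1 T.1 * β T.2.1 T.2.1 - β T.1 T.2.1 ^ 2).natAbs ≤
      (β T'.1 T'.1 * β T'.2.1 T'.2.1 - β T'.1 T'.2.1 ^ 2).natAbs :=
    ⟨Function.argminOn (fun T : V × V × V =>
        (β T.1 T.1 * β T.2.1 T.2.1 - β T.1 T.2.1 ^ 2).natAbs) 𝒯₁ h𝒯₁ne,
      Function.argminOn_mem _ _ _, fun T' hT' =>
        Function.argminOn_le (fun T : V × V × V =>
        (β T.1 T.1 * β T.2.1 T.2.1 - β T.1 T.2.1 ^ 2).natAbs) _ hT'⟩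
  obtain ⟨x, y, z⟩ := T
  rw [h𝒯₁] at hT
  obtain ⟨hT1, hT2⟩ := hT
  simp only at hT2 hmin
  have hgd : gd β x y z = -1 := by rw [h𝒯] at hT1; exact hT1
  have hx0 : x ≠ 0 := by
    rintro rfl
    unfold gd at hgd
    rw [hzero, hzero, hzero] at hgd
    simp at hgd
  have ha : β x x ≠ 0 := hani x hx0
  -- adjust y
  obtain ⟨n, hn⟩ := near (β x x) (β x y) ha
  obtain ⟨y', hy'⟩ : ∃ y', y' = y + n • x := ⟨_, rfl⟩
  have hxy' : β x y' = β x y + n * β x x := by rw [hy', hadd', hz']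
  have hyy' : β y' y' = β y y + 2 * n * β x y + n ^ 2 * β x x := by
    rw [hy', hadd, hadd', hadd', hz, hz, hz', hz', hsymm y x]
    ring
  have hyz' : β y' z = β y z + n * β x z := by rw [hy', hadd, hz]
  have hD' : β x x * β y' y' - β x y' ^ 2 = β x x * β y y - β x y ^ 2 := by
    rw [hxy', hyy']
    ring
  have hgd' : gd β x y' z = -1 := by
    rw [← hgd]
    unfold gd
    rw [hxy', hyy', hyz']
    ring
  have hD0 : β x x * β y' y' - β x y' ^ 2 ≠ 0 := by
    intro h0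
    have h1 : β (-(β x y') • x + β x x • y') (-(β x y') • x + β x x • y') = 0 := by
      rw [hadd, hadd', hadd', hz, hz, hz', hz', hz', hz, hz, hz', hsymm y' x]
      linear_combination β x x * h0
    have h2 : -(β x y') • x + β x x • y' ≠ 0 := by
      intro h3
      have k1 : β (-(β x y') • x + β x x • y') z = 0 := by rw [h3, hzero]
      rw [hadd, hz, hz] at k1
      have k2 : β x x * gd β x y' z = 0 := by
        unfold gd
        linear_combination (β x x * β z z - β x z ^ 2) * h0 - (β x x * β y' z - β x y' * β x z) * k1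
      rw [hgd'] at k2
      apply ha
      linarith
    exact hani _ h2 h1
  -- adjust z
  obtain ⟨m, hm⟩ := near (β x x * β y' y' - β x y' ^ 2) (β x x * β y' z - β x y' * β x z) hD0
  obtain ⟨z', hz''⟩ : ∃ z', z' = z + m • y' := ⟨_, rfl⟩
  have hxz' : β x z' = β x z + m * β x y' := by rw [hz'', hadd', hz']
  have hyz'' : β y' z' = β y' z + m * β y' y' := by rw [hz'', hadd', hz']
  have hzz' : β z' z' = β z z + 2 * m * β y' z + m ^ 2 * β y' y' := by
    rw [hz'', hadd, hadd', hadd', hz, hz, hz', hz', hsymm z y']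
    ring
  have hgd'' : gd β x y' z' = -1 := by
    rw [← hgd']
    unfold gd
    rw [hxz', hyz'', hzz']
    ring
  have hE : |2 * (β x x * β y' z' - β x y' * β x z')| ≤ |β x x * β y' y' - β x y' ^ 2| := by
    refine le_trans (le_of_eq ?_) hm
    congr 1
    rw [hxz', hyz'']
    ring
  -- minimality
  have hd : |β x x| ≤ |β y' y'| := by
    have h1 : (y', x, z') ∈ 𝒯 := by
      rw [h𝒯]
      show gd β y' x z' = -1
      rw [← hgd'']
      unfold gd
      rw [hsymm y' x]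
      ring
    have h2 := hmin₀ _ h1
    rw [← hT2] at h2
    rw [Int.abs_eq_natAbs, Int.abs_eq_natAbs]
    exact_mod_cast h2
  have hF : |β x x * β y' y' - β x y' ^ 2| ≤ |β x x * β z' z' - β x z' ^ 2| := by
    have h1 : (x, z', y') ∈ 𝒯₁ := by
      rw [h𝒯₁, h𝒯]
      refine ⟨?_, hT2⟩
      show gd β x z' y' = -1
      rw [← hgd'']
      unfold gd
      rw [hsymm z' y']
      ring
    have h2 := hmin _ h1
    simp only at h2
    rw [← hD'] at h2
    rw [Int.abs_eq_natAbs, Int.abs_eq_natAbs]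
    exact_mod_cast h2
  obtain ⟨c1, c2, c3, c4, c5⟩ := herm_num (a := β x x) (b := β x y') (c := β x z')
    (d := β y' y') (e := β y' z') (f := β z' z') hgd'' ha (by rw [hxy']; exact hn) hd hE hF
  -- the orthogonal basis
  obtain ⟨w, hw⟩ : ∃ w, w = z' + (-(β x x * β x z')) • x := ⟨_, rfl⟩
  have haa : β x x * β x x = 1 := by
    rcases (abs_eq (by norm_num : (0 : ℤ) ≤ 1)).1 c1 with h | h <;> rw [h] <;> norm_num
  have hxw : β x w = 0 := by
    rw [hw, hadd', hz']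
    linear_combination (-β x z') * haa
  have hyw : β y' w = 0 := by
    rw [hw, hadd', hz', c4, hsymm y' x, c2]
    ring
  have hww : β w w = -(β x x * β y' y') := by
    rw [hw, hadd, hadd', hadd', hz, hz, hz', hz', hsymm z' x]
    linear_combination β x x * c5 + (β x x * β x z' ^ 2 - β z' z') * haa
  have key : ∀ u v : V, β u v = 0 → β u u ≠ 0 → β u u = -β v v → False := by
    intro u v h1 h2 h3
    refine hani (u + v) ?_ ?_
    · intro h4
      have : β (u + v) u = 0 := by rw [h4, hzero]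
      rw [hadd, hsymm v u, h1] at this
      exact h2 (by linarith)
    · rw [hadd, hadd', hadd', hsymm v u, h1, h3]
      ring
  rcases (abs_eq (by norm_num : (0 : ℤ) ≤ 1)).1 c1 with h | h
  · rcases (abs_eq (by norm_num : (0 : ℤ) ≤ 1)).1 c3 with h' | h'
    · exact key x w hxw ha (by rw [hww, h, h']; norm_num)
    · exact key x y' c2 ha (by rw [h, h']; norm_num)
  · rcases (abs_eq (by norm_num : (0 : ℤ) ≤ 1)).1 c3 with h' | h'
    · exact key x y' c2 ha (by rw [h, h'])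
    · exact hneg1 x y' w h h' (by rw [hww, h, h']; norm_num) c2 hxw hyw

end form

end Pool.Agent.V7H54.A
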