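import Pool.Agent.V7H54.A.Herm
import Pool.Agent.V7H54.A.Cp
import Pool.Agent.N547.PF.Dis
import Pool.Agent.N614.PF.Chi

/-!
# The forms of the lattices over the integers are isotropic
-/

set_option autoImplicit false
set_option linter.all false

open Polynomial Matrix NumberField
open scoped Classical

namespace Pool.Agent.V7H54.A

open Pool.Agent.N783.PQ (chp)
open Pool.Agent.N783.PF
open Pool.Agent.N352.PJ (Mt)

theorem int_of {x : ℚ} (h : IsIntegral ℤ x) : ∃ n : ℤ, (n : ℚ) = x := by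
  obtain ⟨n, hn⟩ := IsIntegrallyClosed.isIntegral_iff.1 h
  exact ⟨n, by simpa using hn⟩

theorem okq (x : 𝓞 ℚ) : ∃ n : ℤ, (n : 𝓞 ℚ) = x := by
  obtain ⟨n, hn⟩ := int_of x.isIntegral_coe
  refine ⟨n, RingOfIntegers.ext ?_⟩
  rw [show ((x : 𝓞 ℚ) : ℚ) = (n : ℚ) from hn.symm]
  simp

/-- The polynomial `X ^ 3 + A X + t`. -/
noncomputable def pol (A t : ℤ) : (𝓞 ℚ)[X] := X ^ 3 + C (A : 𝓞 ℚ) * X + C (t : 𝓞 ℚ)

theorem pol_mon (A t : ℤ) : (pol A t).Monic := by
  unfold pol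
  monicity!

theorem pol_deg (A t : ℤ) : (pol A t).natDegree = 2 * 1 + 1 := by
  unfold pol
  compute_degree!

theorem pol_c0 (A t : ℤ) : (pol A t).coeff 0 = (t : 𝓞 ℚ) := by
  unfold pol
  simp [coeff_X]

theorem pol_c1 (A t : ℤ) : (pol A t).coeff 1 = (A : 𝓞 ℚ) := by
  unfold pol
  rw [coeff_add, coeff_add, coeff_C_mul, coeff_X_pow, coeff_X_one, coeff_C]
  simp

theorem pol_c2 (A t : ℤ) : (pol A t).coeff (2 * 1) = 0 := by
  unfold pol
  rw [coeff_add, coeff_add, coeff_C_mul, coeff_X_pow, coeff_X, coeff_C]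
  simp

theorem fF_pol (A t : ℤ) : fF (pol A t) = X ^ 3 + C (A : ℚ) * X + C (t : ℚ) := by
  unfold pol fF
  simp

section lat

variable {L : Type} [Field L] [NumberField L] [Algebra ℚ L] {A t : ℤ} {θ : L}
  {α : L} {Λ : Submodule (𝓞 ℚ) L}

theorem zmem {x : L} (hx : x ∈ Λ) (n : ℤ) : (n : L) * x ∈ Λ := by
  have h := Λ.smul_mem (n : 𝓞 ℚ) hx
  have e : (n : 𝓞 ℚ) • x = (n : L) * x := by
    rw [Algebra.smul_def]
    congr 1
    simp
  rwa [e] at h

theorem exists_int (hG : IsGen 1 (pol A t) θ) (hL : Lat hG α Λ) {x y : L} (hx : x ∈ Λ)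
    (hy : y ∈ Λ) : ∃ n : ℤ, (n : ℚ) = hG.top (x * y / α) := int_of (hL.int x hx y hy)

theorem top_add (hG : IsGen 1 (pol A t) θ) (x y : L) : hG.top (x + y) = hG.top x + hG.top y :=
  map_add _ _ _

theorem top_mul (hG : IsGen 1 (pol A t) θ) (q : ℚ) (x : L) :
    hG.top (algebraMap ℚ L q * x) = q * hG.top x := by
  rw [← Algebra.smul_def, map_smul, smul_eq_mul]

theorem top_int (hG : IsGen 1 (pol A t) θ) (n : ℤ) (x : L) :
    hG.top ((n : L) * x) = n * hG.top x := by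
  have := top_mul hG (n : ℚ) x
  simpa using this

/-- A basis over the integers with Gram determinant `-1`. -/
theorem unim (hG : IsGen 1 (pol A t) θ) (hα : α ≠ 0) (hN : IsSquare (Algebra.norm ℚ α))
    (hL : Lat hG α Λ) : ∃ b : Fin 3 → L, (∀ i, b i ∈ Λ) ∧ LinearIndependent ℚ b ∧
    ∃ G : Matrix (Fin 3) (Fin 3) ℤ, (∀ i j, (G i j : ℚ) = hG.top (b i * b j / α)) ∧ G.det = -1 := by
  have hinst : ‹Algebra ℚ L› = DivisionRing.toRatAlgebra := Subsingleton.elim _ _
  subst hinst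
  obtain ⟨b₀, hb₀, hb₀Λ⟩ := Pool.Agent.N547.PF.exists_basis hG Λ hL.fg hL.span
  have hfr : (2 * 1 + 1) * Module.finrank ℚ ℚ = 3 := by rw [Module.finrank_self]
  obtain ⟨b, hb⟩ : ∃ b : Fin 3 → L, b = fun i => b₀ (finCongr hfr.symm i) := ⟨_, rfl⟩
  have hli : LinearIndependent ℚ b := by
    rw [hb]
    exact hb₀.comp _ (finCongr hfr.symm).injective
  have hbΛ : ∀ x : L, x ∈ Λ ↔ ∃ c : Fin 3 → ℤ, x = ∑ i, (c i : L) * b i := by
    intro x
    rw [hb₀Λ x]
    constructor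
    · rintro ⟨c, rfl⟩
      refine ⟨fun i => c (finCongr hfr.symm i), ?_⟩
      rw [hb]
      exact (Equiv.sum_comp (finCongr hfr.symm) fun i => (c i : L) * b₀ i).symm
    · rintro ⟨c, rfl⟩
      refine ⟨fun i => c (finCongr hfr i), ?_⟩
      rw [hb]
      rw [← Equiv.sum_comp (finCongr hfr.symm) fun i => (c (finCongr hfr i) : L) * b₀ i]
      rfl
  have hbm : ∀ i, b i ∈ Λ := by
    intro i
    rw [hbΛ]
    refine ⟨Pi.single i 1, ?_⟩
    rw [Finset.sum_eq_single i]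
    · simp
    · intro j _ hj
      rw [Pi.single_eq_of_ne hj]
      simp
    · intro h
      exact absurd (Finset.mem_univ _) h
  refine ⟨b, hbm, hli, ?_⟩
  have hch : ∀ i j, ∃ n : ℤ, (n : ℚ) = hG.top (b i * b j / α) := fun i j =>
    exists_int hG hL (hbm i) (hbm j)
  choose G hGG using hch
  refine ⟨Matrix.of G, hGG, ?_⟩
  obtain ⟨A', B', hGr, -, -, hdet0, -, -, hdet, -⟩ := Pool.Agent.N614.PF.chi 1 ℚ L (pol A t) θ hG α Λ b
    (pol_c2 A t) hα hL hbm hli
  obtain ⟨x, hx0, hx⟩ := hdet hN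
  obtain ⟨n, hn⟩ := okq x
  have hA' : A' = (Matrix.of G).map (Int.castRingHom (𝓞 ℚ)) := by
    ext i j
    rw [hGr.gA i j, ← hGG i j]
    simp
  have hdetG : ((Matrix.of G).det : 𝓞 ℚ) = -(n : 𝓞 ℚ) ^ 2 := by
    have h1 := RingHom.map_det (Int.castRingHom (𝓞 ℚ)) (Matrix.of G)
    rw [RingHom.mapMatrix_apply, ← hA', hx, ← hn] at h1
    rw [eq_intCast] at h1
    rw [h1]
    ring
  have hdetZ : (Matrix.of G).det = -n ^ 2 := by exact_mod_cast hdetG
  have hn0 : n ≠ 0 := by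
    rintro rfl
    apply hx0
    rw [← hn]
    simp
  -- the inverse is integral
  obtain ⟨Gq, hGq⟩ : ∃ Gq : Matrix (Fin 3) (Fin 3) ℚ, Gq = (Matrix.of G).map (Int.castRingHom ℚ) :=
    ⟨_, rfl⟩
  have hGqd : Gq.det = ((Matrix.of G).det : ℚ) := by
    rw [hGq, ← RingHom.mapMatrix_apply, ← RingHom.map_det]
    simp
  have hu : IsUnit Gq.det := by
    rw [hGqd, hdetZ, isUnit_iff_ne_zero]
    push_cast
    exact neg_ne_zero.2 (pow_ne_zero _ (by exact_mod_cast hn0))
  have hinv : ∀ i j, ∃ m : ℤ, (m : ℚ) = Gq⁻¹ i j := by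
    intro i
    obtain ⟨y, hy⟩ : ∃ y : L, y = ∑ j, algebraMap ℚ L (Gq⁻¹ i j) * b j := ⟨_, rfl⟩
    have hyΛ : y ∈ Λ := by
      refine hL.dual y fun x hx => ?_
      obtain ⟨c, rfl⟩ := (hbΛ x).1 hx
      have e1 : hG.top ((∑ k, (c k : L) * b k) * y / α) = (c i : ℚ) := by
        have e2 : (∑ k, (c k : L) * b k) * y / α =
            ∑ k, ∑ j, (c k : L) * (algebraMap ℚ L (Gq⁻¹ i j) * (b j * b k / α)) := by
          rw [hy, Finset.sum_mul, Finset.sum_div]
          refine Finset.sum_congr rfl fun k _ => ?_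
          rw [Finset.mul_sum, Finset.sum_div]
          refine Finset.sum_congr rfl fun j _ => ?_
          ring
        rw [e2, map_sum]
        have e3 : ∀ k, hG.top (∑ j, (c k : L) * (algebraMap ℚ L (Gq⁻¹ i j) * (b j * b k / α))) =
            (c k : ℚ) * (Gq⁻¹ * Gq) i k := by
          intro k
          rw [map_sum, Matrix.mul_apply, Finset.mul_sum]
          refine Finset.sum_congr rfl fun j _ => ?_
          rw [top_int, top_mul, ← hGG j k, hGq]
          simp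
        rw [Finset.sum_congr rfl fun k _ => e3 k, Matrix.nonsing_inv_mul _ hu]
        rw [Finset.sum_eq_single i]
        · rw [Matrix.one_apply_eq, mul_one]
        · intro k _ hk
          rw [Matrix.one_apply_ne hk.symm, mul_zero]
        · intro h
          exact absurd (Finset.mem_univ _) h
      rw [e1]
      exact isIntegral_algebraMap (R := ℤ) (x := c i)
    obtain ⟨c, hc⟩ := (hbΛ y).1 hyΛ
    intro j
    refine ⟨c j, ?_⟩
    have h1 : ∑ j, (Gq⁻¹ i j - (c j : ℚ)) • b j = 0 := by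
      have : ∀ j, (Gq⁻¹ i j - (c j : ℚ)) • b j = algebraMap ℚ L (Gq⁻¹ i j) * b j - (c j : L) * b j := by
        intro j
        rw [Algebra.smul_def, map_sub, sub_mul]
        congr 2
        simp
      rw [Finset.sum_congr rfl fun j _ => this j, Finset.sum_sub_distrib, ← hy, ← hc, sub_self]
    have h2 := (Fintype.linearIndependent_iff.1 hli) _ h1 j
    linarith
  choose H hH using hinv
  have hHq : (Matrix.of H).map (Int.castRingHom ℚ) = Gq⁻¹ := by
    ext i j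
    rw [Matrix.map_apply, Matrix.of_apply, ← hH i j]
    simp
  have hprod : (Matrix.of H).det * (Matrix.of G).det = 1 := by
    have h1 : ((Matrix.of H).det : ℚ) = (Gq⁻¹).det := by
      rw [← hHq, ← RingHom.mapMatrix_apply, ← RingHom.map_det]
      simp
    have h2 : ((Matrix.of H).det : ℚ) * ((Matrix.of G).det : ℚ) = 1 := by
      rw [h1, ← hGqd, Matrix.det_nonsing_inv]
      exact Ring.inverse_mul_cancel _ hu
    exact_mod_cast h2
  rw [hdetZ] at hprod ⊢
  have h3 : IsUnit (n ^ 2) := by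
    refine isUnit_iff_exists_inv.2 ⟨-(Matrix.of H).det, ?_⟩
    linarith
  have h4 : IsUnit n := (isUnit_pow_iff (by norm_num)).1 h3
  rw [Int.isUnit_iff] at h4
  rcases h4 with h4 | h4 <;> rw [h4] <;> norm_num

/-- linear independence from the Gram matrix -/
theorem li_of_gram (hG : IsGen 1 (pol A t) θ) {e : Fin 3 → L} {G : Matrix (Fin 3) (Fin 3) ℤ}
    (hGG : ∀ i j, (G i j : ℚ) = hG.top (e i * e j / α)) (hdet : G.det ≠ 0) :
    LinearIndependent ℚ e := by
  rw [Fintype.linearIndependent_iff]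
  intro c hc
  obtain ⟨Gq, hGq⟩ : ∃ Gq : Matrix (Fin 3) (Fin 3) ℚ, Gq = G.map (Int.castRingHom ℚ) := ⟨_, rfl⟩
  have hGqd : Gq.det = (G.det : ℚ) := by
    rw [hGq, ← RingHom.mapMatrix_apply, ← RingHom.map_det]
    simp
  have h1 : c ᵥ* Gq = 0 := by
    funext j
    have h2 : hG.top ((∑ i, c i • e i) * e j / α) = 0 := by
      rw [hc, zero_mul, zero_div, map_zero]
    have e2 : (∑ i, c i • e i) * e j / α = ∑ i, algebraMap ℚ L (c i) * (e i * e j / α) := by
      rw [Finset.sum_mul, Finset.sum_div]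
      refine Finset.sum_congr rfl fun k _ => ?_
      rw [Algebra.smul_def]
      ring
    rw [e2, map_sum] at h2
    rw [Pi.zero_apply, ← h2, Matrix.vecMul, dotProduct]
    refine Finset.sum_congr rfl fun i _ => ?_
    rw [top_mul, ← hGG i j, hGq]
    simp
  have h3 : IsUnit Gq.det := by
    rw [hGqd, isUnit_iff_ne_zero]
    exact_mod_cast hdet
  have h4 : c = 0 := by
    have h5 := congrArg (fun v => v ᵥ* Gq⁻¹) h1
    simp only [Matrix.vecMul_vecMul, Matrix.zero_vecMul] at h5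
    rwa [Matrix.mul_nonsing_inv _ h3, Matrix.vecMul_one] at h5
  intro i
  rw [h4]
  rfl

/-- **The form has an isotropic vector.** -/
theorem iso (hA : 0 < A) (hG : IsGen 1 (pol A t) θ) (hα : α ≠ 0)
    (hN : IsSquare (Algebra.norm ℚ α)) (hL : Lat hG α Λ) :
    ∃ x ∈ Λ, x ≠ 0 ∧ hG.top (x * x / α) = 0 := by
  obtain ⟨b, hbm, hli, G, hGG, hdet⟩ := unim hG hα hN hL
  have hch : ∀ x y : Λ, ∃ n : ℤ, (n : ℚ) = hG.top ((x : L) * y / α) := fun x y =>
    exists_int hG hL x.2 y.2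
  choose β hβ using hch
  have hadd : ∀ x y z : Λ, β (x + y) z = β x z + β y z := by
    intro x y z
    have : ((β (x + y) z : ℤ) : ℚ) = ((β x z + β y z : ℤ) : ℚ) := by
      rw [hβ, Int.cast_add, hβ, hβ, ← top_add]
      congr 1
      push_cast
      ring
    exact_mod_cast this
  have hsymm : ∀ x y : Λ, β x y = β y x := by
    intro x y
    have : ((β x y : ℤ) : ℚ) = ((β y x : ℤ) : ℚ) := by
      rw [hβ, hβ, mul_comm]
    exact_mod_cast this
  have hβG : ∀ i j, β ⟨b i, hbm i⟩ ⟨b j, hbm j⟩ = G i j := by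
    intro i j
    have : ((β ⟨b i, hbm i⟩ ⟨b j, hbm j⟩ : ℤ) : ℚ) = ((G i j : ℤ) : ℚ) := by
      rw [hβ, hGG]
    exact_mod_cast this
  have hex : ∃ x y z : Λ, gd β x y z = -1 := by
    refine ⟨⟨b 0, hbm 0⟩, ⟨b 1, hbm 1⟩, ⟨b 2, hbm 2⟩, ?_⟩
    rw [Matrix.det_fin_three] at hdet
    unfold gd
    rw [hβG, hβG, hβG, hβG, hβG, hβG]
    have s1 : G 1 0 = G 0 1 := by rw [← hβG, ← hβG, hsymm]
    have s2 : G 2 0 = G 0 2 := by rw [← hβG, ← hβG, hsymm]
    have s3 : G 2 1 = G 1 2 := by rw [← hβG, ← hβG, hsymm]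
    rw [s1, s2, s3] at hdet
    linarith
  rcases herm β hadd hsymm hex with ⟨x, hx0, hx⟩ | ⟨x, y, z, h1, h2, h3, h4, h5, h6⟩
  · refine ⟨x, x.2, fun h => hx0 (Subtype.ext h), ?_⟩
    rw [← hβ, hx, Int.cast_zero]
  · exfalso
    obtain ⟨e, he⟩ : ∃ e : Fin 3 → Λ, e = ![x, y, z] := ⟨_, rfl⟩
    have e0 : e 0 = x := by rw [he]; rfl
    have e1 : e 1 = y := by rw [he]; rfl
    have e2 : e 2 = z := by rw [he]; rfl
    have hee : ∀ i j, β (e i) (e j) = (-1 : Matrix (Fin 3) (Fin 3) ℤ) i j := by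
      intro i j
      fin_cases i <;> fin_cases j <;>
        simp [e0, e1, e2, h1, h2, h3, h4, h5, h6, hsymm y x, hsymm z x, hsymm z y]
    have hli' : LinearIndependent ℚ fun i => (e i : L) := by
      refine li_of_gram (α := α) hG (G := -1) (fun i j => ?_) ?_
      · rw [← hee, hβ]
      · rw [Matrix.det_neg]
        simp
    obtain ⟨A', B', hGr, -, hBs, -, hchp, -⟩ := Pool.Agent.N614.PF.chi 1 ℚ L (pol A t) θ hG α Λ
      (fun i => (e i : L)) (pol_c2 A t) hα hL (fun i => (e i).2) hli'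
    have hA' : mF A' = -1 := by
      ext i j
      show ((A' i j : 𝓞 ℚ) : ℚ) = (-1 : Matrix (Fin 3) (Fin 3) ℚ) i j
      have := hGr.gA i j
      rw [← hβ, hee] at this
      refine this.trans ?_
      by_cases hij : i = j
      · subst hij
        simp
      · simp [hij]
    have hinv : (mF A')⁻¹ = -1 := by
      rw [hA']
      refine Matrix.inv_eq_right_inv ?_
      simp
    unfold chp at hchp
    rw [hinv, fF_pol] at hchp
    obtain ⟨c1, c2, -⟩ := cp3 (by norm_num) _ _ _ hchp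
    have hM : ∀ i j, ((-1 : Mt 1 ℚ) * mF B') i j = -((B' i j : 𝓞 ℚ) : ℚ) := by
      intro i j
      rw [neg_one_mul, Matrix.neg_apply]
      rfl
    have hs : ∀ i j, B' i j = B' j i := fun i j => by
      rw [← Matrix.transpose_apply B' i j, hBs.eq]
    obtain ⟨u, hu⟩ : ∃ u : Fin 3 → Fin 3 → ℚ, u = fun i j => ((B' i j : 𝓞 ℚ) : ℚ) := ⟨_, rfl⟩
    have hM' : ∀ i j, ((-1 : Mt 1 ℚ) * mF B') i j = -u i j := by
      intro i j
      rw [hM, hu]
    have hus : ∀ i j, u i j = u j i := by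
      intro i j
      rw [hu]
      simp only
      rw [hs]
    have c1' : -u 0 0 + -u 1 1 + -u 2 2 = 0 := by
      rw [← hM', ← hM', ← hM']
      exact c1
    have c2' : -u 0 0 * -u 1 1 - -u 0 1 * -u 1 0 + (-u 0 0 * -u 2 2 - -u 0 2 * -u 2 0) +
        (-u 1 1 * -u 2 2 - -u 1 2 * -u 2 1) = A := by
      simp only [← hM']
      exact c2
    rw [hus 1 0, hus 2 0, hus 2 1] at c2'
    have hA0 : (0 : ℚ) < A := by exact_mod_cast hA
    have h7 : u 2 2 = -u 0 0 - u 1 1 := by linarith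
    rw [h7] at c2'
    nlinarith [sq_nonneg (u 0 1), sq_nonneg (u 0 2), sq_nonneg (u 1 2), sq_nonneg (u 0 0 + u 1 1),
      sq_nonneg (u 0 0), sq_nonneg (u 1 1)]

end lat

end Pool.Agent.V7H54.A
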