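import Pool.Agent.V7H54.A.Wy

/-!
# Discriminants without square factors in an arithmetic progression
-/

set_option autoImplicit false
set_option linter.all false

open scoped Real Classical
open Finset Filter

namespace Pool.Agent.V7H54.A

theorem few_primes {ε : ℝ} (hε : 0 < ε) : ∃ T₀ : ℝ, ∀ T : ℕ, T₀ ≤ T →
    ((Nat.primeCounting (6 * T) : ℕ) : ℝ) ≤ ε * T := by
  have h1 := Chebyshev.eventually_primeCounting_le one_pos
  have h2 : ∀ᶠ x : ℝ in atTop, (Real.log 4 + 1) * 6 / ε ≤ Real.log x :=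
    Real.tendsto_log_atTop.eventually_ge_atTop _
  obtain ⟨X₀, hX₀⟩ := eventually_atTop.1 (h1.and (h2.and (eventually_gt_atTop (1 : ℝ))))
  refine ⟨|X₀| + 1, fun T hT => ?_⟩
  have hT0 : (0 : ℝ) ≤ |X₀| := abs_nonneg _
  have hTx : X₀ ≤ 6 * (T : ℝ) := by
    have := le_abs_self X₀
    linarith
  obtain ⟨h3, h4, h5⟩ := hX₀ (6 * T) hTx
  have h6 : ⌊(6 * (T : ℝ))⌋₊ = 6 * T := by
    have : (6 * (T : ℝ)) = ((6 * T : ℕ) : ℝ) := by push_cast; rfl
    rw [this, Nat.floor_natCast]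
  rw [h6] at h3
  refine h3.trans ?_
  have hlog : 0 < Real.log (6 * T) := Real.log_pos h5
  rw [div_le_iff₀ hlog]
  rw [div_le_iff₀ hε] at h4
  have hTp : (0 : ℝ) ≤ T := by positivity
  calc (Real.log 4 + 1) * (6 * T) = ((Real.log 4 + 1) * 6) * T := by ring
    _ ≤ (Real.log (6 * T) * ε) * T := by gcongr
    _ = _ := by ring

theorem sum_sq (n : ℕ) : ∑ k ∈ Icc 5 n, 1 / (k : ℝ) ^ 2 ≤ 1 / 4 := by
  have h : ∀ n : ℕ, 4 ≤ n → ∑ k ∈ Icc 5 n, 1 / (k : ℝ) ^ 2 ≤ 1 / 4 - 1 / (n : ℝ) := by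
    intro n hn
    induction n, hn using Nat.le_induction with
    | base => norm_num
    | succ m hm ih =>
      rw [sum_Icc_succ_top (by omega)]
      have hm0 : (0 : ℝ) < m := by
        have : 0 < m := by omega
        exact_mod_cast this
      have : 1 / ((m + 1 : ℕ) : ℝ) ^ 2 ≤ 1 / (m : ℝ) - 1 / ((m + 1 : ℕ) : ℝ) := by
        push_cast
        rw [div_sub_div _ _ hm0.ne' (by positivity), div_le_div_iff₀ (by positivity) (by positivity)]
        nlinarith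
      linarith
  rcases le_or_gt 4 n with h4 | h4
  · have := h n h4
    have h5 : (0 : ℝ) ≤ 1 / (n : ℝ) := by positivity
    linarith
  · rw [Icc_eq_empty (by omega), sum_empty]
    norm_num

theorem sieve {A : ℤ} (hA : A ≠ 0) {M : ℕ} (hM : 0 < M) {t₀ : ℤ}
    (hH : ∀ p : ℕ, p.Prime → (p ∣ M ∨ p < 5 ∨ (p : ℤ) ∣ A) → ∀ t : ℤ, (M : ℤ) ∣ t - t₀ →
      ¬ (p : ℤ) ^ 2 ∣ 4 * A ^ 3 + 27 * t ^ 2) :
    ∃ T₀ : ℝ, ∀ T : ℕ, T₀ ≤ T → (T : ℝ) / (2 * M) ≤ (((Icc (-(T : ℤ)) T).filter fun t =>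
      (M : ℤ) ∣ t - t₀ ∧ ∀ p : ℕ, p.Prime → ¬ (p : ℤ) ^ 2 ∣ 4 * A ^ 3 + 27 * t ^ 2).card : ℝ) := by
  have hMr : (0 : ℝ) < M := by exact_mod_cast hM
  obtain ⟨T₁, hT₁⟩ := few_primes (ε := 1 / (8 * M)) (by positivity)
  refine ⟨|T₁| + 4 * M + 4 * |(A : ℝ)| ^ 3 + 1, fun T hT => ?_⟩
  have hT1 : T₁ ≤ T := by
    have := le_abs_self T₁
    have : (0 : ℝ) ≤ 4 * M + 4 * |(A : ℝ)| ^ 3 := by positivity
    linarith
  have hT2 : 4 * (M : ℝ) ≤ T := by
    have : (0 : ℝ) ≤ |T₁| + 4 * |(A : ℝ)| ^ 3 := by positivity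
    linarith
  have hT3 : 4 * |(A : ℝ)| ^ 3 ≤ T := by
    have : (0 : ℝ) ≤ |T₁| + 4 * M := by positivity
    linarith
  have hT4 : (1 : ℝ) ≤ T := by
    have : (0 : ℝ) ≤ |T₁| + 4 * M + 4 * |(A : ℝ)| ^ 3 := by positivity
    linarith
  have hprimes := hT₁ T hT1
  obtain ⟨F, hF⟩ : ∃ F : Finset ℤ, F = (Icc (-(T : ℤ)) T).filter fun t => (M : ℤ) ∣ t - t₀ := ⟨_, rfl⟩
  obtain ⟨G, hG⟩ : ∃ G : Finset ℤ, G = (Icc (-(T : ℤ)) T).filter fun t =>
      (M : ℤ) ∣ t - t₀ ∧ ∀ p : ℕ, p.Prime → ¬ (p : ℤ) ^ 2 ∣ 4 * A ^ 3 + 27 * t ^ 2 := ⟨_, rfl⟩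
  rw [← hG]
  have hFl : 2 * (T : ℝ) / M - 1 ≤ F.card := by
    have h1 := Int.Ioc_filter_modEq_card (-(T : ℤ)) (T : ℤ) (r := (M : ℤ)) (by exact_mod_cast hM) t₀
    have h2 : ((Ioc (-(T : ℤ)) T).filter fun x => x ≡ t₀ [ZMOD M]).card ≤ F.card := by
      refine card_le_card fun x hx => ?_
      rw [mem_filter, mem_Ioc] at hx
      rw [hF, mem_filter, mem_Icc]
      refine ⟨⟨by omega, hx.1.2⟩, ?_⟩
      exact (Int.modEq_iff_dvd.1 hx.2.symm)
    have h3 : (⌊(((T : ℤ) : ℚ) - t₀) / ((M : ℤ) : ℚ)⌋ : ℤ) - ⌊(((-(T : ℤ) : ℤ) : ℚ) - t₀) / ((M : ℤ) : ℚ)⌋ ≤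
        (F.card : ℤ) := by
      calc _ ≤ max (⌊(((T : ℤ) : ℚ) - t₀) / ((M : ℤ) : ℚ)⌋ -
            ⌊(((-(T : ℤ) : ℤ) : ℚ) - t₀) / ((M : ℤ) : ℚ)⌋) 0 := le_max_left _ _
        _ = _ := h1.symm
        _ ≤ _ := by exact_mod_cast h2
    have h4 := Int.sub_one_lt_floor ((((T : ℤ) : ℚ) - t₀) / ((M : ℤ) : ℚ))
    have h5 := Int.floor_le ((((-(T : ℤ) : ℤ) : ℚ) - t₀) / ((M : ℤ) : ℚ))
    have h6 : (2 * (T : ℚ) / M - 1) ≤ (F.card : ℚ) := by
      have h7 : ((⌊(((T : ℤ) : ℚ) - t₀) / ((M : ℤ) : ℚ)⌋ : ℤ) : ℚ) -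
          ((⌊(((-(T : ℤ) : ℤ) : ℚ) - t₀) / ((M : ℤ) : ℚ)⌋ : ℤ) : ℚ) ≤ (F.card : ℚ) := by
        exact_mod_cast h3
      have h8 : 2 * (T : ℚ) / M - 1 = ((((T : ℤ) : ℚ) - t₀) / ((M : ℤ) : ℚ) - 1) -
          (((-(T : ℤ) : ℤ) : ℚ) - t₀) / ((M : ℤ) : ℚ) := by
        push_cast
        ring
      linarith
    have h9 := (Rat.cast_le (K := ℝ)).2 h6
    push_cast at h9
    exact h9
  have hGF : G ⊆ F := by
    rw [hG, hF]
    intro t ht
    rw [mem_filter] at ht ⊢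
    exact ⟨ht.1, ht.2.1⟩
  obtain ⟨Ps, hPs⟩ : ∃ Ps : Finset ℕ, Ps = (Icc 5 (6 * T)).filter fun p => p.Prime ∧ ¬ p ∣ M ∧
    ¬ (p : ℤ) ∣ A := ⟨_, rfl⟩
  have hcov : F \ G ⊆ Ps.biUnion fun p => F.filter fun t => (p : ℤ) ^ 2 ∣ 4 * A ^ 3 + 27 * t ^ 2 := by
    intro t ht
    rw [Finset.mem_sdiff] at ht
    obtain ⟨htF, htG⟩ := ht
    have htF' := htF
    rw [hF, mem_filter, mem_Icc] at htF'
    rw [hG, mem_filter, mem_Icc] at htG
    push Not at htG
    obtain ⟨p, hp, hd⟩ := htG htF'.1 htF'.2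
    have hcond : ¬ (p ∣ M ∨ p < 5 ∨ (p : ℤ) ∣ A) := fun h => hH p hp h t htF'.2 hd
    push Not at hcond
    have hD0 : 4 * A ^ 3 + 27 * t ^ 2 ≠ 0 := by
      intro h0
      exact hH 2 Nat.prime_two (Or.inr (Or.inl (by norm_num))) t htF'.2 (by rw [h0]; exact dvd_zero _)
    have hple : p ≤ 6 * T := by
      have h1 : (p : ℤ) ^ 2 ≤ |4 * A ^ 3 + 27 * t ^ 2| :=
        Int.le_of_dvd (abs_pos.2 hD0) ((dvd_abs _ _).2 hd)
      have h2 : |4 * A ^ 3 + 27 * t ^ 2| ≤ 4 * |A| ^ 3 + 27 * (T : ℤ) ^ 2 := by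
        refine (abs_add_le _ _).trans ?_
        rw [abs_mul, abs_mul, abs_pow, abs_pow]
        have h3 : |t| ≤ T := abs_le.2 htF'.1
        have e1 : |(4 : ℤ)| = 4 := by norm_num
        have e2 : |(27 : ℤ)| = 27 := by norm_num
        rw [e1, e2]
        have h4 : |t| ^ 2 ≤ (T : ℤ) ^ 2 := pow_le_pow_left₀ (abs_nonneg _) h3 2
        linarith
      have h3 : 4 * |A| ^ 3 ≤ (T : ℤ) := by
        have : (4 * |A| ^ 3 : ℝ) ≤ T := by
          push_cast
          exact hT3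
        exact_mod_cast this
      have hT1' : (1 : ℤ) ≤ T := by exact_mod_cast hT4
      by_contra hcon
      push Not at hcon
      have h4 : (6 * T : ℤ) < p := by exact_mod_cast hcon
      nlinarith
    refine mem_biUnion.2 ⟨p, ?_, mem_filter.2 ⟨htF, hd⟩⟩
    rw [hPs, mem_filter, mem_Icc]
    exact ⟨⟨hcond.2.1, hple⟩, hp, hcond.1, hcond.2.2⟩
  have hone : ∀ p ∈ Ps, ((F.filter fun t => (p : ℤ) ^ 2 ∣ 4 * A ^ 3 + 27 * t ^ 2).card : ℝ) ≤
      2 * (2 * T / (M * (p : ℝ) ^ 2) + 1) := by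
    intro p hp
    rw [hPs, mem_filter, mem_Icc] at hp
    obtain ⟨⟨hp5, -⟩, hpp, hpM, hpA⟩ := hp
    obtain ⟨U, hU⟩ : ∃ U : Finset ℤ, U = F.filter fun t => (p : ℤ) ^ 2 ∣ 4 * A ^ 3 + 27 * t ^ 2 :=
      ⟨_, rfl⟩
    rw [← hU]
    have hpZ := Nat.prime_iff_prime_int.1 hpp
    have hp0 : (0 : ℝ) < p := by exact_mod_cast hpp.pos
    rcases U.eq_empty_or_nonempty with h0 | ⟨s, hs⟩
    · rw [h0, card_empty, Nat.cast_zero]
      positivity
    have hmemU : ∀ t ∈ U, (-(T : ℤ) ≤ t ∧ t ≤ T) ∧ (M : ℤ) ∣ t - t₀ ∧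
        (p : ℤ) ^ 2 ∣ 4 * A ^ 3 + 27 * t ^ 2 := by
      intro t ht
      rw [hU, mem_filter, hF, mem_filter, mem_Icc] at ht
      exact ⟨ht.1.1, ht.1.2, ht.2⟩
    have hcopM : IsCoprime ((M : ℤ)) ((p : ℤ) ^ 2) := by
      refine IsCoprime.pow_right ?_
      exact Nat.isCoprime_iff_coprime.2 ((Nat.Prime.coprime_iff_not_dvd hpp).2 hpM).symm
    have hsplit : ∀ t ∈ U, ((p : ℤ) ^ 2 ∣ t - s) ∨ ((p : ℤ) ^ 2 ∣ t + s) := by
      intro t ht
      have h1 := (hmemU t ht).2.2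
      have h2 := (hmemU s hs).2.2
      have h3 : (p : ℤ) ^ 2 ∣ 27 * ((t - s) * (t + s)) := by
        have := dvd_sub h1 h2
        have e : 4 * A ^ 3 + 27 * t ^ 2 - (4 * A ^ 3 + 27 * s ^ 2) = 27 * ((t - s) * (t + s)) := by
          ring
        rwa [e] at this
      have h27 : IsCoprime ((p : ℤ) ^ 2) 27 := by
        refine IsCoprime.pow_left ?_
        have : Nat.Coprime p 27 := by
          rw [Nat.Prime.coprime_iff_not_dvd hpp]
          intro hd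
          have : p ∣ 3 ^ 3 := by norm_num; exact hd
          have := Nat.le_of_dvd (by norm_num) (hpp.dvd_of_dvd_pow this)
          omega
        exact_mod_cast Nat.isCoprime_iff_coprime.2 this
      have h4 : (p : ℤ) ^ 2 ∣ (t - s) * (t + s) := h27.dvd_of_dvd_mul_left h3
      by_cases h5 : (p : ℤ) ∣ t + s
      · have h6 : ¬ (p : ℤ) ∣ t - s := by
          intro h6
          have h7 : (p : ℤ) ∣ 2 * t := by
            have := dvd_add h5 h6
            have e : t + s + (t - s) = 2 * t := by ring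
            rwa [e] at this
          have h8 : (p : ℤ) ∣ t := by
            rcases hpZ.dvd_or_dvd h7 with h | h
            · have := Int.le_of_dvd (by norm_num) h
              omega
            · exact h
          have h9 : (p : ℤ) ∣ 4 * A ^ 3 := by
            have h10 : (p : ℤ) ∣ 4 * A ^ 3 + 27 * t ^ 2 := (dvd_pow_self _ two_ne_zero).trans h1
            have h11 : (p : ℤ) ∣ 27 * t ^ 2 := Dvd.dvd.mul_left (dvd_pow h8 two_ne_zero) _
            exact (dvd_add_left h11).1 h10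
          rcases hpZ.dvd_or_dvd h9 with h | h
          · have := Int.le_of_dvd (by norm_num) h
            omega
          · exact hpA (hpZ.dvd_of_dvd_pow h)
        right
        have hc : IsCoprime ((p : ℤ) ^ 2) (t - s) := by
          refine IsCoprime.pow_left ?_
          exact (Prime.coprime_iff_not_dvd hpZ).2 h6
        exact hc.dvd_of_dvd_mul_left h4
      · left
        have hc : IsCoprime ((p : ℤ) ^ 2) (t + s) := by
          refine IsCoprime.pow_left ?_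
          exact (Prime.coprime_iff_not_dvd hpZ).2 h5
        exact hc.dvd_of_dvd_mul_right h4
    have hcardU : U.card ≤ (U.filter fun t => (p : ℤ) ^ 2 ∣ t - s).card +
        (U.filter fun t => (p : ℤ) ^ 2 ∣ t + s).card := by
      refine le_trans (card_le_card fun t ht => ?_) (card_union_le _ _)
      rw [mem_union, mem_filter, mem_filter]
      rcases hsplit t ht with h | h
      · exact Or.inl ⟨ht, h⟩
      · exact Or.inr ⟨ht, h⟩
    have hL0 : (0 : ℤ) < (M : ℤ) * (p : ℤ) ^ 2 := by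
      have : (0 : ℤ) < p := by exact_mod_cast hpp.pos
      have : (0 : ℤ) < M := by exact_mod_cast hM
      positivity
    have hTn : -(T : ℝ) ≤ T := by linarith
    have key : ∀ V : Finset ℤ, V ⊆ U → (∀ x ∈ V, ∀ y ∈ V, (p : ℤ) ^ 2 ∣ x - y) →
        (V.card : ℝ) ≤ 2 * T / (M * (p : ℝ) ^ 2) + 1 := by
      intro V hV hVV
      have h1 := card_cong V ((M : ℤ) * (p : ℤ) ^ 2) hL0 (-(T : ℝ)) T hTn (fun x hx => by
        have := (hmemU x (hV hx)).1
        exact ⟨by exact_mod_cast this.1, by exact_mod_cast this.2⟩) (fun x hx y hy => by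
        refine hcopM.mul_dvd ?_ (hVV x hx y hy)
        have h2 := dvd_sub (hmemU x (hV hx)).2.1 (hmemU y (hV hy)).2.1
        have e : x - t₀ - (y - t₀) = x - y := by ring
        rwa [e] at h2)
      refine h1.trans (le_of_eq ?_)
      push_cast
      ring
    have k1 := key (U.filter fun t => (p : ℤ) ^ 2 ∣ t - s) (filter_subset _ _) (by
      intro x hx y hy
      have h2 := dvd_sub (mem_filter.1 hx).2 (mem_filter.1 hy).2
      have e : x - s - (y - s) = x - y := by ring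
      rwa [e] at h2)
    have k2 := key (U.filter fun t => (p : ℤ) ^ 2 ∣ t + s) (filter_subset _ _) (by
      intro x hx y hy
      have h2 := dvd_sub (mem_filter.1 hx).2 (mem_filter.1 hy).2
      have e : x + s - (y + s) = x - y := by ring
      rwa [e] at h2)
    have h3 : (U.card : ℝ) ≤ ((U.filter fun t => (p : ℤ) ^ 2 ∣ t - s).card : ℝ) +
        ((U.filter fun t => (p : ℤ) ^ 2 ∣ t + s).card : ℝ) := by exact_mod_cast hcardU
    linarith
  have hPc : (Ps.card : ℝ) ≤ 1 / (8 * M) * T := by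
    refine le_trans ?_ hprimes
    have h1 : Ps ⊆ (range (6 * T + 1)).filter Nat.Prime := by
      intro p hp
      rw [hPs, mem_filter, mem_Icc] at hp
      rw [mem_filter, mem_range]
      exact ⟨by omega, hp.2.1⟩
    have h2 := card_le_card h1
    have h3 : ((range (6 * T + 1)).filter Nat.Prime).card = Nat.primeCounting (6 * T) := by
      rw [Nat.primeCounting, Nat.primeCounting', Nat.count_eq_card_filter_range]
    rw [h3] at h2
    exact_mod_cast h2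
  have hsumP : ∑ p ∈ Ps, 1 / (p : ℝ) ^ 2 ≤ 1 / 4 := by
    refine le_trans (sum_le_sum_of_subset_of_nonneg ?_ fun _ _ _ => by positivity) (sum_sq (6 * T))
    rw [hPs]
    exact filter_subset _ _
  have hbadc : ((F \ G).card : ℝ) ≤ T / M + 2 * (1 / (8 * M) * T) := by
    have h1 := (card_le_card hcov).trans card_biUnion_le
    calc ((F \ G).card : ℝ) ≤ ∑ p ∈ Ps,
          ((F.filter fun t => (p : ℤ) ^ 2 ∣ 4 * A ^ 3 + 27 * t ^ 2).card : ℝ) := by exact_mod_cast h1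
      _ ≤ ∑ p ∈ Ps, 2 * (2 * T / (M * (p : ℝ) ^ 2) + 1) := sum_le_sum hone
      _ = 4 * T / M * ∑ p ∈ Ps, 1 / (p : ℝ) ^ 2 + 2 * Ps.card := by
          have e : ∀ p ∈ Ps, 2 * (2 * (T : ℝ) / (M * (p : ℝ) ^ 2) + 1) =
              4 * T / M * (1 / (p : ℝ) ^ 2) + 2 := by
            intro p hp
            rw [hPs, mem_filter] at hp
            have : (0 : ℝ) < p := by exact_mod_cast hp.2.1.pos
            field_simp
            ring
          rw [sum_congr rfl e, sum_add_distrib, ← mul_sum, sum_const, nsmul_eq_mul]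
          ring
      _ ≤ 4 * T / M * (1 / 4) + 2 * (1 / (8 * M) * T) := by gcongr
      _ = _ := by ring
  have hsd : (F.card : ℝ) ≤ G.card + (F \ G).card := by
    have := card_sdiff_add_card_eq_card hGF
    have h2 : F.card ≤ G.card + (F \ G).card := by omega
    exact_mod_cast h2
  have h1M : (1 : ℝ) ≤ T / (4 * M) := by
    rw [le_div_iff₀ (by positivity)]
    linarith
  have e1 : (T : ℝ) / (2 * M) = 2 * T / M - T / M - 2 * (1 / (8 * M) * T) - T / (4 * M) := by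
    field_simp
    ring
  linarith

end Pool.Agent.V7H54.A
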