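import Pool.Agent.V7H54.A.Qu
import Pool.Agent.V7H54.A.Co
import Pool.Agent.V7H54.A.Sv
import Pool.Agent.V7H54.A.Ex
import Pool.Agent.V7H54.A.Go
import Pool.Agent.V7H54.U.MainU

/-!
# Many parameters `t` for which a twist of `y ^ 2 = x ^ 3 + a x + t` has a trivial 2-Selmer group
-/

set_option autoImplicit false
set_option linter.all false

open Polynomial NumberField IsDedekindDomain
open scoped Classical

namespace Pool.Agent.V7H54.A

open Pool.Agent.V7H54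
open Pool.Agent.V7H54.U (Ext irr_scale_iff)
open Pool.Agent.N783.PF
open Pool.Agent.N874.QM (SelM)

theorem ht_pol {a B : ℕ} {t : ℤ} (ha : a ≤ B ^ 2) (ht : |t| ≤ (B : ℤ) ^ 3) : Ht 1 B (pol a t) := by
  refine ⟨pol_mon _ _, pol_deg _ _, pol_c2 _ _, fun j hj σ => ?_⟩
  have hj' : j = 0 ∨ j = 1 ∨ j = 2 := by omega
  rcases hj' with rfl | rfl | rfl
  · rw [pol_c0]
    have e : (((t : 𝓞 ℚ)) : ℚ) = (t : ℚ) := by simp
    rw [e, norm_rat]
    have : |(t : ℝ)| ≤ (B : ℝ) ^ 3 := by exact_mod_cast ht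
    simpa using this
  · rw [pol_c1]
    have e : ((((a : ℤ) : 𝓞 ℚ)) : ℚ) = (a : ℚ) := by simp
    rw [e, norm_rat]
    have : (a : ℝ) ≤ (B : ℝ) ^ 2 := by exact_mod_cast ha
    simpa using this
  · have h : (pol a t).coeff 2 = 0 := pol_c2 _ _
    rw [h]
    simp

theorem pol_coeff (b s : ℤ) (j : ℕ) : (pol b s).coeff j = if j = 0 then (s : 𝓞 ℚ) else
    if j = 1 then (b : 𝓞 ℚ) else if j = 3 then 1 else 0 := by
  unfold pol
  rw [coeff_add, coeff_add, coeff_C_mul, coeff_X_pow, coeff_X, coeff_C]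
  by_cases h0 : j = 0
  · subst h0
    simp
  by_cases h1 : j = 1
  · subst h1
    simp
  by_cases h3 : j = 3
  · subst h3
    simp
  · rw [if_neg h3, if_neg (Ne.symm h1), if_neg h0, if_neg h0, if_neg h1]
    simp

theorem scale_pol (a t : ℤ) (D : ℕ) :
    (pol a t).scaleRoots (D : 𝓞 ℚ) = pol ((D : ℤ) ^ 2 * a) ((D : ℤ) ^ 3 * t) := by
  ext j
  rw [coeff_scaleRoots, pol_deg, pol_coeff, pol_coeff]
  by_cases h0 : j = 0
  · subst h0
    simp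
    ring
  by_cases h1 : j = 1
  · subst h1
    simp
    ring
  by_cases h3 : j = 3
  · subst h3
    simp
  · simp [h0, h1, h3]

/-- The twist by `D` is good over all `K`. -/
def Gd (a : ℕ) (S : Finset ℕ) (D : ℕ) (t : ℤ) : Prop :=
  Irreducible (fF (pol ((D : ℤ) ^ 2 * a) ((D : ℤ) ^ 3 * t))) ∧
  Min 1 (pol ((D : ℤ) ^ 2 * a) ((D : ℤ) ^ 3 * t)) ∧
  ∀ (K : Type) [Field K] [NumberField K] [Algebra ℚ K],
    Ext ℚ S (pol ((D : ℤ) ^ 2 * a) ((D : ℤ) ^ 3 * t)) K →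
    SelM K ((fF (pol ((D : ℤ) ^ 2 * a) ((D : ℤ) ^ 3 * t))).map (algebraMap ℚ K))

/-- one parameter -/
theorem one_t {a : ℕ} (ha : 0 < a) (h6 : Nat.Coprime a 6) {W : ℕ} {j : ℕ} (hj : 1 ≤ j)
    (hWj : W = 4 * a ^ j) {C₁ : ℕ}
    (hC₁ : ∀ (L : Type) [Field L] [NumberField L] [Algebra ℚ L] (A t : ℤ)
    (B : ℕ) (θ : L) (hG : IsGen 1 (pol A t) θ) (α : L) (Λ : Submodule (𝓞 ℚ) L), 0 < A →
    Ht 1 B (pol A t) → α ≠ 0 → IsSquare (Algebra.norm ℚ α) → Lat hG α Λ → ¬ IsSquare α →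
    ∀ S : Finset ℕ, (∀ q ∈ S, q.Prime ∧ 3 < q ∧ C₁ < q) → (∀ q ∈ S, (q : ℤ) ∣ t) →
    (∀ q ∈ S, DVec hG α Λ (sp ℚ q)) → Bt A C₁ B S rho (Om A) t) (hW3 : 3 ≤ W) (hWC : C₁ ≤ W)
    {S : Finset ℕ}
    (hS : ∀ q ∈ S, W < q ∧ q.Prime ∧ q % 8 = 1 ∧ ∀ n : ℤ, ¬ (q : ℤ) ∣ n ^ 2 + a)
    {B : ℕ} {t : ℤ} (hHt : Ht 1 B (pol a t)) (htW : (W : ℤ) ∣ t - (a + 4))
    (htS : ∀ q ∈ S, (q : ℤ) ∣ t)
    (hsq : ∀ p : ℕ, p.Prime → ¬ (p : ℤ) ^ 2 ∣ 4 * (a : ℤ) ^ 3 + 27 * t ^ 2)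
    (hnb : ¬ Bt a C₁ B S rho (Om a) t) : ∃ J ⊆ S, Gd a S (Dp J) t := by
  have hGS := goodS (a := a) (W := W) (S := S) hW3 hS
  have hGF : GoodF 1 W (pol a (a + 4)) := by rw [hWj]; exact goodF ha h6 hj
  have hodd : Odd a := Nat.coprime_two_right.1 (Nat.Coprime.coprime_dvd_right (by norm_num) h6)
  have hA : Odd (a : ℤ) := by exact_mod_cast hodd
  have h4W : (4 : ℤ) ∣ W := ⟨(a : ℤ) ^ j, by rw [hWj]; push_cast; ring⟩
  have h4 : (4 : ℤ) ∣ t - a := by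
    have h1 := (h4W.trans htW)
    have e : t - (a : ℤ) = (t - ((a : ℤ) + 4)) + 4 := by ring
    rw [e]
    exact dvd_add h1 dvd_rfl
  have htodd : Odd t := by
    obtain ⟨m, hm⟩ := h4
    have : t = a + 2 * (2 * m) := by linarith
    rw [this]
    exact hA.add_even (even_two_mul _)
  have hcg : ∀ n : ℕ, ∀ s : ℤ, (n : ℤ) ∣ t - s → Cg (sp ℚ n) (pol a t) (pol a s) := by
    intro n s hn j
    rw [pol_coeff, pol_coeff]
    by_cases h0 : j = 0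
    · rw [if_pos h0, if_pos h0]
      have : ((t - s : ℤ) : 𝓞 ℚ) ∈ sp ℚ n := (mem_sp n _).2 hn
      push_cast at this
      exact this
    · rw [if_neg h0, if_neg h0, sub_self]
      exact Ideal.zero_mem _
  have hone : Cg (sp ℚ W) (pol a t) (pol a (a + 4)) := hcg W _ htW
  have hcon : ∀ q ∈ S, Cg (sp ℚ q) (pol a t) (pol a 0) := fun q hq => hcg q 0 (by
    rw [sub_zero]
    exact htS q hq)
  have hSC : ∀ q ∈ S, q.Prime ∧ 3 < q ∧ C₁ < q := fun q hq => by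
    obtain ⟨h1, h2, h3, -⟩ := hS q hq
    exact ⟨h2, by omega, by omega⟩
  obtain ⟨J, hJ, hirr, hmin, hsel⟩ := twA hGF hGS (pol_mon a t) (pol_deg a t) (pol_c2 a t) hone hcon
    (sqF_pol hsq) (fun L _ _ _ θ hG α Λ hα hN hL hdv => by
      by_contra hns
      exact hnb (hC₁ L a t B θ hG α Λ (by exact_mod_cast ha) hHt hα hN hL hns S hSC htS hdv))
  refine ⟨J, hJ, ?_⟩
  rw [scale_pol] at hirr hmin
  have hsel' : ∀ (K : Type) [Field K] [NumberField K] [Algebra ℚ K] [IsGalois ℚ K] (n : ℕ),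
      Module.finrank ℚ K = 2 ^ n → OKK ℚ K S (pol a t) →
      SelM K ((fF (pol (((Dp J : ℕ) : ℤ) ^ 2 * a) (((Dp J : ℕ) : ℤ) ^ 3 * t))).map
        (algebraMap ℚ K)) := by
    intro K _ _ _ _ n hn hOK
    have := hsel K n hn hOK
    rwa [scale_pol] at this
  refine ⟨hirr, hmin, fun K _ _ _ hE => ?_⟩
  haveI := hE.gal
  obtain ⟨n, hn⟩ := hE.deg
  refine hsel' K n hn ⟨fun w hw => ?_, hE.spl, fun w hw => ?_, fun σ => ?_⟩
  · have h1 := hE.ram w hw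
    rw [← scale_pol] at h1
    exact ((irr_scale_iff w (pol_mon a t) (by rw [pol_deg]; norm_num) _).1 h1).2
  · exact Pool.Agent.V7H54.V3.s_H hn hE.two w (pol a t) hw (pol_mon a t) (pol_deg a t)
      (irr_two hA htodd w.isPrime hw) (t2_pol hA h4 w hw)
  · rw [pol_c1]
    have e : ((((a : ℤ) : 𝓞 ℚ)) : ℚ) = (a : ℚ) := by simp
    rw [e, map_natCast]
    positivity

/-- **Many parameters.** -/
theorem mainA {a : ℕ} (ha : 0 < a) (h6 : Nat.Coprime a 6) (hns : ¬ IsSquare a) :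
    ∃ S : Finset ℕ, (∀ q ∈ S, q.Prime ∧ 3 < q ∧ a < q) ∧ ∃ c : ℝ, 0 < c ∧ ∃ T₀ : ℕ,
    ∀ T : ℕ, T₀ ≤ T → c * (T : ℝ) ≤
      ({t : ℤ | |t| ≤ (T : ℤ) ∧ ∃ J ⊆ S, Gd a S (Dp J) t}.ncard : ℝ) := by
  obtain ⟨C₁, hC₁1, hC₁⟩ := bad_of
  have hA : (0 : ℤ) < (a : ℤ) := by exact_mod_cast ha
  obtain ⟨K, hK0, hK⟩ := cn hA C₁ hC₁1
  have hodd : Odd a := Nat.coprime_two_right.1 (Nat.Coprime.coprime_dvd_right (by norm_num) h6)
  have ha2 : 2 ≤ a := by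
    by_contra h
    have : a = 1 := by omega
    apply hns
    rw [this]
    exact ⟨1, rfl⟩
  obtain ⟨j, hjd⟩ : ∃ j : ℕ, j = C₁ + 3 := ⟨_, rfl⟩
  obtain ⟨W, hW⟩ : ∃ W : ℕ, W = 4 * a ^ j := ⟨_, rfl⟩
  have hWj : j ≤ W := by
    have h1 : j < 2 ^ j := Nat.lt_two_pow_self
    have h2 : 2 ^ j ≤ a ^ j := Nat.pow_le_pow_left ha2 j
    omega
  have hWa : a ≤ W := by
    have h1 : a ≤ a ^ j := Nat.le_self_pow (by omega) a
    omega
  have hW3 : 3 ≤ W := by omega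
  have hWC : C₁ ≤ W := by omega
  have hW0 : (0 : ℝ) < W := by
    have : 0 < W := by omega
    exact_mod_cast this
  obtain ⟨m, hm⟩ : ∃ m : ℕ, 4 * W * K < (2 : ℝ) ^ m := pow_unbounded_of_one_lt _ (by norm_num)
  obtain ⟨S, hSm, hS⟩ := exS ha hodd hns W m
  have hSC : ∀ q ∈ S, q.Prime ∧ 3 < q ∧ C₁ < q := fun q hq => by
    obtain ⟨h1, h2, h3, -⟩ := hS q hq
    exact ⟨h2, by omega, by omega⟩
  obtain ⟨B₀, hB₀⟩ := hK S (fun q hq => ⟨(hSC q hq).1, by have := (hSC q hq).2.1; omega,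
    (hSC q hq).2.2⟩)
  obtain ⟨Q, hQ⟩ : ∃ Q : ℕ, Q = ∏ q ∈ S, q := ⟨_, rfl⟩
  have hQ1 : 1 ≤ Q := by
    rw [hQ]
    exact Finset.one_le_prod' fun q hq => (hSC q hq).1.pos
  have hQ0 : (0 : ℝ) < Q := by exact_mod_cast hQ1
  have hcop : Nat.Coprime W Q := by
    rw [hQ]
    refine Nat.Coprime.prod_right fun q hq => ?_
    rw [Nat.coprime_comm, (hSC q hq).1.coprime_iff_not_dvd]
    intro hd
    have := Nat.le_of_dvd (by omega) hd
    have := (hS q hq).1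
    omega
  -- the residue class
  obtain ⟨x, hx1, hx2⟩ := Nat.chineseRemainder hcop (a + 4) 0
  obtain ⟨t₀, ht₀⟩ : ∃ t₀ : ℤ, t₀ = ((x : ℕ) : ℤ) := ⟨_, rfl⟩
  have ht₀W : (W : ℤ) ∣ t₀ - (a + 4) := by
    have := (Nat.modEq_iff_dvd.1 hx1.symm)
    rw [ht₀]
    push_cast at this ⊢
    exact this
  have ht₀Q : (Q : ℤ) ∣ t₀ := by
    have := (Nat.modEq_iff_dvd.1 hx2.symm)
    rw [ht₀]
    push_cast at this ⊢
    simpa using this
  have hcong : ∀ t : ℤ, ((W * Q : ℕ) : ℤ) ∣ t - t₀ → (W : ℤ) ∣ t - (a + 4) ∧ ∀ q ∈ S, (q : ℤ) ∣ t := by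
    intro t ht
    push_cast at ht
    refine ⟨?_, fun q hq => ?_⟩
    · have h1 := dvd_add ((dvd_mul_right (W : ℤ) Q).trans ht) ht₀W
      have e : t - t₀ + (t₀ - ((a : ℤ) + 4)) = t - (a + 4) := by ring
      rwa [e] at h1
    · have h2 : (q : ℤ) ∣ Q := by
        rw [hQ]
        exact_mod_cast Finset.dvd_prod_of_mem (fun q => q) hq
      have h1 := dvd_add ((dvd_mul_left (Q : ℤ) W).trans ht) ht₀Q
      have e : t - t₀ + t₀ = t := by ring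
      rw [e] at h1
      exact h2.trans h1
  have haodd : Odd (a : ℤ) := by exact_mod_cast hodd
  have hH : ∀ p : ℕ, p.Prime → (p ∣ W * Q ∨ p < 5 ∨ (p : ℤ) ∣ (a : ℤ)) → ∀ t : ℤ,
      ((W * Q : ℕ) : ℤ) ∣ t - t₀ → ¬ (p : ℤ) ^ 2 ∣ 4 * (a : ℤ) ^ 3 + 27 * t ^ 2 := by
    intro p hp hcase t ht hdvd
    obtain ⟨htW, htS⟩ := hcong t ht
    have hd : (p : ℤ) ∣ 4 * (a : ℤ) ^ 3 + 27 * t ^ 2 := (dvd_pow_self _ two_ne_zero).trans hdvd
    have hpZ := Nat.prime_iff_prime_int.1 hp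
    have h2 : p ≠ 2 := by
      rintro rfl
      have h4W : (4 : ℤ) ∣ W := ⟨(a : ℤ) ^ j, by rw [hW]; push_cast; ring⟩
      obtain ⟨m, hm⟩ := h4W.trans htW
      have htodd : Odd t := by
        have : t = a + 2 * (2 * m + 2) := by linarith
        rw [this]
        exact haodd.add_even (even_two_mul _)
      have h5 : Odd (4 * (a : ℤ) ^ 3 + 27 * t ^ 2) := by
        refine Even.add_odd ⟨2 * (a : ℤ) ^ 3, by ring⟩ ?_
        exact Odd.mul (by decide) (htodd.pow)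
      exact (Int.not_even_iff_odd.2 h5) (even_iff_two_dvd.2 (by exact_mod_cast hd))
    have h3 : p ≠ 3 := by
      rintro rfl
      have h5 : (3 : ℤ) ∣ 4 * (a : ℤ) ^ 3 := by
        have h6 : (3 : ℤ) ∣ 27 * t ^ 2 := ⟨9 * t ^ 2, by ring⟩
        exact (dvd_add_left h6).1 (by exact_mod_cast hd)
      have h7 : 3 ∣ 4 * a ^ 3 := by exact_mod_cast h5
      have h8 : 3 ∣ a := by
        rcases (Nat.prime_three.dvd_mul).1 h7 with h | h
        · exact absurd h (by norm_num)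
        · exact Nat.prime_three.dvd_of_dvd_pow h
      have h9 := Nat.dvd_gcd h8 (show 3 ∣ 6 by norm_num)
      rw [Nat.Coprime] at h6
      rw [h6] at h9
      omega
    have hpa : ¬ (p : ℤ) ∣ (a : ℤ) := by
      intro hpa
      have hpa' : p ∣ a := by exact_mod_cast hpa
      have hpW : p ∣ W := by
        rw [hW]
        exact Dvd.dvd.mul_left (hpa'.trans (dvd_pow_self a (by omega))) 4
      have h10 : (p : ℤ) ∣ t - 4 := by
        have h11 := ((show (p : ℤ) ∣ W by exact_mod_cast hpW).trans htW)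
        have e : t - 4 = (t - ((a : ℤ) + 4)) + a := by ring
        rw [e]
        exact dvd_add h11 hpa
      have h12 : (p : ℤ) ∣ 432 := by
        have h13 : (p : ℤ) ∣ 4 * (a : ℤ) ^ 3 := Dvd.dvd.mul_left (dvd_pow hpa (by norm_num)) _
        have h14 : (p : ℤ) ∣ 27 * t ^ 2 := (dvd_add_right h13).1 hd
        have h15 : (p : ℤ) ∣ 27 * (t + 4) * (t - 4) := Dvd.dvd.mul_left h10 _
        have e : (432 : ℤ) = 27 * t ^ 2 - 27 * (t + 4) * (t - 4) := by ring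
        rw [e]
        exact dvd_sub h14 h15
      have h16 : p ∣ 2 ^ 4 * 3 ^ 3 := by
        have : p ∣ 432 := by exact_mod_cast h12
        norm_num
        exact this
      rcases (hp.dvd_mul).1 h16 with h | h
      · exact h2 ((Nat.prime_dvd_prime_iff_eq hp Nat.prime_two).1 (hp.dvd_of_dvd_pow h))
      · exact h3 ((Nat.prime_dvd_prime_iff_eq hp Nat.prime_three).1 (hp.dvd_of_dvd_pow h))
    rcases hcase with h | h | h
    · rcases (hp.dvd_mul).1 h with h | h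
      · rw [hW] at h
        rcases (hp.dvd_mul).1 h with h | h
        · have h17 : p ∣ 2 ^ 2 := by norm_num; exact h
          exact h2 ((Nat.prime_dvd_prime_iff_eq hp Nat.prime_two).1 (hp.dvd_of_dvd_pow h17))
        · exact hpa (by exact_mod_cast hp.dvd_of_dvd_pow h)
      · rw [hQ] at h
        obtain ⟨q, hq, hpq⟩ := (Prime.dvd_finset_prod_iff hp.prime _).1 h
        have hpq' := (Nat.prime_dvd_prime_iff_eq hp (hSC q hq).1).1 hpq
        subst hpq'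
        have h18 : (p : ℤ) ∣ 27 * t ^ 2 := Dvd.dvd.mul_left (dvd_pow (htS p hq) two_ne_zero) _
        have h19 : (p : ℤ) ∣ 4 * (a : ℤ) ^ 3 := (dvd_add_left h18).1 hd
        rcases hpZ.dvd_or_dvd h19 with h | h
        · have h20 : p ∣ 2 ^ 2 := by norm_num; exact_mod_cast h
          exact h2 ((Nat.prime_dvd_prime_iff_eq hp Nat.prime_two).1 (hp.dvd_of_dvd_pow h20))
        · exact hpa (hpZ.dvd_of_dvd_pow h)
    · have h1 := hp.two_le
      have h4 : p = 4 := by omega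
      rw [h4] at hp
      exact absurd hp (by norm_num)
    · exact hpa h
  obtain ⟨T₁, hT₁⟩ := sieve (A := (a : ℤ)) (by omega) (M := W * Q) (by positivity) hH
  refine ⟨S, fun q hq => ⟨(hSC q hq).1, (hSC q hq).2.1, by have := (hS q hq).1; omega⟩,
    1 / (32 * (W * Q)), by positivity, (B₀ + a + ⌈T₁⌉₊ + 2) ^ 3, fun T hT => ?_⟩
  -- the cube root
  obtain ⟨B, hB1, hB2⟩ : ∃ B : ℕ, B ^ 3 ≤ T ∧ T < (B + 1) ^ 3 := by
    refine ⟨Nat.findGreatest (fun b => b ^ 3 ≤ T) T, ?_, ?_⟩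
    · exact Nat.findGreatest_spec (P := fun b => b ^ 3 ≤ T) (Nat.zero_le T) (by norm_num)
    · by_contra hcon
      push Not at hcon
      have h1 : Nat.findGreatest (fun b => b ^ 3 ≤ T) T + 1 ≤ T :=
        (Nat.le_self_pow (by norm_num) _).trans hcon
      have h2 := Nat.le_findGreatest (P := fun b => b ^ 3 ≤ T) h1 hcon
      omega
  have hBbig : B₀ + a + ⌈T₁⌉₊ + 1 < B + 1 := by
    have h1 : (B₀ + a + ⌈T₁⌉₊ + 2) ^ 3 < (B + 1) ^ 3 := lt_of_le_of_lt hT hB2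
    have h2 := lt_of_pow_lt_pow_left₀ 3 (Nat.zero_le _) h1
    omega
  have hBB₀ : B₀ ≤ B := by omega
  have hBa : a ≤ B := by omega
  have hB1' : 1 ≤ B := by omega
  have hBT₁ : T₁ ≤ ((B ^ 3 : ℕ) : ℝ) := by
    have h1 : ⌈T₁⌉₊ ≤ B ^ 3 := by
      have : B ≤ B ^ 3 := Nat.le_self_pow (by norm_num) B
      omega
    exact (Nat.le_ceil T₁).trans (by exact_mod_cast h1)
  have hlow := hT₁ (B ^ 3) hBT₁
  obtain ⟨G, hG⟩ : ∃ G : Finset ℤ, G = (Finset.Icc (-((B ^ 3 : ℕ) : ℤ)) ((B ^ 3 : ℕ) : ℤ)).filter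
    fun t => ((W * Q : ℕ) : ℤ) ∣ t - t₀ ∧ ∀ p : ℕ, p.Prime →
      ¬ (p : ℤ) ^ 2 ∣ 4 * (a : ℤ) ^ 3 + 27 * t ^ 2 := ⟨_, rfl⟩
  rw [← hG] at hlow
  obtain ⟨Y, hY⟩ : ∃ Y : Finset ℤ, Y = G.filter fun t => Bt a C₁ B S rho (Om a) t := ⟨_, rfl⟩
  have hPr : ∀ P r : ℤ, (P, r) ∈ Pr C₁ → P ≠ 0 ∧ r ≠ 0 ∧ |P| ≤ C₁ ∧ |r| ≤ C₁ ∧
      IsSquare (P ^ 2 * r) := by
    intro P r h
    unfold Pr at h
    rw [Finset.mem_filter, Finset.mem_product, Finset.mem_Icc, Finset.mem_Icc] at h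
    obtain ⟨⟨h1, h2, h3⟩, h4, h5⟩ := h
    simp only at h1 h2 h3 h4 h5
    refine ⟨h4, by omega, abs_le.2 h1, abs_le.2 ⟨by omega, h3⟩, h5⟩
  have hYc : (Y.card : ℝ) ≤ K * ((B : ℝ) ^ 3 / (2 ^ S.card * (Q : ℝ))) := by
    rw [hQ]
    refine hB₀ kp rho (Om a) (fun q hq x y h => rho_eq q x y h) (fun q hq P r h => ?_)
      (fun q hq P r h a' b c d e hm => ?_) B hBB₀ Y (fun t ht => ?_)
    · obtain ⟨h1, h2, h3, h4, h5⟩ := hPr P r h
      obtain ⟨k1, k2, k3⟩ := hSC q hq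
      refine card_Om k1 (by omega) h1 h2 (by omega) (by omega) h5 ?_
      exact irr_h k1 (hS q hq).2.2.2
    · obtain ⟨h1, h2, h3, h4, h5⟩ := hPr P r h
      obtain ⟨k1, k2, k3⟩ := hSC q hq
      exact ab_Om k1 k2 h1 h2 (by omega) (by omega) (irr_h k1 (hS q hq).2.2.2) hm
    · rw [hY] at ht
      exact (Finset.mem_filter.1 ht).2
  have hYK : (Y.card : ℝ) ≤ (B : ℝ) ^ 3 / (4 * (W * Q)) := by
    refine hYc.trans ?_
    rw [hSm]
    rw [mul_div_assoc', div_le_div_iff₀ (by positivity) (by positivity)]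
    have hB3 : (0 : ℝ) ≤ (B : ℝ) ^ 3 := by positivity
    calc K * (B : ℝ) ^ 3 * (4 * (W * Q)) = (4 * W * K) * ((B : ℝ) ^ 3 * Q) := by ring
      _ ≤ 2 ^ m * ((B : ℝ) ^ 3 * Q) := by gcongr
      _ = _ := by ring
  have hsub : ((G \ Y : Finset ℤ) : Set ℤ) ⊆ {t : ℤ | |t| ≤ (T : ℤ) ∧ ∃ J ⊆ S, Gd a S (Dp J) t} := by
    intro t ht
    rw [Finset.mem_coe, Finset.mem_sdiff] at ht
    obtain ⟨htG, htY⟩ := ht
    have hnb : ¬ Bt a C₁ B S rho (Om a) t := by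
      intro h
      apply htY
      rw [hY]
      exact Finset.mem_filter.2 ⟨htG, h⟩
    rw [hG, Finset.mem_filter, Finset.mem_Icc] at htG
    obtain ⟨hI, hdv, hsq⟩ := htG
    obtain ⟨htW, htS⟩ := hcong t hdv
    have htB : |t| ≤ (B : ℤ) ^ 3 := by
      have := abs_le.2 hI
      push_cast at this
      exact this
    refine ⟨?_, ?_⟩
    · have : ((B ^ 3 : ℕ) : ℤ) ≤ T := by exact_mod_cast hB1
      push_cast at this
      exact htB.trans this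
    · refine one_t ha h6 (by omega) hW hC₁ hW3 hWC hS (ht_pol ?_ htB) htW htS hsq hnb
      calc a ≤ B := hBa
        _ ≤ B ^ 2 := Nat.le_self_pow (by norm_num) B
  have hfin : {t : ℤ | |t| ≤ (T : ℤ) ∧ ∃ J ⊆ S, Gd a S (Dp J) t}.Finite := by
    refine (Set.finite_Icc (-(T : ℤ)) T).subset fun t ht => ?_
    exact abs_le.1 ht.1
  have hcard := Set.ncard_le_ncard hsub hfin
  rw [Set.ncard_coe_finset] at hcard
  have hsd : (G.card : ℝ) ≤ (G \ Y).card + Y.card := by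
    have h1 : G.card ≤ (G \ Y).card + Y.card := by
      have h2 := Finset.le_card_sdiff Y G
      omega
    exact_mod_cast h1
  have hT8 : (T : ℝ) ≤ 8 * (B : ℝ) ^ 3 := by
    have h1 : (T : ℝ) ≤ ((B : ℝ) + 1) ^ 3 := by exact_mod_cast hB2.le
    have h2 : (1 : ℝ) ≤ B := by exact_mod_cast hB1'
    have h3 : ((B : ℝ) + 1) ^ 3 ≤ (2 * B) ^ 3 := by
      refine pow_le_pow_left₀ (by positivity) (by linarith) 3
    calc (T : ℝ) ≤ ((B : ℝ) + 1) ^ 3 := h1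
      _ ≤ (2 * B) ^ 3 := h3
      _ = _ := by ring
  have hfinal : (B : ℝ) ^ 3 / (4 * (W * Q)) ≤ ((G \ Y).card : ℝ) := by
    push_cast at hlow
    have e : (B : ℝ) ^ 3 / (2 * (W * Q)) = 2 * ((B : ℝ) ^ 3 / (4 * (W * Q))) := by
      field_simp
      ring
    rw [e] at hlow
    linarith
  calc 1 / (32 * ((W : ℝ) * Q)) * (T : ℝ) ≤ 1 / (32 * ((W : ℝ) * Q)) * (8 * (B : ℝ) ^ 3) := by gcongr
    _ = (B : ℝ) ^ 3 / (4 * (W * Q)) := by
      field_simp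
      ring
    _ ≤ ((G \ Y).card : ℝ) := hfinal
    _ ≤ _ := by exact_mod_cast hcard

end Pool.Agent.V7H54.A
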