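import Pool.Agent.V7H54.A.Iso
import Pool.Agent.N42.PF.CQ

/-!
# The residue classes modulo `q`
-/

set_option autoImplicit false
set_option linter.all false

open Polynomial Matrix NumberField
open scoped Classical

namespace Pool.Agent.V7H54.A

open Pool.Agent.N783.PQ (chp Dist)
open Pool.Agent.N783.PF
open Pool.Agent.N352.PJ (Mt)

theorem mem_sp (q : ℕ) (n : ℤ) : (n : 𝓞 ℚ) ∈ sp ℚ q ↔ (q : ℤ) ∣ n := by
  rw [sp, Ideal.mem_span_singleton]
  constructor
  · rintro ⟨x, hx⟩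
    obtain ⟨m, rfl⟩ := okq x
    refine ⟨m, ?_⟩
    have : ((n : ℤ) : 𝓞 ℚ) = ((q * m : ℤ) : 𝓞 ℚ) := by
      rw [hx]
      push_cast
      rfl
    exact_mod_cast this
  · rintro ⟨m, rfl⟩
    exact ⟨m, by push_cast; rfl⟩

theorem sp_prime {q : ℕ} (hq : q.Prime) : (sp ℚ q).IsPrime := by
  refine ⟨?_, ?_⟩
  · intro h
    have h1 : ((1 : ℤ) : 𝓞 ℚ) ∈ sp ℚ q := by rw [h]; trivial
    rw [mem_sp] at h1
    have h2 := Int.le_of_dvd one_pos h1
    have := hq.two_le
    omega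
  · intro x y hxy
    obtain ⟨n, rfl⟩ := okq x
    obtain ⟨m, rfl⟩ := okq y
    have h1 : ((n * m : ℤ) : 𝓞 ℚ) ∈ sp ℚ q := by push_cast; exact hxy
    rw [mem_sp] at h1
    rcases (Nat.prime_iff_prime_int.1 hq).dvd_or_dvd h1 with h | h
    · exact Or.inl ((mem_sp q n).2 h)
    · exact Or.inr ((mem_sp q m).2 h)

theorem sp_ne_bot {q : ℕ} (hq : q.Prime) : sp ℚ q ≠ ⊥ := by
  intro h
  have h1 : ((q : ℤ) : 𝓞 ℚ) ∈ sp ℚ q := (mem_sp q q).2 dvd_rfl
  rw [h, Ideal.mem_bot] at h1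
  exact hq.ne_zero (by exact_mod_cast h1)

/-- the residue ring -/
abbrev kp (q : ℕ) : Type := 𝓞 ℚ ⧸ sp ℚ q

/-- the residue -/
noncomputable def rho (q : ℕ) (n : ℤ) : kp q := Ideal.Quotient.mk (sp ℚ q) (n : 𝓞 ℚ)

theorem rho_eq (q : ℕ) (n m : ℤ) (h : rho q n = rho q m) : (q : ℤ) ∣ n - m := by
  unfold rho at h
  rw [Ideal.Quotient.mk_eq_mk_iff_sub_mem] at h
  rw [← mem_sp]
  push_cast
  exact h

theorem rho_zero {q : ℕ} {n : ℤ} : rho q n = 0 ↔ (q : ℤ) ∣ n := by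
  unfold rho
  rw [Ideal.Quotient.eq_zero_iff_mem, mem_sp]

theorem rho_int (q : ℕ) (n : ℤ) : rho q n = (n : kp q) := by
  unfold rho
  rw [map_intCast]

theorem kp_finite {q : ℕ} (hq : q.Prime) : Finite (kp q) :=
  Ideal.finiteQuotientOfFreeOfNeBot _ (sp_ne_bot hq)

theorem kp_card {q : ℕ} (hq : q.Prime) : Nat.card (kp q) = q := by
  have h1 : Function.Surjective (rho q) := by
    intro x
    obtain ⟨y, rfl⟩ := Ideal.Quotient.mk_surjective x
    obtain ⟨n, rfl⟩ := okq y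
    exact ⟨n, rfl⟩
  haveI : NeZero q := ⟨hq.ne_zero⟩
  have h2 : ∀ n m : ℤ, (n : ZMod q) = m ↔ rho q n = rho q m := by
    intro n m
    rw [ZMod.intCast_eq_intCast_iff_dvd_sub]
    constructor
    · intro h
      have : rho q (n - m) = 0 := rho_zero.2 (by rw [← neg_sub]; exact (dvd_neg).2 h)
      rw [rho_int, Int.cast_sub, sub_eq_zero] at this
      rw [rho_int, rho_int, this]
    · intro h
      rw [← neg_sub]
      exact (dvd_neg).2 (rho_eq q n m h)
  let e : ZMod q → kp q := fun x => rho q (x.cast : ℤ)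
  have hb : Function.Bijective e := by
    constructor
    · intro x y hxy
      have h3 := (h2 x.cast y.cast).2 hxy
      rwa [ZMod.intCast_cast, ZMod.intCast_cast, ZMod.cast_id, ZMod.cast_id] at h3
    · intro y
      obtain ⟨n, rfl⟩ := h1 y
      refine ⟨(n : ZMod q), ?_⟩
      show rho q _ = rho q n
      rw [← h2, ZMod.intCast_cast, ZMod.cast_id]
  rw [← Nat.card_congr (Equiv.ofBijective e hb), Nat.card_zmod]

/-- the good residue classes -/
def So (A : ℤ) (q : ℕ) (P r : ℤ) : Set (kp q × kp q × kp q × kp q × kp q) :=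
  {v | ∃ β : kp q, rho q P * β = -(2 * rho q r * v.2.2.1) ∧
    chp (g := 1) (!![0, 0, rho q P; 0, rho q r, 0; rho q P, 0, 0] : Mt 1 (kp q))
      !![v.1, v.2.1, v.2.2.1; v.2.1, β, v.2.2.2.1; v.2.2.1, v.2.2.2.1, v.2.2.2.2] =
      X * (X ^ 2 + C (rho q A)) ∧
    Dist (g := 1) (!![0, 0, rho q P; 0, rho q r, 0; rho q P, 0, 0] : Mt 1 (kp q))
      !![v.1, v.2.1, v.2.2.1; v.2.1, β, v.2.2.2.1; v.2.2.1, v.2.2.2.1, v.2.2.2.2]}

/-- the good residue classes, a finite set -/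
noncomputable def Om (A : ℤ) (q : ℕ) (P r : ℤ) : Finset (kp q × kp q × kp q × kp q × kp q) :=
  if h : (So A q P r).Finite then h.toFinset else ∅

theorem mem_Om {A : ℤ} {q : ℕ} (hq : q.Prime) {P r : ℤ} {v : kp q × kp q × kp q × kp q × kp q} :
    v ∈ Om A q P r ↔ v ∈ So A q P r := by
  haveI := kp_finite hq
  unfold Om
  rw [dif_pos (Set.toFinite _), Set.Finite.mem_toFinset]

theorem two_ne {q : ℕ} (hq2 : 2 < q) : (2 : kp q) ≠ 0 := by
  intro h
  have h1 : rho q 2 = 0 := by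
    rw [rho_int]
    exact_mod_cast h
  rw [rho_zero] at h1
  have := Int.le_of_dvd (by norm_num) h1
  omega

theorem rho_ne {q : ℕ} {n : ℤ} (hn : n ≠ 0) (h : |n| < q) : rho q n ≠ 0 := by
  rw [Ne, rho_zero]
  intro hd
  have h1 := Int.le_of_dvd (abs_pos.2 hn) ((dvd_abs _ _).2 hd)
  omega

theorem card_Om {A : ℤ} {q : ℕ} (hq : q.Prime) (hq2 : 2 < q) {P r : ℤ} (hP : P ≠ 0) (hr : r ≠ 0)
    (hPq : |P| < q) (hrq : |r| < q) (hsq : IsSquare (P ^ 2 * r))
    (hirr : Irreducible (X ^ 2 + C (rho q A) : (kp q)[X])) : 2 * (Om A q P r).card ≤ q ^ 3 := by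
  haveI := kp_finite hq
  haveI hpr := sp_prime hq
  haveI hmax : (sp ℚ q).IsMaximal := hpr.isMaximal (sp_ne_bot hq)
  letI : Field (kp q) := Ideal.Quotient.field _
  have hP' := rho_ne hP hPq
  have hr' := rho_ne hr hrq
  obtain ⟨x, hx⟩ := hsq
  have hx' : rho q x ≠ 0 := by
    intro h
    have : rho q (P ^ 2 * r) = 0 := by
      rw [hx, rho_int, Int.cast_mul, ← rho_int, h, mul_zero]
    rw [rho_int] at this
    push_cast at this
    rw [← rho_int, ← rho_int] at this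
    exact mul_ne_zero (pow_ne_zero 2 hP') hr' this
  obtain ⟨M, hM⟩ : ∃ M : Mt 1 (kp q), M = !![0, 0, rho q P; 0, rho q r, 0; rho q P, 0, 0] := ⟨_, rfl⟩
  have hMs : M.IsSymm := by
    rw [hM]
    ext i j
    fin_cases i <;> fin_cases j <;> rfl
  have hMd : ∃ x : kp q, x ≠ 0 ∧ M.det = (-1) ^ 1 * x ^ 2 := by
    refine ⟨rho q x, hx', ?_⟩
    have h1 : M.det = -(rho q P ^ 2 * rho q r) := by
      rw [hM]
      have := Matrix.det_fin_three (!![0, 0, rho q P; 0, rho q r, 0; rho q P, 0, 0] :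
        Matrix (Fin 3) (Fin 3) (kp q))
      refine this.trans ?_
      have : (0 : kp q) * rho q r * 0 - 0 * 0 * 0 - 0 * 0 * 0 + 0 * 0 * rho q P +
        rho q P * 0 * 0 - rho q P * rho q r * rho q P = -(rho q P ^ 2 * rho q r) := by ring
      exact this
    rw [h1]
    have h2 : rho q P ^ 2 * rho q r = rho q x ^ 2 := by
      have h3 : rho q (P ^ 2 * r) = rho q (x * x) := by rw [hx]
      rw [rho_int, rho_int] at h3
      push_cast at h3
      rw [rho_int, rho_int, rho_int, h3]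
      ring
    rw [h2]
    ring
  have hcq := Pool.Agent.N42.PF.cqa 1 (kp q) le_rfl (two_ne hq2) (X ^ 2 + C (rho q A)) (by monicity!)
    hirr (by compute_degree!) M hMs hMd
  rw [kp_card hq] at hcq
  have hcard : (Om A q P r).card ≤
      Nat.card {B : Mt 1 (kp q) // B.IsSymm ∧ chp M B = X * (X ^ 2 + C (rho q A)) ∧ Dist M B} := by
    have h1 : ∀ v : Om A q P r, v.1 ∈ So A q P r := fun v => (mem_Om hq).1 v.2
    choose β hβ1 hβ2 hβ3 using h1
    rw [← Fintype.card_coe, ← Nat.card_eq_fintype_card]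
    obtain ⟨Bm, hBm⟩ : ∃ Bm : Om A q P r → Mt 1 (kp q), Bm = fun v =>
      !![v.1.1, v.1.2.1, v.1.2.2.1; v.1.2.1, β v, v.1.2.2.2.1; v.1.2.2.1, v.1.2.2.2.1, v.1.2.2.2.2] :=
      ⟨_, rfl⟩
    have hBs : ∀ v, (Bm v).IsSymm := by
      intro v
      rw [hBm]
      ext i j
      fin_cases i <;> fin_cases j <;> rfl
    refine Nat.card_le_card_of_injective
      (fun v => (⟨Bm v, hBs v, by rw [hM, hBm]; exact hβ2 v, by rw [hM, hBm]; exact hβ3 v⟩ :
        {B : Mt 1 (kp q) // B.IsSymm ∧ chp M B = X * (X ^ 2 + C (rho q A)) ∧ Dist M B})) ?_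
    intro v w hvw
    have h9 := Subtype.ext_iff.1 hvw
    simp only at h9
    rw [hBm] at h9
    have k1 := congrFun (congrFun h9 0) 0
    have k2 := congrFun (congrFun h9 0) 1
    have k3 := congrFun (congrFun h9 0) 2
    have k4 := congrFun (congrFun h9 1) 2
    have k5 := congrFun (congrFun h9 2) 2
    refine Subtype.ext (Prod.ext k1 (Prod.ext k2 (Prod.ext k3 (Prod.ext k4 k5))))
  exact (Nat.mul_le_mul_left 2 hcard).trans hcq

theorem ab_Om {A : ℤ} {q : ℕ} (hq : q.Prime) (hq2 : 3 < q) {P r : ℤ} (hP : P ≠ 0) (hr : r ≠ 0)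
    (hPq : |P| < q) (hrq : |r| < q)
    (hirr : Irreducible (X ^ 2 + C (rho q A) : (kp q)[X])) {a b c d e : ℤ}
    (h : (rho q a, rho q b, rho q c, rho q d, rho q e) ∈ Om A q P r) :
    ¬ ((q : ℤ) ∣ a ∧ (q : ℤ) ∣ b) := by
  rintro ⟨ha, hb⟩
  haveI := kp_finite hq
  haveI hpr := sp_prime hq
  haveI hmax : (sp ℚ q).IsMaximal := hpr.isMaximal (sp_ne_bot hq)
  letI : Field (kp q) := Ideal.Quotient.field _
  have hP' := rho_ne hP hPq
  have hr' := rho_ne hr hrq
  have h2 : (2 : kp q) ≠ 0 := two_ne (by omega)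
  have h3 : (3 : kp q) ≠ 0 := by
    have := rho_ne (q := q) (n := 3) (by norm_num) (by
      rw [abs_of_pos (by norm_num)]
      exact_mod_cast hq2)
    rw [rho_int] at this
    exact_mod_cast this
  have hA : rho q A ≠ 0 := by
    intro h0
    rw [h0, map_zero, add_zero] at hirr
    rw [pow_two] at hirr
    rcases hirr.isUnit_or_isUnit rfl with h | h <;> exact not_isUnit_X h
  obtain ⟨β, h4, h5, -⟩ := (mem_Om hq).1 h
  simp only at h4 h5
  rw [rho_zero.2 ha, rho_zero.2 hb] at h5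
  have e1 : (X : (kp q)[X]) * (X ^ 2 + C (rho q A)) = X ^ 3 + C (rho q A) * X + C 0 := by
    rw [map_zero]
    ring
  rw [e1] at h5
  obtain ⟨-, h6, h7⟩ := chp_anti h2 hP' hr' h5
  have h8 : rho q r * rho q c ^ 3 = 0 := by
    have : 2 * (rho q r * rho q c ^ 3) = 0 := by linear_combination -h7
    exact (mul_eq_zero.1 this).resolve_left h2
  have h9 : rho q c = 0 := by
    rcases mul_eq_zero.1 h8 with h | h
    · exact absurd h hr'
    · exact pow_eq_zero_iff (by norm_num) |>.1 h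
  rw [h9] at h6
  have h10 : rho q A * rho q r * rho q P ^ 2 = 0 := by linear_combination h6
  rcases mul_eq_zero.1 h10 with h | h
  · rcases mul_eq_zero.1 h with h | h
    · exact hA h
    · exact hr' h
  · exact hP' (pow_eq_zero_iff (by norm_num) |>.1 h)

end Pool.Agent.V7H54.A
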