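import Pool.Agent.V7H54.A.Rg

/-!
# The points of a quadric of dimension four in a skew box and a residue class
-/

set_option autoImplicit false
set_option linter.all false

open scoped Real
open Finset

namespace Pool.Agent.V7H54.A

theorem EE_le {C X : ℝ} (hC : 1 ≤ C) (hX : 1 ≤ X) (Q : ℕ) (p : ℤ) :
    EE C X Q p ≤ √X * (1 + Real.log (C * X)) * √((C * Q ^ 2 * |(p : ℝ)| + 1) * (4 * C)) := by
  have hL : 1 ≤ 1 + Real.log (C * X) := by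
    have := Real.log_nonneg (show 1 ≤ C * X by nlinarith)
    linarith
  obtain ⟨L, hLd⟩ : ∃ L : ℝ, L = 1 + Real.log (C * X) := ⟨_, rfl⟩
  unfold EE
  rw [← hLd] at hL ⊢
  have h0 : 0 ≤ (C * Q ^ 2 * |(p : ℝ)| + 1) * (4 * C) := by positivity
  rw [Real.sqrt_le_left (by positivity), mul_pow, mul_pow, Real.sq_sqrt (by linarith),
    Real.sq_sqrt h0]
  have h1 : L ≤ L ^ 2 := by nlinarith
  calc (C * Q ^ 2 * |(p : ℝ)| + 1) * (4 * (C * X) * L)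
      = X * ((C * Q ^ 2 * |(p : ℝ)| + 1) * (4 * C)) * L := by ring
    _ ≤ X * ((C * Q ^ 2 * |(p : ℝ)| + 1) * (4 * C)) * L ^ 2 := by gcongr
    _ = _ := by ring

section est

variable {C X τ s r L Q la sa c₀ E E₁ : ℝ}

theorem qe1 (hC : 1 ≤ C) (hX : 1 ≤ X) (hτ : 1 ≤ τ) (hs : 0 < s) (hr : 1 ≤ r) (hr2 : r ^ 2 = τ)
    (hL : 1 ≤ L) (hQ : 1 ≤ Q) (hla0 : 0 ≤ la) (hla : la ≤ L) (hsa0 : 0 ≤ sa)
    (hsa : sa ≤ C * s / τ) :
    128 * (C * X) * (C * X * τ) / Q ^ 2 * (12 * τ * (C * X / τ ^ 2) / Q ^ 2 +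
        4 * (τ + la) * sa) ≤
      1536 * C ^ 3 * (X ^ 3 / Q ^ 4) + 1024 * C ^ 3 * (X ^ 2 * s * (τ * r) * L) := by
  have hτ0 : 0 < τ := by linarith
  have f1 : 128 * (C * X) * (C * X * τ) / Q ^ 2 * (12 * τ * (C * X / τ ^ 2) / Q ^ 2) =
      1536 * C ^ 3 * (X ^ 3 / Q ^ 4) := by
    field_simp
    ring
  have f2 : 128 * (C * X) * (C * X * τ) / Q ^ 2 * (4 * (τ + la) * sa) ≤
      1024 * C ^ 3 * (X ^ 2 * s * (τ * r) * L) := by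
    calc 128 * (C * X) * (C * X * τ) / Q ^ 2 * (4 * (τ + la) * sa)
        ≤ 128 * (C * X) * (C * X * τ) * (4 * (2 * (τ * L)) * (C * s / τ)) := by
          have g1 : 128 * (C * X) * (C * X * τ) / Q ^ 2 ≤ 128 * (C * X) * (C * X * τ) :=
            div_le_self (by positivity) (one_le_pow₀ hQ)
          have g2 : 4 * (τ + la) ≤ 4 * (2 * (τ * L)) := by nlinarith
          gcongr
      _ = 1024 * C ^ 3 * (X ^ 2 * s * τ * L) := by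
          field_simp
          ring
      _ ≤ 1024 * C ^ 3 * (X ^ 2 * s * (τ * r) * L) := by
          have : τ ≤ τ * r := by nlinarith
          gcongr
  rw [mul_add, f1]
  linarith

theorem qe2 (hC : 1 ≤ C) (hX : 1 ≤ X) (hτ : 1 ≤ τ) (hs : 0 < s) (hr : 1 ≤ r) (hr2 : r ^ 2 = τ)
    (hL : 1 ≤ L) (hc : 0 ≤ c₀) (hla0 : 0 ≤ la) (hla : la ≤ L) (hsa0 : 0 ≤ sa)
    (hsa : sa ≤ C * s / τ) :
    64 * c₀ * (C * X * τ) * (8 * τ * (C * X / τ ^ 2) * sa +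
        2 * (τ + la) * (C * X / τ ^ 2 * sa)) ≤
      768 * c₀ * C ^ 3 * (X ^ 2 * s * (τ * r) * L) := by
  have hτ0 : 0 < τ := by linarith
  calc 64 * c₀ * (C * X * τ) * (8 * τ * (C * X / τ ^ 2) * sa +
        2 * (τ + la) * (C * X / τ ^ 2 * sa))
      ≤ 64 * c₀ * (C * X * τ) * (8 * (τ * L) * (C * X / τ ^ 2) * (C * s / τ) +
      2 * (2 * (τ * L)) * (C * X / τ ^ 2 * (C * s / τ))) := by
        have g1 : τ ≤ τ * L := by nlinarith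
        have g2 : τ + la ≤ 2 * (τ * L) := by nlinarith
        gcongr
    _ = 768 * c₀ * C ^ 3 * (X ^ 2 * s * L / τ) := by
        field_simp
        ring
    _ ≤ 768 * c₀ * C ^ 3 * (X ^ 2 * s * (τ * r) * L) := by
        have g1 : X ^ 2 * s * L / τ ≤ X ^ 2 * s * L := div_le_self (by positivity) hτ
        have g3 : 1 ≤ τ * r := by nlinarith
        have g4 : 0 < X ^ 2 * s * L := by positivity
        have g2 : X ^ 2 * s * L ≤ X ^ 2 * s * (τ * r) * L := by nlinarith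
        exact mul_le_mul_of_nonneg_left (g1.trans g2) (by positivity)

theorem qe3 (hC : 1 ≤ C) (hX : 1 ≤ X) (hτ : 1 ≤ τ) (hs : 0 < s) (hr : 1 ≤ r) (hr2 : r ^ 2 = τ)
    (hL : 1 ≤ L) (hE0 : 0 ≤ E) (hE₁ : 0 ≤ E₁) (hE : E ≤ s * L * E₁) (hsa0 : 0 ≤ sa)
    (hsa : sa ≤ C * X) :
    2 * E * (12 * τ * (C * X / τ ^ 2) ^ 2 + 4 * (C * X / τ ^ 2 * sa)) ≤
      32 * C ^ 2 * E₁ * (X ^ 2 * s * (τ * r) * L) := by
  have hτ0 : 0 < τ := by linarith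
  have g1 : 12 * τ * (C * X / τ ^ 2) ^ 2 ≤ 12 * (C ^ 2 * X ^ 2) := by
    have : 12 * τ * (C * X / τ ^ 2) ^ 2 = 12 * (C ^ 2 * X ^ 2) / τ ^ 3 := by
      field_simp
    rw [this]
    exact div_le_self (by positivity) (one_le_pow₀ hτ)
  have g2 : 4 * (C * X / τ ^ 2 * sa) ≤ 4 * (C ^ 2 * X ^ 2) := by
    have h4 : C * X / τ ^ 2 ≤ C * X := div_le_self (by positivity) (one_le_pow₀ hτ)
    calc 4 * (C * X / τ ^ 2 * sa) ≤ 4 * (C * X * (C * X)) := by gcongr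
      _ = _ := by ring
  calc 2 * E * (12 * τ * (C * X / τ ^ 2) ^ 2 + 4 * (C * X / τ ^ 2 * sa))
      ≤ 2 * (s * L * E₁) * (12 * (C ^ 2 * X ^ 2) + 4 * (C ^ 2 * X ^ 2)) := by gcongr
    _ = 32 * C ^ 2 * E₁ * (X ^ 2 * s * L) := by ring
    _ ≤ 32 * C ^ 2 * E₁ * (X ^ 2 * s * (τ * r) * L) := by
        have g3 : 1 ≤ τ * r := by nlinarith
        have g4 : 0 < X ^ 2 * s * L := by positivity
        have g2 : X ^ 2 * s * L ≤ X ^ 2 * s * (τ * r) * L := by nlinarith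
        gcongr

theorem qe4 (hC : 1 ≤ C) (hX : 1 ≤ X) (hτ : 1 ≤ τ) (hs : 0 < s) (hr : 1 ≤ r) (hr2 : r ^ 2 = τ)
    (hL : 1 ≤ L) (hQ : 1 ≤ Q) (hla0 : 0 ≤ la) (hla : la ≤ L) (hsa0 : 0 ≤ sa)
    (hsa : sa ≤ C * s / r) :
    128 * (C * X) * (C * X * τ ^ 2) / Q ^ 2 * (12 * (1 / τ) * (C * X / τ) / Q ^ 2 +
        4 * (1 / τ + la) * sa) ≤
      1536 * C ^ 3 * (X ^ 3 / Q ^ 4) + 1024 * C ^ 3 * (X ^ 2 * s * (τ * r) * L) := by
  have hτ0 : 0 < τ := by linarith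
  have hr0 : 0 < r := by linarith
  have f1 : 128 * (C * X) * (C * X * τ ^ 2) / Q ^ 2 * (12 * (1 / τ) * (C * X / τ) / Q ^ 2) =
      1536 * C ^ 3 * (X ^ 3 / Q ^ 4) := by
    field_simp
    ring
  have g0 : 1 / τ ≤ L := by
    rw [div_le_iff₀ hτ0]
    nlinarith
  have f2 : 128 * (C * X) * (C * X * τ ^ 2) / Q ^ 2 * (4 * (1 / τ + la) * sa) ≤
      1024 * C ^ 3 * (X ^ 2 * s * (τ * r) * L) := by
    calc 128 * (C * X) * (C * X * τ ^ 2) / Q ^ 2 * (4 * (1 / τ + la) * sa)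
        ≤ 128 * (C * X) * (C * X * τ ^ 2) * (4 * (2 * L) * (C * s / r)) := by
          have g1 : 128 * (C * X) * (C * X * τ ^ 2) / Q ^ 2 ≤ 128 * (C * X) * (C * X * τ ^ 2) :=
            div_le_self (by positivity) (one_le_pow₀ hQ)
          have g2 : 4 * (1 / τ + la) ≤ 4 * (2 * L) := by linarith
          gcongr
      _ = 1024 * C ^ 3 * (X ^ 2 * s * (τ * r) * L) := by
          subst hr2
          field_simp
          ring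
  rw [mul_add, f1]
  linarith

theorem qe5 (hC : 1 ≤ C) (hX : 1 ≤ X) (hτ : 1 ≤ τ) (hs : 0 < s) (hr : 1 ≤ r) (hr2 : r ^ 2 = τ)
    (hL : 1 ≤ L) (hc : 0 ≤ c₀) (hla0 : 0 ≤ la) (hla : la ≤ L) (hsa0 : 0 ≤ sa)
    (hsa : sa ≤ C * s / r) :
    64 * c₀ * (C * X * τ ^ 2) * (8 * (1 / τ) * (C * X / τ) * sa +
        2 * (1 / τ + la) * (C * X / τ * sa)) ≤
      1024 * c₀ * C ^ 3 * (X ^ 2 * s * (τ * r) * L) := by
  have hτ0 : 0 < τ := by linarith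
  have hr0 : 0 < r := by linarith
  have g0 : 1 / τ ≤ 1 := by
    rw [div_le_iff₀ hτ0]
    linarith
  calc 64 * c₀ * (C * X * τ ^ 2) * (8 * (1 / τ) * (C * X / τ) * sa +
        2 * (1 / τ + la) * (C * X / τ * sa))
      ≤ 64 * c₀ * (C * X * τ ^ 2) * (8 * L * (C * X / τ) * (C * s / r) +
      2 * (2 * L) * (C * X / τ * (C * s / r))) := by
        have g2 : 1 / τ + la ≤ 2 * L := by linarith
        have g3 : 1 / τ ≤ L := by linarith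
        gcongr
    _ = 768 * c₀ * C ^ 3 * (X ^ 2 * s * r * L) := by
        subst hr2
        field_simp
        ring
    _ ≤ 1024 * c₀ * C ^ 3 * (X ^ 2 * s * (τ * r) * L) := by
        have g1 : r ≤ τ * r := by nlinarith
        gcongr
        norm_num

theorem qe6 (hC : 1 ≤ C) (hX : 1 ≤ X) (hτ : 1 ≤ τ) (hs : 0 < s) (hr : 1 ≤ r) (hr2 : r ^ 2 = τ)
    (hL : 1 ≤ L) (hE0 : 0 ≤ E) (hE₁ : 0 ≤ E₁) (hE : E ≤ s * L * E₁) (hsa0 : 0 ≤ sa)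
    (hsa : sa ≤ C * X) :
    2 * E * (12 * (1 / τ) * (C * X / τ) ^ 2 + 4 * (C * X / τ * sa)) ≤
      32 * C ^ 2 * E₁ * (X ^ 2 * s * (τ * r) * L) := by
  have hτ0 : 0 < τ := by linarith
  have g1 : 12 * (1 / τ) * (C * X / τ) ^ 2 ≤ 12 * (C ^ 2 * X ^ 2) := by
    have : 12 * (1 / τ) * (C * X / τ) ^ 2 = 12 * (C ^ 2 * X ^ 2) / τ ^ 3 := by
      field_simp
    rw [this]
    exact div_le_self (by positivity) (one_le_pow₀ hτ)
  have g2 : 4 * (C * X / τ * sa) ≤ 4 * (C ^ 2 * X ^ 2) := by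
    have h4 : C * X / τ ≤ C * X := div_le_self (by positivity) hτ
    calc 4 * (C * X / τ * sa) ≤ 4 * (C * X * (C * X)) := by gcongr
      _ = _ := by ring
  calc 2 * E * (12 * (1 / τ) * (C * X / τ) ^ 2 + 4 * (C * X / τ * sa))
      ≤ 2 * (s * L * E₁) * (12 * (C ^ 2 * X ^ 2) + 4 * (C ^ 2 * X ^ 2)) := by gcongr
    _ = 32 * C ^ 2 * E₁ * (X ^ 2 * s * L) := by ring
    _ ≤ 32 * C ^ 2 * E₁ * (X ^ 2 * s * (τ * r) * L) := by
        have g3 : 1 ≤ τ * r := by nlinarith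
        have g4 : 0 < X ^ 2 * s * L := by positivity
        have g2 : X ^ 2 * s * L ≤ X ^ 2 * s * (τ * r) * L := by nlinarith
        gcongr

end est

theorem qc {p₁ p₂ p₃ M : ℤ} (hp₁ : p₁ ≠ 0) (hp₂ : p₂ ≠ 0) (hp₃ : p₃ ≠ 0) (hM : M ≠ 0)
    (hne : ∀ c : ℤ, p₃ * c ^ 2 ≠ M) {C : ℝ} (hC : 1 ≤ C) :
    ∃ K₀ : ℝ, 0 ≤ K₀ ∧ ∀ Q : ℕ, 1 ≤ Q → Nat.Coprime (p₁ * p₂).natAbs Q → ∃ K₁ : ℝ, 0 ≤ K₁ ∧
    ∀ (X τ : ℝ), 1 ≤ τ → τ ^ 2 ≤ X → ∀ T : Finset (ℤ × ℤ × ℤ × ℤ × ℤ),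
    (∀ t ∈ T, |(t.1 : ℝ)| ≤ C * X / τ ^ 2 ∧ |(t.2.1 : ℝ)| ≤ C * X / τ ∧
      |(t.2.2.1 : ℝ)| ≤ C * X ∧ |(t.2.2.2.1 : ℝ)| ≤ C * X * τ ∧
      |(t.2.2.2.2 : ℝ)| ≤ C * X * τ ^ 2 ∧ Nat.Coprime (Int.gcd t.1 t.2.1) Q ∧
      p₁ * t.1 * t.2.2.2.2 + p₂ * t.2.1 * t.2.2.2.1 + p₃ * t.2.2.1 ^ 2 = M) →
    (∀ t ∈ T, ∀ t' ∈ T, (Q : ℤ) ∣ t.1 - t'.1 ∧ (Q : ℤ) ∣ t.2.1 - t'.2.1 ∧
      (Q : ℤ) ∣ t.2.2.1 - t'.2.2.1 ∧ (Q : ℤ) ∣ t.2.2.2.1 - t'.2.2.2.1 ∧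
      (Q : ℤ) ∣ t.2.2.2.2 - t'.2.2.2.2) →
    (T.card : ℝ) ≤ K₀ * (X ^ 3 / Q ^ 4) + K₁ * (X ^ 2 * √X * (τ * √τ) *
      (1 + Real.log (C * (|(p₁ : ℝ)| + |(p₂ : ℝ)|) * X))) := by
  have habs : ∀ p : ℤ, p ≠ 0 → 1 ≤ |(p : ℝ)| := fun p hp => by
    rw [← Int.cast_abs]
    exact_mod_cast Int.one_le_abs hp
  have h1p := habs p₁ hp₁
  have h2p := habs p₂ hp₂
  obtain ⟨C₂, hC₂⟩ : ∃ C₂ : ℝ, C₂ = C * (|(p₁ : ℝ)| + |(p₂ : ℝ)|) := ⟨_, rfl⟩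
  rw [← hC₂]
  have hC₂1 : C ≤ C₂ := by rw [hC₂]; nlinarith
  have hC₂0 : 1 ≤ C₂ := hC.trans hC₂1
  obtain ⟨K, hK⟩ : ∃ K : ℝ, K = 2 * (4 * |(p₃ : ℝ)| * |(M : ℝ)| + 1) := ⟨_, rfl⟩
  obtain ⟨c₀, hc₀⟩ : ∃ c₀ : ℝ, c₀ = |((p₁ * p₂ : ℤ) : ℝ)| := ⟨_, rfl⟩
  have hc₀' : |((p₂ * p₁ : ℤ) : ℝ)| = c₀ := by rw [hc₀, mul_comm]
  have hK0 : 0 ≤ K := by rw [hK]; positivity
  have hc₀0 : 0 ≤ c₀ := by rw [hc₀]; positivity
  refine ⟨2 * (K * c₀ * (1536 * C ^ 3)), by positivity, fun Q hQ hpQ => ?_⟩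
  have hQ0 : (0 : ℝ) < Q := by exact_mod_cast hQ
  have hQ1 : (1 : ℝ) ≤ Q := by exact_mod_cast hQ
  obtain ⟨E₁, hE₁⟩ : ∃ E₁ : ℝ, E₁ = √((C₂ * Q ^ 2 * |(p₃ : ℝ)| + 1) * (4 * C₂)) := ⟨_, rfl⟩
  have hE₁0 : 0 ≤ E₁ := by rw [hE₁]; exact Real.sqrt_nonneg _
  refine ⟨2 * (K * c₀ * (1024 * C ^ 3 + 1024 * c₀ * C ^ 3 + 32 * C ^ 2 * E₁)), by positivity,
    fun X τ hτ hτX T hT hTQ => ?_⟩
  have hτ0 : 0 < τ := by linarith
  have hX1 : 1 ≤ X := by nlinarith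
  have hX0 : 0 < X := by linarith
  have hC0 : 0 < C := by linarith
  obtain ⟨L, hL⟩ : ∃ L : ℝ, L = 1 + Real.log (C₂ * X) := ⟨_, rfl⟩
  have hCX : 1 ≤ C₂ * X := by nlinarith
  have hL1 : 1 ≤ L := by
    rw [hL]
    have := Real.log_nonneg hCX
    linarith
  have hEE : EE C₂ X Q p₃ ≤ √X * L * E₁ := by
    rw [hL, hE₁]
    exact EE_le hC₂0 hX1 Q p₃
  rw [← hL]
  obtain ⟨s, hs⟩ : ∃ s : ℝ, s = √X := ⟨_, rfl⟩
  obtain ⟨r, hr⟩ : ∃ r : ℝ, r = √τ := ⟨_, rfl⟩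
  have hs0 : 0 < s := by rw [hs]; exact Real.sqrt_pos.2 hX0
  have hr0 : 0 < r := by rw [hr]; exact Real.sqrt_pos.2 hτ0
  have hs2 : s ^ 2 = X := by rw [hs]; exact Real.sq_sqrt hX0.le
  have hr2 : r ^ 2 = τ := by rw [hr]; exact Real.sq_sqrt hτ0.le
  have hr1 : 1 ≤ r := by
    by_contra h
    push Not at h
    nlinarith
  rw [← hs, ← hr]
  rw [← hs] at hEE
  have hEE0 : 0 ≤ EE C₂ X Q p₃ := Real.sqrt_nonneg _
  -- the first region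
  obtain ⟨T₁, hT₁⟩ : ∃ T₁ : Finset (ℤ × ℤ × ℤ × ℤ × ℤ),
    T₁ = T.filter fun t => |(t.2.1 : ℝ)| ≤ τ * |(t.1 : ℝ)| := ⟨_, rfl⟩
  obtain ⟨T₂, hT₂⟩ : ∃ T₂ : Finset (ℤ × ℤ × ℤ × ℤ × ℤ),
    T₂ = T.filter fun t => ¬ |(t.2.1 : ℝ)| ≤ τ * |(t.1 : ℝ)| := ⟨_, rfl⟩
  have hcard : T.card = T₁.card + T₂.card := by
    rw [hT₁, hT₂]
    exact (card_filter_add_card_filter_not _).symm
  have hτX' : τ ≤ X := by nlinarith
  have hXCX : X ≤ C * X := by nlinarith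
  have hα1 : 1 ≤ C * X / τ ^ 2 := by
    rw [le_div_iff₀ (by positivity)]
    linarith
  have hβ1 : 1 ≤ C * X / τ := by
    rw [le_div_iff₀ (by positivity)]
    linarith
  have hY1 : X ≤ C * X * τ := by
    calc X ≤ C * X := hXCX
      _ = C * X * 1 := by ring
      _ ≤ C * X * τ := by gcongr
  have hY2 : X ≤ C * X * τ ^ 2 := by
    have : (1 : ℝ) ≤ τ ^ 2 := one_le_pow₀ hτ
    calc X ≤ C * X := hXCX
      _ = C * X * 1 := by ring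
      _ ≤ C * X * τ ^ 2 := by gcongr
  have hαCX : C * X / τ ^ 2 ≤ C₂ * X := by
    calc C * X / τ ^ 2 ≤ C * X := div_le_self (by positivity) (one_le_pow₀ hτ)
      _ ≤ C₂ * X := by gcongr
  have hβCX : C * X / τ ≤ C₂ * X := by
    calc C * X / τ ≤ C * X := div_le_self (by positivity) hτ
      _ ≤ C₂ * X := by gcongr
  have hlα : 1 + Real.log (C * X / τ ^ 2) ≤ L := by
    rw [hL]
    have := Real.log_le_log (by linarith) hαCX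
    linarith
  have hlβ : 1 + Real.log (C * X / τ) ≤ L := by
    rw [hL]
    have := Real.log_le_log (by linarith) hβCX
    linarith
  have hsC : √C ≤ C := by
    rw [Real.sqrt_le_left (by linarith)]
    nlinarith
  have hsα : √(C * X / τ ^ 2) ≤ C * s / τ := by
    rw [Real.sqrt_div' _ (by positivity), Real.sqrt_sq hτ0.le, Real.sqrt_mul hC0.le, ← hs]
    gcongr
  have hsβ : √(C * X / τ) ≤ C * s / r := by
    rw [Real.sqrt_div' _ (by positivity), Real.sqrt_mul hC0.le, ← hs, ← hr]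
    gcongr
  have hc₀1 : |((p₁ * p₂ : ℤ) : ℝ)| = c₀ := hc₀.symm
  have b1 := reg (X := X) (Y := C * X * τ) (γ := C * X) (α := C * X / τ ^ 2) (ρ := τ) (C := C₂)
    (Q := Q) hp₁ hp₂ hp₃ hM hQ hpQ hC₂0 hX1 (by positivity) (by gcongr) hα1 hτ0 (by
      calc |(p₁ : ℝ)| * (C * X / τ ^ 2) ≤ |(p₁ : ℝ)| * (C * X) := by
            gcongr
            exact div_le_self (by positivity) (one_le_pow₀ hτ)
        _ = (C * |(p₁ : ℝ)|) * X := by ring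
        _ ≤ C₂ * X := by
          rw [hC₂]
          gcongr
          linarith) hY1 T₁ (by
      intro t ht
      rw [hT₁] at ht
      obtain ⟨ht1, ht2⟩ := mem_filter.1 ht
      obtain ⟨c1, c2, c3, c4, c5, c6, c7⟩ := hT t ht1
      refine ⟨?_, c1, ht2, c3, c4, c6, c7⟩
      intro h0
      rw [h0] at ht2 c7
      simp only [Int.cast_zero, abs_zero, mul_zero] at ht2
      have h3 : t.2.1 = 0 := by
        have := abs_nonpos_iff.1 ht2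
        exact_mod_cast this
      rw [h3] at c7
      apply hne t.2.2.1
      linarith) (by
      intro t ht t' ht'
      rw [hT₁] at ht ht'
      exact hTQ t (mem_filter.1 ht).1 t' (mem_filter.1 ht').1)
  rw [← hK, hc₀1] at b1
  -- the second region
  obtain ⟨sw, hsw⟩ : ∃ sw : ℤ × ℤ × ℤ × ℤ × ℤ → ℤ × ℤ × ℤ × ℤ × ℤ,
    sw = fun t => (t.2.1, t.1, t.2.2.1, t.2.2.2.2, t.2.2.2.1) := ⟨_, rfl⟩
  have hswc : ((T₂.image sw).card : ℝ) = T₂.card := by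
    rw [card_image_of_injective]
    intro t t' h
    rw [hsw] at h
    simp only [Prod.mk.injEq] at h
    obtain ⟨d1, d2, d3, d4, d5⟩ := h
    exact Prod.ext d2 (Prod.ext d1 (Prod.ext d3 (Prod.ext d5 d4)))
  have b2 := reg (X := X) (Y := C * X * τ ^ 2) (γ := C * X) (α := C * X / τ) (ρ := 1 / τ) (C := C₂)
    (Q := Q) hp₂ hp₁ hp₃ hM hQ (by rw [mul_comm]; exact hpQ) hC₂0 hX1 (by positivity)
    (by gcongr) hβ1 (by positivity) (by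
      calc |(p₂ : ℝ)| * (C * X / τ) ≤ |(p₂ : ℝ)| * (C * X) := by
            gcongr
            exact div_le_self (by positivity) hτ
        _ = (C * |(p₂ : ℝ)|) * X := by ring
        _ ≤ C₂ * X := by
          rw [hC₂]
          gcongr
          linarith) hY2 (T₂.image sw) (by
      intro t ht
      obtain ⟨t', ht', rfl⟩ := mem_image.1 ht
      rw [hT₂] at ht'
      obtain ⟨ht1, ht2⟩ := mem_filter.1 ht'
      obtain ⟨c1, c2, c3, c4, c5, c6, c7⟩ := hT t' ht1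
      push Not at ht2
      rw [hsw]
      simp only
      refine ⟨?_, c2, ?_, c3, c5, ?_, ?_⟩
      · intro h0
        rw [h0] at ht2
        simp only [Int.cast_zero, abs_zero] at ht2
        have : 0 ≤ τ * |(t'.1 : ℝ)| := by positivity
        linarith
      · rw [one_div, inv_mul_eq_div, le_div_iff₀ hτ0]
        linarith
      · rw [Int.gcd_comm]
        exact c6
      · linarith) (by
      intro t ht t' ht'
      obtain ⟨t₁, ht₁, rfl⟩ := mem_image.1 ht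
      obtain ⟨t₂, ht₂, rfl⟩ := mem_image.1 ht'
      rw [hT₂] at ht₁ ht₂
      obtain ⟨d1, d2, d3, d4, d5⟩ := hTQ t₁ (mem_filter.1 ht₁).1 t₂ (mem_filter.1 ht₂).1
      rw [hsw]
      exact ⟨d2, d1, d3, d5, d4⟩)
  rw [← hK, hc₀', hswc] at b2
  -- the estimates
  have hlα0 : 0 ≤ 1 + Real.log (C * X / τ ^ 2) := by
    have := Real.log_nonneg hα1
    linarith
  have hlβ0 : 0 ≤ 1 + Real.log (C * X / τ) := by
    have := Real.log_nonneg hβ1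
    linarith
  have hCX1 : 1 ≤ C * X := by nlinarith
  have hCX2 : C * X ≤ (C * X) ^ 2 := by nlinarith
  have hsα' : √(C * X / τ ^ 2) ≤ C * X := by
    rw [Real.sqrt_le_left (by positivity)]
    calc C * X / τ ^ 2 ≤ C * X := div_le_self (by positivity) (one_le_pow₀ hτ)
      _ ≤ (C * X) ^ 2 := hCX2
  have hsβ' : √(C * X / τ) ≤ C * X := by
    rw [Real.sqrt_le_left (by positivity)]
    calc C * X / τ ≤ C * X := div_le_self (by positivity) hτ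
      _ ≤ (C * X) ^ 2 := hCX2
  have e1 := qe1 hC hX1 hτ hs0 hr1 hr2 hL1 hQ1 hlα0 hlα (Real.sqrt_nonneg _) hsα
  have e2 := qe2 hC hX1 hτ hs0 hr1 hr2 hL1 hc₀0 hlα0 hlα (Real.sqrt_nonneg _) hsα
  have e3 := qe3 hC hX1 hτ hs0 hr1 hr2 hL1 hEE0 hE₁0 hEE (Real.sqrt_nonneg _) hsα'
  have e4 := qe4 hC hX1 hτ hs0 hr1 hr2 hL1 hQ1 hlβ0 hlβ (Real.sqrt_nonneg _) hsβ
  have e5 := qe5 hC hX1 hτ hs0 hr1 hr2 hL1 hc₀0 hlβ0 hlβ (Real.sqrt_nonneg _) hsβ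
  have e6 := qe6 hC hX1 hτ hs0 hr1 hr2 hL1 hEE0 hE₁0 hEE (Real.sqrt_nonneg _) hsβ'
  have hKc : 0 ≤ K * c₀ := mul_nonneg hK0 hc₀0
  have hW1 : 0 ≤ X ^ 2 * s * (τ * r) * L := by positivity
  have hsum1 : (T₁.card : ℝ) ≤ K * c₀ * (1536 * C ^ 3 * (X ^ 3 / Q ^ 4) +
      (1024 * C ^ 3 + 1024 * c₀ * C ^ 3 + 32 * C ^ 2 * E₁) * (X ^ 2 * s * (τ * r) * L)) := by
    refine b1.trans (mul_le_mul_of_nonneg_left ?_ hKc)
    have e2' : 768 * c₀ * C ^ 3 * (X ^ 2 * s * (τ * r) * L) ≤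
        1024 * c₀ * C ^ 3 * (X ^ 2 * s * (τ * r) * L) := by
      gcongr
      norm_num
    calc _ ≤ (1536 * C ^ 3 * (X ^ 3 / Q ^ 4) + 1024 * C ^ 3 * (X ^ 2 * s * (τ * r) * L)) +
          1024 * c₀ * C ^ 3 * (X ^ 2 * s * (τ * r) * L) +
          32 * C ^ 2 * E₁ * (X ^ 2 * s * (τ * r) * L) :=
          add_le_add (add_le_add e1 (e2.trans e2')) e3
      _ = _ := by ring
  have hsum2 : (T₂.card : ℝ) ≤ K * c₀ * (1536 * C ^ 3 * (X ^ 3 / Q ^ 4) +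
      (1024 * C ^ 3 + 1024 * c₀ * C ^ 3 + 32 * C ^ 2 * E₁) * (X ^ 2 * s * (τ * r) * L)) := by
    refine b2.trans (mul_le_mul_of_nonneg_left ?_ hKc)
    calc _ ≤ (1536 * C ^ 3 * (X ^ 3 / Q ^ 4) + 1024 * C ^ 3 * (X ^ 2 * s * (τ * r) * L)) +
          1024 * c₀ * C ^ 3 * (X ^ 2 * s * (τ * r) * L) +
          32 * C ^ 2 * E₁ * (X ^ 2 * s * (τ * r) * L) := add_le_add (add_le_add e4 e5) e6
      _ = _ := by ring
  have hfin : (T.card : ℝ) = T₁.card + T₂.card := by exact_mod_cast hcard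
  rw [hfin]
  calc (T₁.card : ℝ) + T₂.card ≤ _ := add_le_add hsum1 hsum2
    _ = _ := by ring

end Pool.Agent.V7H54.A
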