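import Pool.Agent.V7H54.A.Bc
import Pool.Agent.V7H54.A.Om
import Pool.Agent.V7H54.A.Cn
import Pool.Agent.N482.PF.SQ

/-!
# From a lattice to many quintuples
-/

set_option autoImplicit false
set_option linter.all false

open Polynomial Matrix NumberField
open scoped Classical

namespace Pool.Agent.V7H54.A

open Pool.Agent.N783.PQ (chp Dist)
open Pool.Agent.N783.PF
open Pool.Agent.N352.PJ (Mt Typ)

section lat

variable {L : Type} [Field L] [NumberField L] [Algebra ℚ L] {A t : ℤ} {θ : L}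
  {α : L} {Λ : Submodule (𝓞 ℚ) L}

theorem bf_am (P r : ℤ) (n m : Fin 3 → ℤ) :
    bf (am P r) n m = P * (n 0 * m 2 + n 2 * m 0) + r * (n 1 * m 1) := by
  have e : ∀ i j : Fin 3, am P r i j = (!![0, 0, P; 0, r, 0; P, 0, 0] : Matrix _ _ ℤ) i j :=
    fun i j => rfl
  have e00 : am P r 0 0 = 0 := rfl
  have e01 : am P r 0 1 = 0 := rfl
  have e02 : am P r 0 2 = P := rfl
  have e10 : am P r 1 0 = 0 := rfl
  have e11 : am P r 1 1 = r := rfl
  have e12 : am P r 1 2 = 0 := rfl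
  have e20 : am P r 2 0 = P := rfl
  have e21 : am P r 2 1 = 0 := rfl
  have e22 : am P r 2 2 = 0 := rfl
  rw [bf_eq, e00, e01, e02, e10, e11, e12, e20, e21, e22]
  ring

/-- unipotent change of the basis -/
theorem unip {hG : IsGen 1 (pol A t) θ} {P r : ℤ} {D : ℝ} {k : ℕ} {g : Fin 3 → L} (hD : 1 ≤ D)
    (hB : Bas hG α Λ P r D k g) {m : ℕ} (hm : m < 2 ^ k) :
    Bas hG α Λ P r (36 * D ^ 5) k ![vec g ![1, 0, 0], vec g ![2 * r * m, 1, 0],
      vec g ![-(2 * m ^ 2 * P * r), -(2 * m * P), 1]] := by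
  obtain ⟨v, hv⟩ : ∃ v : Fin 3 → ℤ, v = ![1, 0, 0] := ⟨_, rfl⟩
  obtain ⟨u, hu⟩ : ∃ u : Fin 3 → ℤ, u = ![2 * r * m, 1, 0] := ⟨_, rfl⟩
  obtain ⟨w, hw⟩ : ∃ w : Fin 3 → ℤ, w = ![-(2 * m ^ 2 * P * r), -(2 * m * P), 1] := ⟨_, rfl⟩
  rw [← hv, ← hu, ← hw]
  have v0 : v 0 = 1 := by rw [hv]; rfl
  have v1 : v 1 = 0 := by rw [hv]; rfl
  have v2 : v 2 = 0 := by rw [hv]; rfl
  have u0 : u 0 = 2 * r * m := by rw [hu]; rfl
  have u1 : u 1 = 1 := by rw [hu]; rfl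
  have u2 : u 2 = 0 := by rw [hu]; rfl
  have w0 : w 0 = -(2 * m ^ 2 * P * r) := by rw [hw]; rfl
  have w1 : w 1 = -(2 * m * P) := by rw [hw]; rfl
  have w2 : w 2 = 1 := by rw [hw]; rfl
  obtain ⟨y, hy⟩ : ∃ y : ℝ, y = 2 ^ k := ⟨_, rfl⟩
  have hy4 : (4 : ℝ) ^ k = y ^ 2 := by
    rw [hy, ← pow_mul, mul_comm, pow_mul]
    norm_num
  have hy1 : 1 ≤ y := by rw [hy]; exact one_le_pow₀ (by norm_num)
  have hmy : (m : ℝ) ≤ y := by
    rw [hy]
    exact_mod_cast hm.le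
  have hm0 : (0 : ℝ) ≤ m := by positivity
  have hm2 : (m : ℝ) ^ 2 ≤ y ^ 2 := by gcongr
  obtain ⟨q0, hq0⟩ : ∃ q, q = HH (pol A t) θ α (g 0) := ⟨_, rfl⟩
  obtain ⟨q1, hq1⟩ : ∃ q, q = HH (pol A t) θ α (g 1) := ⟨_, rfl⟩
  obtain ⟨q2, hq2⟩ : ∃ q, q = HH (pol A t) θ α (g 2) := ⟨_, rfl⟩
  have n0 : 0 ≤ q0 := by rw [hq0]; exact HH_nonneg' _ _ _ _
  have n1 : 0 ≤ q1 := by rw [hq1]; exact HH_nonneg' _ _ _ _
  have n2 : 0 ≤ q2 := by rw [hq2]; exact HH_nonneg' _ _ _ _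
  have b0 : q0 * y ^ 2 ≤ D := by rw [hq0, ← hy4]; exact hB.h0
  have b1 : q1 ≤ D := by rw [hq1]; exact hB.h1
  have b2 : q2 ≤ D * y ^ 2 := by rw [hq2, ← hy4]; exact hB.h2
  have hP2 := sq_of_abs hB.Pb
  have hr2 := sq_of_abs hB.rb
  have hD0 : 0 < D := by linarith
  have hD5 : D ≤ D ^ 5 := by
    have := pow_le_pow_right₀ hD (show 1 ≤ 5 by norm_num)
    rwa [pow_one] at this
  have hD35 : D ^ 3 ≤ D ^ 5 := pow_le_pow_right₀ hD (by norm_num)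
  have hy2 : 1 ≤ y ^ 2 := one_le_pow₀ hy1
  have hDp : 0 < D ^ 5 := by positivity
  refine bas_of (v := v) (u := u) (w := w) hG hB.mem hB.gram hB.P0 hB.r0 ?_ ?_ ?_ ?_ ?_ ?_ ?_ ?_ ?_
    ?_ ?_
  · rw [bf_am, v0, v1, v2]; ring
  · rw [bf_am, v0, v1, v2, u0, u1, u2]; ring
  · rw [bf_am, v0, v1, v2, w0, w1, w2]; ring
  · rw [bf_am, u0, u1, u2]; ring
  · rw [bf_am, u0, u1, u2, w0, w1, w2]; ring
  · rw [bf_am, w0, w1, w2]; ring
  · have := hB.Pb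
    linarith
  · have := hB.rb
    linarith
  · have h := HH_vec (pol A t) θ α g v
    rw [v0, v1, v2, ← hq0, ← hq1, ← hq2] at h
    rw [hy4]
    have h2 : HH (pol A t) θ α (vec g v) ≤ 4 * q0 := by
      refine h.trans (le_of_eq ?_)
      push_cast
      ring
    calc HH (pol A t) θ α (vec g v) * y ^ 2 ≤ 4 * q0 * y ^ 2 := by gcongr
      _ = 4 * (q0 * y ^ 2) := by ring
      _ ≤ 4 * D := by gcongr
      _ ≤ 36 * D ^ 5 := by linarith
  · have h := HH_vec (pol A t) θ α g u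
    rw [u0, u1, u2, ← hq0, ← hq1, ← hq2] at h
    have h2 : ((2 * r * (m : ℤ) : ℤ) : ℝ) ^ 2 ≤ 4 * D ^ 2 * y ^ 2 := by
      push_cast
      calc (2 * (r : ℝ) * m) ^ 2 = 4 * (r : ℝ) ^ 2 * (m : ℝ) ^ 2 := by ring
        _ ≤ 4 * D ^ 2 * y ^ 2 := by gcongr
    calc HH (pol A t) θ α (vec g u) ≤ 4 * (((2 * r * (m : ℤ) : ℤ) : ℝ) ^ 2 * q0 +
          ((1 : ℤ) : ℝ) ^ 2 * q1 + ((0 : ℤ) : ℝ) ^ 2 * q2) := h
      _ = 4 * (((2 * r * (m : ℤ) : ℤ) : ℝ) ^ 2 * q0 + q1) := by push_cast; ring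
      _ ≤ 4 * (4 * D ^ 2 * y ^ 2 * q0 + q1) := by gcongr
      _ = 4 * (4 * D ^ 2 * (q0 * y ^ 2) + q1) := by ring
      _ ≤ 4 * (4 * D ^ 2 * D + D) := by gcongr
      _ = 16 * D ^ 3 + 4 * D := by ring
      _ ≤ 36 * D ^ 5 := by linarith
  · have h := HH_vec (pol A t) θ α g w
    rw [w0, w1, w2, ← hq0, ← hq1, ← hq2] at h
    rw [hy4]
    have h2 : ((-(2 * (m : ℤ) ^ 2 * P * r) : ℤ) : ℝ) ^ 2 ≤ 4 * D ^ 4 * y ^ 4 := by
      push_cast
      calc (-(2 * (m : ℝ) ^ 2 * P * r)) ^ 2 =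
            4 * ((m : ℝ) ^ 2) ^ 2 * (P : ℝ) ^ 2 * (r : ℝ) ^ 2 := by ring
        _ ≤ 4 * (y ^ 2) ^ 2 * D ^ 2 * D ^ 2 := by gcongr
        _ = _ := by ring
    have h3 : ((-(2 * (m : ℤ) * P) : ℤ) : ℝ) ^ 2 ≤ 4 * D ^ 2 * y ^ 2 := by
      push_cast
      calc (-(2 * (m : ℝ) * P)) ^ 2 = 4 * (m : ℝ) ^ 2 * (P : ℝ) ^ 2 := by ring
        _ ≤ 4 * y ^ 2 * D ^ 2 := by gcongr
        _ = _ := by ring
    calc HH (pol A t) θ α (vec g w) ≤ 4 * (((-(2 * (m : ℤ) ^ 2 * P * r) : ℤ) : ℝ) ^ 2 * q0 +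
          ((-(2 * (m : ℤ) * P) : ℤ) : ℝ) ^ 2 * q1 + ((1 : ℤ) : ℝ) ^ 2 * q2) := h
      _ = 4 * (((-(2 * (m : ℤ) ^ 2 * P * r) : ℤ) : ℝ) ^ 2 * q0 +
          ((-(2 * (m : ℤ) * P) : ℤ) : ℝ) ^ 2 * q1 + q2) := by push_cast; ring
      _ ≤ 4 * (4 * D ^ 4 * y ^ 4 * q0 + 4 * D ^ 2 * y ^ 2 * q1 + q2) := by gcongr
      _ = 4 * (4 * D ^ 4 * y ^ 2 * (q0 * y ^ 2) + 4 * D ^ 2 * y ^ 2 * q1 + q2) := by ring
      _ ≤ 4 * (4 * D ^ 4 * y ^ 2 * D + 4 * D ^ 2 * y ^ 2 * D + D * y ^ 2) := by gcongr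
      _ = (16 * D ^ 5 + 16 * D ^ 3 + 4 * D) * y ^ 2 := by ring
      _ ≤ 36 * D ^ 5 * y ^ 2 := by
          refine mul_le_mul_of_nonneg_right ?_ (by positivity)
          linarith

theorem rd_pol {q : ℕ} (ht : (q : ℤ) ∣ t) :
    rd (sp ℚ q) (pol A t) = X * (X ^ 2 + C (rho q A)) := by
  have h0 : Ideal.Quotient.mk (sp ℚ q) (t : 𝓞 ℚ) = 0 := rho_zero.2 ht
  have e : rd (sp ℚ q) (pol A t) = X ^ 3 + C (rho q A) * X + C (Ideal.Quotient.mk (sp ℚ q) (t : 𝓞 ℚ)) := by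
    unfold rd pol
    rw [Polynomial.map_add, Polynomial.map_add, Polynomial.map_mul, Polynomial.map_pow, map_X,
      map_C, map_C]
    rfl
  rw [e, h0, map_zero]
  ring

/-- a quintuple -/
theorem cd_of {B : ℕ} {hG : IsGen 1 (pol A t) θ} (hHt : Ht 1 B (pol A t)) (hα : α ≠ 0)
    (hN : IsSquare (Algebra.norm ℚ α)) (hL : Lat hG α Λ) {P r : ℤ} {k : ℕ} {f : Fin 3 → L} {M : ℝ}
    (hM1 : 1 ≤ M) (hB : Bas hG α Λ P r M k f) {C₁ : ℕ} (hM : 2 * M ≤ C₁) {S : Finset ℕ}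
    (hS : ∀ q ∈ S, q.Prime ∧ 3 < q ∧ C₁ < q) (hcon : ∀ q ∈ S, (q : ℤ) ∣ t)
    (hdv : ∀ q ∈ S, DVec hG α Λ (sp ℚ q)) :
    0 < r ∧ IsSquare (P ^ 2 * r) ∧ ∃ a b c d e : ℤ, (a : ℚ) = hG.top (θ * (f 0 * f 0) / α) ∧
      (b : ℚ) = hG.top (θ * (f 0 * f 1) / α) ∧ Cd A C₁ B P r k S rho (Om A) t a b c d e := by
  have hli : LinearIndependent ℚ f := by
    refine li_of_gram (α := α) hG hB.gram ?_
    have : (am P r).det = -(P ^ 2 * r) := by
      unfold am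
      rw [Matrix.det_fin_three]
      have : (0 : ℤ) * r * 0 - 0 * 0 * 0 - 0 * 0 * 0 + 0 * 0 * P + P * 0 * 0 - P * r * P =
        -(P ^ 2 * r) := by ring
      exact this
    rw [this]
    exact neg_ne_zero.2 (mul_ne_zero (pow_ne_zero 2 hB.P0) hB.r0)
  obtain ⟨A', B', hGr, hAs, hBs, -, hchp, -, hdet, hq⟩ := Pool.Agent.N614.PF.chi 1 ℚ L (pol A t) θ hG
    α Λ f (pol_c2 A t) hα hL hB.mem hli
  have hex : ∀ i j, ∃ n : ℤ, (n : 𝓞 ℚ) = B' i j := fun i j => okq _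
  choose H hH using hex
  have hHt' : ∀ i j, ((H i j : ℤ) : ℚ) = hG.top (θ * (f i * f j) / α) := by
    intro i j
    rw [← hGr.gB i j, ← hH i j]
    simp
  have hHs : ∀ i j, H i j = H j i := by
    intro i j
    have : ((H i j : ℤ) : ℚ) = ((H j i : ℤ) : ℚ) := by rw [hHt', hHt', mul_comm (f i)]
    exact_mod_cast this
  have hAi : ∀ i j, A' i j = ((am P r i j : ℤ) : 𝓞 ℚ) := by
    intro i j
    refine RingOfIntegers.ext ?_
    rw [hGr.gA i j, ← hB.gram i j]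
    simp
  -- the determinant
  obtain ⟨x, hx0, hx⟩ := hdet hN
  obtain ⟨n, hn⟩ := okq x
  have hdetA : A'.det = ((-(P ^ 2 * r) : ℤ) : 𝓞 ℚ) := by
    have h1 : A' = (am P r).map (Int.castRingHom (𝓞 ℚ)) := by
      ext i j
      rw [hAi i j]
      rfl
    rw [h1, ← RingHom.mapMatrix_apply, ← RingHom.map_det]
    have : (am P r).det = -(P ^ 2 * r) := by
      unfold am
      rw [Matrix.det_fin_three]
      have : (0 : ℤ) * r * 0 - 0 * 0 * 0 - 0 * 0 * 0 + 0 * 0 * P + P * 0 * 0 - P * r * P =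
        -(P ^ 2 * r) := by ring
      exact this
    rw [this]
    simp
  have hPr : P ^ 2 * r = n ^ 2 := by
    rw [hdetA, ← hn] at hx
    have : ((-(P ^ 2 * r) : ℤ) : 𝓞 ℚ) = ((-(n ^ 2) : ℤ) : 𝓞 ℚ) := by
      rw [hx]
      push_cast
      ring
    have h2 : -(P ^ 2 * r) = -(n ^ 2) := by exact_mod_cast this
    linarith
  have hn0 : n ≠ 0 := by
    rintro rfl
    apply hx0
    rw [← hn]
    simp
  have hr0 : 0 < r := by
    have h1 : 0 < P ^ 2 * r := by rw [hPr]; positivity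
    have h2 : 0 < P ^ 2 := by have := hB.P0; positivity
    exact pos_of_mul_pos_right h1 h2.le
  refine ⟨hr0, ⟨n, by rw [hPr]; ring⟩, H 0 0, H 0 1, H 0 2, H 1 2, H 2 2, hHt' 0 0, hHt' 0 1, ?_⟩
  -- sizes
  obtain ⟨y, hy⟩ : ∃ y : ℝ, y = 2 ^ k := ⟨_, rfl⟩
  have hy4 : (4 : ℝ) ^ k = y ^ 2 := by
    rw [hy, ← pow_mul, mul_comm, pow_mul]
    norm_num
  have hy1 : 1 ≤ y := by rw [hy]; exact one_le_pow₀ (by norm_num)
  have hy0 : 0 < y := by linarith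
  have hM0 : 0 < M := by linarith
  obtain ⟨q, hqd⟩ : ∃ q : Fin 3 → ℝ, q = fun i => HH (pol A t) θ α (f i) := ⟨_, rfl⟩
  have hqi : ∀ i, HH (pol A t) θ α (f i) = q i := fun i => by rw [hqd]
  have hqn : ∀ i, 0 ≤ q i := fun i => by rw [← hqi]; exact HH_nonneg' _ _ _ _
  have b0 : q 0 ≤ M / y ^ 2 := by
    rw [le_div_iff₀ (by positivity), ← hy4, ← hqi]
    exact hB.h0
  have b1 : q 1 ≤ M := by rw [← hqi]; exact hB.h1
  have b2 : q 2 ≤ M * y ^ 2 := by rw [← hqi, ← hy4]; exact hB.h2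
  have hmj : ∀ i j (R : ℝ), 0 ≤ R → q i * q j ≤ R ^ 2 → |(H i j : ℝ)| ≤ 2 * B * R := by
    intro i j R hR h
    refine abs_of_sq (by positivity) ?_
    have h1 := maj1 hG hHt hα 1 (f i) (f j) (n := H i j) (by rw [pow_one]; exact hHt' i j)
    rw [hqi, hqi] at h1
    calc (H i j : ℝ) ^ 2 ≤ (2 * B : ℝ) ^ (2 * 1) * (q i * q j) := h1
      _ ≤ (2 * B : ℝ) ^ (2 * 1) * R ^ 2 := by gcongr
      _ = _ := by ring
  have hBn : (0 : ℝ) ≤ B := by positivity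
  have hMB : 2 * B * M ≤ C₁ * B := by nlinarith
  have s00 : |(H 0 0 : ℝ)| ≤ C₁ * B / y ^ 2 := by
    have h1 := hmj 0 0 (M / y ^ 2) (by positivity) (by
      rw [pow_two]
      exact mul_le_mul b0 b0 (hqn 0) (by positivity))
    refine h1.trans ?_
    rw [← mul_div_assoc]
    gcongr
  have s01 : |(H 0 1 : ℝ)| ≤ C₁ * B / y := by
    have h1 := hmj 0 1 (M / y) (by positivity) (by
      have : (M / y) ^ 2 = M / y ^ 2 * M := by field_simp
      rw [this]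
      exact mul_le_mul b0 b1 (hqn 1) (by positivity))
    refine h1.trans ?_
    rw [← mul_div_assoc]
    gcongr
  have s02 : |(H 0 2 : ℝ)| ≤ C₁ * B := by
    have h1 := hmj 0 2 M (by positivity) (by
      have : M ^ 2 = M / y ^ 2 * (M * y ^ 2) := by field_simp
      rw [this]
      exact mul_le_mul b0 b2 (hqn 2) (by positivity))
    exact h1.trans hMB
  have s12 : |(H 1 2 : ℝ)| ≤ C₁ * B * y := by
    have h1 := hmj 1 2 (M * y) (by positivity) (by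
      have : (M * y) ^ 2 = M * (M * y ^ 2) := by ring
      rw [this]
      exact mul_le_mul b1 b2 (hqn 2) (by positivity))
    refine h1.trans ?_
    rw [← mul_assoc]
    gcongr
  have s22 : |(H 2 2 : ℝ)| ≤ C₁ * B * y ^ 2 := by
    have h1 := hmj 2 2 (M * y ^ 2) (by positivity) (by
      rw [pow_two (M * y ^ 2)]
      exact mul_le_mul b2 b2 (hqn 2) (by positivity))
    refine h1.trans ?_
    rw [← mul_assoc]
    gcongr
  -- the equations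
  have hmA : mF A' = !![0, 0, (P : ℚ); 0, (r : ℚ), 0; (P : ℚ), 0, 0] := by
    ext i j
    show ((A' i j : 𝓞 ℚ) : ℚ) = _
    rw [hAi i j]
    fin_cases i <;> fin_cases j <;> simp [am]
  have hBi : ∀ i j, ((B' i j : 𝓞 ℚ) : ℚ) = (H i j : ℚ) := by
    intro i j
    rw [← hH i j]
    simp
  have hmB : mF B' = !![(H 0 0 : ℚ), (H 0 1 : ℚ), (H 0 2 : ℚ); (H 0 1 : ℚ), (H 1 1 : ℚ), (H 1 2 : ℚ);
      (H 0 2 : ℚ), (H 1 2 : ℚ), (H 2 2 : ℚ)] := by
    ext i j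
    show ((B' i j : 𝓞 ℚ) : ℚ) = _
    rw [hBi i j]
    have e1 := hHs 1 0
    have e2 := hHs 2 0
    have e3 := hHs 2 1
    fin_cases i <;> fin_cases j <;> first | rfl | (simp only [Fin.zero_eta, Fin.mk_one, Fin.reduceFinMk]; first | rw [e1] | rw [e2] | rw [e3]) <;> rfl
  have hP0 : (P : ℚ) ≠ 0 := by exact_mod_cast hB.P0
  have hr0' : (r : ℚ) ≠ 0 := by exact_mod_cast hB.r0
  rw [hmA, hmB, fF_pol] at hchp
  obtain ⟨c1, c2, c3⟩ := chp_anti (by norm_num) hP0 hr0' hchp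
  have hPM : |P| ≤ C₁ := by
    have h1 : |(P : ℝ)| ≤ C₁ := hB.Pb.trans (by linarith)
    exact_mod_cast h1
  have hrM : |r| ≤ C₁ := by
    have h1 : |(r : ℝ)| ≤ C₁ := hB.rb.trans (by linarith)
    exact_mod_cast h1
  have hβ : P * H 1 1 = -(2 * r * H 0 2) := by exact_mod_cast c1
  refine ⟨by rw [← hy]; exact s00, by rw [← hy]; exact s01, s02, by rw [← hy]; exact s12,
    by rw [← hy]; exact s22, by exact_mod_cast c2, by exact_mod_cast c3, fun p hp => ?_⟩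
  obtain ⟨hpp, hp3, hpC⟩ := hS p hp
  rw [mem_Om hpp]
  have hPp : |P| < p := by omega
  have hrp : |r| < p := by omega
  have hnd : A'.det ∉ sp ℚ p := by
    rw [hdetA, mem_sp, dvd_neg]
    intro hd
    rcases (Nat.prime_iff_prime_int.1 hpp).dvd_or_dvd hd with h | h
    · have h1 := (Nat.prime_iff_prime_int.1 hpp).dvd_of_dvd_pow h
      exact rho_ne hB.P0 hPp (rho_zero.2 h1)
    · exact rho_ne hB.r0 hrp (rho_zero.2 h)
  obtain ⟨hc, hdist⟩ := hq (sp ℚ p) (sp_prime hpp) (sp_ne_bot hpp) hnd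
  have hD := hdist (hdv p hp)
  have hrA : rm (sp ℚ p) A' = !![0, 0, rho p P; 0, rho p r, 0; rho p P, 0, 0] := by
    ext i j
    show Ideal.Quotient.mk (sp ℚ p) (A' i j) = _
    rw [hAi i j]
    fin_cases i <;> fin_cases j <;> simp [am, rho]
  have hrB : rm (sp ℚ p) B' = !![rho p (H 0 0), rho p (H 0 1), rho p (H 0 2);
      rho p (H 0 1), rho p (H 1 1), rho p (H 1 2); rho p (H 0 2), rho p (H 1 2), rho p (H 2 2)] := by
    ext i j
    show Ideal.Quotient.mk (sp ℚ p) (B' i j) = _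
    rw [← hH i j]
    have e1 := hHs 1 0
    have e2 := hHs 2 0
    have e3 := hHs 2 1
    fin_cases i <;> fin_cases j <;> first | rfl | (simp only [Fin.zero_eta, Fin.mk_one, Fin.reduceFinMk]; first | rw [e1] | rw [e2] | rw [e3]) <;> rfl
  rw [hrA, hrB] at hc hD
  rw [rd_pol (hcon p hp)] at hc
  refine ⟨rho p (H 1 1), ?_, hc, hD⟩
  have h1 : rho p (P * H 1 1) = rho p (-(2 * r * H 0 2)) := by rw [hβ]
  rw [rho_int, rho_int] at h1
  push_cast at h1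
  rw [rho_int, rho_int, rho_int, rho_int]
  exact h1

/-- **A lattice of a nonsquare gives a bad parameter.** -/
theorem bad_of : ∃ C₁ : ℕ, 1 ≤ C₁ ∧ ∀ (L : Type) [Field L] [NumberField L] [Algebra ℚ L] (A t : ℤ)
    (B : ℕ) (θ : L) (hG : IsGen 1 (pol A t) θ) (α : L) (Λ : Submodule (𝓞 ℚ) L), 0 < A →
    Ht 1 B (pol A t) → α ≠ 0 → IsSquare (Algebra.norm ℚ α) → Lat hG α Λ → ¬ IsSquare α →
    ∀ S : Finset ℕ, (∀ q ∈ S, q.Prime ∧ 3 < q ∧ C₁ < q) → (∀ q ∈ S, (q : ℤ) ∣ t) →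
    (∀ q ∈ S, DVec hG α Λ (sp ℚ q)) → Bt A C₁ B S rho (Om A) t := by
  obtain ⟨D, hD1, hD⟩ := bas
  obtain ⟨C₁, hC₁⟩ : ∃ C₁ : ℕ, C₁ = 72 * D ^ 5 := ⟨_, rfl⟩
  have hD1' : (1 : ℝ) ≤ D := by exact_mod_cast hD1
  refine ⟨C₁, by rw [hC₁]; have : 0 < D ^ 5 := by positivity
                 omega, ?_⟩
  intro L _ _ _ A t B θ hG α Λ hA hHt hα hN hL hns S hS hcon hdv
  obtain ⟨P, r, k, g, hB⟩ := hD L A t B θ hG α Λ hA hHt hα hN hL
  have hM1 : (1 : ℝ) ≤ 36 * D ^ 5 := by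
    have : (1 : ℝ) ≤ (D : ℝ) ^ 5 := one_le_pow₀ hD1'
    linarith
  have hMC : 2 * (36 * (D : ℝ) ^ 5) ≤ C₁ := by rw [hC₁]; push_cast; linarith
  have key := fun m (hm : m < 2 ^ k) => cd_of hHt hα hN hL hM1 (unip hD1' hB hm) hMC hS hcon hdv
  obtain ⟨hr0, hsq, -⟩ := key 0 (by positivity)
  -- the form of `θ`
  have hex : ∀ i j, ∃ n : ℤ, (n : ℚ) = hG.top (θ * (g i * g j) / α) := by
    intro i j
    have h := exists_int hG hL (hL.stab _ (hB.mem i)) (hB.mem j)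
    rwa [mul_assoc] at h
  choose H hH using hex
  have hvec : ∀ n m : Fin 3 → ℤ, ((bf (Matrix.of H) n m : ℤ) : ℚ) =
      hG.top (θ * (vec g n * vec g m) / α) := by
    intro n m
    have e1 : θ * (vec g n * vec g m) / α =
        ∑ i, ∑ j, ((n i * m j : ℤ) : L) * (θ * (g i * g j) / α) := by
      unfold vec
      rw [Finset.sum_mul, Finset.mul_sum, Finset.sum_div]
      refine Finset.sum_congr rfl fun i _ => ?_
      rw [Finset.mul_sum, Finset.mul_sum, Finset.sum_div]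
      refine Finset.sum_congr rfl fun j _ => ?_
      push_cast
      ring
    rw [e1, map_sum]
    unfold bf
    push_cast
    refine Finset.sum_congr rfl fun i _ => ?_
    rw [map_sum]
    refine Finset.sum_congr rfl fun j _ => ?_
    have := top_int hG (n i * m j) (θ * (g i * g j) / α)
    push_cast at this
    rw [this, ← hH]
    rfl
  have hli : LinearIndependent ℚ g := by
    refine li_of_gram (α := α) hG hB.gram ?_
    have : (am P r).det = -(P ^ 2 * r) := by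
      unfold am
      rw [Matrix.det_fin_three]
      have : (0 : ℤ) * r * 0 - 0 * 0 * 0 - 0 * 0 * 0 + 0 * 0 * P + P * 0 * 0 - P * r * P =
        -(P ^ 2 * r) := by ring
      exact this
    rw [this]
    exact neg_ne_zero.2 (mul_ne_zero (pow_ne_zero 2 hB.P0) hB.r0)
  have ha0 : H 0 0 ≠ 0 := by
    intro h0
    apply hns
    refine Pool.Agent.N482.PF.sq 1 ℚ L (pol A t) θ le_rfl hG α g hα hli ?_ ?_ hN
    · intro i j hi hj
      have hi0 : i = 0 := Fin.ext (by simpa using hi)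
      have hj0 : j = 0 := Fin.ext (by simpa using hj)
      rw [hi0, hj0]
      have := hB.gram 0 0
      have e : am P r 0 0 = 0 := rfl
      rw [e, Int.cast_zero] at this
      exact this.symm
    · intro i j hi hj
      have hi0 : i = 0 := Fin.ext (by simpa using hi)
      have hj0 : j = 0 := Fin.ext (by simpa using hj)
      rw [hi0, hj0, ← hH, h0, Int.cast_zero]
  have hcd : ∀ m : ℕ, m < 2 ^ k → ∃ c d e : ℤ,
      Cd A C₁ B P r k S rho (Om A) t (H 0 0) (H 0 1 + 2 * r * m * H 0 0) c d e := by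
    intro m hm
    obtain ⟨-, -, a, b, c, d, e, ha, hb, hcd⟩ := key m hm
    refine ⟨c, d, e, ?_⟩
    have ea : a = H 0 0 := by
      have h1 : (a : ℚ) = ((bf (Matrix.of H) ![1, 0, 0] ![1, 0, 0] : ℤ) : ℚ) := by
        rw [hvec]
        exact ha
      have h2 : a = bf (Matrix.of H) ![1, 0, 0] ![1, 0, 0] := by exact_mod_cast h1
      rw [h2, bf_eq]
      simp
    have eb : b = H 0 1 + 2 * r * m * H 0 0 := by
      have h1 : (b : ℚ) = ((bf (Matrix.of H) ![1, 0, 0] ![2 * r * m, 1, 0] : ℤ) : ℚ) := by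
        rw [hvec]
        exact hb
      have h2 : b = bf (Matrix.of H) ![1, 0, 0] ![2 * r * m, 1, 0] := by exact_mod_cast h1
      rw [h2, bf_eq]
      simp
      ring
    rw [ea, eb] at hcd
    exact hcd
  have hPM : |P| ≤ C₁ := by
    have h1 : |(P : ℝ)| ≤ C₁ := hB.Pb.trans (by
      have : (D : ℝ) ≤ (D : ℝ) ^ 5 := by
        have := pow_le_pow_right₀ hD1' (show 1 ≤ 5 by norm_num)
        rwa [pow_one] at this
      linarith)
    exact_mod_cast h1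
  have hrM : |r| ≤ C₁ := by
    have h1 : |(r : ℝ)| ≤ C₁ := hB.rb.trans (by
      have : (D : ℝ) ≤ (D : ℝ) ^ 5 := by
        have := pow_le_pow_right₀ hD1' (show 1 ≤ 5 by norm_num)
        rwa [pow_one] at this
      linarith)
    exact_mod_cast h1
  refine ⟨P, r, ?_, k, ?_, H 0 0, H 0 1, ha0, hcd⟩
  · unfold Pr
    rw [Finset.mem_filter, Finset.mem_product, Finset.mem_Icc, Finset.mem_Icc]
    refine ⟨⟨abs_le.1 hPM, ?_, (le_abs_self r).trans hrM⟩, hB.P0, hsq⟩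
    show 1 ≤ r
    omega
  · obtain ⟨c, d, e, h1, -⟩ := hcd 0 (by positivity)
    have h2 : (1 : ℝ) ≤ |(H 0 0 : ℝ)| := by
      rw [← Int.cast_abs]
      exact_mod_cast Int.one_le_abs ha0
    have h3 := h2.trans h1
    rw [le_div_iff₀ (by positivity)] at h3
    linarith

end lat

end Pool.Agent.V7H54.A
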