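import Pool.Agent.V7H54.A.Wy

/-!
# Sums over pairs
-/

set_option autoImplicit false
set_option linter.all false

open scoped Real
open Finset

namespace Pool.Agent.V7H54.A

theorem sum_inv_mul (A : Finset ℤ) (f : ℕ) (hf : 0 < f) {α : ℝ} (hα : 1 ≤ α)
    (h : ∀ a ∈ A, a ≠ 0 ∧ |(a : ℝ)| ≤ α ∧ (f : ℤ) ∣ a) :
    ∑ a ∈ A, 1 / |(a : ℝ)| ≤ 2 / f * (1 + Real.log α) ∧ (A.card : ℝ) ≤ 2 * α / f := by
  have hf0 : (0 : ℝ) < f := by exact_mod_cast hf
  have hf1 : (1 : ℝ) ≤ f := by exact_mod_cast hf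
  obtain ⟨n, hn⟩ : ∃ n : ℕ, n = ⌊α / f⌋₊ := ⟨_, rfl⟩
  have hnle : (n : ℝ) ≤ α / f := by rw [hn]; exact Nat.floor_le (by positivity)
  -- the parametrisation
  obtain ⟨B, hB⟩ : ∃ B : Finset (Bool × ℕ), B = univ ×ˢ range n := ⟨_, rfl⟩
  obtain ⟨φ, hφ⟩ : ∃ φ : Bool × ℕ → ℤ, φ = fun x : Bool × ℕ =>
    (if x.1 = true then (1 : ℤ) else -1) * ((f : ℤ) * ((x.2 : ℤ) + 1)) := ⟨_, rfl⟩
  have hsub : A ⊆ B.image φ := by
    intro a ha
    obtain ⟨h1, h2, ⟨x, hx⟩⟩ := h a ha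
    have hx0 : x ≠ 0 := by
      rintro rfl
      exact h1 (by rw [hx, mul_zero])
    rw [mem_image]
    refine ⟨(decide (0 < x), x.natAbs - 1), ?_, ?_⟩
    · rw [hB, mem_product]
      refine ⟨mem_univ _, ?_⟩
      rw [mem_range]
      have h3 : x.natAbs ≤ n := by
        rw [hn]
        apply Nat.le_floor
        rw [le_div_iff₀ hf0, Nat.cast_natAbs, Int.cast_abs]
        rw [hx] at h2
        push_cast at h2
        rw [abs_mul, abs_of_pos hf0] at h2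
        linarith
      have h4 : 0 < x.natAbs := Int.natAbs_pos.2 hx0
      show x.natAbs - 1 < n
      omega
    · rw [hφ]
      simp only
      have h4 : 0 < x.natAbs := Int.natAbs_pos.2 hx0
      by_cases h5 : 0 < x
      · rw [decide_eq_true h5, if_pos rfl, hx]
        have : ((x.natAbs - 1 : ℕ) : ℤ) + 1 = x := by omega
        rw [this, one_mul]
      · rw [decide_eq_false h5, if_neg (by simp), hx]
        have : ((x.natAbs - 1 : ℕ) : ℤ) + 1 = -x := by omega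
        rw [this]
        ring
  have hφv : ∀ x : Bool × ℕ, |(φ x : ℝ)| = f * (x.2 + 1) := by
    intro x
    rw [hφ]
    simp only
    push_cast
    rw [abs_mul]
    have h1 : |((if x.1 = true then (1 : ℤ) else -1 : ℤ) : ℝ)| = 1 := by
      split_ifs <;> simp
    push_cast at h1
    rw [h1, one_mul, abs_of_pos (by positivity)]
  constructor
  · have h1 : ∑ a ∈ A, 1 / |(a : ℝ)| ≤ ∑ x ∈ B, 1 / |(φ x : ℝ)| := by
      refine (sum_le_sum_of_subset_of_nonneg hsub fun a _ _ => by positivity).trans ?_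
      exact sum_image_le_of_nonneg (fun x _ => by positivity)
    refine h1.trans ?_
    have h2 : ∑ x ∈ B, 1 / |(φ x : ℝ)| = 2 / f * ∑ i ∈ range n, 1 / ((i : ℝ) + 1) := by
      rw [hB, sum_product]
      simp only [hφv, sum_const, card_univ, Fintype.card_bool, nsmul_eq_mul, mul_sum]
      refine sum_congr rfl fun i _ => ?_
      push_cast
      field_simp
    rw [h2]
    refine mul_le_mul_of_nonneg_left ?_ (by positivity)
    have h3 := harmonic_le_one_add_log n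
    have h4 : ((harmonic n : ℚ) : ℝ) = ∑ i ∈ Finset.range n, (1 : ℝ) / (i + 1) := by
      unfold harmonic
      push_cast
      exact Finset.sum_congr rfl fun i _ => by rw [one_div]
    rw [← h4]
    refine h3.trans ?_
    rcases Nat.eq_zero_or_pos n with h0 | h0
    · rw [h0]
      simp only [CharP.cast_eq_zero, Real.log_zero, add_zero]
      have : 0 ≤ Real.log α := Real.log_nonneg hα
      linarith
    · have h5 : Real.log n ≤ Real.log α := Real.log_le_log (by exact_mod_cast h0)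
        (hnle.trans (div_le_self (by linarith) hf1))
      linarith
  · have h1 : (A.card : ℝ) ≤ B.card := by
      exact_mod_cast (card_le_card hsub).trans card_image_le
    refine h1.trans ?_
    rw [hB, card_product, card_univ, Fintype.card_bool, card_range]
    push_cast
    have : 2 * α / f = 2 * (α / f) := by ring
    rw [this]
    linarith

/-- the pairs with `gcd = f` -/
theorem sl_fib (P : Finset (ℤ × ℤ)) {α ρ : ℝ} (hα : 1 ≤ α) (hρ : 0 < ρ) {Q f : ℕ} (hQ : 1 ≤ Q)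
    (hf : 0 < f) (hfQ : Nat.Coprime f Q)
    (h : ∀ x ∈ P, x.1 ≠ 0 ∧ |(x.1 : ℝ)| ≤ α ∧ |(x.2 : ℝ)| ≤ ρ * |(x.1 : ℝ)| ∧
      (f : ℤ) ∣ x.1 ∧ (f : ℤ) ∣ x.2)
    (hPQ : ∀ x ∈ P, ∀ y ∈ P, (Q : ℤ) ∣ x.1 - y.1 ∧ (Q : ℤ) ∣ x.2 - y.2) :
    ∑ x ∈ P, 1 / |(x.1 : ℝ)| ≤ 4 * ρ * α / (f ^ 2 * Q ^ 2) + 2 * ρ / (f * Q) +
        2 / f * (1 + Real.log α) ∧
    (P.card : ℝ) ≤ 4 * ρ * α ^ 2 / f ^ 2 + 2 * α / f := by
  have hf0 : (0 : ℝ) < f := by exact_mod_cast hf
  have hQ0 : (0 : ℝ) < Q := by exact_mod_cast hQ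
  obtain ⟨A, hA⟩ : ∃ A : Finset ℤ, A = P.image fun x => x.1 := ⟨_, rfl⟩
  have hA1 : ∀ a ∈ A, a ≠ 0 ∧ |(a : ℝ)| ≤ α ∧ (f : ℤ) ∣ a := by
    intro a ha
    rw [hA] at ha
    obtain ⟨x, hx, rfl⟩ := mem_image.1 ha
    obtain ⟨h1, h2, -, h3, -⟩ := h x hx
    exact ⟨h1, h2, h3⟩
  obtain ⟨hs1, hs2⟩ := sum_inv_mul A f hf hα hA1
  have hAc : (A.card : ℝ) ≤ 2 * α / (f * Q) + 1 := by
    have h1 := card_cong A ((f * Q : ℕ) : ℤ) (by positivity) (-α) α (by linarith)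
      (fun a ha => abs_le.1 (hA1 a ha).2.1) (by
        intro a ha b hb
        rw [hA] at ha hb
        obtain ⟨x, hx, rfl⟩ := mem_image.1 ha
        obtain ⟨y, hy, rfl⟩ := mem_image.1 hb
        push_cast
        exact IsCoprime.mul_dvd (Nat.isCoprime_iff_coprime.2 hfQ)
          (dvd_sub (h x hx).2.2.2.1 (h y hy).2.2.2.1) (hPQ x hx y hy).1)
    refine h1.trans (le_of_eq ?_)
    push_cast
    ring
  have hmap : ∀ x ∈ P, x.1 ∈ A := fun x hx => by rw [hA]; exact mem_image_of_mem _ hx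
  have hfc : ∀ a ∈ A, ((P.filter fun x => x.1 = a).card : ℝ) =
      (((P.filter fun x => x.1 = a).image fun x => x.2).card : ℝ) := by
    intro a _
    rw [card_image_of_injOn]
    intro x hx y hy hxy
    have h1 := (mem_filter.1 (mem_coe.1 hx)).2
    have h2 := (mem_filter.1 (mem_coe.1 hy)).2
    exact Prod.ext (h1.trans h2.symm) hxy
  have hfib : ∀ a ∈ A, ((P.filter fun x => x.1 = a).card : ℝ) ≤ 2 * ρ * |(a : ℝ)| / (f * Q) + 1 := by
    intro a ha
    rw [hfc a ha]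
    have h1 := card_cong ((P.filter fun x => x.1 = a).image fun x => x.2) ((f * Q : ℕ) : ℤ)
      (by positivity) (-(ρ * |(a : ℝ)|)) (ρ * |(a : ℝ)|) (by
        have : 0 ≤ ρ * |(a : ℝ)| := by positivity
        linarith) (by
        intro b hb
        obtain ⟨x, hx, rfl⟩ := mem_image.1 hb
        have h2 := mem_filter.1 hx
        have h3 := (h x h2.1).2.2.1
        rw [h2.2] at h3
        exact abs_le.1 h3) (by
        intro b hb c hc
        obtain ⟨x, hx, rfl⟩ := mem_image.1 hb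
        obtain ⟨y, hy, rfl⟩ := mem_image.1 hc
        have h2 := mem_filter.1 hx
        have h3 := mem_filter.1 hy
        push_cast
        exact IsCoprime.mul_dvd (Nat.isCoprime_iff_coprime.2 hfQ)
          (dvd_sub (h x h2.1).2.2.2.2 (h y h3.1).2.2.2.2) (hPQ x h2.1 y h3.1).2)
    refine h1.trans (le_of_eq ?_)
    push_cast
    ring
  have hfib' : ∀ a ∈ A, ((P.filter fun x => x.1 = a).card : ℝ) ≤ 2 * ρ * |(a : ℝ)| / f + 1 := by
    intro a ha
    refine (hfib a ha).trans ?_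
    have h1 : 2 * ρ * |(a : ℝ)| / (f * Q) ≤ 2 * ρ * |(a : ℝ)| / f := by
      apply div_le_div_of_nonneg_left (by positivity) hf0
      have : (1 : ℝ) ≤ Q := by exact_mod_cast hQ
      nlinarith
    linarith
  constructor
  · rw [← sum_fiberwise_of_maps_to hmap]
    have h1 : ∀ a ∈ A, ∑ x ∈ P.filter (fun x => x.1 = a), 1 / |(x.1 : ℝ)| ≤
        2 * ρ / (f * Q) + 1 / |(a : ℝ)| := by
      intro a ha
      have h2 : ∑ x ∈ P.filter (fun x => x.1 = a), 1 / |(x.1 : ℝ)| =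
          (P.filter fun x => x.1 = a).card * (1 / |(a : ℝ)|) := by
        rw [← nsmul_eq_mul, ← sum_const]
        exact sum_congr rfl fun x hx => by rw [(mem_filter.1 hx).2]
      have ha0 : 0 < |(a : ℝ)| := abs_pos.2 (by exact_mod_cast (hA1 a ha).1)
      rw [h2]
      calc ((P.filter fun x => x.1 = a).card : ℝ) * (1 / |(a : ℝ)|)
          ≤ (2 * ρ * |(a : ℝ)| / (f * Q) + 1) * (1 / |(a : ℝ)|) := by
            gcongr
            exact hfib a ha
        _ = 2 * ρ / (f * Q) + 1 / |(a : ℝ)| := by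
            field_simp
    refine (sum_le_sum h1).trans ?_
    rw [sum_add_distrib, sum_const, nsmul_eq_mul]
    have h2 : (A.card : ℝ) * (2 * ρ / (f * Q)) ≤ (2 * α / (f * Q) + 1) * (2 * ρ / (f * Q)) := by
      gcongr
    have h3 : (2 * α / (f * Q) + 1) * (2 * ρ / (f * Q)) =
        4 * ρ * α / (f ^ 2 * Q ^ 2) + 2 * ρ / (f * Q) := by
      field_simp
      ring
    linarith
  · rw [card_eq_sum_card_fiberwise hmap]
    push_cast
    have h1 : ∀ a ∈ A, ((P.filter fun x => x.1 = a).card : ℝ) ≤ 2 * ρ * α / f + 1 := by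
      intro a ha
      refine (hfib' a ha).trans ?_
      have := (hA1 a ha).2.1
      gcongr
    refine (sum_le_sum h1).trans ?_
    rw [sum_const, nsmul_eq_mul]
    calc (A.card : ℝ) * (2 * ρ * α / f + 1) ≤ (2 * α / f) * (2 * ρ * α / f + 1) := by gcongr
      _ = 4 * ρ * α ^ 2 / f ^ 2 + 2 * α / f := by
        field_simp
        ring

/-- the sum over the pairs -/
theorem sl (P : Finset (ℤ × ℤ)) {α ρ : ℝ} (hα : 1 ≤ α) (hρ : 0 < ρ) {Q : ℕ} (hQ : 1 ≤ Q)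
    (h : ∀ x ∈ P, x.1 ≠ 0 ∧ |(x.1 : ℝ)| ≤ α ∧ |(x.2 : ℝ)| ≤ ρ * |(x.1 : ℝ)| ∧
      Nat.Coprime (Int.gcd x.1 x.2) Q)
    (hPQ : ∀ x ∈ P, ∀ y ∈ P, (Q : ℤ) ∣ x.1 - y.1 ∧ (Q : ℤ) ∣ x.2 - y.2) (w : ℕ → ℝ)
    (hw : ∀ f, 0 ≤ w f) :
    ∑ x ∈ P, w (Int.gcd x.1 x.2) * (1 / |(x.1 : ℝ)|) ≤
      ∑ f ∈ Icc 1 ⌊α⌋₊, w f * (4 * ρ * α / (f ^ 2 * Q ^ 2) + 2 * ρ / (f * Q) +
        2 / f * (1 + Real.log α)) ∧
    ∑ x ∈ P, w (Int.gcd x.1 x.2) ≤
      ∑ f ∈ Icc 1 ⌊α⌋₊, w f * (4 * ρ * α ^ 2 / f ^ 2 + 2 * α / f) := by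
  have hα0 : 0 < α := by linarith
  have hlog : 0 ≤ Real.log α := Real.log_nonneg hα
  have hmap : ∀ x ∈ P, Int.gcd x.1 x.2 ∈ Icc 1 ⌊α⌋₊ := by
    intro x hx
    obtain ⟨h1, h2, -⟩ := h x hx
    rw [mem_Icc]
    refine ⟨Int.gcd_pos_of_ne_zero_left _ h1, ?_⟩
    apply Nat.le_floor
    refine le_trans ?_ h2
    have h3 := Int.le_of_dvd (abs_pos.2 h1) ((dvd_abs _ _).2 (Int.gcd_dvd_left x.1 x.2))
    have h4 : (((Int.gcd x.1 x.2 : ℕ) : ℤ) : ℝ) ≤ ((|x.1| : ℤ) : ℝ) := by exact_mod_cast h3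
    push_cast at h4
    exact h4
  have hQ0 : (0 : ℝ) < Q := by exact_mod_cast hQ
  have hfib : ∀ f ∈ Icc 1 ⌊α⌋₊,
      ∑ x ∈ P.filter (fun x => Int.gcd x.1 x.2 = f), 1 / |(x.1 : ℝ)| ≤
        4 * ρ * α / (f ^ 2 * Q ^ 2) + 2 * ρ / (f * Q) + 2 / f * (1 + Real.log α) ∧
      ((P.filter fun x => Int.gcd x.1 x.2 = f).card : ℝ) ≤
        4 * ρ * α ^ 2 / f ^ 2 + 2 * α / f := by
    intro f hf
    have hf1 : 0 < f := (mem_Icc.1 hf).1
    have hf0 : (0 : ℝ) < f := by exact_mod_cast hf1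
    by_cases hc : Nat.Coprime f Q
    · refine sl_fib _ hα hρ hQ hf1 hc ?_ ?_
      · intro x hx
        have h1 := mem_filter.1 hx
        obtain ⟨h2, h3, h4, -⟩ := h x h1.1
        refine ⟨h2, h3, h4, ?_, ?_⟩
        · rw [← h1.2]; exact Int.gcd_dvd_left _ _
        · rw [← h1.2]; exact Int.gcd_dvd_right _ _
      · intro x hx y hy
        exact hPQ x (mem_filter.1 hx).1 y (mem_filter.1 hy).1
    · have h1 : P.filter (fun x => Int.gcd x.1 x.2 = f) = ∅ := by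
        rw [filter_eq_empty_iff]
        intro x hx h2
        exact hc (h2 ▸ (h x hx).2.2.2)
      rw [h1, sum_empty, card_empty, Nat.cast_zero]
      constructor <;> positivity
  constructor
  · rw [← sum_fiberwise_of_maps_to hmap]
    refine sum_le_sum fun f hf => ?_
    have h1 : ∑ x ∈ P.filter (fun x => Int.gcd x.1 x.2 = f),
        w (Int.gcd x.1 x.2) * (1 / |(x.1 : ℝ)|) =
        w f * ∑ x ∈ P.filter (fun x => Int.gcd x.1 x.2 = f), 1 / |(x.1 : ℝ)| := by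
      rw [mul_sum]
      exact sum_congr rfl fun x hx => by rw [(mem_filter.1 hx).2]
    rw [h1]
    exact mul_le_mul_of_nonneg_left (hfib f hf).1 (hw f)
  · rw [← sum_fiberwise_of_maps_to hmap]
    refine sum_le_sum fun f hf => ?_
    have h1 : ∑ x ∈ P.filter (fun x => Int.gcd x.1 x.2 = f), w (Int.gcd x.1 x.2) =
        w f * (P.filter fun x => Int.gcd x.1 x.2 = f).card := by
      rw [mul_comm, ← nsmul_eq_mul, ← sum_const]
      exact sum_congr rfl fun x hx => by rw [(mem_filter.1 hx).2]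
    rw [h1]
    exact mul_le_mul_of_nonneg_left (hfib f hf).2 (hw f)

/-! ### elementary sums -/

theorem sum_half (n : ℕ) : ∑ f ∈ Icc 1 n, √(f : ℝ) * (1 / f) ≤ 2 * √(n : ℝ) := by
  induction n with
  | zero => simp
  | succ n ih =>
    rw [sum_Icc_succ_top (by omega)]
    have h1 : (0 : ℝ) < ((n + 1 : ℕ) : ℝ) := by positivity
    have h2 : √((n + 1 : ℕ) : ℝ) * (1 / ((n + 1 : ℕ) : ℝ)) = 1 / √((n + 1 : ℕ) : ℝ) := by
      rw [mul_one_div, Real.sqrt_div_self', one_div]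
      
    rw [h2]
    have h3 : 0 < √((n + 1 : ℕ) : ℝ) := Real.sqrt_pos.2 h1
    have h4 : √(n : ℝ) ^ 2 = n := Real.sq_sqrt (by positivity)
    have h5 : √((n + 1 : ℕ) : ℝ) ^ 2 = n + 1 := by
      rw [Real.sq_sqrt h1.le]; push_cast; ring
    have h6 : 1 / √((n + 1 : ℕ) : ℝ) ≤ 2 * √((n + 1 : ℕ) : ℝ) - 2 * √(n : ℝ) := by
      rw [div_le_iff₀ h3]
      nlinarith [Real.sqrt_nonneg (n : ℝ), sq_nonneg (√((n + 1 : ℕ) : ℝ) - √(n : ℝ))]
    linarith

theorem sum_three_half (n : ℕ) : ∑ f ∈ Icc 1 n, √(f : ℝ) * (1 / (f : ℝ) ^ 2) ≤ 3 := by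
  have key : ∀ m : ℕ, ∑ f ∈ Icc 1 (m + 1), √(f : ℝ) * (1 / (f : ℝ) ^ 2) ≤
      3 - 2 / √((m + 1 : ℕ) : ℝ) := by
    intro m
    induction m with
    | zero =>
      simp
      norm_num
    | succ m ih =>
      rw [sum_Icc_succ_top (by omega)]
      have h1 : (0 : ℝ) < ((m + 1 : ℕ) : ℝ) := by positivity
      have h2 : (0 : ℝ) < ((m + 1 + 1 : ℕ) : ℝ) := by positivity
      obtain ⟨x, hx⟩ : ∃ x : ℝ, x = √((m + 1 : ℕ) : ℝ) := ⟨_, rfl⟩
      obtain ⟨y, hy⟩ : ∃ y : ℝ, y = √((m + 1 + 1 : ℕ) : ℝ) := ⟨_, rfl⟩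
      have hx0 : 0 < x := by rw [hx]; exact Real.sqrt_pos.2 h1
      have hy0 : 0 < y := by rw [hy]; exact Real.sqrt_pos.2 h2
      have hx2 : x ^ 2 = ((m + 1 : ℕ) : ℝ) := by rw [hx]; exact Real.sq_sqrt h1.le
      have hy2 : y ^ 2 = ((m + 1 + 1 : ℕ) : ℝ) := by rw [hy]; exact Real.sq_sqrt h2.le
      have hxy : y ^ 2 = x ^ 2 + 1 := by
        rw [hy2, hx2]
        push_cast
        ring
      rw [← hx] at ih
      rw [← hy, ← hy2]
      have h3 : y * (1 / (y ^ 2) ^ 2) = 1 / y ^ 3 := by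
        field_simp
      rw [h3]
      have h4 : 1 / y ^ 3 ≤ 2 / x - 2 / y := by
        have h5 : x < y := by nlinarith
        have h6 : 2 / x - 2 / y = 2 * (y - x) / (x * y) := by
          field_simp
        rw [h6, div_le_div_iff₀ (by positivity) (by positivity)]
        have h7 : (y - x) * (y + x) = 1 := by nlinarith
        have h8 : 1 * (x * y) ≤ 2 * (y - x) * y ^ 3 := by
          have h9 : 1 ≤ 2 * (y - x) * y := by nlinarith
          have h10 : x ≤ y * y := by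
            have : (1 : ℝ) ≤ y ^ 2 := by nlinarith [sq_nonneg x]
            have : 1 ≤ y := by nlinarith
            nlinarith
          calc 1 * (x * y) ≤ (2 * (y - x) * y) * (y * y) := by
                have h11 : x * y ≤ y * y := by nlinarith
                have h12 : 0 ≤ x * y := by positivity
                nlinarith
            _ = 2 * (y - x) * y ^ 3 := by ring
        linarith
      linarith
  rcases n with _ | m
  · simp
  · refine (key m).trans ?_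
    have : 0 ≤ 2 / √((m + 1 : ℕ) : ℝ) := by positivity
    linarith

theorem sum_sqrt (n : ℕ) : ∑ f ∈ Icc 1 n, √(f : ℝ) ≤ n * √(n : ℝ) := by
  have h1 : ∀ f ∈ Icc 1 n, √(f : ℝ) ≤ √(n : ℝ) := fun f hf => Real.sqrt_le_sqrt (by
    exact_mod_cast (mem_Icc.1 hf).2)
  refine (sum_le_sum h1).trans (le_of_eq ?_)
  rw [sum_const, nsmul_eq_mul, Nat.card_Icc]
  simp

end Pool.Agent.V7H54.A
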