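import Pool.Agent.V7H54.A.Gm
import Pool.Agent.V7H54.A.Sl

/-!
# The points of a quadric of dimension four in a box and a residue class: one of the two regions
-/

set_option autoImplicit false
set_option linter.all false

open scoped Real
open Finset

namespace Pool.Agent.V7H54.A

/-- three sums -/
theorem sl3 (P : Finset (ℤ × ℤ)) {α ρ : ℝ} (hα : 1 ≤ α) (hρ : 0 < ρ) {Q : ℕ} (hQ : 1 ≤ Q)
    (h : ∀ x ∈ P, x.1 ≠ 0 ∧ |(x.1 : ℝ)| ≤ α ∧ |(x.2 : ℝ)| ≤ ρ * |(x.1 : ℝ)| ∧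
      Nat.Coprime (Int.gcd x.1 x.2) Q)
    (hPQ : ∀ x ∈ P, ∀ y ∈ P, (Q : ℤ) ∣ x.1 - y.1 ∧ (Q : ℤ) ∣ x.2 - y.2) :
    ∑ x ∈ P, √(Int.gcd x.1 x.2 : ℝ) * (1 / |(x.1 : ℝ)|) ≤
      12 * ρ * α / Q ^ 2 + 4 * (ρ + (1 + Real.log α)) * √α ∧
    ∑ x ∈ P, √(Int.gcd x.1 x.2 : ℝ) * (Int.gcd x.1 x.2 : ℝ) * (1 / |(x.1 : ℝ)|) ≤
      8 * ρ * α * √α + 2 * (ρ + (1 + Real.log α)) * (α * √α) ∧
    ∑ x ∈ P, √(Int.gcd x.1 x.2 : ℝ) ≤ 12 * ρ * α ^ 2 + 4 * (α * √α) := by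
  have hα0 : 0 < α := by linarith
  have hlog : 0 ≤ Real.log α := Real.log_nonneg hα
  have hQ0 : (0 : ℝ) < Q := by exact_mod_cast hQ
  have hQ1 : (1 : ℝ) ≤ Q := by exact_mod_cast hQ
  obtain ⟨n, hn⟩ : ∃ n : ℕ, n = ⌊α⌋₊ := ⟨_, rfl⟩
  have hnα : (n : ℝ) ≤ α := by rw [hn]; exact Nat.floor_le hα0.le
  have hsn : √(n : ℝ) ≤ √α := Real.sqrt_le_sqrt hnα
  have hn0 : (0 : ℝ) ≤ n := by positivity
  have hs0 : 0 ≤ √(n : ℝ) := Real.sqrt_nonneg _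
  have h1 := sum_half n
  have h2 := sum_three_half n
  have h3 := sum_sqrt n
  have h1' : ∑ f ∈ Icc 1 n, √(f : ℝ) * (1 / f) ≤ 2 * √α := by linarith
  have h3' : ∑ f ∈ Icc 1 n, √(f : ℝ) ≤ α * √α := h3.trans (by gcongr)
  have hρQ : 2 * ρ / Q ≤ 2 * ρ := div_le_self (by positivity) hQ1
  obtain ⟨b1, b2⟩ := sl P hα hρ hQ h hPQ (fun f => √(f : ℝ)) (fun f => Real.sqrt_nonneg _)
  obtain ⟨b3, -⟩ := sl P hα hρ hQ h hPQ (fun f => √(f : ℝ) * f) (fun f => by positivity)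
  rw [← hn] at b1 b2 b3
  refine ⟨b1.trans ?_, b3.trans ?_, b2.trans ?_⟩
  · have e1 : ∑ f ∈ Icc 1 n, √(f : ℝ) * (4 * ρ * α / (f ^ 2 * Q ^ 2) + 2 * ρ / (f * Q) +
        2 / f * (1 + Real.log α)) = 4 * ρ * α / Q ^ 2 * ∑ f ∈ Icc 1 n, √(f : ℝ) * (1 / (f : ℝ) ^ 2) +
        (2 * ρ / Q + 2 * (1 + Real.log α)) * ∑ f ∈ Icc 1 n, √(f : ℝ) * (1 / f) := by
      rw [mul_sum, mul_sum, ← sum_add_distrib]
      refine sum_congr rfl fun f hf => ?_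
      have hf0 : (0 : ℝ) < f := by exact_mod_cast (mem_Icc.1 hf).1
      field_simp
      ring
    rw [e1]
    have e2 : 4 * ρ * α / Q ^ 2 * ∑ f ∈ Icc 1 n, √(f : ℝ) * (1 / (f : ℝ) ^ 2) ≤
        4 * ρ * α / Q ^ 2 * 3 := by gcongr
    have e3 : (2 * ρ / Q + 2 * (1 + Real.log α)) * ∑ f ∈ Icc 1 n, √(f : ℝ) * (1 / f) ≤
        (2 * ρ + 2 * (1 + Real.log α)) * (2 * √α) := by
      refine mul_le_mul (by linarith) h1' (sum_nonneg fun f _ => by positivity) (by positivity)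
    calc _ ≤ 4 * ρ * α / Q ^ 2 * 3 + (2 * ρ + 2 * (1 + Real.log α)) * (2 * √α) := add_le_add e2 e3
      _ = _ := by ring
  · have e1 : ∑ f ∈ Icc 1 n, √(f : ℝ) * f * (4 * ρ * α / (f ^ 2 * Q ^ 2) + 2 * ρ / (f * Q) +
        2 / f * (1 + Real.log α)) = 4 * ρ * α / Q ^ 2 * ∑ f ∈ Icc 1 n, √(f : ℝ) * (1 / f) +
        (2 * ρ / Q + 2 * (1 + Real.log α)) * ∑ f ∈ Icc 1 n, √(f : ℝ) := by
      rw [mul_sum, mul_sum, ← sum_add_distrib]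
      refine sum_congr rfl fun f hf => ?_
      have hf0 : (0 : ℝ) < f := by exact_mod_cast (mem_Icc.1 hf).1
      field_simp
      ring
    rw [e1]
    have e2 : 4 * ρ * α / Q ^ 2 * ∑ f ∈ Icc 1 n, √(f : ℝ) * (1 / f) ≤ 4 * ρ * α * (2 * √α) := by
      refine mul_le_mul ?_ h1' (sum_nonneg fun f _ => by positivity) (by positivity)
      exact div_le_self (by positivity) (one_le_pow₀ hQ1)
    have e3 : (2 * ρ / Q + 2 * (1 + Real.log α)) * ∑ f ∈ Icc 1 n, √(f : ℝ) ≤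
        (2 * ρ + 2 * (1 + Real.log α)) * (α * √α) := by
      refine mul_le_mul (by linarith) h3' (sum_nonneg fun f _ => by positivity) (by positivity)
    calc _ ≤ 4 * ρ * α * (2 * √α) + (2 * ρ + 2 * (1 + Real.log α)) * (α * √α) := add_le_add e2 e3
      _ = _ := by ring
  · have e1 : ∑ f ∈ Icc 1 n, √(f : ℝ) * (4 * ρ * α ^ 2 / f ^ 2 + 2 * α / f) =
        4 * ρ * α ^ 2 * ∑ f ∈ Icc 1 n, √(f : ℝ) * (1 / (f : ℝ) ^ 2) +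
        2 * α * ∑ f ∈ Icc 1 n, √(f : ℝ) * (1 / f) := by
      rw [mul_sum, mul_sum, ← sum_add_distrib]
      refine sum_congr rfl fun f hf => ?_
      have hf0 : (0 : ℝ) < f := by exact_mod_cast (mem_Icc.1 hf).1
      field_simp
    rw [e1]
    have e2 : 4 * ρ * α ^ 2 * ∑ f ∈ Icc 1 n, √(f : ℝ) * (1 / (f : ℝ) ^ 2) ≤ 4 * ρ * α ^ 2 * 3 := by
      gcongr
    have e3 : 2 * α * ∑ f ∈ Icc 1 n, √(f : ℝ) * (1 / f) ≤ 2 * α * (2 * √α) := by gcongr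
    calc _ ≤ 4 * ρ * α ^ 2 * 3 + 2 * α * (2 * √α) := add_le_add e2 e3
      _ = _ := by ring

/-- `(a, b, c, y, z)` with `p₁ a z + p₂ b y + p₃ c² = M` and `|b| ≤ ρ |a|` -/
theorem reg {p₁ p₂ p₃ M : ℤ} (hp₁ : p₁ ≠ 0) (hp₂ : p₂ ≠ 0) (hp₃ : p₃ ≠ 0) (hM : M ≠ 0) {Q : ℕ}
    (hQ : 1 ≤ Q) (hpQ : Nat.Coprime (p₁ * p₂).natAbs Q) {C X γ Y α ρ : ℝ} (hC : 1 ≤ C)
    (hX : 1 ≤ X) (hγ0 : 0 ≤ γ) (hγ : γ ≤ C * X) (hα : 1 ≤ α) (hρ : 0 < ρ)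
    (hαX : |(p₁ : ℝ)| * α ≤ C * X) (hY : X ≤ Y) (T : Finset (ℤ × ℤ × ℤ × ℤ × ℤ))
    (hT : ∀ t ∈ T, t.1 ≠ 0 ∧ |(t.1 : ℝ)| ≤ α ∧ |(t.2.1 : ℝ)| ≤ ρ * |(t.1 : ℝ)| ∧
      |(t.2.2.1 : ℝ)| ≤ γ ∧ |(t.2.2.2.1 : ℝ)| ≤ Y ∧ Nat.Coprime (Int.gcd t.1 t.2.1) Q ∧
      p₁ * t.1 * t.2.2.2.2 + p₂ * t.2.1 * t.2.2.2.1 + p₃ * t.2.2.1 ^ 2 = M)
    (hTQ : ∀ t ∈ T, ∀ t' ∈ T, (Q : ℤ) ∣ t.1 - t'.1 ∧ (Q : ℤ) ∣ t.2.1 - t'.2.1 ∧
      (Q : ℤ) ∣ t.2.2.1 - t'.2.2.1 ∧ (Q : ℤ) ∣ t.2.2.2.1 - t'.2.2.2.1 ∧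
      (Q : ℤ) ∣ t.2.2.2.2 - t'.2.2.2.2) :
    (T.card : ℝ) ≤ 2 * (4 * |(p₃ : ℝ)| * |(M : ℝ)| + 1) * |((p₁ * p₂ : ℤ) : ℝ)| *
      (128 * γ * Y / Q ^ 2 * (12 * ρ * α / Q ^ 2 + 4 * (ρ + (1 + Real.log α)) * √α) +
       64 * |((p₁ * p₂ : ℤ) : ℝ)| * Y * (8 * ρ * α * √α + 2 * (ρ + (1 + Real.log α)) * (α * √α)) +
       2 * EE C X Q p₃ * (12 * ρ * α ^ 2 + 4 * (α * √α))) := by
  have hX0 : 0 < X := by linarith
  have hY0 : 0 < Y := by linarith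
  have hα0 : 0 < α := by linarith
  have hlog : 0 ≤ Real.log α := Real.log_nonneg hα
  have hQ0 : (0 : ℝ) < Q := by exact_mod_cast hQ
  have hQ1 : (1 : ℝ) ≤ Q := by exact_mod_cast hQ
  have hEE0 : 0 ≤ EE C X Q p₃ := Real.sqrt_nonneg _
  obtain ⟨K, hK⟩ : ∃ K : ℝ, K = 2 * (4 * |(p₃ : ℝ)| * |(M : ℝ)| + 1) := ⟨_, rfl⟩
  have hK0 : 0 ≤ K := by rw [hK]; positivity
  obtain ⟨c₀, hc₀⟩ : ∃ c₀ : ℝ, c₀ = |((p₁ * p₂ : ℤ) : ℝ)| := ⟨_, rfl⟩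
  have hp12 : p₁ * p₂ ≠ 0 := mul_ne_zero hp₁ hp₂
  have hc₀1 : 1 ≤ c₀ := by
    rw [hc₀, ← Int.cast_abs]
    exact_mod_cast Int.one_le_abs hp12
  rw [← hK, ← hc₀]
  obtain ⟨P, hP⟩ : ∃ P : Finset (ℤ × ℤ), P = T.image fun t => (t.1, t.2.1) := ⟨_, rfl⟩
  have hPm : ∀ x ∈ P, ∃ t ∈ T, (t.1, t.2.1) = x := by
    intro x hx
    rw [hP] at hx
    exact mem_image.1 hx
  have hmap : ∀ t ∈ T, (t.1, t.2.1) ∈ P := fun t ht => by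
    rw [hP]
    exact mem_image_of_mem (fun t : ℤ × ℤ × ℤ × ℤ × ℤ => (t.1, t.2.1)) ht
  obtain ⟨s1, s2, s3⟩ := sl3 P hα hρ hQ (by
      intro x hx
      obtain ⟨t, ht, rfl⟩ := hPm x hx
      obtain ⟨h1, h2, h3, -, -, h4, -⟩ := hT t ht
      exact ⟨h1, h2, h3, h4⟩) (by
      intro x hx y hy
      obtain ⟨t, ht, rfl⟩ := hPm x hx
      obtain ⟨t', ht', rfl⟩ := hPm y hy
      obtain ⟨h1, h2, -⟩ := hTQ t ht t' ht'
      exact ⟨h1, h2⟩)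
  -- for each pair
  have hfib : ∀ x ∈ P, ((T.filter fun t => (t.1, t.2.1) = x).card : ℝ) ≤
      K * c₀ * (128 * γ * Y / Q ^ 2 * (√(Int.gcd x.1 x.2 : ℝ) * (1 / |(x.1 : ℝ)|)) +
        64 * c₀ * Y * (√(Int.gcd x.1 x.2 : ℝ) * (Int.gcd x.1 x.2 : ℝ) * (1 / |(x.1 : ℝ)|)) +
        2 * EE C X Q p₃ * √(Int.gcd x.1 x.2 : ℝ)) := by
    intro x hx
    obtain ⟨t₀, ht₀, hx0⟩ := hPm x hx
    have hx1 : x.1 = t₀.1 := by rw [← hx0]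
    have hx2 : x.2 = t₀.2.1 := by rw [← hx0]
    obtain ⟨a1, a2, a3, -, -, a4, -⟩ := hT t₀ ht₀
    rw [← hx1] at a1 a2 a3 a4
    rw [← hx2] at a3 a4
    have ha0 : 0 < |(x.1 : ℝ)| := abs_pos.2 (by exact_mod_cast a1)
    have hu : p₁ * x.1 ≠ 0 := mul_ne_zero hp₁ a1
    obtain ⟨G, hG⟩ : ∃ G : ℕ, G = Int.gcd x.1 x.2 := ⟨_, rfl⟩
    rw [← hG] at a4 ⊢
    have hGpos : 0 < G := by rw [hG]; exact Int.gcd_pos_of_ne_zero_left _ a1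
    have hG0 : (0 : ℝ) < G := by exact_mod_cast hGpos
    obtain ⟨g, hg⟩ : ∃ g : ℕ, g = Int.gcd (p₁ * x.1) (p₂ * x.2) := ⟨_, rfl⟩
    have hgpos : 0 < g := by rw [hg]; exact Int.gcd_pos_of_ne_zero_left _ hu
    have hg0 : (0 : ℝ) < g := by exact_mod_cast hgpos
    have hgd : g ∣ (p₁ * p₂).natAbs * G := by
      have h1 : (g : ℤ) ∣ p₁ * p₂ * x.1 := by
        have : (g : ℤ) ∣ p₁ * x.1 := by rw [hg]; exact Int.gcd_dvd_left _ _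
        have e : p₁ * p₂ * x.1 = p₂ * (p₁ * x.1) := by ring
        rw [e]
        exact Dvd.dvd.mul_left this _
      have h2 : (g : ℤ) ∣ p₁ * p₂ * x.2 := by
        have : (g : ℤ) ∣ p₂ * x.2 := by rw [hg]; exact Int.gcd_dvd_right _ _
        have e : p₁ * p₂ * x.2 = p₁ * (p₂ * x.2) := by ring
        rw [e]
        exact Dvd.dvd.mul_left this _
      have h3 := Int.dvd_gcd h1 h2
      rw [Int.gcd_mul_left, ← hG] at h3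
      exact h3
    have hgQ : Nat.Coprime g Q := Nat.Coprime.coprime_dvd_left hgd (hpQ.mul_left a4)
    have hgle : (g : ℝ) ≤ c₀ * G := by
      have h1 := Nat.le_of_dvd (by have := Int.natAbs_pos.2 hp12; positivity) hgd
      have h2 : (g : ℝ) ≤ (((p₁ * p₂).natAbs * G : ℕ) : ℝ) := by exact_mod_cast h1
      rw [Nat.cast_mul, Nat.cast_natAbs, Int.cast_abs] at h2
      rw [hc₀]
      exact h2
    have hcard : ((T.filter fun t => (t.1, t.2.1) = x).card : ℝ) =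
        (((T.filter fun t => (t.1, t.2.1) = x).image fun t => t.2.2).card : ℝ) := by
      rw [card_image_of_injOn]
      intro t ht t' ht' h1
      have h2 := (mem_filter.1 (mem_coe.1 ht)).2
      have h3 := (mem_filter.1 (mem_coe.1 ht')).2
      have h4 := h2.trans h3.symm
      simp only [Prod.mk.injEq] at h4
      exact Prod.ext h4.1 (Prod.ext h4.2 h1)
    have hgl := gl (u := p₁ * x.1) (s := p₂ * x.2) (p := p₃) (M := M) hu hp₃ hM hg hQ hgQ hC hX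
      hγ0 hγ (by
        push_cast
        rw [abs_mul]
        refine le_trans ?_ hαX
        gcongr) hY ((T.filter fun t => (t.1, t.2.1) = x).image fun t => t.2.2) (by
        intro y hy
        obtain ⟨t, ht, rfl⟩ := mem_image.1 hy
        have h1 := mem_filter.1 ht
        obtain ⟨-, -, -, b1, b2, -, b3⟩ := hT t h1.1
        refine ⟨b1, b2, ?_⟩
        have h2 : t.1 = x.1 := by rw [← h1.2]
        have h3 : t.2.1 = x.2 := by rw [← h1.2]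
        rw [← h2, ← h3]
        linarith) (by
        intro y hy y' hy'
        obtain ⟨t, ht, rfl⟩ := mem_image.1 hy
        obtain ⟨t', ht', rfl⟩ := mem_image.1 hy'
        obtain ⟨-, -, b1, b2, b3⟩ := hTQ t (mem_filter.1 ht).1 t' (mem_filter.1 ht').1
        exact ⟨b1, b2, b3⟩)
    rw [hcard]
    refine hgl.trans ?_
    rw [← hK]
    have hsg : √(g : ℝ) ≤ c₀ * √(G : ℝ) := by
      have h1 : √(g : ℝ) ≤ √(c₀ * G) := Real.sqrt_le_sqrt hgle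
      rw [Real.sqrt_mul (by linarith)] at h1
      have h2 : √c₀ ≤ c₀ := by
        rw [Real.sqrt_le_left (by linarith)]
        nlinarith
      exact h1.trans (mul_le_mul_of_nonneg_right h2 (Real.sqrt_nonneg _))
    have hp₁1 : 1 ≤ |(p₁ : ℝ)| := by
      rw [← Int.cast_abs]
      exact_mod_cast Int.one_le_abs hp₁
    have hin : 64 * (2 * γ / (g * Q) + 1) * (Y * g / (Q * |((p₁ * x.1 : ℤ) : ℝ)|)) ≤
        128 * γ * Y / Q ^ 2 * (1 / |(x.1 : ℝ)|) + 64 * c₀ * Y * (G * (1 / |(x.1 : ℝ)|)) := by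
      have e1 : 64 * (2 * γ / (g * Q) + 1) * (Y * g / (Q * |((p₁ * x.1 : ℤ) : ℝ)|)) =
          (128 * γ * Y / Q ^ 2 + 64 * Y * g / Q) * (1 / |((p₁ * x.1 : ℤ) : ℝ)|) := by
        have : 0 < |((p₁ * x.1 : ℤ) : ℝ)| := abs_pos.2 (by exact_mod_cast hu)
        field_simp
        ring
      have e2 : 1 / |((p₁ * x.1 : ℤ) : ℝ)| ≤ 1 / |(x.1 : ℝ)| := by
        apply one_div_le_one_div_of_le ha0
        push_cast
        rw [abs_mul]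
        nlinarith
      have e3 : 64 * Y * g / Q ≤ 64 * c₀ * Y * G := by
        calc 64 * Y * g / Q ≤ 64 * Y * g := div_le_self (by positivity) hQ1
          _ ≤ 64 * Y * (c₀ * G) := by gcongr
          _ = _ := by ring
      rw [e1]
      calc (128 * γ * Y / Q ^ 2 + 64 * Y * g / Q) * (1 / |((p₁ * x.1 : ℤ) : ℝ)|) ≤
          (128 * γ * Y / Q ^ 2 + 64 * c₀ * Y * G) * (1 / |(x.1 : ℝ)|) := by gcongr
        _ = _ := by ring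
    have hin0 : 0 ≤ 64 * (2 * γ / (g * Q) + 1) * (Y * g / (Q * |((p₁ * x.1 : ℤ) : ℝ)|)) := by
      positivity
    calc K * √(g : ℝ) * (64 * (2 * γ / (g * Q) + 1) * (Y * g / (Q * |((p₁ * x.1 : ℤ) : ℝ)|)) +
          2 * EE C X Q p₃)
        ≤ K * (c₀ * √(G : ℝ)) * (128 * γ * Y / Q ^ 2 * (1 / |(x.1 : ℝ)|) +
          64 * c₀ * Y * (G * (1 / |(x.1 : ℝ)|)) + 2 * EE C X Q p₃) := by gcongr
      _ = _ := by ring
  rw [card_eq_sum_card_fiberwise hmap]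
  push_cast
  refine (sum_le_sum hfib).trans ?_
  rw [← mul_sum]
  refine mul_le_mul_of_nonneg_left ?_ (by positivity)
  rw [sum_add_distrib, sum_add_distrib, ← mul_sum, ← mul_sum, ← mul_sum]
  gcongr

end Pool.Agent.V7H54.A
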