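import Pool.Agent.V7H54.A.Fj

/-!
# The number of solutions of a quadratic congruence
-/

set_option autoImplicit false
set_option linter.all false

open scoped Real
open Finset

namespace Pool.Agent.V7H54.A

theorem card_divisors_le_two_sqrt (n : ℕ) : (n.divisors.card : ℝ) ≤ 2 * Real.sqrt n := by
  have h1 : n.divisors ⊆ (Finset.Icc 1 (Nat.sqrt n)) ∪ (Finset.Icc 1 (Nat.sqrt n)).image (fun d => n / d) := by
    intro d hd
    rw [Nat.mem_divisors] at hd
    obtain ⟨⟨e, he⟩, hn⟩ := hd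
    have hd0 : 0 < d := Nat.pos_of_ne_zero (by rintro rfl; simp at he; exact hn he)
    have he0 : 0 < e := Nat.pos_of_ne_zero (by rintro rfl; simp at he; exact hn he)
    rw [Finset.mem_union]
    by_cases h : d ≤ Nat.sqrt n
    · left; rw [Finset.mem_Icc]; exact ⟨hd0, h⟩
    · right
      rw [Finset.mem_image]
      refine ⟨e, ?_, ?_⟩
      · rw [Finset.mem_Icc]
        refine ⟨he0, ?_⟩
        by_contra h2
        have h3 : Nat.sqrt n + 1 ≤ d := by omega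
        have h4 : Nat.sqrt n + 1 ≤ e := by omega
        have h5 : (Nat.sqrt n + 1) * (Nat.sqrt n + 1) ≤ d * e := Nat.mul_le_mul h3 h4
        have h6 := Nat.lt_succ_sqrt n
        rw [← he] at h5
        simp only [Nat.succ_eq_add_one] at h6
        omega
      · rw [he]; exact Nat.mul_div_cancel d he0
  have h2 : n.divisors.card ≤ Nat.sqrt n + Nat.sqrt n := by
    calc n.divisors.card ≤ _ := Finset.card_le_card h1
      _ ≤ (Finset.Icc 1 (Nat.sqrt n)).card + ((Finset.Icc 1 (Nat.sqrt n)).image (fun d => n / d)).card :=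
          Finset.card_union_le _ _
      _ ≤ Nat.sqrt n + Nat.sqrt n := by
          have := Finset.card_image_le (s := Finset.Icc 1 (Nat.sqrt n)) (f := fun d => n / d)
          simp at this ⊢
          omega
  have h3 : ((Nat.sqrt n : ℕ) : ℝ) ≤ Real.sqrt n := Real.nat_sqrt_le_real_sqrt
  have h4 : (n.divisors.card : ℝ) ≤ Nat.sqrt n + Nat.sqrt n := by exact_mod_cast h2
  linarith

/-- one divisor -/
theorem roots_fib {p M c₀ : ℤ} {g h : ℕ} (hp : p ≠ 0) (hM : M ≠ 0) (hg : 0 < g) (hh : h ∣ g)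
    (h0 : (g : ℤ) ∣ p * c₀ ^ 2 - M) (s : Finset ℤ) (h1 : ∀ c ∈ s, 0 ≤ c ∧ c < g)
    (h2 : ∀ c ∈ s, Int.gcd g (p * (c - c₀)) = h ∧ (g : ℤ) ∣ p * c ^ 2 - M) :
    (s.card : ℝ) ≤ 4 * |(p : ℝ)| * |(M : ℝ)| + 1 := by
  have hg0 : (0 : ℝ) < g := by exact_mod_cast hg
  have hp0 : 0 < |(p : ℝ)| := abs_pos.2 (by exact_mod_cast hp)
  have hM0 : 0 < |(M : ℝ)| := abs_pos.2 (by exact_mod_cast hM)
  rcases s.eq_empty_or_nonempty with rfl | ⟨c₁, hc₁⟩
  · simp only [card_empty, Nat.cast_zero]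
    positivity
  have hhpos : 0 < h := Nat.pos_of_dvd_of_pos hh hg
  obtain ⟨k, hk⟩ := hh
  have hkpos : 0 < k := Nat.pos_of_mul_pos_left (by rw [← hk]; exact hg) |> fun h => by
    rcases Nat.eq_zero_or_pos k with h0' | h0'
    · rw [h0', mul_zero] at hk
      omega
    · exact h0'
  -- the two moduli
  obtain ⟨d, hd⟩ : ∃ d : ℕ, d = Int.gcd h p := ⟨_, rfl⟩
  have hdpos : 0 < d := by
    rw [hd]
    exact Int.gcd_pos_of_ne_zero_right _ hp
  obtain ⟨h₁, hh₁⟩ : (d : ℤ) ∣ h := by rw [hd]; exact Int.gcd_dvd_left _ _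
  obtain ⟨p₁, hp₁⟩ : (d : ℤ) ∣ p := by rw [hd]; exact Int.gcd_dvd_right _ _
  have hd0 : (d : ℤ) ≠ 0 := by exact_mod_cast hdpos.ne'
  have hh₁pos : 0 < h₁ := by
    have h3 : (0 : ℤ) < d * h₁ := by rw [← hh₁]; exact_mod_cast hhpos
    exact pos_of_mul_pos_right h3 (by positivity)
  have hcop : IsCoprime h₁ p₁ := by
    have h3 : Int.gcd h p = d * Int.gcd h₁ p₁ := by
      rw [hh₁]
      conv_lhs => rw [hp₁]
      rw [Int.gcd_mul_left, Int.natAbs_natCast]
    rw [← hd] at h3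
    have h4 : Int.gcd h₁ p₁ = 1 := by
      have : d * 1 = d * Int.gcd h₁ p₁ := by omega
      exact (Nat.eq_of_mul_eq_mul_left hdpos this).symm
    exact Int.isCoprime_iff_gcd_eq_one.2 h4
  have hA : ∀ c ∈ s, h₁ ∣ c - c₀ := by
    intro c hc
    have h3 : (h : ℤ) ∣ p * (c - c₀) := by
      rw [← (h2 c hc).1]
      exact Int.gcd_dvd_right _ _
    rw [hh₁, hp₁, mul_assoc] at h3
    have h4 := Int.dvd_of_mul_dvd_mul_left hd0 h3
    exact hcop.dvd_of_dvd_mul_left h4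
  have hB : ∀ c ∈ s, (k : ℤ) ∣ c + c₀ := by
    intro c hc
    have h3 : (g : ℤ) ∣ p * (c - c₀) * (c + c₀) := by
      have h4 := dvd_sub (h2 c hc).2 h0
      have e : p * c ^ 2 - M - (p * c₀ ^ 2 - M) = p * (c - c₀) * (c + c₀) := by ring
      rwa [e] at h4
    obtain ⟨t, ht⟩ : (h : ℤ) ∣ p * (c - c₀) := by
      rw [← (h2 c hc).1]
      exact Int.gcd_dvd_right _ _
    have hgz : (g : ℤ) = h * k := by rw [hk]; push_cast; ring
    have hh0 : (h : ℤ) ≠ 0 := by exact_mod_cast hhpos.ne'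
    have h5 : IsCoprime (k : ℤ) t := by
      have h6 : Int.gcd g (p * (c - c₀)) = h * Int.gcd k t := by
        rw [ht, hgz, Int.gcd_mul_left, Int.natAbs_natCast]
      rw [(h2 c hc).1] at h6
      have h7 : Int.gcd k t = 1 := by
        have : h * 1 = h * Int.gcd k t := by omega
        exact (Nat.eq_of_mul_eq_mul_left hhpos this).symm
      exact Int.isCoprime_iff_gcd_eq_one.2 h7
    rw [ht, hgz, mul_assoc] at h3
    exact h5.dvd_of_dvd_mul_left (Int.dvd_of_mul_dvd_mul_left hh0 h3)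
  -- the gcd of the two moduli
  obtain ⟨e, he⟩ : ∃ e : ℕ, e = Int.gcd h₁ k := ⟨_, rfl⟩
  have hepos : 0 < e := by
    rw [he]
    exact Int.gcd_pos_of_ne_zero_left _ hh₁pos.ne'
  have he1 : (e : ℤ) ∣ h₁ := by rw [he]; exact Int.gcd_dvd_left _ _
  have he2 : (e : ℤ) ∣ k := by rw [he]; exact Int.gcd_dvd_right _ _
  have he3 : (e : ℤ) ∣ 4 * M := by
    have h3 : (e : ℤ) ∣ 2 * c₀ := by
      have h4 := dvd_sub (he2.trans (hB c₁ hc₁)) (he1.trans (hA c₁ hc₁))
      have e' : c₁ + c₀ - (c₁ - c₀) = 2 * c₀ := by ring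
      rwa [e'] at h4
    have h4 : (e : ℤ) ∣ p * c₀ ^ 2 - M := by
      refine dvd_trans ?_ h0
      refine he2.trans ?_
      exact ⟨h, by rw [hk]; push_cast; ring⟩
    have h5 : 4 * M = p * (2 * c₀) * (2 * c₀) - 4 * (p * c₀ ^ 2 - M) := by ring
    rw [h5]
    exact dvd_sub (Dvd.dvd.mul_left h3 _) (Dvd.dvd.mul_left h4 _)
  have he4 : (e : ℝ) ≤ 4 * |(M : ℝ)| := by
    have h3 := Int.le_of_dvd (by positivity : (0 : ℤ) < |4 * M|) ((dvd_abs _ _).2 he3)
    rw [abs_mul] at h3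
    have h4 : ((e : ℤ) : ℝ) ≤ ((|4| * |M| : ℤ) : ℝ) := by exact_mod_cast h3
    push_cast at h4
    rw [abs_of_pos (by norm_num : (0 : ℝ) < 4)] at h4
    exact h4
  -- the lcm
  obtain ⟨a, ha⟩ := he1
  obtain ⟨b, hb⟩ := he2
  have he0 : (e : ℤ) ≠ 0 := by exact_mod_cast hepos.ne'
  have hapos : 0 < a := by
    have h3 : (0 : ℤ) < e * a := by rw [← ha]; exact hh₁pos
    exact pos_of_mul_pos_right h3 (by positivity)
  have hbpos : 0 < b := by
    have h3 : (0 : ℤ) < e * b := by rw [← hb]; exact_mod_cast hkpos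
    exact pos_of_mul_pos_right h3 (by positivity)
  have hab : IsCoprime a b := by
    have h3 : Int.gcd h₁ k = e * Int.gcd a b := by
      rw [ha, hb, Int.gcd_mul_left, Int.natAbs_natCast]
    rw [← he] at h3
    have h4 : Int.gcd a b = 1 := by
      have : e * 1 = e * Int.gcd a b := by omega
      exact (Nat.eq_of_mul_eq_mul_left hepos this).symm
    exact Int.isCoprime_iff_gcd_eq_one.2 h4
  have hLpos : 0 < e * a * b := by positivity
  have hdvd : ∀ x ∈ s, ∀ y ∈ s, (e * a * b : ℤ) ∣ x - y := by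
    intro x hx y hy
    have h3 : (e * a : ℤ) ∣ x - y := by
      rw [← ha]
      have h4 := dvd_sub (hA x hx) (hA y hy)
      have e' : x - c₀ - (y - c₀) = x - y := by ring
      rwa [e'] at h4
    have h5 : (e * b : ℤ) ∣ x - y := by
      rw [← hb]
      have h4 := dvd_sub (hB x hx) (hB y hy)
      have e' : x + c₀ - (y + c₀) = x - y := by ring
      rwa [e'] at h4
    obtain ⟨z, hz⟩ : (e : ℤ) ∣ x - y := (dvd_mul_right _ _).trans h3
    rw [hz] at h3 h5 ⊢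
    rw [mul_assoc]
    exact mul_dvd_mul_left _ (hab.mul_dvd (Int.dvd_of_mul_dvd_mul_left he0 h3)
      (Int.dvd_of_mul_dvd_mul_left he0 h5))
  have h3 := card_cong s (e * a * b) hLpos 0 g hg0.le (fun x hx => ⟨by exact_mod_cast (h1 x hx).1,
    by exact_mod_cast (h1 x hx).2.le⟩) hdvd
  refine h3.trans ?_
  rw [sub_zero]
  have h4 : (g : ℝ) = d * e * ((e * a * b : ℤ) : ℝ) := by
    have h5 : (g : ℤ) = d * e * (e * a * b) := by
      rw [hk]
      push_cast
      rw [hh₁, ha]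
      conv_lhs => rw [hb]
      ring
    have := congrArg (Int.cast (R := ℝ)) h5
    push_cast at this ⊢
    exact this
  have h5 : (0 : ℝ) < ((e * a * b : ℤ) : ℝ) := by exact_mod_cast hLpos
  have h6 : (g : ℝ) / ((e * a * b : ℤ) : ℝ) = d * e := by
    rw [h4]
    field_simp
  rw [h6]
  have h7 : (d : ℝ) ≤ |(p : ℝ)| := by
    have h8 := Int.le_of_dvd (abs_pos.2 hp) ((dvd_abs _ _).2 (show (d : ℤ) ∣ p by
      rw [hd]; exact Int.gcd_dvd_right _ _))
    have h9 : ((d : ℤ) : ℝ) ≤ ((|p| : ℤ) : ℝ) := by exact_mod_cast h8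
    push_cast at h9
    exact h9
  have h8 : (d : ℝ) * e ≤ |(p : ℝ)| * (4 * |(M : ℝ)|) :=
    mul_le_mul h7 he4 (by positivity) hp0.le
  linarith

theorem roots {p M : ℤ} {g : ℕ} (hp : p ≠ 0) (hM : M ≠ 0) (hg : 0 < g) (s : Finset ℤ)
    (h1 : ∀ c ∈ s, 0 ≤ c ∧ c < g) (h2 : ∀ c ∈ s, (g : ℤ) ∣ p * c ^ 2 - M) :
    (s.card : ℝ) ≤ 2 * (4 * |(p : ℝ)| * |(M : ℝ)| + 1) * √g := by
  rcases s.eq_empty_or_nonempty with rfl | ⟨c₀, hc₀⟩
  · simp only [card_empty, Nat.cast_zero]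
    positivity
  have hmap : ∀ c ∈ s, Int.gcd g (p * (c - c₀)) ∈ g.divisors := by
    intro c _
    rw [Nat.mem_divisors]
    refine ⟨?_, hg.ne'⟩
    have := Int.gcd_dvd_left (g : ℤ) (p * (c - c₀))
    exact_mod_cast this
  rw [card_eq_sum_card_fiberwise hmap]
  push_cast
  have h3 : ∀ h ∈ g.divisors, ((s.filter fun c => Int.gcd g (p * (c - c₀)) = h).card : ℝ) ≤
      4 * |(p : ℝ)| * |(M : ℝ)| + 1 := by
    intro h hh
    refine roots_fib (g := g) (h := h) hp hM hg (Nat.dvd_of_mem_divisors hh) (h2 c₀ hc₀) _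
      (fun c hc => h1 c (mem_filter.1 hc).1) (fun c hc => ⟨(mem_filter.1 hc).2,
        h2 c (mem_filter.1 hc).1⟩)
  refine (sum_le_sum h3).trans ?_
  rw [sum_const, nsmul_eq_mul]
  have h4 := card_divisors_le_two_sqrt g
  have h5 : (0 : ℝ) ≤ 4 * |(p : ℝ)| * |(M : ℝ)| + 1 := by positivity
  nlinarith

end Pool.Agent.V7H54.A
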