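import Mathlib

/-!
# Quadratic exponential sums
-/

set_option autoImplicit false
set_option linter.all false

open scoped Real
open Finset

namespace Pool.Agent.V7H54.A

/-- `e(t) = exp (2 π i t)` -/
noncomputable def ex (t : ℝ) : ℂ := Complex.exp (Complex.I * (2 * π * t : ℝ))

theorem ex_add (s t : ℝ) : ex (s + t) = ex s * ex t := by
  unfold ex
  rw [← Complex.exp_add]
  congr 1
  push_cast
  ring

theorem ex_norm (t : ℝ) : ‖ex t‖ = 1 := by
  unfold ex
  rw [mul_comm]
  exact Complex.norm_exp_ofReal_mul_I _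

theorem ex_zero : ex 0 = 1 := by
  unfold ex
  simp

theorem ex_conj (t : ℝ) : (starRingEnd ℂ) (ex t) = ex (-t) := by
  unfold ex
  rw [← Complex.exp_conj]
  congr 1
  rw [map_mul, Complex.conj_I, Complex.conj_ofReal]
  push_cast
  ring

theorem ex_int (n : ℤ) : ex n = 1 := by
  unfold ex
  rw [Complex.exp_eq_one_iff]
  exact ⟨n, by push_cast; ring⟩

theorem ex_add_int (t : ℝ) (n : ℤ) : ex (t + n) = ex t := by
  rw [ex_add, ex_int, mul_one]

/-- the distance to one -/
theorem ex_sub_one (t : ℝ) : ‖ex t - 1‖ = 2 * |Real.sin (π * t)| := by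
  unfold ex
  rw [Complex.norm_exp_I_mul_ofReal_sub_one, norm_mul, Real.norm_eq_abs, Real.norm_eq_abs,
    abs_of_pos (by norm_num : (0 : ℝ) < 2)]
  congr 3
  ring

theorem ex_sub_one_ge (t : ℝ) (ht : |t| ≤ 1 / 2) : 4 * |t| ≤ ‖ex t - 1‖ := by
  have h1 : |Real.sin (π * t)| = Real.sin (π * |t|) := by
    rcases le_total 0 t with h | h
    · rw [abs_of_nonneg h, abs_of_nonneg]
      refine Real.sin_nonneg_of_nonneg_of_le_pi (by positivity) ?_
      rw [abs_of_nonneg h] at ht
      nlinarith [Real.pi_pos]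
    · rw [abs_of_nonpos h, mul_neg, Real.sin_neg, abs_of_nonpos]
      rw [abs_of_nonpos h] at ht
      have := Real.sin_nonneg_of_nonneg_of_le_pi (x := π * (-t)) (by nlinarith [Real.pi_pos])
        (by nlinarith [Real.pi_pos])
      rw [mul_neg, Real.sin_neg] at this
      linarith
  rw [ex_sub_one, h1]
  have h2 := Real.mul_le_sin (x := π * |t|) (by positivity) (by nlinarith [Real.pi_pos])
  have h3 : 2 / π * (π * |t|) = 2 * |t| := by
    field_simp
  rw [h3] at h2
  linarith

theorem tele (β : ℝ) (s : ℤ) (n : ℕ) :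
    (ex β - 1) * ∑ x ∈ Ico s (s + n), ex (β * x) = ex (β * (s + n)) - ex (β * s) := by
  induction n with
  | zero => simp
  | succ n ih =>
    have h1 : Ico s (s + ((n + 1 : ℕ) : ℤ)) = insert (s + n) (Ico s (s + n)) := by
      ext x
      simp only [mem_Ico, mem_insert]
      push_cast
      omega
    rw [h1, sum_insert (by simp), mul_add, ih]
    have h2 : ex (β * (s + ((n + 1 : ℕ) : ℝ))) = ex β * ex (β * ((s + n : ℤ) : ℝ)) := by
      rw [← ex_add]
      congr 1
      push_cast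
      ring
    rw [h2]
    push_cast
    ring

theorem geo {β : ℝ} (s t : ℤ) (hβ : ex β ≠ 1) :
    ‖∑ x ∈ Ico s t, ex (β * x)‖ ≤ 2 / ‖ex β - 1‖ := by
  have h0 : 0 < ‖ex β - 1‖ := norm_pos_iff.2 (sub_ne_zero.2 hβ)
  rcases le_or_gt s t with h | h
  · obtain ⟨n, rfl⟩ : ∃ n : ℕ, t = s + n := ⟨(t - s).toNat, by omega⟩
    have h1 := congrArg (‖·‖) (tele β s n)
    simp only [norm_mul] at h1
    rw [le_div_iff₀ h0, mul_comm, h1]
    refine (norm_sub_le _ _).trans ?_
    rw [ex_norm, ex_norm]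
    norm_num
  · rw [Ico_eq_empty (by omega), sum_empty, norm_zero]
    positivity

theorem triv {β : ℝ} (s t : ℤ) (n : ℕ) (h : t ≤ s + n) : ‖∑ x ∈ Ico s t, ex (β * x)‖ ≤ n := by
  refine (norm_sum_le _ _).trans ?_
  simp only [ex_norm, sum_const, nsmul_eq_mul, mul_one, Int.card_Ico]
  have : (t - s).toNat ≤ n := by omega
  exact_mod_cast this

/-- the bound for the inner sum -/
noncomputable def FF (u n : ℕ) (i : ℤ) : ℝ := if i = 0 then (n : ℝ) else u / (2 * |(i : ℝ)|)

theorem FF_nonneg (u n : ℕ) (i : ℤ) : 0 ≤ FF u n i := by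
  unfold FF
  split_ifs <;> positivity

theorem inner (u : ℕ) (hu : 0 < u) (j s t : ℤ) (n : ℕ) (h : t ≤ s + n) :
    ‖∑ x ∈ Ico s t, ex ((j : ℝ) / u * x)‖ ≤ FF u n (j.bmod u) := by
  have hu0 : (0 : ℝ) < u := by exact_mod_cast hu
  obtain ⟨i, hi⟩ : ∃ i : ℤ, i = j.bmod u := ⟨_, rfl⟩
  rw [← hi]
  unfold FF
  split_ifs with h0
  · exact triv s t n h
  · have h1 : |(i : ℝ) / u| ≤ 1 / 2 := by
      have h2 : -(u : ℤ) ≤ 2 * i := by
        have := Int.le_bmod (x := j) (m := u) hu
        rw [hi]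
        omega
      have h3 : 2 * i ≤ u := by
        have := Int.bmod_le (x := j) (m := u) hu
        rw [hi]
        omega
      have h2' : -(u : ℝ) ≤ 2 * i := by exact_mod_cast h2
      have h3' : 2 * (i : ℝ) ≤ u := by exact_mod_cast h3
      rw [abs_div, abs_of_pos hu0, div_le_iff₀ hu0, abs_le]
      constructor <;> linarith
    obtain ⟨m, hm⟩ : ∃ m : ℤ, j = i + u * m := by
      have h4 : (u : ℤ) ∣ j - i := by
        rw [hi]
        exact Int.dvd_self_sub_bmod
      obtain ⟨m, hm⟩ := h4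
      exact ⟨m, by linarith⟩
    have h5 : ex ((j : ℝ) / u) = ex ((i : ℝ) / u) := by
      rw [hm]
      push_cast
      rw [add_div, mul_div_cancel_left₀ _ hu0.ne', ex_add_int]
    have h6 := ex_sub_one_ge _ h1
    have h7 : (0 : ℝ) < |(i : ℝ)| := abs_pos.2 (by exact_mod_cast h0)
    have h8 : 4 * |(i : ℝ) / u| = 4 * |(i : ℝ)| / u := by
      rw [abs_div, abs_of_pos hu0]
      ring
    have h9 : 0 < 4 * |(i : ℝ)| / u := by positivity
    rw [h8, ← h5] at h6
    have h10 : ex ((j : ℝ) / u) ≠ 1 := by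
      intro hh
      rw [hh, sub_self, norm_zero] at h6
      linarith
    refine (geo s t h10).trans ?_
    calc 2 / ‖ex ((j : ℝ) / u) - 1‖ ≤ 2 / (4 * |(i : ℝ)| / u) := by gcongr
      _ = u / (2 * |(i : ℝ)|) := by
        field_simp
        ring

/-- elements of an interval in one residue class -/
theorem card_cong (s : Finset ℤ) (L : ℤ) (hL : 0 < L) (p q : ℝ) (hpq : p ≤ q)
    (h1 : ∀ x ∈ s, p ≤ x ∧ (x : ℝ) ≤ q) (h2 : ∀ x ∈ s, ∀ y ∈ s, L ∣ x - y) :
    (s.card : ℝ) ≤ (q - p) / L + 1 := by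
  have hL0 : (0 : ℝ) < L := by exact_mod_cast hL
  rcases s.eq_empty_or_nonempty with rfl | hne
  · simp only [card_empty, Nat.cast_zero]
    have : 0 ≤ (q - p) / L := div_nonneg (by linarith) hL0.le
    linarith
  · obtain ⟨m, hm, hmin⟩ := s.exists_min_image id hne
    simp only [id] at hmin
    have h3 : ∀ x ∈ s, (x - m) / L * L = x - m := fun x hx => Int.ediv_mul_cancel (h2 x hx m hm)
    have h4 : s.card ≤ (Finset.range (⌊(q - p) / L⌋₊ + 1)).card := by
      refine card_le_card_of_injOn (fun x => ((x - m) / L).toNat) ?_ ?_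
      · intro x hx
        have hx' : x ∈ s := hx
        simp only [coe_range, Set.mem_Iio]
        have h5 : 0 ≤ (x - m) / L := Int.ediv_nonneg (by linarith [hmin x hx']) hL.le
        rw [Nat.lt_add_one_iff]
        apply Nat.le_floor
        rw [le_div_iff₀ hL0]
        have h6 : ((((x - m) / L).toNat : ℤ) : ℝ) = (((x - m) / L : ℤ) : ℝ) := by
          rw [Int.toNat_of_nonneg h5]
        rw [Int.cast_natCast] at h6
        rw [h6]
        have h7 : ((((x - m) / L * L : ℤ)) : ℝ) = ((x - m : ℤ) : ℝ) := by rw [h3 x hx']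
        push_cast at h7
        rw [h7]
        have := (h1 x hx').2
        have := (h1 m hm).1
        linarith
      · intro x hx y hy hxy
        have hx' : x ∈ s := hx
        have hy' : y ∈ s := hy
        simp only at hxy
        have h5 : 0 ≤ (x - m) / L := Int.ediv_nonneg (by linarith [hmin x hx']) hL.le
        have h6 : 0 ≤ (y - m) / L := Int.ediv_nonneg (by linarith [hmin y hy']) hL.le
        have h7 : (x - m) / L = (y - m) / L := by omega
        have h8 := h3 x hx'
        have h9 := h3 y hy'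
        rw [h7, h9] at h8
        linarith
    rw [card_range] at h4
    calc (s.card : ℝ) ≤ ((⌊(q - p) / L⌋₊ + 1 : ℕ) : ℝ) := by exact_mod_cast h4
      _ ≤ (q - p) / L + 1 := by
        push_cast
        have := Nat.floor_le (div_nonneg (by linarith : 0 ≤ q - p) hL0.le)
        linarith

theorem sum_FF (u n : ℕ) (hu : 0 < u) :
    ∑ i ∈ Icc (-((u / 2 : ℕ) : ℤ)) ((u / 2 : ℕ) : ℤ), FF u n i ≤ n + u * (1 + Real.log u) := by
  obtain ⟨m, hm⟩ : ∃ m : ℕ, m = u / 2 := ⟨_, rfl⟩
  rw [← hm]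
  have h1 : ∀ k : ℕ, ∑ i ∈ Icc (-(k : ℤ)) (k : ℤ), FF u n i =
      n + u * ∑ i ∈ Finset.range k, (1 : ℝ) / (i + 1) := by
    intro k
    induction k with
    | zero => simp [FF]
    | succ k ih =>
      have h2 : Icc (-((k + 1 : ℕ) : ℤ)) ((k + 1 : ℕ) : ℤ) =
          insert ((k + 1 : ℕ) : ℤ) (insert (-((k + 1 : ℕ) : ℤ)) (Icc (-(k : ℤ)) (k : ℤ))) := by
        ext x
        simp only [mem_Icc, mem_insert]
        push_cast
        omega
      rw [h2, sum_insert, sum_insert, ih, sum_range_succ]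
      · have h3 : ∀ i : ℤ, i ≠ 0 → FF u n i = u / (2 * |(i : ℝ)|) := fun i hi => if_neg hi
        rw [h3 _ (by push_cast; omega), h3 _ (by push_cast; omega)]
        push_cast
        rw [abs_neg, abs_of_pos (by positivity : (0 : ℝ) < k + 1)]
        field_simp
        ring
      · simp only [mem_Icc]
        push_cast
        omega
      · simp only [mem_Icc, mem_insert]
        push_cast
        omega
  rw [h1]
  have h2 : ∑ i ∈ Finset.range m, (1 : ℝ) / (i + 1) ≤ 1 + Real.log u := by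
    have h3 := harmonic_le_one_add_log m
    have h4 : ((harmonic m : ℚ) : ℝ) = ∑ i ∈ Finset.range m, (1 : ℝ) / (i + 1) := by
      unfold harmonic
      push_cast
      exact Finset.sum_congr rfl fun i _ => by rw [one_div]
    rw [← h4]
    refine h3.trans ?_
    rcases Nat.eq_zero_or_pos m with h0 | h0
    · rw [h0]
      simp only [CharP.cast_eq_zero, Real.log_zero, add_zero]
      have : 0 ≤ Real.log u := Real.log_natCast_nonneg u
      linarith
    · have h5 : Real.log m ≤ Real.log u := Real.log_le_log (by exact_mod_cast h0) (by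
        have : m ≤ u := by omega
        exact_mod_cast this)
      linarith
  have h3 : (0 : ℝ) ≤ u := by positivity
  nlinarith

/-- the sum over the differences -/
theorem sum_l (u n : ℕ) (hu : 0 < u) (D : ℤ) :
    ∑ l ∈ Ioo (-(n : ℤ)) n, FF u n ((D * l).bmod u) ≤
      (2 * n * (Int.gcd D u) / u + 1) * (n + u * (1 + Real.log u)) := by
  have hu0 : (0 : ℝ) < u := by exact_mod_cast hu
  have hG : 0 < Int.gcd D u := Int.gcd_pos_of_ne_zero_right _ (by exact_mod_cast hu.ne')
  obtain ⟨G, hGd⟩ : ∃ G : ℕ, G = Int.gcd D u := ⟨_, rfl⟩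
  rw [← hGd] at hG ⊢
  have hGu : (G : ℤ) ∣ u := by rw [hGd]; exact Int.gcd_dvd_right _ _
  obtain ⟨u', hu'⟩ := hGu
  have hu'0 : 0 < u' := by
    have h1 : (0 : ℤ) < G * u' := by rw [← hu']; exact_mod_cast hu
    exact pos_of_mul_pos_right h1 (by positivity)
  have hmap : ∀ l ∈ Ioo (-(n : ℤ)) n, (D * l).bmod u ∈ Icc (-((u / 2 : ℕ) : ℤ)) ((u / 2 : ℕ) : ℤ) := by
    intro l _
    have h1 := Int.le_bmod (x := D * l) (m := u) hu
    have h2 := Int.bmod_lt (x := D * l) (m := u) hu
    rw [mem_Icc]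
    omega
  rw [← sum_fiberwise_of_maps_to hmap]
  have hfib : ∀ i ∈ Icc (-((u / 2 : ℕ) : ℤ)) ((u / 2 : ℕ) : ℤ),
      ∑ l ∈ (Ioo (-(n : ℤ)) n).filter (fun l => (D * l).bmod u = i), FF u n ((D * l).bmod u) ≤
        (2 * n * G / u + 1) * FF u n i := by
    intro i _
    have h1 : ∑ l ∈ (Ioo (-(n : ℤ)) n).filter (fun l => (D * l).bmod u = i),
        FF u n ((D * l).bmod u) =
        ((Ioo (-(n : ℤ)) n).filter (fun l => (D * l).bmod u = i)).card * FF u n i := by
      rw [← nsmul_eq_mul, ← sum_const]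
      exact sum_congr rfl fun l hl => by rw [(mem_filter.1 hl).2]
    rw [h1]
    refine mul_le_mul_of_nonneg_right ?_ (FF_nonneg _ _ _)
    have h2 := card_cong ((Ioo (-(n : ℤ)) n).filter (fun l => (D * l).bmod u = i)) u' hu'0
      (-(n : ℝ)) n (by have : (0 : ℝ) ≤ n := by positivity
                       linarith) (by
        intro x hx
        have h3 := mem_Ioo.1 (mem_filter.1 hx).1
        constructor
        · have : (-(n : ℤ) : ℤ) ≤ x := h3.1.le
          exact_mod_cast this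
        · have := h3.2.le
          exact_mod_cast this) (by
        intro x hx y hy
        have h3 := (mem_filter.1 hx).2
        have h4 := (mem_filter.1 hy).2
        have h5 : (u : ℤ) ∣ D * x - i := by rw [← h3]; exact Int.dvd_self_sub_bmod
        have h6 : (u : ℤ) ∣ D * y - i := by rw [← h4]; exact Int.dvd_self_sub_bmod
        have h7 : (u : ℤ) ∣ D * (x - y) := by
          have := dvd_sub h5 h6
          have e : D * x - i - (D * y - i) = D * (x - y) := by ring
          rwa [e] at this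
        obtain ⟨D', hD'⟩ : (G : ℤ) ∣ D := by rw [hGd]; exact Int.gcd_dvd_left _ _
        have hG0 : (G : ℤ) ≠ 0 := by exact_mod_cast hG.ne'
        have h8 : IsCoprime D' u' := by
          have h9 : Int.gcd D u = G * Int.gcd D' u' := by
            rw [hu']
            conv_lhs => rw [hD']
            rw [Int.gcd_mul_left, Int.natAbs_natCast]
          rw [← hGd] at h9
          have h10 : Int.gcd D' u' = 1 := by
            have : G * 1 = G * Int.gcd D' u' := by omega
            exact (Nat.eq_of_mul_eq_mul_left hG this).symm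
          exact Int.isCoprime_iff_gcd_eq_one.2 h10
        rw [hu', hD', mul_assoc] at h7
        have h9 := Int.dvd_of_mul_dvd_mul_left hG0 h7
        exact h8.symm.dvd_of_dvd_mul_left h9)
    refine h2.trans (le_of_eq ?_)
    have h3 : (u : ℝ) = G * u' := by
      have := congrArg (Int.cast (R := ℝ)) hu'
      push_cast at this
      exact this
    have h4 : (0 : ℝ) < u' := by exact_mod_cast hu'0
    have h5 : (0 : ℝ) < G := by exact_mod_cast hG
    rw [h3]
    field_simp
    ring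
  refine (sum_le_sum hfib).trans ?_
  rw [← mul_sum]
  refine mul_le_mul_of_nonneg_left (sum_FF u n hu) (by positivity)

/-- **Weyl's inequality for a quadratic polynomial** -/
theorem weyl (u : ℕ) (hu : 0 < u) (A₂ A₁ A₀ s : ℤ) (n : ℕ) :
    ‖∑ x ∈ Ico s (s + n), ex (((A₂ * x ^ 2 + A₁ * x + A₀ : ℤ) : ℝ) / u)‖ ^ 2 ≤
      (2 * n * (Int.gcd (2 * A₂) u) / u + 1) * (n + u * (1 + Real.log u)) := by
  obtain ⟨H, hH⟩ : ∃ H : ℤ → ℤ, H = fun x => A₂ * x ^ 2 + A₁ * x + A₀ := ⟨_, rfl⟩
  obtain ⟨J, hJ⟩ : ∃ J : Finset ℤ, J = Ico s (s + n) := ⟨_, rfl⟩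
  have hS : ∑ x ∈ Ico s (s + n), ex (((A₂ * x ^ 2 + A₁ * x + A₀ : ℤ) : ℝ) / u) =
      ∑ x ∈ J, ex ((H x : ℝ) / u) := by rw [hJ, hH]
  rw [hS]
  refine le_trans ?_ (sum_l u n hu (2 * A₂))
  have h1 : ‖∑ x ∈ J, ex ((H x : ℝ) / u)‖ ^ 2 =
      ‖∑ p ∈ J ×ˢ J, ex (((H p.1 - H p.2 : ℤ) : ℝ) / u)‖ := by
    have h0 : ‖∑ x ∈ J, ex ((H x : ℝ) / u)‖ ^ 2 =
        ‖(∑ x ∈ J, ex ((H x : ℝ) / u)) * (starRingEnd ℂ) (∑ x ∈ J, ex ((H x : ℝ) / u))‖ := by
      rw [norm_mul, Complex.norm_conj, sq]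
    rw [h0, map_sum, sum_mul_sum, ← sum_product']
    congr 1
    refine sum_congr rfl fun p _ => ?_
    rw [ex_conj, ← ex_add]
    congr 1
    push_cast
    ring
  rw [h1]
  have hmap : ∀ p ∈ J ×ˢ J, p.1 - p.2 ∈ Ioo (-(n : ℤ)) n := by
    intro p hp
    rw [mem_product, hJ, mem_Ico, mem_Ico] at hp
    rw [mem_Ioo]
    omega
  rw [← sum_fiberwise_of_maps_to hmap]
  refine (norm_sum_le _ _).trans (sum_le_sum fun l _ => ?_)
  have h2 : ∑ p ∈ (J ×ˢ J).filter (fun p => p.1 - p.2 = l), ex (((H p.1 - H p.2 : ℤ) : ℝ) / u) =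
      ex (((A₂ * l ^ 2 + A₁ * l : ℤ) : ℝ) / u) *
        ∑ x ∈ Ico (max s (s - l)) (min (s + n) (s + n - l)), ex (((2 * A₂ * l : ℤ) : ℝ) / u * x) := by
    rw [mul_sum]
    refine sum_nbij' (fun p => p.2) (fun x => (x + l, x)) ?_ ?_ ?_ ?_ ?_
    · intro p hp
      rw [mem_filter, mem_product, hJ, mem_Ico, mem_Ico] at hp
      rw [mem_Ico]
      omega
    · intro x hx
      rw [mem_Ico] at hx
      rw [mem_filter, mem_product, hJ, mem_Ico, mem_Ico]
      omega
    · intro p hp
      have := (mem_filter.1 hp).2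
      ext
      · simp only
        omega
      · rfl
    · intro x _
      rfl
    · intro p hp
      have h3 := (mem_filter.1 hp).2
      rw [← ex_add]
      congr 1
      have h4 : p.1 = p.2 + l := by omega
      rw [h4, hH]
      push_cast
      ring
  rw [h2, norm_mul, ex_norm, one_mul]
  refine inner u hu _ _ _ n ?_
  omega

end Pool.Agent.V7H54.A
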